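import Pool.Agent.Lib.MP_d118f9_ag_G.Defs

/-!
# MP_d118f9_ag, covers of any degree, block A: forms in index form
-/

set_option autoImplicit false

noncomputable section

open Classical

namespace Pool.Agent.MPd118f9

section

variable {ι A : Type} [CommRing A] [Fintype ι] {n : ℕ}

omit [Fintype ι] in
private theorem prod_upd (c : Fin n → ι → A) (j : Fin n) (a : ι → A) (I : Fin n → ι) :
    ∏ j', Function.update c j a j' (I j') =
      a (I j) * ∏ j' ∈ Finset.univ \ {j}, c j' (I j') := by
  rw [← Finset.prod_update_of_mem (Finset.mem_univ j)]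
  refine Finset.prod_congr rfl fun j' _ => ?_
  by_cases h : j' = j
  · subst h
    rw [Function.update_self, Function.update_self]
  · rw [Function.update_of_ne h, Function.update_of_ne h]

theorem evf_update_add (φ : (Fin n → ι) → A) (c : Fin n → ι → A) (j : Fin n) (a b : ι → A) :
    evf φ (Function.update c j (a + b)) =
      evf φ (Function.update c j a) + evf φ (Function.update c j b) := by
  simp only [evf, prod_upd, Pi.add_apply, add_mul, Finset.sum_add_distrib]

theorem evf_update_smul (φ : (Fin n → ι) → A) (c : Fin n → ι → A) (j : Fin n) (t : A)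
    (a : ι → A) :
    evf φ (Function.update c j (t • a)) = t * evf φ (Function.update c j a) := by
  simp only [evf, prod_upd, Pi.smul_apply, smul_eq_mul, Finset.mul_sum, mul_assoc]

/-- The form as a multilinear map. -/
def evM (φ : (Fin n → ι) → A) : MultilinearMap A (fun _ : Fin n => ι → A) A where
  toFun := evf φ
  map_update_add' := by
    intro inst c j a b
    have h1 : inst = instDecidableEqFin n := Subsingleton.elim _ _
    subst h1
    convert evf_update_add φ c j a b using 3
  map_update_smul' := by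
    intro inst c j t a
    have h1 : inst = instDecidableEqFin n := Subsingleton.elim _ _
    subst h1
    rw [smul_eq_mul]
    convert evf_update_smul φ c j t a using 3

theorem evf_add (φ ψ : (Fin n → ι) → A) (c : Fin n → ι → A) :
    evf (φ + ψ) c = evf φ c + evf ψ c := by
  simp only [evf, Pi.add_apply, mul_add, Finset.sum_add_distrib]

theorem evf_sub (φ ψ : (Fin n → ι) → A) (c : Fin n → ι → A) :
    evf (φ - ψ) c = evf φ c - evf ψ c := by
  simp only [evf, Pi.sub_apply, mul_sub, Finset.sum_sub_distrib]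

theorem evf_zero (c : Fin n → ι → A) : evf (0 : (Fin n → ι) → A) c = 0 := by
  simp only [evf, Pi.zero_apply, mul_zero, Finset.sum_const_zero]

/-- The values at unit vectors. -/
theorem evf_single (φ : (Fin n → ι) → A) (I : Fin n → ι) :
    evf φ (fun j => Pi.single (I j) 1) = φ I := by
  unfold evf
  rw [Finset.sum_eq_single I]
  · simp
  · intro J _ hJ
    obtain ⟨j, hj⟩ := Function.ne_iff.1 hJ
    rw [Finset.prod_eq_zero (Finset.mem_univ j), zero_mul]
    exact Pi.single_eq_of_ne hj _
  · intro h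
    exact absurd (Finset.mem_univ I) h

theorem evf_perm {φ : (Fin n → ι) → A} (h : Alt φ) (c : Fin n → ι → A)
    (s : Equiv.Perm (Fin n)) : evf φ (c ∘ s) = ((Equiv.Perm.sign s : ℤˣ) : ℤ) • evf φ c := by
  unfold evf
  rw [← Equiv.sum_comp (Equiv.arrowCongr s.symm (Equiv.refl ι)), Finset.smul_sum]
  refine Finset.sum_congr rfl fun I _ => ?_
  have h1 : (Equiv.arrowCongr s.symm (Equiv.refl ι)) I = I ∘ s := by
    funext j
    rfl
  rw [h1, h s I, mul_smul_comm]
  congr 2
  exact Equiv.prod_comp s fun j => c j (I j)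

/-- An alternating form vanishes if two arguments are equal (`2` is invertible). -/
theorem evf_eq_zero_of_eq {L : Type} [Field L] [CharZero L] {φ : (Fin n → ι) → L} (h : Alt φ)
    (c : Fin n → ι → L) {i j : Fin n} (hij : i ≠ j) (hc : c i = c j) : evf φ c = 0 := by
  have h1 := evf_perm h c (Equiv.swap i j)
  have h2 : c ∘ (Equiv.swap i j) = c := by
    funext l
    rw [Function.comp_apply]
    by_cases hi : l = i
    · rw [hi, Equiv.swap_apply_left, hc]
    by_cases hj : l = j
    · rw [hj, Equiv.swap_apply_right, hc]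
    rw [Equiv.swap_apply_of_ne_of_ne hi hj]
  rw [h2, Equiv.Perm.sign_swap hij, Units.val_neg, Units.val_one, neg_smul, one_smul] at h1
  exact self_eq_neg.1 h1

theorem evf_map {B : Type} [CommRing B] (τ : A →+* B) (φ : (Fin n → ι) → A) (c : Fin n → ι → A) :
    τ (evf φ c) = evf (fun I => τ (φ I)) fun j l => τ (c j l) := by
  simp only [evf, map_sum, map_mul, map_prod]

/-- A sum over `n + 1` indices, the index `j` first. -/
private theorem sum_insertNth {M : Type} [AddCommMonoid M] (j : Fin (n + 1))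
    (f : (Fin (n + 1) → ι) → M) :
    ∑ I, f I = ∑ l, ∑ J : Fin n → ι, f (j.insertNth l J) := by
  rw [← Fintype.sum_prod_type' (f := fun l (J : Fin n → ι) => f (j.insertNth l J))]
  exact (Equiv.sum_comp (Fin.insertNthEquiv (fun _ => ι) j) f).symm

/-- A2. -/
theorem evf_wg (x : ι → A) (ψ : (Fin n → ι) → A) (c : Fin (n + 1) → ι → A) :
    evf (wg x ψ) c = ∑ j : Fin (n + 1), (-1) ^ (j : ℕ) *
      (pr x (c j) * evf ψ fun l => c (j.succAbove l)) := by
  unfold evf wg pr
  simp only [Finset.mul_sum]
  rw [Finset.sum_comm]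
  refine Finset.sum_congr rfl fun j _ => ?_
  rw [sum_insertNth j, Finset.sum_comm]
  refine Finset.sum_congr rfl fun J _ => ?_
  rw [Finset.sum_mul, Finset.mul_sum]
  refine Finset.sum_congr rfl fun l _ => ?_
  rw [Fin.prod_univ_succAbove _ j]
  simp only [Fin.insertNth_apply_same, Fin.insertNth_apply_succAbove]
  ring

/-- A permutation of `Fin (n + 1)` induces permutations of the complements of the points. -/
private theorem perm_compl (s : Equiv.Perm (Fin (n + 1))) (j : Fin (n + 1)) :
    ∃ t : Equiv.Perm (Fin n), (∀ l, s (j.succAbove l) = (s j).succAbove (t l)) ∧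
      Equiv.Perm.sign t = (-1) ^ ((s j : ℕ)) * Equiv.Perm.sign s * (-1) ^ (j : ℕ) := by
  obtain ⟨t0, ht0⟩ : ∃ t0 : Equiv.Perm (Fin (n + 1)),
      t0 = (s j).cycleRange * s * j.cycleRange.symm := ⟨_, rfl⟩
  have h0 : t0 0 = 0 := by
    rw [ht0, Equiv.Perm.mul_apply, Equiv.Perm.mul_apply, Fin.cycleRange_symm_zero,
      Fin.cycleRange_self]
  obtain ⟨⟨p, t⟩, hpt⟩ := (Equiv.Perm.decomposeFin (n := n)).symm.surjective t0
  have hp : p = 0 := by
    rw [← h0, ← hpt, Equiv.Perm.decomposeFin_symm_apply_zero]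
  subst hp
  have h1 : ∀ l : Fin n, t0 l.succ = (t l).succ := by
    intro l
    rw [← hpt, Equiv.Perm.decomposeFin_symm_apply_succ, Equiv.swap_self, Equiv.refl_apply]
  have h2 : Equiv.Perm.sign t0 = Equiv.Perm.sign t := by
    rw [← hpt, Equiv.Perm.decomposeFin.symm_sign, if_pos rfl, one_mul]
  refine ⟨t, fun l => ?_, ?_⟩
  · have h3 : s (j.cycleRange.symm l.succ) = (s j).cycleRange.symm (t0 l.succ) := by
      rw [ht0, Equiv.Perm.mul_apply, Equiv.Perm.mul_apply, Equiv.symm_apply_apply]
    rw [h1, Fin.cycleRange_symm_succ, Fin.cycleRange_symm_succ] at h3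
    exact h3
  · rw [← h2, ht0, Equiv.Perm.sign_mul, Equiv.Perm.sign_mul, Fin.sign_cycleRange,
      Equiv.Perm.sign_symm, Fin.sign_cycleRange]

theorem alt_wg (x : ι → A) {ψ : (Fin n → ι) → A} (h : Alt ψ) : Alt (wg x ψ) := by
  intro s I
  unfold wg
  rw [Finset.smul_sum, ← Equiv.sum_comp s fun j => ((Equiv.Perm.sign s : ℤˣ) : ℤ) •
    ((-1) ^ (j : ℕ) * (x (I j) * ψ fun l => I (j.succAbove l)))]
  refine Finset.sum_congr rfl fun j _ => ?_
  obtain ⟨t, ht, hsg⟩ := perm_compl s j
  have h1 : (fun l => (I ∘ s) (j.succAbove l)) = (fun l => I ((s j).succAbove l)) ∘ t := by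
    funext l
    rw [Function.comp_apply, Function.comp_apply, ht]
  rw [h1, h t, hsg, Function.comp_apply]
  have h2 : ((((-1) ^ ((s j : ℕ)) * Equiv.Perm.sign s * (-1) ^ (j : ℕ) : ℤˣ)) : ℤ) =
      (-1) ^ ((s j : ℕ)) * ((Equiv.Perm.sign s : ℤˣ) : ℤ) * (-1) ^ (j : ℕ) := by
    push_cast
    rfl
  rw [h2, zsmul_eq_mul, zsmul_eq_mul]
  push_cast
  have h3 : ((-1 : A) ^ (j : ℕ)) * (-1) ^ (j : ℕ) = 1 := by
    rw [← mul_pow, neg_one_mul, neg_neg, one_pow]
  linear_combination ((((Equiv.Perm.sign s : ℤˣ) : ℤ) : A) * (-1) ^ ((s j : ℕ)) * x (I (s j)) *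
    ψ fun l => I ((s j).succAbove l)) * h3

theorem agr_wg (x : ι → A) (ψ : (Fin n → ι) → A) : Agr x (wg x ψ) 0 := by
  intro c hc
  rw [evf_wg, evf_zero]
  refine Finset.sum_eq_zero fun j _ => ?_
  rw [hc j, zero_mul, mul_zero]

theorem wg_wg (x : ι → A) {ψ : (Fin n → ι) → A} (h : Alt ψ) : wg x (wg x ψ) = 0 := by
  funext I
  unfold wg
  simp only [Finset.mul_sum]
  rw [← Fintype.sum_prod_type' (f := fun (j : Fin (n + 2)) (l : Fin (n + 1)) =>
    (-1) ^ (j : ℕ) * (x (I j) * ((-1) ^ (l : ℕ) * (x (I (j.succAbove l)) *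
      ψ fun k => I (j.succAbove (l.succAbove k))))))]
  rw [Pi.zero_apply]
  refine Finset.sum_involution (fun p _ => (p.1.succAbove p.2, p.2.predAbove p.1)) ?_ ?_ ?_ ?_
  · rintro ⟨j, l⟩ _
    have h1 : (fun k => I ((j.succAbove l).succAbove ((l.predAbove j).succAbove k))) =
        fun k => I (j.succAbove (l.succAbove k)) := by
      funext k
      rw [Fin.succAbove_succAbove_succAbove_predAbove]
    have h2 : (j.succAbove l).succAbove (l.predAbove j) = j :=
      Fin.succAbove_succAbove_predAbove j l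
    have h3 := Fin.neg_one_pow_succAbove_add_predAbove (R := A) j l
    rw [pow_add, pow_add] at h3
    simp only
    rw [h1, h2]
    linear_combination (x (I j) * x (I (j.succAbove l)) *
      ψ fun k => I (j.succAbove (l.succAbove k))) * h3
  · rintro ⟨j, l⟩ _ _ he
    exact Fin.succAbove_ne j l (congrArg Prod.fst he)
  · intro p _
    exact Finset.mem_univ _
  · rintro ⟨j, l⟩ _
    simp only
    have h2 : (j.succAbove l).succAbove (l.predAbove j) = j :=
      Fin.succAbove_succAbove_predAbove j l
    have h4 : (l.predAbove j).predAbove (j.succAbove l) = l :=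
      Fin.predAbove_predAbove_succAbove j l
    rw [h2, h4]

theorem wg_add (x : ι → A) (ψ ψ' : (Fin n → ι) → A) : wg x (ψ + ψ') = wg x ψ + wg x ψ' := by
  funext I
  simp only [wg, Pi.add_apply, mul_add, Finset.sum_add_distrib]

theorem wg_sub (x : ι → A) (ψ ψ' : (Fin n → ι) → A) : wg x (ψ - ψ') = wg x ψ - wg x ψ' := by
  funext I
  simp only [wg, Pi.sub_apply, mul_sub, Finset.sum_sub_distrib]

omit [Fintype ι] in
private theorem alt_insertNth {b : (Fin (n + 1) → ι) → A} (hb : Alt b) (j : Fin (n + 1)) (l : ι)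
    (J : Fin n → ι) : b (j.insertNth l J) = (-1) ^ (j : ℕ) * b (Fin.cons l J) := by
  have h1 := hb j.cycleRange (Fin.cons l J)
  rw [Fin.cons_comp_cycleRange, Fin.sign_cycleRange, zsmul_eq_mul] at h1
  rw [h1]
  push_cast
  rfl

/-- `wg` and the Koszul differential `dk` are adjoint. -/
theorem sum_wg_mul (x : ι → A) {ψ : (Fin n → ι) → A} {b : (Fin (n + 1) → ι) → A} (hb : Alt b) :
    ∑ I, wg x ψ I * b I = (n + 1) * ∑ J, ψ J * ∑ j, x j * b (Fin.cons j J) := by
  unfold wg
  simp only [Finset.sum_mul]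
  rw [Finset.sum_comm]
  have h1 : ∀ j ∈ (Finset.univ : Finset (Fin (n + 1))),
      ∑ I, (-1) ^ (j : ℕ) * (x (I j) * ψ fun l => I (j.succAbove l)) * b I =
        ∑ J, ψ J * ∑ j, x j * b (Fin.cons j J) := by
    intro j _
    rw [sum_insertNth j, Finset.sum_comm]
    refine Finset.sum_congr rfl fun J _ => ?_
    rw [Finset.mul_sum]
    refine Finset.sum_congr rfl fun l _ => ?_
    simp only [Fin.insertNth_apply_same, Fin.insertNth_apply_succAbove]
    rw [alt_insertNth hb]
    have h3 : ((-1 : A) ^ (j : ℕ)) * (-1) ^ (j : ℕ) = 1 := by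
      rw [← mul_pow, neg_one_mul, neg_neg, one_pow]
    linear_combination (x l * ψ J * b (Fin.cons l J)) * h3
  rw [Finset.sum_congr rfl h1, Finset.sum_const, Finset.card_univ, Fintype.card_fin, nsmul_eq_mul]
  push_cast
  rfl

end

section

variable {ι L : Type} [Field L] [CharZero L] [Fintype ι] {n : ℕ}

private theorem evf_zero_of_smul {φ : (Fin n → ι) → L} (h : Alt φ) (c : Fin n → ι → L)
    {i j : Fin n} (hij : i ≠ j) {s t : L} {e : ι → L} (hi : c i = s • e) (hj : c j = t • e) :
    evf φ c = 0 := by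
  have h1 : c = Function.update c j (t • e) := by
    rw [← hj, Function.update_eq_self]
  rw [h1, evf_update_smul]
  have h2 : Function.update c j e = Function.update (Function.update c j e) i (s • e) := by
    rw [← hi]
    symm
    rw [Function.update_eq_self_iff, Function.update_of_ne hij]
  rw [h2, evf_update_smul, evf_eq_zero_of_eq h _ hij, mul_zero, mul_zero]
  rw [Function.update_self, Function.update_of_ne hij.symm, Function.update_self]

/-- A3: an alternating form that vanishes on the kernel of `x` is a multiple of `x`. -/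
theorem eq_wg_of_agr {x : ι → L} {φ : (Fin (n + 1) → ι) → L} (hφ : Alt φ) (h : Agr x φ 0) {l : ι}
    (hl : x l ≠ 0) : φ = wg x fun J => φ (Fin.cons l J) / x l := by
  funext I
  obtain ⟨e, he⟩ : ∃ e : ι → L, e = Pi.single l 1 := ⟨_, rfl⟩
  obtain ⟨m, hm⟩ : ∃ m : Fin (n + 1) → ι → L, m = fun j => Pi.single (I j) 1 := ⟨_, rfl⟩
  obtain ⟨t, ht⟩ : ∃ t : Fin (n + 1) → L, t = fun j => -(x (I j) / x l) := ⟨_, rfl⟩
  have h0 : evf φ (m + fun j => t j • e) = 0 := by
    rw [h, evf_zero]
    intro j
    have h1 : pr x (Pi.single (I j) 1) = x (I j) := by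
      simp [pr, Pi.single_apply]
    have h2 : pr x e = x l := by
      rw [he]
      simp [pr, Pi.single_apply]
    have h3 : pr x ((m + fun j => t j • e) j) = pr x (m j) + t j * pr x e := by
      simp only [pr, Pi.add_apply, Pi.smul_apply, smul_eq_mul, mul_add, Finset.sum_add_distrib,
        Finset.mul_sum]
      congr 1
      refine Finset.sum_congr rfl fun l _ => ?_
      ring
    rw [h3, hm, h1, h2, ht]
    field_simp
    ring
  have h4 := (evM φ).map_add_eq_map_add_linearDeriv_add m fun j => t j • e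
  rw [MultilinearMap.linearDeriv_apply] at h4
  have h5 : ∑ s with 2 ≤ Finset.card s,
      (evM φ) (s.piecewise (fun j => t j • e) m) = 0 := by
    refine Finset.sum_eq_zero fun s hs => ?_
    have h6 : 1 < s.card := (Finset.mem_filter.1 hs).2
    obtain ⟨i, hi, j, hj, hij⟩ := Finset.one_lt_card.1 h6
    refine evf_zero_of_smul hφ _ hij (s := t i) (t := t j) (e := e) ?_ ?_
    · rw [Finset.piecewise_eq_of_mem _ _ _ hi]
    · rw [Finset.piecewise_eq_of_mem _ _ _ hj]
  rw [h5, add_zero] at h4
  have h7 : (evM φ) (m + fun j => t j • e) = 0 := h0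
  rw [h7] at h4
  have h8 : (evM φ) m = φ I := by
    rw [hm]
    exact evf_single φ I
  rw [h8] at h4
  have h9 : ∀ i : Fin (n + 1), (evM φ) (Function.update m i (t i • e)) =
      t i * ((-1) ^ (i : ℕ) * φ (Fin.cons l fun k => I (i.succAbove k))) := by
    intro i
    have h10 : (evM φ) (Function.update m i (t i • e)) =
        t i * evf φ (Function.update m i e) := evf_update_smul φ m i (t i) e
    rw [h10]
    congr 1
    have h11 : Function.update m i e = fun j => Pi.single
        ((i.insertNth l fun k => I (i.succAbove k) : Fin (n + 1) → ι) j) 1 := by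
      funext j
      rw [hm, he]
      rcases Fin.eq_self_or_eq_succAbove i j with rfl | ⟨k, rfl⟩
      · rw [Function.update_self, Fin.insertNth_apply_same]
      · rw [Function.update_of_ne (Fin.succAbove_ne i k), Fin.insertNth_apply_succAbove]
    rw [h11, evf_single]
    have h12 := hφ i.cycleRange (Fin.cons l fun k => I (i.succAbove k))
    rw [Fin.cons_comp_cycleRange, Fin.sign_cycleRange, zsmul_eq_mul] at h12
    rw [h12]
    push_cast
    rfl
  rw [Finset.sum_congr rfl fun i _ => h9 i] at h4
  have h13 : φ I = -∑ i : Fin (n + 1),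
      t i * ((-1) ^ (i : ℕ) * φ (Fin.cons l fun k => I (i.succAbove k))) := by
    linear_combination -h4
  rw [h13, ← Finset.sum_neg_distrib]
  unfold wg
  refine Finset.sum_congr rfl fun i _ => ?_
  rw [ht]
  ring

/-- The contraction of an alternating form with a vector (in the first place). -/
theorem contr_wg {x : ι → L} {φ : (Fin (n + 1) → ι) → L} (hφ : Alt φ) (a : ι → L)
    (I : Fin (n + 1) → ι) : pr x a * φ I =
      ∑ l, a l * wg x φ (Fin.cons l I) + wg x (fun J => ∑ l, a l * φ (Fin.cons l J)) I := by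
  have h1 : ∀ l, wg x φ (Fin.cons l I) = x l * φ I -
      ∑ j : Fin (n + 1), (-1) ^ (j : ℕ) *
        (x (I j) * φ (Fin.cons l fun k => I (j.succAbove k))) := by
    intro l
    unfold wg
    rw [Fin.sum_univ_succ, sub_eq_add_neg, ← Finset.sum_neg_distrib]
    congr 1
    · simp
    · refine Finset.sum_congr rfl fun j _ => ?_
      have h2 : (fun k => (Fin.cons l I : Fin (n + 2) → ι) (j.succ.succAbove k)) =
          (Fin.cons l fun k => I (j.succAbove k) : Fin (n + 1) → ι) := by
        funext k
        induction k using Fin.cases with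
        | zero => rw [Fin.succ_succAbove_zero, Fin.cons_zero, Fin.cons_zero]
        | succ k => rw [Fin.succ_succAbove_succ, Fin.cons_succ, Fin.cons_succ]
      rw [h2, Fin.cons_succ, Fin.val_succ, pow_succ]
      ring
  simp only [h1, mul_sub, Finset.sum_sub_distrib]
  unfold wg pr
  have h3 : ∑ l, a l * ∑ j : Fin (n + 1), (-1) ^ (j : ℕ) *
        (x (I j) * φ (Fin.cons l fun k => I (j.succAbove k))) =
      ∑ j : Fin (n + 1), (-1) ^ (j : ℕ) *
        (x (I j) * ∑ l, a l * φ (Fin.cons l fun k => I (j.succAbove k))) := by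
    simp only [Finset.mul_sum]
    rw [Finset.sum_comm]
    refine Finset.sum_congr rfl fun j _ => Finset.sum_congr rfl fun l _ => ?_
    ring
  rw [h3, sub_add_cancel, Finset.sum_mul]
  refine Finset.sum_congr rfl fun l _ => ?_
  ring

end

end Pool.Agent.MPd118f9
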