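import Pool.Agent.Lib.MP_d118f9_ag.Top

/-!
# MP_d118f9_ag, covers of any degree (Green's conjecture for bounded gonality): definitions

Texts: `/team-store/TEXT_d118f9_GK.md`, `/team-store/TEXT_d118f9_REL.md`.  `F` is the function field
of `Y`, `K` a finite extension of `F`, the function field of the cover `X → Y`.
-/

set_option autoImplicit false

noncomputable section

open Classical

namespace Pool.Agent.MPd118f9

/-! ### Forms in index form (section A) -/

section

variable {ι A : Type} [CommRing A] [Fintype ι]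

/-- The value of the multilinear form with the coefficients `φ` at the vectors `c j`. -/
def evf {n : ℕ} (φ : (Fin n → ι) → A) (c : Fin n → ι → A) : A :=
  ∑ I : Fin n → ι, (∏ j, c j (I j)) * φ I

/-- The value of the linear form with the coefficients `x` at the vector `c`. -/
def pr (x c : ι → A) : A := ∑ l, x l * c l

/-- The forms `φ` and `ψ` agree on the vectors in the kernel of the linear form `x`. -/
def Agr (x : ι → A) {n : ℕ} (φ ψ : (Fin n → ι) → A) : Prop :=
  ∀ c : Fin n → ι → A, (∀ j, pr x (c j) = 0) → evf φ c = evf ψ c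

/-- The product of the linear form `x` and the form `ψ`. -/
def wg (x : ι → A) {n : ℕ} (ψ : (Fin n → ι) → A) : (Fin (n + 1) → ι) → A :=
  fun I => ∑ j : Fin (n + 1), (-1) ^ (j : ℕ) * (x (I j) * ψ fun l => I (j.succAbove l))

end

/-! ### Residues -/

section

variable {k F : Type} [Field k] [IsAlgClosed k] [CharZero k] [Field F] [Algebra k F]

/-- The pairing of functions and repartitions: `ω` is a differential with divisor `W`. -/
structure IsRes (hF : IsCurve k F) (W : Dv k F) (ω : Ad hF →ₗ[k] k) : Prop where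
  reg : ∀ α : Ad hF, InA W (α : Pt k F → F) → ω α = 0
  const : ∀ x : F, ω (cst hF x) = 0
  rep : ∀ (D : Dv k F) (lam : L D →ₗ[k] k), ∃ α : Ad hF, ∀ s : L D, lam s = ω ((s : F) • α)
  nondeg : ∀ (D : Dv k F) (α : Ad hF), (∀ s ∈ L D, ω (s • α) = 0) →
    ∃ x : F, InA (W - D) fun P => (α : Pt k F → F) P - x

/-- All cycles `s` of the complex of `∧ L(WK)` in degree `n + 1` with values in `L(WK)` come from
constants (section KD). -/
def HC (WK : Dv k F) (n : ℕ) : Prop :=
  ∃ (g : ℕ) (v : Module.Basis (Fin g) k (L WK)), ∀ s : (Fin (n + 1) → Fin g) → F, Alt s →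
    (∀ I, s I ∈ L WK) → wg (fun l => (v l : F)) s = 0 →
      ∃ τ : (Fin n → Fin g) → k, Alt τ ∧ s = wg (fun l => (v l : F)) fun I => algebraMap k F (τ I)

/-- The statement MC of the text for double covers and the theorem of Ein and Lazarsfeld (MG), for
all `A` with `deg A ≥ N`. -/
structure MCp (W : Dv k F) (N : ℤ) : Prop where
  mc : ∀ {s : ℕ} (w : Module.Basis (Fin s) k (L W)) (i m : ℕ), i + m + 3 ≤ 2 * gon k F →
    ∀ A : Dv k F, N ≤ deg A → ∀ (r : ℕ) (a : Module.Basis (Fin r) k (L A))
      (c : (Fin i → Fin r) → (Fin m → Fin s) → F), (∀ J, Alt fun I => c I J) →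
      (∀ I, Alt (c I)) → (∀ I J, c I J ∈ L (A + W)) →
      (∀ J, IsCyc (fun j => (a j : F)) fun I => c I J) →
      ∃ (g : (Fin (i + 1) → Fin r) → (Fin m → Fin s) → F)
        (f : (Fin i → Fin r) → (Fin (m + 1) → Fin s) → F),
        (∀ J, Alt fun I => g I J) ∧ (∀ I, Alt (g I)) ∧ (∀ I J, g I J ∈ L W) ∧
        (∀ J, Alt fun I => f I J) ∧ (∀ I, Alt (f I)) ∧ (∀ I J, f I J ∈ L A) ∧
        (∀ J, IsCyc (fun j => (a j : F)) fun I => f I J) ∧
        ∀ I J, c I J = ∑ j, (a j : F) * g (Fin.cons j I) J +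
          ∑ l, (w l : F) * f I (Fin.cons l J)
  mg : ∀ i : ℕ, i + 2 ≤ gon k F → ∀ A : Dv k F, N ≤ deg A →
    ∀ (r : ℕ) (a : Module.Basis (Fin r) k (L A)) (c : (Fin i → Fin r) → F), Alt c →
      (∀ I, c I ∈ L (A + W)) → IsCyc (fun j => (a j : F)) c →
      ∃ g : (Fin (i + 1) → Fin r) → F, Alt g ∧ (∀ I, g I ∈ L W) ∧
        ∀ I, c I = ∑ j, (a j : F) * g (Fin.cons j I)

/-- Levels (section LEVELS): `lev l` is the level of the index `l`, the functions `x l` with
`lev l = i` are a basis of `L(κ i)`, `κ 0 = W`. -/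
structure IsLvl (W : Dv k F) {r g : ℕ} (lev : Fin g → Fin (r + 1)) (x : Fin g → F)
    (κ : Fin (r + 1) → Dv k F) : Prop where
  k0 : κ 0 = W
  indep : ∀ i, LinearIndependent k fun l : {l // lev l = i} => x l
  span : ∀ i, Submodule.span k (Set.range fun l : {l // lev l = i} => x l) = L (κ i)

/-- The forms `s`, `s'` agree on the vectors `c j` that are supported on the level `lam j` and, for
`lam j = i`, are in the kernel of `x`. -/
def AgrL {r g : ℕ} (lev : Fin g → Fin (r + 1)) (x : Fin g → F) {n : ℕ}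
    (lam : Fin n → Fin (r + 1)) (i : Fin (r + 1)) (s s' : (Fin n → Fin g) → F) : Prop :=
  ∀ c : Fin n → Fin g → F, (∀ j l, lev l ≠ lam j → c j l = 0) →
    (∀ j, lam j = i → pr x (c j) = 0) → evf s c = evf s' c

end

/-! ### Covers -/

section

variable {k F K : Type} [Field k] [IsAlgClosed k] [CharZero k] [Field F] [Field K] [Algebra k F]
  [Algebra k K] [Algebra F K] [IsScalarTower k F K] [FiniteDimensional F K]

/-- `f ∈ K_Q(D)`: `ord_P f ≥ -D_P` at all points `P` over `Q`. -/
def LeQ (Q : Pt k F) (D : Dv k K) (f : K) : Prop :=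
  ∀ P : Pt k K, P.below = Q → LeOrd P (-D P) f

/-- The canonical divisors `W` of `F` and `WK` of `K` correspond to each other: `WK` is the sum of
the pull back of `W` and the different. -/
structure IsRel (W : Dv k F) (WK : Dv k K) : Prop where
  canF : IsCan W
  canK : IsCan WK
  le : pull K W ≤ WK
  tr : ∀ (Q : Pt k F) (v : K), LeQ Q WK v → LeOrd Q (-W Q) (Algebra.trace F K v)

/-- The cover is `Ψ`-primitive: the functions with poles bounded by the pull back of a divisor of
degree at most `Ψ` are functions of `F`. -/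
def Prim (k F K : Type) [Field k] [IsAlgClosed k] [CharZero k] [Field F] [Field K] [Algebra k F]
    [Algebra k K] [Algebra F K] [IsScalarTower k F K] [FiniteDimensional F K] (Ψ : ℤ) : Prop :=
  ∀ B : Dv k F, deg B ≤ Ψ → ∀ x ∈ L (pull K B), ∃ f : F, algebraMap F K f = x

/-- The space `V(B)` of the elements of trace `0` of `L(WK + f^*B)` (section P). -/
def VB (WK : Dv k K) (B : Dv k F) : Submodule k K :=
  L (WK + pull K B) ⊓ (LinearMap.ker (Algebra.trace F K)).restrictScalars k

/-- `U` is `K` for `h ≥ 1` and the space of the elements of trace `0` for `h = 0`. -/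
def Uh (k F K : Type) [Field k] [IsAlgClosed k] [CharZero k] [Field F] [Field K] [Algebra k F]
    [Algebra k K] [Algebra F K] [IsScalarTower k F K] [FiniteDimensional F K] : Submodule F K :=
  if 1 ≤ genus k F then ⊤ else LinearMap.ker (Algebra.trace F K)

/-- A basis `v` of `L(WK)` that is adapted to the flag of a basis `u` of `K` over `F` (section
FLAG). -/
structure IsFlag (W : Dv k F) (WK : Dv k K) {r g : ℕ} (u : Module.Basis (Fin (r + 1)) F K)
    (v : Fin g → K) (lev : Fin g → Fin (r + 1)) (κ : Fin (r + 1) → Dv k F) : Prop where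
  tri : ∀ l j, lev l < j → u.repr (v l) j = 0
  lvl : IsLvl W lev (fun l => u.repr (v l) (lev l)) κ
  loc : ∀ Q : Pt k F, ∃ idx : Fin (r + 1) → Fin g, (∀ i, lev (idx i) = i) ∧
    ∀ x : K, LeQ Q WK x → ∃ a : Fin (r + 1) → F, (∀ i, LeOrd Q 0 (a i)) ∧
      x = ∑ i, a i • v (idx i) ∧
      ∀ i, (∀ j, i < j → u.repr x j = 0) → ∀ j, i < j → a j = 0

end

end Pool.Agent.MPd118f9
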