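import Pool.Agent.Lib.MP_d118f9_ag_G.FDual

/-!
# MP_d118f9_ag, covers of any degree: DS0
-/

set_option autoImplicit false

noncomputable section

open Classical

namespace Pool.Agent.MPd118f9

variable {k F : Type} [Field k] [IsAlgClosed k] [CharZero k] [Field F] [Algebra k F]

/-- The function `x` is a constant if `x` is a sum of functions without poles at each point. -/
private theorem fds0_const (hF : IsCurve k F) {x : F} (h : ∀ Q : Pt k F, LeOrd Q 0 x) :
    ∃ c : k, x = algebraMap k F c := by
  refine hF.mem_L_zero.1 (inA_const.1 fun P => ?_)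
  have h1 : -(0 : Dv k F) P = 0 := by
    rw [Finsupp.zero_apply, neg_zero]
  rw [h1]
  exact h P

/-- A family of forms without poles, as a form with values in the repartitions. -/
private def fds0Rep (hF : IsCurve k F) {ι : Type} (φ : Pt k F → ι → F)
    (h : ∀ Q I, LeOrd Q 0 (φ Q I)) : ι → Ad hF :=
  fun I => ⟨fun Q => φ Q I, 0, fun P => by
    have h1 : -(0 : Dv k F) P = 0 := by
      rw [Finsupp.zero_apply, neg_zero]
    rw [h1]
    exact h P I⟩

private theorem fds0Rep_apply (hF : IsCurve k F) {ι : Type} (φ : Pt k F → ι → F)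
    (h : ∀ Q I, LeOrd Q 0 (φ Q I)) (I : ι) (Q : Pt k F) :
    (fds0Rep hF φ h I : Pt k F → F) Q = φ Q I := rfl

/-- A form with values in the repartitions is alternating if it is at each point. -/
private theorem fds0_alt (hF : IsCurve k F) {ι : Type} {n : ℕ} {c : (Fin n → ι) → Ad hF}
    (h : ∀ Q : Pt k F, Alt fun I => (c I : Pt k F → F) Q) : Alt c := by
  intro σ I
  apply Subtype.ext
  funext Q
  have h1 := h Q σ I
  rcases Int.units_eq_one_or (Equiv.Perm.sign σ) with h2 | h2
  · rw [h2, Units.val_one, one_smul] at h1 ⊢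
    exact h1
  · rw [h2, Units.val_neg, Units.val_one, neg_smul, one_smul] at h1 ⊢
    exact h1

/-- A form that agrees with a constant form up to a multiple of `x`. -/
private theorem fds0_agr {r n : ℕ} {x : Fin r → F} {f g h : (Fin n → Fin r) → F}
    (hg : ∀ I, f I - g I = h I) (hx : Agr x g 0) : Agr x f h := by
  intro c hc
  have h1 : f = h + g := by
    funext I
    rw [Pi.add_apply, ← hg I, sub_add_cancel]
  rw [h1, evf_add, hx c hc, evf_zero, add_zero]

/-- DS0. -/
theorem DS0 (hF : IsCurve k F) {W : Dv k F} (hW : IsCan W) {N : ℤ} (hM : MCp W N) {n : ℕ}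
    (hn : n + 1 ≤ gon k F) {A : Dv k F} (hA : N ≤ deg A) (hA0 : 0 < ell A) {r : ℕ}
    (a : Module.Basis (Fin r) k (L A)) {f : (Fin n → Fin r) → F} (hf : Alt f)
    (hloc : ∀ Q : Pt k F, ∃ f' : (Fin n → Fin r) → F, Alt f' ∧ (∀ I, LeOrd Q 0 (f' I)) ∧
      Agr (fun j => (a j : F)) f f') :
    ∃ f₀ : (Fin n → Fin r) → k, Agr (fun j => (a j : F)) f fun I => algebraMap k F (f₀ I) := by
  have : CharZero F := charZero_of_injective_algebraMap (algebraMap k F).injective
  choose f' hf' hint hagr using hloc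
  rcases n with _ | m
  · have h1 : ∀ I, ∃ c : k, f I = algebraMap k F c := by
      intro I
      refine fds0_const hF fun Q => ?_
      have h2 : f I = f' Q I := by
        rw [← evf_single f I, ← evf_single (f' Q) I]
        exact hagr Q _ fun j => j.elim0
      rw [h2]
      exact hint Q I
    choose f₀ hf₀ using h1
    refine ⟨f₀, ?_⟩
    intro c _
    exact congrArg (fun φ => evf φ c) (funext hf₀)
  -- the index `l`
  have hr : 0 < r := by
    rcases Nat.eq_zero_or_pos r with h | h
    · subst h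
      exfalso
      have h1 : ell A = 0 := by
        unfold ell
        rw [Module.finrank_eq_card_basis a, Fintype.card_fin]
      omega
    · exact h
  obtain ⟨l, hl⟩ : ∃ l : Fin r, (a l : F) ≠ 0 := by
    refine ⟨⟨0, hr⟩, fun h => a.ne_zero ⟨0, hr⟩ (Subtype.ext h)⟩
  obtain ⟨ω, hω⟩ := exists_res hF hW
  obtain ⟨d, hd⟩ : ∃ d : (Fin (m + 1) → Fin r) → Ad hF, ∀ I,
      d I = cst hF (f I) - fds0Rep hF f' hint I := ⟨_, fun _ => rfl⟩
  have hdQ : ∀ I (Q : Pt k F), (d I : Pt k F → F) Q = f I - f' Q I := by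
    intro I Q
    rw [hd]
    rfl
  obtain ⟨η, hηd⟩ : ∃ η : (Fin m → Fin r) → Ad hF, ∀ J,
      η J = (a l : F)⁻¹ • d (Fin.cons l J) := ⟨_, fun _ => rfl⟩
  have hηQ : ∀ J (Q : Pt k F), (η J : Pt k F → F) Q =
      (f (Fin.cons l J) - f' Q (Fin.cons l J)) / (a l : F) := by
    intro J Q
    rw [hηd, div_eq_inv_mul, ← hdQ]
    rfl
  have hη : Alt η := by
    refine fds0_alt hF fun Q => ?_
    have h1 : Alt fun J : Fin m → Fin r => (a l : F)⁻¹ *
        (f (Fin.cons l J) - f' Q (Fin.cons l J)) :=
      alt_mul (alt_cons (alt_sub hf (hf' Q)) l) _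
    have h2 : (fun J : Fin m → Fin r => (η J : Pt k F → F) Q) = fun J => (a l : F)⁻¹ *
        (f (Fin.cons l J) - f' Q (Fin.cons l J)) := by
      funext J
      rw [hηQ, div_eq_inv_mul]
    rw [h2]
    exact h1
  -- the difference is a multiple of `a`
  have hwg : ∀ (Q : Pt k F) I, f I - f' Q I =
      wg (fun j => (a j : F)) (fun J => (η J : Pt k F → F) Q) I := by
    intro Q I
    have h1 : Agr (fun j => (a j : F)) (fun I => f I - f' Q I) 0 := by
      intro c hc
      have h2 := evf_sub f (f' Q) c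
      rw [hagr Q c hc, sub_self] at h2
      rw [evf_zero]
      exact h2
    have h3 := eq_wg_of_agr (alt_sub hf (hf' Q)) h1 hl
    have h4 : (fun J : Fin m → Fin r => (η J : Pt k F → F) Q) = fun J =>
        (f (Fin.cons l J) - f' Q (Fin.cons l J)) / (a l : F) := funext fun J => hηQ J Q
    rw [h4]
    exact congrFun h3 I
  have h0 : ∀ y : (Fin m → Fin r) → F, Alt y → (∀ I, y I ∈ L (A + W)) →
      IsCyc (fun j => (a j : F)) y → ω (∑ I, y I • η I) = 0 := by
    intro y hy hyL hyc
    obtain ⟨g, hg, hgL, hyg⟩ := hM.mg m (by omega) A hA r a y hy hyL hyc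
    have key : (m + 1) • (∑ J, y J • η J) = ∑ I, g I • d I := by
      apply Subtype.ext
      funext Q
      have e1 : (((m + 1) • (∑ J, y J • η J) : Ad hF) : Pt k F → F) Q =
          ((m : F) + 1) * ∑ J, (η J : Pt k F → F) Q * y J := by
        rw [Submodule.coe_smul_of_tower, Submodule.coe_sum, Pi.smul_apply, Finset.sum_apply,
          nsmul_eq_mul, Nat.cast_add, Nat.cast_one]
        congr 1
        refine Finset.sum_congr rfl fun J _ => ?_
        rw [mul_comm]
        rfl
      have e2 : ((∑ I, g I • d I : Ad hF) : Pt k F → F) Q =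
          ∑ I, wg (fun j => (a j : F)) (fun J => (η J : Pt k F → F) Q) I * g I := by
        rw [Submodule.coe_sum, Finset.sum_apply]
        refine Finset.sum_congr rfl fun I _ => ?_
        rw [← hwg, ← hdQ, mul_comm]
        rfl
      rw [e1, e2, sum_wg_mul _ hg]
      congr 1
      refine Finset.sum_congr rfl fun J _ => ?_
      rw [hyg J]
    have h1 : ω (∑ I, g I • d I) = 0 := by
      rw [map_sum]
      refine Finset.sum_eq_zero fun I _ => ?_
      rw [hd, smul_sub, map_sub, smul_cst, hω.const, hω.reg, sub_zero]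
      intro P
      have h2 := (inA_const.2 (hgL I) P).mul (hint P I)
      rw [add_zero] at h2
      exact h2
    rw [← key, map_nsmul, nsmul_eq_mul] at h1
    exact (mul_eq_zero.1 h1).resolve_left (Nat.cast_ne_zero.2 (Nat.succ_ne_zero m))
  obtain ⟨θ, hθ, hθint⟩ := dual_lemma hF hω a η hη h0
  have h1 : ∀ I, ∃ c : k, f I - wg (fun j => (a j : F)) θ I = algebraMap k F c := by
    intro I
    refine fds0_const hF fun Q => ?_
    have h2 : f I - wg (fun j => (a j : F)) θ I = f' Q I +
        wg (fun j => (a j : F)) (fun J => (η J : Pt k F → F) Q - θ J) I := by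
      have h3 := congrFun (wg_sub (fun j => (a j : F)) (fun J => (η J : Pt k F → F) Q) θ) I
      rw [Pi.sub_apply, ← hwg] at h3
      have h4 : wg (fun j => (a j : F)) (fun J => (η J : Pt k F → F) Q - θ J) I =
          f I - f' Q I - wg (fun j => (a j : F)) θ I := h3
      rw [h4]
      ring
    rw [h2]
    exact (hint Q I).add (hθint Q I)
  choose f₀ hf₀ using h1
  exact ⟨f₀, fds0_agr hf₀ (agr_wg _ θ)⟩

end Pool.Agent.MPd118f9
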