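import Pool.Agent.Lib.MP_d118f9_ag_G.FDual

/-!
# MP_d118f9_ag, covers of any degree: DS1
-/

set_option autoImplicit false

noncomputable section

open Classical

namespace Pool.Agent.MPd118f9

variable {k F : Type} [Field k] [IsAlgClosed k] [CharZero k] [Field F] [Algebra k F]

private theorem ds1_evf_smul {ι : Type} [Fintype ι] {n : ℕ} (t : F) (φ : (Fin n → ι) → F)
    (c : Fin n → ι → F) : evf (fun I => t * φ I) c = t * evf φ c := by
  unfold evf
  rw [Finset.mul_sum]
  exact Finset.sum_congr rfl fun I _ => by ring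

private theorem ds1_evf_subf {ι : Type} [Fintype ι] {n : ℕ} (φ ψ : (Fin n → ι) → F)
    (c : Fin n → ι → F) : evf (fun I => φ I - ψ I) c = evf φ c - evf ψ c := evf_sub φ ψ c

private theorem ds1_evf_empty {ι : Type} [Fintype ι] (φ : (Fin 0 → ι) → F)
    (c : Fin 0 → ι → F) (I : Fin 0 → ι) : evf φ c = φ I := by
  unfold evf
  rw [Fintype.sum_unique]
  have h1 : (default : Fin 0 → ι) = I := Subsingleton.elim _ _
  rw [h1]
  simp

private theorem ds1_const (hF : IsCurve k F) {x : F} (h : ∀ Q : Pt k F, LeOrd Q 0 x) :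
    ∃ c : k, x = algebraMap k F c := by
  apply hF.mem_L_zero.1
  apply inA_const.1
  intro P
  have h2 : -((0 : Dv k F) P) = 0 := by simp
  rw [h2]
  exact h P

private theorem ds1_fin (hF : IsCurve k F) {X Y : Type} [Fintype X] [Fintype Y] {n m : ℕ}
    (f : (Fin n → X) → (Fin m → Y) → F) :
    {Q : Pt k F | ¬ ∀ I J, LeOrd Q 0 (f I J)}.Finite := by
  have h1 : {Q : Pt k F | ¬ ∀ I J, LeOrd Q 0 (f I J)} ⊆
      ⋃ I : Fin n → X, ⋃ J : Fin m → Y, ((dv k (f I J)).support : Set (Pt k F)) := by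
    intro Q hQ
    simp only [Set.mem_ofPred_eq] at hQ
    push Not at hQ
    obtain ⟨I, J, hIJ⟩ := hQ
    rw [Set.mem_iUnion]
    refine ⟨I, ?_⟩
    rw [Set.mem_iUnion]
    refine ⟨J, ?_⟩
    rw [Finset.mem_coe, Finsupp.mem_support_iff]
    intro h0
    apply hIJ
    by_cases hf0 : f I J = 0
    · exact Or.inl hf0
    · rw [hF.dv_apply hf0] at h0
      exact Or.inr h0.ge
  refine Set.Finite.subset ?_ h1
  exact Set.finite_iUnion fun I => Set.finite_iUnion fun J => Finset.finite_toSet _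

private theorem ds1_ad (hF : IsCurve k F) {S : Set (Pt k F)} (hS : S.Finite)
    {α : Pt k F → F} (h : ∀ Q, Q ∉ S → α Q = 0) : α ∈ Ad hF := by
  refine ⟨Finsupp.indicator hS.toFinset fun Q _ => -(Q.ord (α Q)), fun P => ?_⟩
  by_cases hP : P ∈ S
  · refine Or.inr ?_
    rw [Finsupp.indicator_of_mem (hS.mem_toFinset.2 hP), neg_neg]
  · exact Or.inl (h P hP)

private theorem ds1_leord_sum {X : Type} {s : Finset X} {Q : Pt k F} {n : ℤ} {x : X → F}
    (h : ∀ i ∈ s, LeOrd Q n (x i)) : LeOrd Q n (∑ i ∈ s, x i) := by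
  induction s using Finset.induction_on with
  | empty =>
    rw [Finset.sum_empty]
    exact LeOrd.zero _ _
  | insert a s ha ih =>
    rw [Finset.sum_insert ha]
    exact (h a (Finset.mem_insert_self a s)).add
      (ih fun i hi => h i (Finset.mem_insert_of_mem hi))

/-- The delta function. -/
private def ds1Dl {Y : Type} {m : ℕ} (J₀ : Fin m → Y) (J : Fin m → Y) : ℤ :=
  if J = J₀ then 1 else 0

/-- The sum over the antisymmetrised delta function. -/
private theorem ds1_delta {Y : Type} [Fintype Y] {m : ℕ} {η : (Fin m → Y) → F} (hη : Alt η)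
    (J₀ : Fin m → Y) :
    ∑ J, ((asymm (ds1Dl J₀) J : ℤ) : F) * η J =
      (m.factorial : F) * η J₀ := by
  have h1 : ∀ σ : Equiv.Perm (Fin m), ∑ J : Fin m → Y,
      (((Equiv.Perm.sign σ : ℤˣ) : ℤ) : F) * ((if J ∘ σ = J₀ then (1 : F) else 0) * η J) =
        η J₀ := by
    intro σ
    rw [Finset.sum_eq_single (J₀ ∘ (σ⁻¹ : Equiv.Perm (Fin m)))]
    · have h2 : (J₀ ∘ (σ⁻¹ : Equiv.Perm (Fin m))) ∘ σ = J₀ := by
        funext x
        simp
      rw [if_pos h2, one_mul, hη, Equiv.Perm.sign_inv, zsmul_eq_mul, ← mul_assoc,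
        ← Int.cast_mul, ← Units.val_mul, Int.units_mul_self, Units.val_one, Int.cast_one,
        one_mul]
    · intro J _ hJ
      rw [if_neg, zero_mul, mul_zero]
      intro h3
      apply hJ
      rw [← h3]
      funext x
      simp
    · intro h3
      exact absurd (Finset.mem_univ _) h3
  have h2 : ∀ J : Fin m → Y, ((asymm (ds1Dl J₀) J : ℤ) : F) * η J =
      ∑ σ : Equiv.Perm (Fin m),
        (((Equiv.Perm.sign σ : ℤˣ) : ℤ) : F) * ((if J ∘ σ = J₀ then (1 : F) else 0) * η J) := by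
    intro J
    rw [asymm, Int.cast_sum, Finset.sum_mul]
    refine Finset.sum_congr rfl fun σ _ => ?_
    rw [zsmul_eq_mul, Int.cast_mul, Int.cast_id, mul_assoc]
    congr 2
    unfold ds1Dl
    split_ifs <;> simp
  rw [Finset.sum_congr rfl fun J _ => h2 J, Finset.sum_comm,
    Finset.sum_congr rfl fun σ _ => h1 σ, Finset.sum_const, Finset.card_univ,
    Fintype.card_perm, Fintype.card_fin, nsmul_eq_mul]

/-- The functional of DUAL vanishes on the cycles. -/
private theorem ds1_zero (hF : IsCurve k F) {W : Dv k F} {ω : Ad hF →ₗ[k] k}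
    (hω : IsRes hF W ω) {N : ℤ} (hM : MCp W N) {i u : ℕ}
    (hn : i + (u + 1) + 3 ≤ 2 * gon k F) {A : Dv k F} (hA : N ≤ deg A) {r s : ℕ}
    (a : Module.Basis (Fin r) k (L A)) (w : Module.Basis (Fin s) k (L W))
    {f : (Fin (i + 1) → Fin r) → (Fin (u + 1) → Fin s) → F}
    (F' : Pt k F → (Fin (i + 1) → Fin r) → (Fin (u + 1) → Fin s) → F)
    (hF' : ∀ Q I J, LeOrd Q 0 (F' Q I J))
    (η : (Fin i → Fin r) → (Fin (u + 1) → Fin s) → Ad hF)
    (hη2 : ∀ Q I, Alt fun J => ((η I J : Ad hF) : Pt k F → F) Q)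
    (hηa : ∀ Q I J, wg (fun j => (a j : F)) (fun I => ((η I J : Ad hF) : Pt k F → F) Q) I =
      f I J - F' Q I J)
    (hηw : ∀ Q I J, wg (fun j => (w j : F)) (fun J => ((η I J : Ad hF) : Pt k F → F) Q) J = 0)
    (J₀ : Fin (u + 1) → Fin s) (y : (Fin i → Fin r) → F) (hy : Alt y)
    (hyL : ∀ I, y I ∈ L (A + W)) (hyc : IsCyc (fun j => (a j : F)) y) :
    ω (∑ I, y I • η I J₀) = 0 := by
  have : CharZero F := charZero_of_injective_algebraMap (algebraMap k F).injective
  let ε : (Fin (u + 1) → Fin s) → ℤ := asymm (ds1Dl J₀)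
  have hε : Alt ε := alt_asymm _
  let c : (Fin i → Fin r) → (Fin (u + 1) → Fin s) → F := fun I J => (ε J : F) * y I
  have hc1 : ∀ J, Alt fun I => c I J := fun J => alt_mul hy _
  have hc2 : ∀ I, Alt (c I) := by
    intro I σ J
    show (ε (J ∘ σ) : F) * y I = _ • ((ε J : F) * y I)
    rw [hε σ J, smul_eq_mul, Int.cast_mul, zsmul_eq_mul, mul_assoc]
  have hc3 : ∀ I J, c I J ∈ L (A + W) := by
    intro I J
    have h1 : c I J = ε J • y I := (zsmul_eq_mul _ _).symm
    rw [h1]
    exact zsmul_mem (hyL I) _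
  have hc4 : ∀ J, IsCyc (fun j => (a j : F)) fun I => c I J := by
    intro J
    cases i with
    | zero => trivial
    | succ i =>
      intro I
      have h1 := hyc I
      show ∑ j, (a j : F) * ((ε J : F) * y (Fin.cons j I)) = 0
      have h2 : ∀ j, (a j : F) * ((ε J : F) * y (Fin.cons j I)) =
          (ε J : F) * ((a j : F) * y (Fin.cons j I)) := fun j => by ring
      rw [Finset.sum_congr rfl fun j _ => h2 j, ← Finset.mul_sum, h1, mul_zero]
  obtain ⟨g, f₂, hg1, hg2, hg3, hf1, hf2, hf3, hf4, hcg⟩ :=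
    hM.mc w i (u + 1) hn A hA r a c hc1 hc2 hc3 hc4
  -- the values of the repartition
  let X : Ad hF := ∑ I, ∑ J, c I J • η I J
  have hX : ∀ Q, (X : Pt k F → F) Q = ∑ I, ∑ J, c I J * ((η I J : Ad hF) : Pt k F → F) Q := by
    intro Q
    show ((∑ I, ∑ J, c I J • η I J : Ad hF) : Pt k F → F) Q = _
    rw [Submodule.coe_sum, Finset.sum_apply]
    refine Finset.sum_congr rfl fun I _ => ?_
    rw [Submodule.coe_sum, Finset.sum_apply]
    rfl
  have hXJ : X = ((u + 1).factorial : k) • ∑ I, y I • η I J₀ := by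
    apply Subtype.ext
    funext Q
    rw [hX Q]
    have h1 : (((((u + 1).factorial : k) • ∑ I, y I • η I J₀ : Ad hF)) : Pt k F → F) Q =
        ((u + 1).factorial : F) * ∑ I, y I * ((η I J₀ : Ad hF) : Pt k F → F) Q := by
      have h2 : (((((u + 1).factorial : k) • ∑ I, y I • η I J₀ : Ad hF)) : Pt k F → F) Q =
          ((u + 1).factorial : k) • ((∑ I, y I • η I J₀ : Ad hF) : Pt k F → F) Q := rfl
      rw [h2, Algebra.smul_def, map_natCast, Submodule.coe_sum, Finset.sum_apply]
      rfl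
    rw [h1, Finset.mul_sum]
    refine Finset.sum_congr rfl fun I _ => ?_
    have h3 : ∑ J, (ε J : F) * ((η I J : Ad hF) : Pt k F → F) Q =
        ((u + 1).factorial : F) * ((η I J₀ : Ad hF) : Pt k F → F) Q :=
      ds1_delta (hη2 Q I) J₀
    have h4 : ∀ J, c I J * ((η I J : Ad hF) : Pt k F → F) Q =
        y I * ((ε J : F) * ((η I J : Ad hF) : Pt k F → F) Q) := by
      intro J
      show (ε J : F) * y I * _ = _
      ring
    rw [Finset.sum_congr rfl fun J _ => h4 J, ← Finset.mul_sum]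
    rw [h3]
    ring
  -- the main computation
  let T : F := ∑ J, ∑ I, f I J * g I J
  have hmain : ∀ Q, ((i : F) + 1) * (X : Pt k F → F) Q =
      T - ∑ J, ∑ I, F' Q I J * g I J := by
    intro Q
    have hA1 : ∀ J, ∑ I, wg (fun j => (a j : F))
        (fun I => ((η I J : Ad hF) : Pt k F → F) Q) I * g I J =
        ((i : F) + 1) * ∑ I, ((η I J : Ad hF) : Pt k F → F) Q *
          ∑ j, (a j : F) * g (Fin.cons j I) J :=
      fun J => sum_wg_mul _ (hg1 J)
    have hB1 : ∀ I, ∑ J, wg (fun j => (w j : F))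
        (fun J => ((η I J : Ad hF) : Pt k F → F) Q) J * f₂ I J =
        (((u + 1 : ℕ) : F) + 1) * ∑ J, ((η I J : Ad hF) : Pt k F → F) Q *
          ∑ l, (w l : F) * f₂ I (Fin.cons l J) :=
      fun I => sum_wg_mul _ (hf2 I)
    have hB2 : ∀ I, ∑ J, ((η I J : Ad hF) : Pt k F → F) Q *
        ∑ l, (w l : F) * f₂ I (Fin.cons l J) = 0 := by
      intro I
      have h1 := hB1 I
      rw [Finset.sum_eq_zero fun J _ => by rw [hηw Q I J, zero_mul]] at h1
      have h2 : (((u + 1 : ℕ) : F) + 1) ≠ 0 := by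
        exact_mod_cast Nat.succ_ne_zero (u + 1)
      exact (mul_eq_zero.1 h1.symm).resolve_left h2
    have hA2 : ∀ J, ((i : F) + 1) * ∑ I, ((η I J : Ad hF) : Pt k F → F) Q *
          ∑ j, (a j : F) * g (Fin.cons j I) J = ∑ I, (f I J - F' Q I J) * g I J := by
      intro J
      rw [← hA1 J]
      exact Finset.sum_congr rfl fun I _ => by rw [hηa Q I J]
    have h5 : (X : Pt k F → F) Q = ∑ J, ∑ I, ((η I J : Ad hF) : Pt k F → F) Q *
          ∑ j, (a j : F) * g (Fin.cons j I) J := by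
      rw [hX Q]
      have h6 : ∀ I, ∑ J, c I J * ((η I J : Ad hF) : Pt k F → F) Q =
          ∑ J, ((η I J : Ad hF) : Pt k F → F) Q * ∑ j, (a j : F) * g (Fin.cons j I) J := by
        intro I
        have h7 : ∀ J, c I J * ((η I J : Ad hF) : Pt k F → F) Q =
            ((η I J : Ad hF) : Pt k F → F) Q * (∑ j, (a j : F) * g (Fin.cons j I) J) +
            ((η I J : Ad hF) : Pt k F → F) Q * ∑ l, (w l : F) * f₂ I (Fin.cons l J) := by
          intro J
          rw [hcg I J]
          ring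
        rw [Finset.sum_congr rfl fun J _ => h7 J, Finset.sum_add_distrib, hB2 I, add_zero]
      rw [Finset.sum_congr rfl fun I _ => h6 I, Finset.sum_comm]
    rw [h5, Finset.mul_sum, Finset.sum_congr rfl fun J _ => hA2 J]
    show _ = ∑ J, ∑ I, f I J * g I J - ∑ J, ∑ I, F' Q I J * g I J
    rw [← Finset.sum_sub_distrib]
    refine Finset.sum_congr rfl fun J _ => ?_
    rw [← Finset.sum_sub_distrib]
    exact Finset.sum_congr rfl fun I _ => by ring
  have h8 : ω (cst hF T - ((i : k) + 1) • X) = 0 := by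
    apply hω.reg
    intro Q
    have h9 : ((cst hF T - ((i : k) + 1) • X : Ad hF) : Pt k F → F) Q =
        ∑ J, ∑ I, F' Q I J * g I J := by
      have h10 : ((cst hF T - ((i : k) + 1) • X : Ad hF) : Pt k F → F) Q =
          T - ((i : k) + 1) • (X : Pt k F → F) Q := rfl
      rw [h10, Algebra.smul_def, map_add, map_natCast, map_one, hmain Q]
      ring
    rw [h9]
    refine ds1_leord_sum fun J _ => ds1_leord_sum fun I _ => ?_
    have h11 := (hF' Q I J).mul (inA_const.2 (hg3 I J) Q)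
    rwa [zero_add] at h11
  rw [map_sub, hω.const, zero_sub, neg_eq_zero, map_smul, smul_eq_mul] at h8
  have h12 : ((i : k) + 1) ≠ 0 := by exact_mod_cast Nat.succ_ne_zero i
  have h13 := (mul_eq_zero.1 h8).resolve_left h12
  rw [hXJ, map_smul, smul_eq_mul] at h13
  have h14 : ((u + 1).factorial : k) ≠ 0 := by exact_mod_cast Nat.factorial_ne_zero (u + 1)
  exact (mul_eq_zero.1 h13).resolve_left h14

/-- DS1. -/
theorem DS1 (hF : IsCurve k F) {W : Dv k F} (hW : IsCan W) {N : ℤ} (hM : MCp W N) {n m : ℕ}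
    (hn : n + m + 2 ≤ 2 * gon k F) {A : Dv k F} (hA : N ≤ deg A) (hA0 : 0 < ell A)
    (hg : 1 ≤ genus k F) {r s : ℕ}
    (a : Module.Basis (Fin r) k (L A)) (w : Module.Basis (Fin s) k (L W))
    {f : (Fin n → Fin r) → (Fin m → Fin s) → F} (hf : Alt2 f)
    (hloc : ∀ Q : Pt k F, ∃ f' : (Fin n → Fin r) → (Fin m → Fin s) → F, Alt2 f' ∧
      (∀ I J, LeOrd Q 0 (f' I J)) ∧
      (∀ J, Agr (fun j => (a j : F)) (fun I => f I J) fun I => f' I J) ∧
      ∀ I, Agr (fun j => (w j : F)) (f I) (f' I)) :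
    ∃ f₀ : (Fin n → Fin r) → (Fin m → Fin s) → k, ∀ J, Agr (fun j => (a j : F))
      (fun I => f I J) fun I => algebraMap k F (f₀ I J) := by
  have : CharZero F := charZero_of_injective_algebraMap (algebraMap k F).injective
  choose f' hf'1 hf'2 hf'3 hf'4 using hloc
  -- it is enough to show that `f` is integral up to forms that vanish on the kernel
  rcases Nat.eq_zero_or_pos n with hn0 | hn0
  · subst hn0
    have h1 : ∀ I J, ∃ c : k, f I J = algebraMap k F c := by
      intro I J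
      apply ds1_const hF
      intro Q
      have h2 := hf'3 Q J (fun j => Fin.elim0 j) (fun j => Fin.elim0 j)
      rw [ds1_evf_empty _ _ I, ds1_evf_empty _ _ I] at h2
      rw [h2]
      exact hf'2 Q I J
    choose f₀ hf₀ using h1
    refine ⟨f₀, fun J c _ => ?_⟩
    have h3 : (fun I => f I J) = fun I => algebraMap k F (f₀ I J) := funext fun I => hf₀ I J
    rw [h3]
  rcases Nat.eq_zero_or_pos m with hm0 | hm0
  · subst hm0
    have h1 : ∀ I J, ∃ c : k, f I J = algebraMap k F c := by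
      intro I J
      apply ds1_const hF
      intro Q
      have h2 := hf'4 Q I (fun j => Fin.elim0 j) (fun j => Fin.elim0 j)
      rw [ds1_evf_empty _ _ J, ds1_evf_empty _ _ J] at h2
      rw [h2]
      exact hf'2 Q I J
    choose f₀ hf₀ using h1
    refine ⟨f₀, fun J c _ => ?_⟩
    have h3 : (fun I => f I J) = fun I => algebraMap k F (f₀ I J) := funext fun I => hf₀ I J
    rw [h3]
  obtain ⟨i, rfl⟩ : ∃ i, n = i + 1 := ⟨n - 1, by omega⟩
  obtain ⟨u, rfl⟩ : ∃ u, m = u + 1 := ⟨m - 1, by omega⟩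
  obtain ⟨ω, hω⟩ := exists_res hF hW
  -- nonzero members of the bases
  have hr : 0 < r := by
    have h1 : ell A = r := by
      unfold ell
      rw [Module.finrank_eq_card_basis a, Fintype.card_fin]
    omega
  have hs : 0 < s := by
    have h1 : ell W = s := by
      unfold ell
      rw [Module.finrank_eq_card_basis w, Fintype.card_fin]
    have h2 : ell W = genus k F := hW.2
    omega
  let l₀ : Fin r := ⟨0, hr⟩
  let l₁ : Fin s := ⟨0, hs⟩
  have hal : (a l₀ : F) ≠ 0 := fun h => a.ne_zero l₀ (Subtype.ext h)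
  have hwl : (w l₁ : F) ≠ 0 := fun h => w.ne_zero l₁ (Subtype.ext h)
  -- the local forms, equal to `f` if `f` is integral
  let F' : Pt k F → (Fin (i + 1) → Fin r) → (Fin (u + 1) → Fin s) → F := fun Q =>
    if ∀ I J, LeOrd Q 0 (f I J) then f else f' Q
  have hcase : ∀ Q, (F' Q = f ∧ ∀ I J, LeOrd Q 0 (f I J)) ∨ F' Q = f' Q := by
    intro Q
    by_cases h : ∀ I J, LeOrd Q 0 (f I J)
    · exact Or.inl ⟨if_pos h, h⟩
    · exact Or.inr (if_neg h)
  have hF1 : ∀ Q, Alt2 (F' Q) := by
    intro Q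
    rcases hcase Q with h | h
    · rw [h.1]
      exact hf
    · rw [h]
      exact hf'1 Q
  have hF2 : ∀ Q I J, LeOrd Q 0 (F' Q I J) := by
    intro Q I J
    rcases hcase Q with h | h
    · rw [h.1]
      exact h.2 I J
    · rw [h]
      exact hf'2 Q I J
  have hF3 : ∀ Q J, Agr (fun j => (a j : F)) (fun I => f I J) fun I => F' Q I J := by
    intro Q J
    rcases hcase Q with h | h
    · rw [h.1]
      exact fun c _ => rfl
    · rw [h]
      exact hf'3 Q J
  have hF4 : ∀ Q I, Agr (fun j => (w j : F)) (f I) (F' Q I) := by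
    intro Q I
    rcases hcase Q with h | h
    · rw [h.1]
      exact fun c _ => rfl
    · rw [h]
      exact hf'4 Q I
  -- the repartitions
  let e : Pt k F → (Fin i → Fin r) → (Fin (u + 1) → Fin s) → F := fun Q I J =>
    (a l₀ : F)⁻¹ * (f (Fin.cons l₀ I) J - F' Q (Fin.cons l₀ I) J)
  have he1 : ∀ Q J, Alt fun I => e Q I J := fun Q J =>
    alt_mul (alt_cons (alt_sub (hf.1 J) ((hF1 Q).1 J)) l₀) _
  have he2 : ∀ Q I, Alt (e Q I) := fun Q I =>
    alt_mul (alt_sub (hf.2 _) ((hF1 Q).2 _)) _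
  have hea : ∀ Q J, (fun I => f I J - F' Q I J) =
      wg (fun j => (a j : F)) fun I => e Q I J := by
    intro Q J
    have h1 : Agr (fun j => (a j : F)) (fun I => f I J - F' Q I J) 0 := by
      intro c hc
      rw [ds1_evf_subf, hF3 Q J c hc, sub_self, evf_zero]
    rw [eq_wg_of_agr (alt_sub (hf.1 J) ((hF1 Q).1 J)) h1 hal]
    congr 1
    funext I
    show (f (Fin.cons l₀ I) J - F' Q (Fin.cons l₀ I) J) / (a l₀ : F) = _ * _
    rw [div_eq_mul_inv, mul_comm]
  have hew : ∀ Q I, wg (fun j => (w j : F)) (e Q I) = 0 := by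
    intro Q I
    have h1 : Agr (fun j => (w j : F)) (e Q I) 0 := by
      intro c hc
      show evf (fun J => (a l₀ : F)⁻¹ *
        (f (Fin.cons l₀ I) J - F' Q (Fin.cons l₀ I) J)) c = _
      rw [ds1_evf_smul (a l₀ : F)⁻¹
        (fun J => f (Fin.cons l₀ I) J - F' Q (Fin.cons l₀ I) J) c,
        ds1_evf_subf, hF4 Q (Fin.cons l₀ I) c hc, sub_self, mul_zero, evf_zero]
    rw [eq_wg_of_agr (he2 Q I) h1 hwl]
    refine wg_wg _ ?_
    have h2 : (fun J : Fin u → Fin s => e Q I (Fin.cons l₁ J) / (w l₁ : F)) =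
        fun J => (w l₁ : F)⁻¹ * e Q I (Fin.cons l₁ J) := by
      funext J
      rw [div_eq_mul_inv, mul_comm]
    rw [h2]
    exact alt_mul (alt_cons (he2 Q I) l₁) _
  have hfin := ds1_fin hF f
  have had : ∀ I J, (fun Q => e Q I J) ∈ Ad hF := by
    intro I J
    refine ds1_ad hF hfin fun Q hQ => ?_
    simp only [Set.mem_ofPred_eq, not_not] at hQ
    have h1 : F' Q = f := if_pos hQ
    show (a l₀ : F)⁻¹ * (f (Fin.cons l₀ I) J - F' Q (Fin.cons l₀ I) J) = 0
    rw [h1, sub_self, mul_zero]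
  let η : (Fin i → Fin r) → (Fin (u + 1) → Fin s) → Ad hF := fun I J =>
    ⟨fun Q => e Q I J, had I J⟩
  have hkey : ∀ J, ∃ θ : (Fin i → Fin r) → F, Alt θ ∧ ∀ (Q : Pt k F)
      (I : Fin (i + 1) → Fin r),
      LeOrd Q 0 (wg (fun j => (a j : F)) (fun I' => e Q I' J - θ I') I) := by
    intro J
    have hηalt : Alt fun I => η I J := by
      intro σ I
      apply Subtype.ext
      funext Q
      exact he1 Q J σ I
    exact dual_lemma hF hω a (fun I => η I J) hηalt fun y hy hyL hyc =>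
      ds1_zero hF hω hM (by omega) hA a w F' hF2 η he2
        (fun Q I J => (congrFun (hea Q J) I).symm) (fun Q I J => congrFun (hew Q I) J)
        J y hy hyL hyc
  choose θ hθ1 hθ2 using hkey
  have h1 : ∀ I J, ∃ c : k, f I J - wg (fun j => (a j : F)) (θ J) I = algebraMap k F c := by
    intro I J
    apply ds1_const hF
    intro Q
    have h2 : f I J - wg (fun j => (a j : F)) (θ J) I =
        F' Q I J + wg (fun j => (a j : F)) (fun I' => e Q I' J - θ J I') I := by
      have h3 := congrFun (hea Q J) I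
      have h4 : wg (fun j => (a j : F)) (fun I' => e Q I' J - θ J I') =
          wg (fun j => (a j : F)) (fun I' => e Q I' J) - wg (fun j => (a j : F)) (θ J) :=
        wg_sub _ _ _
      rw [h4, Pi.sub_apply, ← h3]
      ring
    rw [h2]
    exact (hF2 Q I J).add (hθ2 J Q I)
  choose f₀ hf₀ using h1
  refine ⟨f₀, fun J c hc => ?_⟩
  have h5 : (fun I => algebraMap k F (f₀ I J)) =
      fun I => f I J - wg (fun j => (a j : F)) (θ J) I := funext fun I => (hf₀ I J).symm
  rw [h5, ds1_evf_subf, agr_wg _ _ c hc, evf_zero, sub_zero]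

end Pool.Agent.MPd118f9
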