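import Pool.Agent.Lib.MP_d118f9_ag_G.FDSL_R
import Pool.Agent.Lib.MP_d118f9_ag_G.FDS1

/-!
# MP_d118f9_ag, covers of any degree, DSL: constants from DS1
-/

set_option autoImplicit false

noncomputable section

open Classical

namespace Pool.Agent.MPd118f9

variable {k F : Type} [Field k] [IsAlgClosed k] [CharZero k] [Field F] [Algebra k F]

/-! ### Slices -/

section

variable {L' : Type} [Field L'] {r g n q ρ : ℕ} {lev : Fin g → Fin (r + 1)} {x : Fin g → L'}
  {lam : Fin n → Fin (r + 1)} {i : Fin (r + 1)}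

private theorem FDSL_B_slice {s s' : (Fin n → Fin g) → L'}
    (e : Fin q ≃ {j : Fin n // lam j = i}) (d : Fin ρ ≃ {l : Fin g // lev l = i})
    {J : Fin n → Fin g} (hJ : ∀ j, lam j ≠ i → lev (J j) = lam j)
    (h : ∀ c : Fin n → Fin g → L', (∀ j l, lev l ≠ lam j → c j l = 0) →
      (∀ j, lam j = i → pr x (c j) = 0) → evf s c = evf s' c) :
    Agr (fun l => x (d l : Fin g)) (fun I => s (cmb e d J I)) fun I => s' (cmb e d J I) := by
  intro c hc
  set C : Fin n → Fin g → L' := fun j => if h : lam j = i then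
    (fun l => if h' : lev l = i then c (e.symm ⟨j, h⟩) (d.symm ⟨l, h'⟩) else 0)
    else Pi.single (J j) 1 with hC
  have hC1 : ∀ j, lam j = i → ∀ l, lev l ≠ i → C j l = 0 := by
    intro j hj l hl
    simp only [hC, dif_pos hj, dif_neg hl]
  have hC2 : ∀ j, lam j ≠ i → C j = Pi.single (J j) 1 := by
    intro j hj
    simp only [hC, dif_neg hj]
  have hC3 : (fun (t : Fin q) (l : Fin ρ) => C (e t : Fin n) (d l : Fin g)) = c := by
    funext t l
    have h1 : lam (e t : Fin n) = i := (e t).2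
    have h2 : lev (d l : Fin g) = i := (d l).2
    simp only [hC, dif_pos h1, dif_pos h2, Subtype.coe_eta, Equiv.symm_apply_apply]
  have hs := evf_cmb s e d J C hC1 hC2
  have hs' := evf_cmb s' e d J C hC1 hC2
  rw [hC3] at hs hs'
  rw [← hs, ← hs']
  refine h C ?_ ?_
  · intro j l hl
    by_cases hj : lam j = i
    · exact hC1 j hj l (by rwa [hj] at hl)
    · rw [hC2 j hj]
      refine Pi.single_eq_of_ne ?_ _
      intro hlJ
      exact hl (by rw [hlJ, hJ j hj])
  · intro j hj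
    rw [pr_level x d (hC1 j hj)]
    have h1 : (fun l => C j (d l : Fin g)) = c (e.symm ⟨j, hj⟩) := by
      have h2 := congrFun hC3 (e.symm ⟨j, hj⟩)
      simpa using h2
    rw [h1]
    exact hc _

end

section

variable {A : Type} [CommRing A] {ι : Type} [Fintype ι] {n : ℕ}

private theorem FDSL_B_comp (φ : (Fin n → ι) → A) (c : Fin n → ι → A)
    (σ : Equiv.Perm (Fin n)) : evf (fun I => φ (I ∘ σ)) c = evf φ (c ∘ σ) := by
  unfold evf
  refine Fintype.sum_equiv (Equiv.arrowCongr σ.symm (Equiv.refl ι)) _ _ fun I => ?_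
  have h1 : (Equiv.arrowCongr σ.symm (Equiv.refl ι)) I = I ∘ σ := by
    funext j
    simp [Equiv.arrowCongr]
  rw [h1]
  congr 1
  exact (Equiv.prod_comp σ fun j => c j (I j)).symm

end

section

variable {r g n : ℕ} {lam : Fin n → Fin (r + 1)} {i₀ : Fin (r + 1)}

/-- the permutations of the places of level `i₀` -/
private def FDSL_B_G (lam : Fin n → Fin (r + 1)) (i₀ : Fin (r + 1)) :
    Finset (Equiv.Perm (Fin n)) :=
  Finset.univ.filter fun σ => ∀ j, lam j ≠ i₀ → σ j = j

private theorem FDSL_B_mem {σ : Equiv.Perm (Fin n)} :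
    σ ∈ FDSL_B_G lam i₀ ↔ ∀ j, lam j ≠ i₀ → σ j = j := by
  unfold FDSL_B_G
  rw [Finset.mem_filter]
  exact ⟨fun h => h.2, fun h => ⟨Finset.mem_univ _, h⟩⟩

private theorem FDSL_B_one : (1 : Equiv.Perm (Fin n)) ∈ FDSL_B_G lam i₀ :=
  FDSL_B_mem.2 fun _ _ => rfl

private theorem FDSL_B_mul {σ τ : Equiv.Perm (Fin n)} (hσ : σ ∈ FDSL_B_G lam i₀)
    (hτ : τ ∈ FDSL_B_G lam i₀) : σ * τ ∈ FDSL_B_G lam i₀ := by
  rw [FDSL_B_mem] at *
  intro j hj
  rw [Equiv.Perm.mul_apply, hτ j hj, hσ j hj]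

private theorem FDSL_B_inv {σ : Equiv.Perm (Fin n)} (hσ : σ ∈ FDSL_B_G lam i₀) :
    σ⁻¹ ∈ FDSL_B_G lam i₀ := by
  rw [FDSL_B_mem] at *
  intro j hj
  rw [Equiv.Perm.inv_eq_iff_eq]
  exact (hσ j hj).symm

private theorem FDSL_B_lam {σ : Equiv.Perm (Fin n)} (hσ : σ ∈ FDSL_B_G lam i₀) (j : Fin n) :
    lam (σ j) = lam j := by
  rw [FDSL_B_mem] at hσ
  by_cases hj : lam j = i₀
  · by_contra h
    have h1 : lam (σ j) ≠ i₀ := fun h2 => h (h2.trans hj.symm)
    have h3 := σ.injective (hσ _ h1)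
    exact h (by rw [h3])
  · rw [hσ j hj]

/-- antisymmetrisation in the places of level `i₀` -/
private def FDSL_B_as {k : Type} [Field k] (lam : Fin n → Fin (r + 1)) (i₀ : Fin (r + 1))
    (s : (Fin n → Fin g) → k) : (Fin n → Fin g) → k := fun K =>
  ((FDSL_B_G lam i₀).card : k)⁻¹ * ∑ σ ∈ FDSL_B_G lam i₀,
    (((Equiv.Perm.sign σ : ℤˣ) : ℤ) : k) * s (K ∘ σ)

private theorem FDSL_B_altG {k : Type} [Field k] (s : (Fin n → Fin g) → k) :
    AltG lam i₀ (FDSL_B_as lam i₀ s) := by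
  intro τ hτ K
  have hτ' : τ ∈ FDSL_B_G lam i₀ := FDSL_B_mem.2 hτ
  have key : ∑ σ ∈ FDSL_B_G lam i₀, (((Equiv.Perm.sign σ : ℤˣ) : ℤ) : k) * s ((K ∘ τ) ∘ σ) =
      (((Equiv.Perm.sign τ : ℤˣ) : ℤ) : k) * ∑ σ ∈ FDSL_B_G lam i₀,
        (((Equiv.Perm.sign σ : ℤˣ) : ℤ) : k) * s (K ∘ σ) := by
    rw [Finset.mul_sum]
    refine Finset.sum_nbij' (fun σ => τ * σ) (fun σ => τ⁻¹ * σ)
      (fun σ hσ => FDSL_B_mul hτ' hσ) (fun σ hσ => FDSL_B_mul (FDSL_B_inv hτ') hσ)
      (fun σ _ => inv_mul_cancel_left τ σ) (fun σ _ => mul_inv_cancel_left τ σ) ?_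
    intro σ _
    have h1 : (K ∘ τ) ∘ σ = K ∘ (τ * σ : Equiv.Perm (Fin n)) := rfl
    rw [h1, Equiv.Perm.sign_mul]
    have h2 : (((Equiv.Perm.sign τ : ℤˣ) : ℤ) : k) * (((Equiv.Perm.sign τ : ℤˣ) : ℤ) : k) = 1 := by
      rw [← Int.cast_mul, Int.units_coe_mul_self, Int.cast_one]
    push_cast
    rw [← mul_assoc, ← mul_assoc, h2, one_mul]
  unfold FDSL_B_as
  rw [key, zsmul_eq_mul]
  ring

end

/-- The case in which the groups of level `i₀ ≠ 0` and `0` have together at most `2 gon - 2`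
arguments.
Proof.  As `dsl_A` (file `FDSL_A.lean`, read its docstring), with `DS1` for two groups: let `e, d,
a` be for the level `i₀` and `e', d', w` for the level `0` (`κ 0 = W`, so `w` is a basis of `L W`,
use `hL.k0`; `IsLvl.exists_basis`).  For every tuple `J` with `lev (J j) = lam j` the form
`f I I' = s (cmb e d (cmb e' d' J I') I)` is alternating in both groups; the hypothesis of `DS1`
for the first group is `AgrL` for `i₀` (with unit vectors `w`-indices at the places of level `0`),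
for the second group it is `AgrL` for `0`.  `DS1` gives constants `f₀`; antisymmetrise them in the
first group; define `s₀` and conclude as in `dsl_A`. -/
theorem dsl_B (hF : IsCurve k F) (hg : 1 ≤ genus k F) {W : Dv k F} (hW : IsCan W) {N : ℤ}
    (hM : MCp W N) {r g n : ℕ} {lev : Fin g → Fin (r + 1)} {x : Fin g → F}
    {κ : Fin (r + 1) → Dv k F} (hL : IsLvl W lev x κ) (lam : Fin n → Fin (r + 1))
    {i₀ : Fin (r + 1)} (hi₀ : i₀ ≠ 0) (hN : N ≤ deg (κ i₀)) (hl : 0 < ell (κ i₀))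
    (hcard : Fintype.card {j : Fin n // lam j = i₀} + Fintype.card {j : Fin n // lam j = 0} + 2 ≤
      2 * gon k F) {s : (Fin n → Fin g) → F} (hs : Alt s)
    (hloc : ∀ Q : Pt k F, ∃ s' : (Fin n → Fin g) → F, Alt s' ∧ (∀ I, LeOrd Q 0 (s' I)) ∧
      AgrL lev x lam i₀ s s' ∧ AgrL lev x lam 0 s s') :
    ∃ s₀ : (Fin n → Fin g) → k, AltG lam i₀ s₀ ∧
      AgrL lev x lam i₀ s fun I => algebraMap k F (s₀ I) := by
  obtain ⟨ρ₁, d₁, a, ha⟩ := hL.exists_basis i₀
  have hb0 := hL.exists_basis 0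
  rw [hL.k0] at hb0
  obtain ⟨ρ₀, d₀, w, hw⟩ := hb0
  have hρ₁ : 0 < ρ₁ := by
    have h1 : ell (κ i₀) = ρ₁ := by
      unfold ell
      rw [Module.finrank_eq_card_basis a, Fintype.card_fin]
    omega
  have e₁ : Fin (Fintype.card {j : Fin n // lam j = i₀}) ≃ {j : Fin n // lam j = i₀} :=
    (Fintype.equivFin _).symm
  have e₀ : Fin (Fintype.card {j : Fin n // lam j = 0}) ≃ {j : Fin n // lam j = 0} :=
    (Fintype.equivFin _).symm
  set t₀ : Fin ρ₁ := ⟨0, hρ₁⟩ with ht₀
  -- constants for the slices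
  have star : ∀ J : Fin n → Fin g, (∀ j, lam j ≠ i₀ → lev (J j) = lam j) →
      ∃ f₀ : (Fin (Fintype.card {j : Fin n // lam j = i₀}) → Fin ρ₁) → k,
        Agr (fun l => (a l : F)) (fun I => s (cmb e₁ d₁ J I)) fun I => algebraMap k F (f₀ I) := by
    intro J hJ
    have hcomm : ∀ I I', cmb e₁ d₁ (cmb e₀ d₀ J I') I = cmb e₀ d₀ (cmb e₁ d₁ J I) I' := by
      intro I I'
      funext j
      unfold cmb
      by_cases h1 : lam j = i₀
      · have h2 : lam j ≠ 0 := by rwa [h1]
        rw [dif_pos h1, dif_neg h2, dif_pos h1]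
      · rw [dif_neg h1]
        by_cases h2 : lam j = 0
        · rw [dif_pos h2, dif_pos h2]
        · rw [dif_neg h2, dif_neg h2, dif_neg h1]
    have hlev0 : ∀ I', ∀ j, lam j ≠ i₀ → lev (cmb e₀ d₀ J I' j) = lam j := by
      intro I' j hj
      unfold cmb
      by_cases h2 : lam j = 0
      · rw [dif_pos h2, h2]
        exact (d₀ _).2
      · rw [dif_neg h2]
        exact hJ j hj
    have hlev1 : ∀ I, ∀ j, lam j ≠ 0 → lev (cmb e₁ d₁ J I j) = lam j := by
      intro I j hj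
      unfold cmb
      by_cases h2 : lam j = i₀
      · rw [dif_pos h2, h2]
        exact (d₁ _).2
      · rw [dif_neg h2]
        exact hJ j h2
    have hax : (fun l => (a l : F)) = fun l => x (d₁ l : Fin g) := funext ha
    have hwx : (fun l => (w l : F)) = fun l => x (d₀ l : Fin g) := funext hw
    have halt : ∀ {s' : (Fin n → Fin g) → F}, Alt s' →
        Alt2 fun I I' => s' (cmb e₁ d₁ (cmb e₀ d₀ J I') I) := by
      intro s' hs'
      refine ⟨fun I' => alt_cmb hs' e₁ d₁ _, fun I => ?_⟩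
      have h1 : (fun I' => s' (cmb e₁ d₁ (cmb e₀ d₀ J I') I)) =
          fun I' => s' (cmb e₀ d₀ (cmb e₁ d₁ J I) I') := by
        funext I'
        rw [hcomm]
      beta_reduce
      rw [h1]
      exact alt_cmb hs' e₀ d₀ _
    obtain ⟨f₀, hf₀⟩ := DS1 hF hW hM hcard hN hl hg a w (halt hs) (fun Q => by
      obtain ⟨s', hs', hint, hag1, hag0⟩ := hloc Q
      refine ⟨fun I I' => s' (cmb e₁ d₁ (cmb e₀ d₀ J I') I), halt hs', fun I I' => hint _,
        fun I' => ?_, fun I => ?_⟩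
      · rw [hax]
        exact FDSL_B_slice e₁ d₁ (hlev0 I') hag1
      · have h1 : ∀ s'' : (Fin n → Fin g) → F,
            (fun I' => s'' (cmb e₁ d₁ (cmb e₀ d₀ J I') I)) =
              fun I' => s'' (cmb e₀ d₀ (cmb e₁ d₁ J I) I') := by
          intro s''
          funext I'
          rw [hcomm]
        beta_reduce
        rw [hwx, h1, h1]
        exact FDSL_B_slice e₀ d₀ (hlev1 I) hag0)
    -- the restriction of `J` to the places of level `0`
    have hJ0 : ∀ t, lev (J (e₀ t : Fin n)) = 0 := by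
      intro t
      have h1 : lam (e₀ t : Fin n) = 0 := (e₀ t).2
      rw [hJ _ (by rw [h1]; exact hi₀.symm), h1]
    have hcmb : cmb e₀ d₀ J (fun t => d₀.symm ⟨J (e₀ t : Fin n), hJ0 t⟩) = J := by
      funext j
      unfold cmb
      by_cases h2 : lam j = 0
      · rw [dif_pos h2, Equiv.apply_symm_apply]
        simp
      · rw [dif_neg h2]
    refine ⟨fun I => f₀ I fun t => d₀.symm ⟨J (e₀ t : Fin n), hJ0 t⟩, ?_⟩
    have h3 := hf₀ fun t => d₀.symm ⟨J (e₀ t : Fin n), hJ0 t⟩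
    rwa [hcmb] at h3
  choose! f₀ hf₀ using star
  set D : Fin g → Fin ρ₁ := fun l => if h : lev l = i₀ then d₁.symm ⟨l, h⟩ else t₀ with hD
  have hDd : ∀ t, D (d₁ t : Fin g) = t := by
    intro t
    have h1 : lev (d₁ t : Fin g) = i₀ := (d₁ t).2
    simp only [hD, dif_pos h1, Subtype.coe_eta, Equiv.symm_apply_apply]
  set s₁ : (Fin n → Fin g) → k := fun K =>
    f₀ (fun j => if lam j = i₀ then (d₁ t₀ : Fin g) else K j)
      fun t => D (K (e₁ t : Fin n)) with hs₁
  have hag : AgrL lev x lam i₀ s fun I => algebraMap k F (s₁ I) := by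
    intro c hc hcx
    refine evf_eq_of_span (T := fun j => if lam j = i₀ then
      {v : Fin g → F | (∀ l, lev l ≠ i₀ → v l = 0) ∧ pr x v = 0} else
      {v : Fin g → F | ∃ l, lev l = lam j ∧ v = Pi.single l 1}) ?_ c ?_
    · intro c' hc'
      have h1 : ∀ j, lam j = i₀ → (∀ l, lev l ≠ i₀ → c' j l = 0) ∧ pr x (c' j) = 0 := by
        intro j hj
        have h2 := hc' j
        rw [if_pos hj] at h2
        exact h2
      have h2 : ∀ j, ∃ l, (lam j ≠ i₀ → lev l = lam j ∧ c' j = Pi.single l 1) ∧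
          (lam j = i₀ → l = (d₁ t₀ : Fin g)) := by
        intro j
        by_cases hj : lam j = i₀
        · exact ⟨d₁ t₀, fun h => absurd hj h, fun _ => rfl⟩
        · have h3 := hc' j
          rw [if_neg hj] at h3
          obtain ⟨l, hl1, hl2⟩ := h3
          exact ⟨l, fun _ => ⟨hl1, hl2⟩, fun h => absurd h hj⟩
      choose J hJ1 hJ2 using h2
      have hval : ∀ j, lam j ≠ i₀ → lev (J j) = lam j := fun j hj => (hJ1 j hj).1
      rw [evf_cmb s e₁ d₁ J c' (fun j hj => (h1 j hj).1) fun j hj => (hJ1 j hj).2,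
        evf_cmb _ e₁ d₁ J c' (fun j hj => (h1 j hj).1) fun j hj => (hJ1 j hj).2]
      have h3 : ∀ I, s₁ (cmb e₁ d₁ J I) = f₀ J I := by
        intro I
        have h4 : (fun j => if lam j = i₀ then (d₁ t₀ : Fin g) else cmb e₁ d₁ J I j) = J := by
          funext j
          by_cases hj : lam j = i₀
          · rw [if_pos hj, hJ2 j hj]
          · rw [if_neg hj]
            unfold cmb
            rw [dif_neg hj]
        have h5 : (fun t => D (cmb e₁ d₁ J I (e₁ t : Fin n))) = I := by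
          funext t
          have h6 : lam (e₁ t : Fin n) = i₀ := (e₁ t).2
          unfold cmb
          rw [dif_pos h6, hDd]
          simp
        simp only [hs₁]
        rw [h4, h5]
      simp only [h3]
      refine hf₀ J hval _ fun t => ?_
      have h7 : lam (e₁ t : Fin n) = i₀ := (e₁ t).2
      have h8 := (h1 _ h7).2
      rw [pr_level x d₁ (h1 _ h7).1] at h8
      rw [← h8]
      unfold pr
      refine Finset.sum_congr rfl fun l _ => ?_
      beta_reduce
      rw [ha]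
    · intro j
      by_cases hj : lam j = i₀
      · rw [if_pos hj]
        refine Submodule.subset_span ⟨fun l hl => hc j l (by rwa [hj]), hcx j hj⟩
      · rw [if_neg hj]
        have key : ∀ inst : DecidableEq (Fin g), c j ∈ Submodule.span F {v : Fin g → F |
            ∃ l, lev l = lam j ∧ v = @Pi.single (Fin g) (fun _ => F) _ inst l 1} := by
          intro inst
          have h1 : inst = fun a b => Classical.propDecidable (a = b) := Subsingleton.elim _ _
          subst h1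
          exact mem_span_units lev (lam j) (hc j)
        exact key _
  refine ⟨FDSL_B_as lam i₀ s₁, FDSL_B_altG s₁, ?_⟩
  intro c hc hcx
  have : CharZero F := charZero_of_injective_algebraMap (algebraMap k F).injective
  have hcard0 : ((FDSL_B_G lam i₀).card : F) ≠ 0 := by
    rw [Nat.cast_ne_zero]
    exact (Finset.card_pos.2 ⟨1, FDSL_B_one⟩).ne'
  have h1 : ∀ σ ∈ FDSL_B_G lam i₀,
      evf (fun K => algebraMap k F (s₁ (K ∘ σ))) c =
        ((Equiv.Perm.sign σ : ℤˣ) : ℤ) • evf s c := by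
    intro σ hσ
    rw [FDSL_B_comp (fun K => algebraMap k F (s₁ K)) c σ, ← evf_perm hs c σ]
    refine (hag (c ∘ σ) ?_ ?_).symm
    · intro j l hl
      refine hc (σ j) l ?_
      rwa [FDSL_B_lam hσ]
    · intro j hj
      refine hcx (σ j) ?_
      rw [FDSL_B_lam hσ, hj]
  have h2 : evf (fun I => algebraMap k F (FDSL_B_as lam i₀ s₁ I)) c =
      ((FDSL_B_G lam i₀).card : F)⁻¹ * ∑ σ ∈ FDSL_B_G lam i₀,
        (((Equiv.Perm.sign σ : ℤˣ) : ℤ) : F) * evf (fun K => algebraMap k F (s₁ (K ∘ σ))) c := by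
    unfold evf FDSL_B_as
    simp only [map_mul, map_sum, map_inv₀, map_natCast, map_intCast, Finset.mul_sum]
    rw [Finset.sum_comm]
    refine Finset.sum_congr rfl fun σ _ => Finset.sum_congr rfl fun I _ => ?_
    ring
  rw [h2]
  have h3 : ∀ σ ∈ FDSL_B_G lam i₀, (((Equiv.Perm.sign σ : ℤˣ) : ℤ) : F) *
      evf (fun K => algebraMap k F (s₁ (K ∘ σ))) c = evf s c := by
    intro σ hσ
    rw [h1 σ hσ, zsmul_eq_mul, ← mul_assoc, ← Int.cast_mul, Int.units_coe_mul_self,
      Int.cast_one, one_mul]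
  rw [Finset.sum_congr rfl h3, Finset.sum_const, nsmul_eq_mul, inv_mul_cancel_left₀ hcard0]

end Pool.Agent.MPd118f9
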