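import Pool.Agent.Lib.MP_d118f9_ag_G.FDSL_S

/-!
# MP_d118f9_ag, covers of any degree, DSL: from one to all arguments outside the kernel
-/

set_option autoImplicit false

noncomputable section

open Classical

namespace Pool.Agent.MPd118f9

private theorem dslE_alt {F : Type} [Field F] [CharZero F] {r g n : ℕ}
    {lam : Fin n → Fin (r + 1)} {i₀ : Fin (r + 1)} {φ : (Fin n → Fin g) → F}
    (hφ : AltG lam i₀ φ) (c : Fin n → Fin g → F) {j₁ j₂ : Fin n} (h1 : lam j₁ = i₀)
    (h2 : lam j₂ = i₀) (hne : j₁ ≠ j₂) (hc : c j₁ = c j₂) : evf φ c = 0 := by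
  have hs : c ∘ Equiv.swap j₁ j₂ = c := by
    funext j
    rw [Function.comp_apply]
    by_cases e1 : j = j₁
    · rw [e1, Equiv.swap_apply_left, hc]
    · by_cases e2 : j = j₂
      · rw [e2, Equiv.swap_apply_right, hc]
      · rw [Equiv.swap_apply_of_ne_of_ne e1 e2]
  have h3 : evf φ (c ∘ Equiv.swap j₁ j₂) = -evf φ c := by
    unfold evf
    rw [← Finset.sum_neg_distrib]
    refine (Fintype.sum_equiv
      (Equiv.arrowCongr (Equiv.swap j₁ j₂).symm (Equiv.refl (Fin g))) _ _ fun I => ?_).symm
    have hp : ∏ j, c (Equiv.swap j₁ j₂ j) (I (Equiv.swap j₁ j₂ j)) = ∏ j, c j (I j) :=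
      Equiv.prod_comp (Equiv.swap j₁ j₂) fun j => c j (I j)
    have hq : φ (I ∘ Equiv.swap j₁ j₂) = -φ I := by
      rw [hφ (Equiv.swap j₁ j₂) (fun j hj => Equiv.swap_apply_of_ne_of_ne
        (fun e => hj (by rw [e, h1])) fun e => hj (by rw [e, h2])) I,
        Equiv.Perm.sign_swap hne, Units.val_neg, Units.val_one, neg_smul, one_smul]
    change -((∏ j, c j (I j)) * φ I) =
      (∏ j, c (Equiv.swap j₁ j₂ j) (I (Equiv.swap j₁ j₂ j))) * φ (I ∘ Equiv.swap j₁ j₂)
    rw [hp, hq, mul_neg]
  rw [hs] at h3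
  exact self_eq_neg.1 h3

private theorem dslE_split {F : Type} [Field F] {r g : ℕ} {lev : Fin g → Fin (r + 1)}
    {x : Fin g → F} {i₀ : Fin (r + 1)} {l₀ : Fin g} (hl₀ : lev l₀ = i₀) (hx : x l₀ ≠ 0)
    (v : Fin g → F) (hv : ∀ l, lev l ≠ i₀ → v l = 0) :
    ∃ (y : F) (m : Fin g → F), v = y • Pi.single l₀ 1 + m ∧ pr x m = 0 ∧
      ∀ l, lev l ≠ i₀ → m l = 0 := by
  refine ⟨pr x v / x l₀, v - (pr x v / x l₀) • Pi.single l₀ 1, by
    rw [add_sub_cancel], ?_, fun l hl => ?_⟩
  · have h1 : pr x (v - (pr x v / x l₀) • Pi.single l₀ 1) =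
        pr x v - pr x v / x l₀ * x l₀ := by
      have h2 : ∀ (a b : Fin g → F) (t : F), pr x (a - t • b) = pr x a - t * pr x b := by
        intro a b t
        unfold pr
        rw [Finset.mul_sum, ← Finset.sum_sub_distrib]
        exact Finset.sum_congr rfl fun l _ => by
          rw [Pi.sub_apply, Pi.smul_apply, smul_eq_mul]
          ring
      rw [h2]
      have h3 : pr x (Pi.single l₀ 1) = x l₀ := by
        unfold pr
        rw [Finset.sum_eq_single l₀, Pi.single_eq_same, mul_one]
        · intro l _ hl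
          rw [Pi.single_eq_of_ne hl, mul_zero]
        · intro h
          exact absurd (Finset.mem_univ _) h
      rw [h3]
    rw [h1, div_mul_cancel₀ _ hx, sub_self]
  · have h1 : l ≠ l₀ := fun e => hl (by rw [e, hl₀])
    rw [Pi.sub_apply, Pi.smul_apply, Pi.single_eq_of_ne h1, smul_zero, sub_zero, hv l hl]

private theorem dslE_ind {F : Type} [Field F] [CharZero F] {r g n : ℕ}
    {lev : Fin g → Fin (r + 1)} {x : Fin g → F} {lam : Fin n → Fin (r + 1)}
    {i i₀ : Fin (r + 1)} (hi : i ≠ i₀)
    {φ : (Fin n → Fin g) → F} (hφ : AltG lam i₀ φ) {l₀ : Fin g} (hl₀ : lev l₀ = i₀)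
    (hx : x l₀ ≠ 0)
    (h2 : ∀ c : Fin n → Fin g → F, (∀ j l, lev l ≠ lam j → c j l = 0) →
      (∀ j, lam j = i → pr x (c j) = 0) → (∀ j, lam j = i₀ → pr x (c j) = 0) → evf φ c = 0)
    (h1 : ∀ j₀, lam j₀ = i₀ → ∀ c : Fin n → Fin g → F, (∀ j l, lev l ≠ lam j → c j l = 0) →
      (∀ j, lam j = i → pr x (c j) = 0) → (∀ j, j ≠ j₀ → lam j = i₀ → pr x (c j) = 0) →
      evf φ c = 0) (t : ℕ) : ∀ (T : Finset (Fin n)), (∀ j ∈ T, lam j = i₀) → T.card = t →
      ∀ c : Fin n → Fin g → F, (∀ j l, lev l ≠ lam j → c j l = 0) →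
      (∀ j, lam j = i → pr x (c j) = 0) → (∀ j, j ∉ T → lam j = i₀ → pr x (c j) = 0) →
      evf φ c = 0 := by
  induction t with
  | zero =>
    intro T _ hT0 c hc hc1 hc2
    rw [Finset.card_eq_zero] at hT0
    subst hT0
    exact h2 c hc hc1 fun j hj => hc2 j (Finset.notMem_empty j) hj
  | succ t ih =>
    intro T hT hTt c hc hc1 hc2
    obtain ⟨j₁, T', hj₁, rfl, hT'⟩ := Finset.card_eq_succ.1 hTt
    have hl₁ : lam j₁ = i₀ := hT j₁ (Finset.mem_insert_self _ _)
    rcases Nat.eq_zero_or_pos t with ht | ht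
    · rw [ht, Finset.card_eq_zero] at hT'
      subst hT'
      exact h1 j₁ hl₁ c hc hc1 fun j hj hj0 => hc2 j (by
        rw [Finset.mem_insert]
        rintro (e | e)
        · exact hj e
        · exact Finset.notMem_empty j e) hj0
    · obtain ⟨j₂, hj₂⟩ := Finset.card_pos.1 (by rw [hT']; exact ht)
      have hl₂ : lam j₂ = i₀ := hT j₂ (Finset.mem_insert_of_mem hj₂)
      have h12 : j₂ ≠ j₁ := fun e => hj₁ (e ▸ hj₂)
      obtain ⟨y, m, hy, hm, hm0⟩ := dslE_split (lev := lev) hl₀ hx (c j₁)
        fun l hl => hc j₁ l (by rw [hl₁]; exact hl)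
      obtain ⟨y', m', hy', hm', hm0'⟩ := dslE_split (lev := lev) hl₀ hx (c j₂)
        fun l hl => hc j₂ l (by rw [hl₂]; exact hl)
      have hu : ∀ (c' : Fin n → Fin g → F) (j : Fin n) (v : Fin g → F), lam j = i₀ →
          (∀ l, lev l ≠ i₀ → v l = 0) → (∀ j l, lev l ≠ lam j → c' j l = 0) →
          ∀ j' l, lev l ≠ lam j' → Function.update c' j v j' l = 0 := by
        intro c' j v hj hv hc' j' l hl
        by_cases e : j' = j
        · rw [e, Function.update_self]
          exact hv l (by rw [e, hj] at hl; exact hl)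
        · rw [Function.update_of_ne e]
          exact hc' j' l hl
      have hk : ∀ (c' : Fin n → Fin g → F) (j : Fin n) (v : Fin g → F), lam j = i₀ →
          (∀ j, lam j = i → pr x (c' j) = 0) →
          ∀ j', lam j' = i → pr x (Function.update c' j v j') = 0 := by
        intro c' j v hj hc' j' hj'
        have e : j' ≠ j := fun e => hi (by rw [← hj', e, hj])
        rw [Function.update_of_ne e]
        exact hc' j' hj'
      have hse : ∀ l, lev l ≠ i₀ → (Pi.single l₀ 1 : Fin g → F) l = 0 := fun l hl =>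
        Pi.single_eq_of_ne (fun e => hl (by rw [e, hl₀])) _
      have e1 : evf φ c = y * evf φ (Function.update c j₁ (Pi.single l₀ 1)) +
          evf φ (Function.update c j₁ m) := by
        rw [← evf_update_smul, ← evf_update_add, ← hy, Function.update_eq_self]
      have e2 : evf φ (Function.update c j₁ m) = 0 := by
        refine ih T' (fun j hj => hT j (Finset.mem_insert_of_mem hj)) hT' _
          (hu c j₁ m hl₁ hm0 hc) (hk c j₁ m hl₁ hc1) fun j hj hj0 => ?_
        by_cases e : j = j₁
        · rw [e, Function.update_self, hm]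
        · rw [Function.update_of_ne e]
          exact hc2 j (by
            rw [Finset.mem_insert]
            rintro (e' | e')
            · exact e e'
            · exact hj e') hj0
      have e3 : Function.update c j₁ (Pi.single l₀ 1) j₂ = y' • Pi.single l₀ 1 + m' := by
        rw [Function.update_of_ne h12, hy']
      have e4 : evf φ (Function.update c j₁ (Pi.single l₀ 1)) =
          y' * evf φ (Function.update (Function.update c j₁ (Pi.single l₀ 1)) j₂
            (Pi.single l₀ 1)) +
          evf φ (Function.update (Function.update c j₁ (Pi.single l₀ 1)) j₂ m') := by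
        rw [← evf_update_smul, ← evf_update_add, ← e3, Function.update_eq_self]
      have e5 : evf φ (Function.update (Function.update c j₁ (Pi.single l₀ 1)) j₂ m') = 0 := by
        refine ih (insert j₁ (T'.erase j₂)) (fun j hj => ?_) ?_ _
          (hu _ j₂ m' hl₂ hm0' (hu c j₁ _ hl₁ hse hc))
          (hk _ j₂ m' hl₂ (hk c j₁ _ hl₁ hc1)) fun j hj hj0 => ?_
        · rcases Finset.mem_insert.1 hj with e | e
          · rw [e, hl₁]
          · exact hT j (Finset.mem_insert_of_mem (Finset.mem_of_mem_erase e))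
        · rw [Finset.card_insert_of_notMem fun h => hj₁ (Finset.mem_of_mem_erase h),
            Finset.card_erase_of_mem hj₂, hT']
          omega
        · rw [Finset.mem_insert, not_or] at hj
          by_cases e : j = j₂
          · rw [e, Function.update_self, hm']
          · rw [Function.update_of_ne e, Function.update_of_ne hj.1]
            exact hc2 j (by
              rw [Finset.mem_insert]
              rintro (e' | e')
              · exact hj.1 e'
              · exact hj.2 (Finset.mem_erase.2 ⟨e, e'⟩)) hj0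
      have e6 : evf φ (Function.update (Function.update c j₁ (Pi.single l₀ 1)) j₂
          (Pi.single l₀ 1)) = 0 :=
        dslE_alt hφ _ hl₁ hl₂ (Ne.symm h12) (by
          rw [Function.update_of_ne (Ne.symm h12), Function.update_self, Function.update_self])
      rw [e1, e2, e4, e5, e6, mul_zero, add_zero, add_zero, mul_zero]

/-- Let `φ` be alternating in the arguments of level `i₀`, and let it vanish if the arguments of
level `i ≠ i₀` and the arguments of level `i₀` with at most one exception are in the kernel of `x`.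
Then it vanishes if the arguments of level `i` are in the kernel.
Proof.  By induction on `t`: `φ` vanishes if the arguments of level `i` are in the kernel and the
arguments of level `i₀` outside a finset `T` of places, `T.card ≤ t`, are in the kernel.  `t ≤ 1` is
`h1` (and `h2` for `T` empty).  Let `t ≥ 1`, `T` of cardinality `t`, and `j₁` a further place of
level `i₀`.  Write `c j₁ = y • e_l₀ + m`, `y = pr x (c j₁) / x l₀`, `m` in the kernel and supported
on
the level `i₀`: the term with `m` vanishes by the hypothesis for `T`.  Take `j₂ ∈ T`, `c j₂ = y' •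
e_l₀ + m'`: with `e_l₀` at `j₁` and `m'` at `j₂` the form vanishes by the hypothesis for `T` with
`j₂`
replaced by `j₁`; with `e_l₀` at `j₁` and `j₂` it vanishes since `φ` is alternating in the arguments
of level `i₀` (`evf φ (c ∘ swap j₁ j₂) = - evf φ c` by `AltG` with the transposition, as in
`evf_perm`, and `2 ≠ 0`). -/
theorem dsl_E {F : Type} [Field F] [CharZero F] {r g n : ℕ} {lev : Fin g → Fin (r + 1)}
    {x : Fin g → F} {lam : Fin n → Fin (r + 1)} {i i₀ : Fin (r + 1)} (hi : i ≠ i₀)
    {φ : (Fin n → Fin g) → F} (hφ : AltG lam i₀ φ) {l₀ : Fin g} (hl₀ : lev l₀ = i₀)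
    (hx : x l₀ ≠ 0)
    (h2 : ∀ c : Fin n → Fin g → F, (∀ j l, lev l ≠ lam j → c j l = 0) →
      (∀ j, lam j = i → pr x (c j) = 0) → (∀ j, lam j = i₀ → pr x (c j) = 0) → evf φ c = 0)
    (h1 : ∀ j₀, lam j₀ = i₀ → ∀ c : Fin n → Fin g → F, (∀ j l, lev l ≠ lam j → c j l = 0) →
      (∀ j, lam j = i → pr x (c j) = 0) → (∀ j, j ≠ j₀ → lam j = i₀ → pr x (c j) = 0) →
      evf φ c = 0)
    (c : Fin n → Fin g → F) (hc : ∀ j l, lev l ≠ lam j → c j l = 0)
    (hc1 : ∀ j, lam j = i → pr x (c j) = 0) : evf φ c = 0 :=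
  dslE_ind hi hφ hl₀ hx h2 h1 _ (Finset.univ.filter fun j => lam j = i₀)
    (fun _ hj => (Finset.mem_filter.1 hj).2) rfl c hc hc1
    fun j hj hj0 => absurd (Finset.mem_filter.2 ⟨Finset.mem_univ j, hj0⟩) hj

end Pool.Agent.MPd118f9
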