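import Pool.Agent.Lib.MP_d118f9_ag_G.FDSL_R

/-!
# MP_d118f9_ag, covers of any degree, DSL: one argument outside the kernel
-/

set_option autoImplicit false

noncomputable section

open Classical

namespace Pool.Agent.MPd118f9

variable {k F : Type} [Field k] [IsAlgClosed k] [CharZero k] [Field F] [Algebra k F]

/-- `l(E) ≤ m` if `deg E < m`. -/
private theorem dslg_ell_le (hF : IsCurve k F) (E : Dv k F) (m : ℕ) (hm : deg E < m) :
    ell E ≤ m := by
  obtain ⟨P⟩ := nonempty_pt hF
  have h1 : E - Finsupp.single P (m : ℤ) ≤ E := by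
    rw [sub_le_self_iff]
    exact Finsupp.single_nonneg.2 (by positivity)
  have h2 := hF.ell_le_add h1
  have h3 : deg (E - Finsupp.single P (m : ℤ)) < 0 := by
    rw [deg_sub, deg_single]
    linarith
  rw [hF.ell_of_deg_neg h3, deg_sub, deg_single] at h2
  have h4 : (ell E : ℤ) ≤ m := by
    push_cast at h2
    linarith
  exact_mod_cast h4

private theorem dslg_sum {Q : Pt k F} {n : ℤ} {ι : Type} (s : Finset ι) {f : ι → F}
    (h : ∀ i ∈ s, LeOrd Q n (f i)) : LeOrd Q n (∑ i ∈ s, f i) := by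
  induction s using Finset.induction_on with
  | empty =>
    rw [Finset.sum_empty]
    exact LeOrd.zero _ _
  | insert a s ha ih =>
    rw [Finset.sum_insert ha]
    exact (h a (Finset.mem_insert_self _ _)).add
      (ih fun i hi => h i (Finset.mem_insert_of_mem hi))

private theorem dslg_prod {Q : Pt k F} {ι : Type} (s : Finset ι) {f : ι → F} {a : ι → ℤ}
    (h : ∀ i ∈ s, LeOrd Q (a i) (f i)) : LeOrd Q (∑ i ∈ s, a i) (∏ i ∈ s, f i) := by
  induction s using Finset.induction_on with
  | empty =>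
    rw [Finset.sum_empty, Finset.prod_empty, ← map_one (algebraMap k F)]
    exact LeOrd.const _ _
  | insert b s hb ih =>
    rw [Finset.sum_insert hb, Finset.prod_insert hb]
    exact (h b (Finset.mem_insert_self _ _)).mul
      (ih fun i hi => h i (Finset.mem_insert_of_mem hi))

private theorem dslg_evf {Q : Pt k F} {n g : ℕ} {φ : (Fin n → Fin g) → F}
    (hφ : ∀ I, LeOrd Q 0 (φ I)) {D : Fin n → Dv k F} {c : Fin n → Fin g → F}
    (hc : ∀ j l, c j l ∈ L (D j)) : LeOrd Q (-(∑ j, D j) Q) (evf φ c) := by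
  unfold evf
  refine dslg_sum _ fun I _ => ?_
  have h1 : LeOrd Q (∑ j, -(D j) Q) (∏ j, c j (I j)) :=
    dslg_prod _ fun j _ => inA_const.2 (hc j (I j)) Q
  have h2 := h1.mul (hφ I)
  rw [add_zero] at h2
  have h3 : ∑ j, -(D j) Q = -(∑ j, D j) Q := by
    rw [Finset.sum_neg_distrib, Finsupp.finsetSum_apply]
  rwa [h3] at h2

private theorem dslg_single {g : ℕ} (l l' : Fin g) :
    (Pi.single l (1 : F) : Fin g → F) l' ∈ L (0 : Dv k F) := by
  by_cases h : l' = l
  · subst h
    rw [Pi.single_eq_same]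
    exact one_mem_L le_rfl
  · rw [Pi.single_eq_of_ne h]
    exact (L (0 : Dv k F)).zero_mem

private theorem dslg_inst {g : ℕ} (i₁ i₂ : DecidableEq (Fin g)) (l : Fin g) :
    (@Pi.single (Fin g) (fun _ => F) _ i₁ l (1 : F)) =
      @Pi.single (Fin g) (fun _ => F) _ i₂ l (1 : F) := by
  rw [Subsingleton.elim i₁ i₂]

private theorem dslg_upd {n g : ℕ} (φ : (Fin n → Fin g) → F) (c : Fin n → Fin g → F) (j : Fin n)
    (u v : F) (a b : Fin g → F) : evf φ (Function.update c j (u • a + v • b)) =
      u * evf φ (Function.update c j a) + v * evf φ (Function.update c j b) := by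
  rw [evf_update_add, evf_update_smul, evf_update_smul]

private theorem dslg_pr {g : ℕ} (x : Fin g → F) (l l' : Fin g) :
    pr x (x l' • Pi.single l (1 : F) + (-x l) • Pi.single l' (1 : F)) = 0 := by
  unfold pr
  have h1 : ∀ a : Fin g, x a * (x l' • Pi.single l (1 : F) + (-x l) • Pi.single l' (1 : F)
      : Fin g → F) a = x l' * (x a * (Pi.single l (1 : F) : Fin g → F) a) -
        x l * (x a * (Pi.single l' (1 : F) : Fin g → F) a) := by
    intro a
    rw [Pi.add_apply, Pi.smul_apply, Pi.smul_apply, smul_eq_mul, smul_eq_mul]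
    ring
  rw [Finset.sum_congr rfl fun a _ => h1 a, Finset.sum_sub_distrib, ← Finset.mul_sum,
    ← Finset.mul_sum]
  simp only [Pi.single_apply, mul_ite, mul_one, mul_zero, Finset.sum_ite_eq', Finset.mem_univ,
    if_true]
  ring

/-- If `s` and the constant form `s₀` agree when the arguments of level `i₀` are in the kernel of
`x`, they agree when the arguments of another level `i` and the arguments of level `i₀` with one
exception `j₀` are in the kernel.
Proof.  By `evf_eq_of_span`, `mem_span_units` and `mem_span_small` we may assume: `c j` is a unit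
vector of level `lam j` for `j = j₀` and for `lam j ≠ i, i₀`, and `c j` has entries in `L(D_j)`,
`deg D_j ≤ 2h + 2`, and is in the kernel for the other `j`.  Let
`χ l = evf s c - evf s₀ c` with `c j₀ := e_l`, `lev l = i₀`.  For two such `l, l'` the vector
`x l' • e_l - x l • e_l'` is in the kernel, so `x l' * χ l = x l * χ l'` (`h0`), and for some `l₁`
of level `i₀` we have `x l₁ ≠ 0` (`hl`: otherwise all `x l` of level `i₀` vanish and
`L(κ i₀) = 0`): `χ l = γ * x l`, `γ = χ l₁ / x l₁`.  At a point `Q` let `s'` be as in `hloc`: `evf s c = evf s' c`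
(the arguments of level `i` are in the kernel), so `LeOrd Q (-(∑ D_j) Q) (χ l)` (values of `s'` and
`s₀` are integral, the entries of the `c j` are in `L(D_j)`, with `D_j = 0` for unit vectors).
Hence `γ * y ∈ L(∑ D_j)` for all `y ∈ L(κ i₀)` (these are combinations of the `x l`), and
`deg (∑ D_j) ≤ n (2h + 2) < N₁ ≤ deg (κ i₀)`.  Since `L(κ i₀)` is base point free
(`deg κ i₀ ≥ 2h`: for every `Q` there is `y` with `Q.ord y = -κ i₀ Q`), `γ ∈ L(∑ D_j - κ i₀) = 0`.
So `χ = 0`. -/
theorem dsl_G (hF : IsCurve k F) {W : Dv k F} (hW : IsCan W) {N₁ : ℤ} {r g n : ℕ}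
    {lev : Fin g → Fin (r + 1)} {x : Fin g → F} {κ : Fin (r + 1) → Dv k F}
    (hL : IsLvl W lev x κ) (hκ : ∀ i, i ≠ 0 → N₁ ≤ deg (κ i))
    (hN₁ : ((n : ℤ) + 3) * (2 * (genus k F : ℤ) + 3) ≤ N₁) (lam : Fin n → Fin (r + 1))
    {s : (Fin n → Fin g) → F} {i i₀ : Fin (r + 1)} (hi₀ : i₀ ≠ 0) (hi : i ≠ i₀)
    (hloc : ∀ Q : Pt k F, ∃ s' : (Fin n → Fin g) → F, (∀ I, LeOrd Q 0 (s' I)) ∧
      AgrL lev x lam i s s') {s₀ : (Fin n → Fin g) → k}
    (h0 : AgrL lev x lam i₀ s fun I => algebraMap k F (s₀ I)) {j₀ : Fin n} (hj₀ : lam j₀ = i₀)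
    (c : Fin n → Fin g → F) (hc : ∀ j l, lev l ≠ lam j → c j l = 0)
    (hc1 : ∀ j, lam j = i → pr x (c j) = 0)
    (hc2 : ∀ j, j ≠ j₀ → lam j = i₀ → pr x (c j) = 0) :
    evf s c = evf (fun I => algebraMap k F (s₀ I)) c := by
  have hn0 : (0 : ℤ) ≤ n := by positivity
  have hg0 : (0 : ℤ) ≤ genus k F := by positivity
  have h6 : ∀ i, i ≠ 0 → 6 * (genus k F : ℤ) + 6 ≤ deg (κ i) := by
    intro i hi
    refine le_trans ?_ (hκ i hi)
    refine le_trans ?_ hN₁
    nlinarith
  let P : Fin n → Prop := fun j => lam j = i ∨ (lam j = i₀ ∧ j ≠ j₀)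
  let T : Fin n → Set (Fin g → F) := fun j =>
    if P j then
      {m : Fin g → F | (∀ l, lev l ≠ lam j → m l = 0) ∧
        (∃ D : Dv k F, deg D ≤ 2 * (genus k F : ℤ) + 2 ∧ ∀ l, m l ∈ L D) ∧ pr x m = 0}
    else {v : Fin g → F | ∃ l, lev l = lam j ∧ v = Pi.single l 1}
  have hT : ∀ j, c j ∈ Submodule.span F (T j) := by
    intro j
    by_cases hj : P j
    · have h1 : pr x (c j) = 0 := by
        rcases hj with h | h
        · exact hc1 j h
        · exact hc2 j h.2 h.1
      have h2 := mem_span_small hF hW hL h6 (lam j) (hc j) h1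
      have h3 : T j = {m : Fin g → F | (∀ l, lev l ≠ lam j → m l = 0) ∧
        (∃ D : Dv k F, deg D ≤ 2 * (genus k F : ℤ) + 2 ∧ ∀ l, m l ∈ L D) ∧ pr x m = 0} :=
        if_pos hj
      rw [h3]
      exact h2
    · have h2 := mem_span_units lev (lam j) (hc j)
      have h3 : T j = {v : Fin g → F | ∃ l, lev l = lam j ∧ v = Pi.single l 1} := if_neg hj
      rw [h3]
      refine Submodule.span_mono ?_ h2
      rintro v ⟨l, h, rfl⟩
      refine ⟨l, h, ?_⟩
      exact dslg_inst _ _ l
  refine evf_eq_of_span (T := T) ?_ c hT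
  clear hT hc hc1 hc2 c
  intro c hcT
  have hP : ∀ j, P j → (∀ l, lev l ≠ lam j → c j l = 0) ∧
      (∃ D : Dv k F, deg D ≤ 2 * (genus k F : ℤ) + 2 ∧ ∀ l, c j l ∈ L D) ∧
      pr x (c j) = 0 := by
    intro j hj
    have h1 := hcT j
    have h3 : T j = {m : Fin g → F | (∀ l, lev l ≠ lam j → m l = 0) ∧
      (∃ D : Dv k F, deg D ≤ 2 * (genus k F : ℤ) + 2 ∧ ∀ l, m l ∈ L D) ∧ pr x m = 0} :=
      if_pos hj
    rw [h3] at h1
    exact h1
  have hN : ∀ j, ¬P j → ∃ l, lev l = lam j ∧ c j = Pi.single l 1 := by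
    intro j hj
    have h1 := hcT j
    have h3 : T j = {v : Fin g → F | ∃ l, lev l = lam j ∧ v = Pi.single l 1} := if_neg hj
    rw [h3] at h1
    exact h1
  have hc : ∀ j l, lev l ≠ lam j → c j l = 0 := by
    intro j l hl
    by_cases hj : P j
    · exact (hP j hj).1 l hl
    · obtain ⟨l', h1, h2⟩ := hN j hj
      rw [h2, Pi.single_eq_of_ne]
      rintro rfl
      exact hl h1
  have hD : ∀ j, ∃ D : Dv k F, deg D ≤ 2 * (genus k F : ℤ) + 2 ∧ ∀ l, c j l ∈ L D := by
    intro j
    by_cases hj : P j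
    · exact (hP j hj).2.1
    · obtain ⟨l', h1, h2⟩ := hN j hj
      refine ⟨0, by rw [deg_zero]; linarith, fun l => ?_⟩
      rw [h2]
      exact dslg_single l' l
  choose D hD1 hD2 using hD
  have hPj₀ : ¬P j₀ := by
    rintro (h | h)
    · exact hi (h.symm.trans hj₀)
    · exact h.2 rfl
  obtain ⟨l₀, hl₀, hcl⟩ := hN j₀ hPj₀
  rw [hj₀] at hl₀
  obtain ⟨e, he⟩ : ∃ e : Fin g → Fin n → Fin g → F,
      ∀ l, e l = Function.update c j₀ (Pi.single l 1) := ⟨_, fun _ => rfl⟩
  obtain ⟨s₀', hs₀'⟩ : ∃ s₀' : (Fin n → Fin g) → F, s₀' = fun I => algebraMap k F (s₀ I) :=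
    ⟨_, rfl⟩
  rw [← hs₀'] at h0 ⊢
  obtain ⟨χ, hχd⟩ : ∃ χ : Fin g → F, ∀ l, χ l = evf s (e l) - evf s₀' (e l) :=
    ⟨_, fun _ => rfl⟩
  -- support
  have hupd : ∀ a : Fin g → F, (∀ l, lev l ≠ i₀ → a l = 0) →
      (∀ j l, lev l ≠ lam j → Function.update c j₀ a j l = 0) := by
    intro a ha j l hl
    by_cases hj : j = j₀
    · subst hj
      rw [Function.update_self]
      rw [hj₀] at hl
      exact ha l hl
    · rw [Function.update_of_ne hj]
      exact hc j l hl
  have hupi : ∀ a : Fin g → F, ∀ j, lam j = i → pr x (Function.update c j₀ a j) = 0 := by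
    intro a j hj
    have h1 : j ≠ j₀ := by
      rintro rfl
      exact hi (hj.symm.trans hj₀)
    rw [Function.update_of_ne h1]
    exact (hP j (Or.inl hj)).2.2
  have hsup : ∀ l, lev l = i₀ → ∀ l', lev l' ≠ i₀ → (Pi.single l (1 : F) : Fin g → F) l' = 0 := by
    intro l hl l' hl'
    rw [Pi.single_eq_of_ne]
    rintro rfl
    exact hl' hl
  -- the cross relation
  have hcross : ∀ l l', lev l = i₀ → lev l' = i₀ → x l' * χ l = x l * χ l' := by
    intro l l' hl hl'
    obtain ⟨a, had⟩ : ∃ a : Fin g → F, a = x l' • Pi.single l (1 : F) +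
        (-x l) • Pi.single l' (1 : F) := ⟨_, rfl⟩
    have ha : ∀ b, lev b ≠ i₀ → a b = 0 := by
      intro b hb
      rw [had, Pi.add_apply, Pi.smul_apply, Pi.smul_apply, hsup l hl b hb, hsup l' hl' b hb,
        smul_zero, smul_zero, add_zero]
    have h1 := h0 (Function.update c j₀ a) (hupd a ha) (by
      intro j hj
      by_cases hjj : j = j₀
      · subst hjj
        rw [Function.update_self, had]
        exact dslg_pr x l l'
      · rw [Function.update_of_ne hjj]
        exact (hP j (Or.inr ⟨hj, hjj⟩)).2.2)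
    rw [had, dslg_upd, dslg_upd, ← he, ← he] at h1
    rw [hχd, hχd]
    linear_combination h1
  -- integrality
  obtain ⟨E, hEd⟩ : ∃ E : Dv k F, E = ∑ j, Function.update D j₀ 0 j := ⟨_, rfl⟩
  have hχ : ∀ l, lev l = i₀ → χ l ∈ L E := by
    intro l hl
    rw [← inA_const]
    intro Q
    obtain ⟨s', hs', hagr⟩ := hloc Q
    have h1 := hagr (e l) (by rw [he]; exact hupd _ (hsup l hl)) (by rw [he]; exact hupi _)
    have h2 : ∀ j l', e l j l' ∈ L (Function.update D j₀ 0 j) := by
      intro j l'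
      rw [he]
      by_cases hj : j = j₀
      · subst hj
        rw [Function.update_self, Function.update_self]
        exact dslg_single l l'
      · rw [Function.update_of_ne hj, Function.update_of_ne hj]
        exact hD2 j l'
    have h3 : ∀ I, LeOrd Q 0 (s₀' I) := by
      intro I
      rw [hs₀']
      exact LeOrd.const Q _
    have h4 := (dslg_evf hs' h2).sub (dslg_evf h3 h2)
    rw [← h1, ← hEd, ← hχd] at h4
    exact h4
  have hE : deg E ≤ n * (2 * (genus k F : ℤ) + 2) := by
    have h1 : deg E = ∑ j, deg (Function.update D j₀ 0 j) := by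
      have h2 : ∀ s : Finset (Fin n), deg (∑ j ∈ s, Function.update D j₀ 0 j) =
          ∑ j ∈ s, deg (Function.update D j₀ 0 j) := by
        intro s
        induction s using Finset.induction_on with
        | empty => rw [Finset.sum_empty, Finset.sum_empty, deg_zero]
        | insert a s ha ih => rw [Finset.sum_insert ha, Finset.sum_insert ha, deg_add, ih]
      rw [hEd]
      exact h2 _
    rw [h1]
    have h3 : ∑ j : Fin n, deg (Function.update D j₀ 0 j) ≤
        ∑ j : Fin n, (2 * (genus k F : ℤ) + 2) := by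
      refine Finset.sum_le_sum fun j _ => ?_
      by_cases hj : j = j₀
      · subst hj
        rw [Function.update_self, deg_zero]
        linarith
      · rw [Function.update_of_ne hj]
        exact hD1 j
    refine h3.trans ?_
    rw [Finset.sum_const, Finset.card_univ, Fintype.card_fin, nsmul_eq_mul]
  -- the conclusion
  have hx0 : ∀ l, lev l = i₀ → x l ≠ 0 := fun l hl => (hL.indep i₀).ne_zero ⟨l, hl⟩
  have hzero : χ l₀ = 0 := by
    by_contra hne
    set γ : F := χ l₀ / x l₀ with hγ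
    have hγ0 : γ ≠ 0 := div_ne_zero hne (hx0 l₀ hl₀)
    have h1 : ∀ l, lev l = i₀ → γ * x l = χ l := by
      intro l hl
      have h2 := hcross l₀ l hl₀ hl
      rw [hγ, div_mul_eq_mul_div, mul_comm, h2, mul_div_cancel_left₀ _ (hx0 l₀ hl₀)]
    have h2 : ∀ y ∈ L (κ i₀), γ * y ∈ L E := by
      intro y hy
      rw [← hL.span i₀] at hy
      induction hy using Submodule.span_induction with
      | mem y hy =>
        obtain ⟨l, rfl⟩ := hy
        rw [h1 l l.2]
        exact hχ l l.2
      | zero =>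
        rw [mul_zero]
        exact (L E).zero_mem
      | add a b _ _ ha hb =>
        rw [mul_add]
        exact (L E).add_mem ha hb
      | smul t a _ ha =>
        rw [mul_smul_comm]
        exact (L E).smul_mem t ha
    have h3 : ell (κ i₀) ≤ ell E := by
      have hfin := hF.finDim E
      let f : L (κ i₀) →ₗ[k] L E := (LinearMap.mulLeft k γ).restrict h2
      have hf : Function.Injective f := by
        intro a b hab
        have h4 : γ * (a : F) = γ * (b : F) := congrArg Subtype.val hab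
        exact Subtype.ext (mul_left_cancel₀ hγ0 h4)
      exact LinearMap.finrank_le_finrank_of_injective hf
    have h4 := hF.le_ell (κ i₀)
    have h5 : ell E ≤ n * (2 * genus k F + 2) + 1 := by
      refine dslg_ell_le hF E _ ?_
      push_cast
      linarith
    have h6' : (ell (κ i₀) : ℤ) ≤ n * (2 * (genus k F : ℤ) + 2) + 1 := by
      exact_mod_cast h3.trans h5
    have h7 := hκ i₀ hi₀
    nlinarith
  have h8 : e l₀ = c := by
    rw [he, ← hcl]
    exact Function.update_eq_self _ _
  rw [hχd, h8] at hzero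
  exact sub_eq_zero.1 hzero

end Pool.Agent.MPd118f9
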