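import Pool.Agent.Lib.MP_d118f9_ag_G.FDSL_A
import Pool.Agent.Lib.MP_d118f9_ag_G.FDSL_B
import Pool.Agent.Lib.MP_d118f9_ag_G.FDSL_G
import Pool.Agent.Lib.MP_d118f9_ag_G.FDSL_E

/-!
# MP_d118f9_ag, covers of any degree: DSL
-/

set_option autoImplicit false

noncomputable section

open Classical

namespace Pool.Agent.MPd118f9

variable {k F : Type} [Field k] [IsAlgClosed k] [CharZero k] [Field F] [Algebra k F]

/-- The case in which there is a level without arguments. -/
private theorem fdsl_empty (hF : IsCurve k F) {r g n : ℕ} {lev : Fin g → Fin (r + 1)}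
    {x : Fin g → F} (lam : Fin n → Fin (r + 1)) {s : (Fin n → Fin g) → F} {i : Fin (r + 1)}
    (hi : ∀ j, lam j ≠ i)
    (hloc : ∀ Q : Pt k F, ∃ s' : (Fin n → Fin g) → F, Alt s' ∧ (∀ I, LeOrd Q 0 (s' I)) ∧
      ∀ i, AgrL lev x lam i s s') :
    ∃ s₀ : (Fin n → Fin g) → k, ∀ i, AgrL lev x lam i s fun I => algebraMap k F (s₀ I) := by
  have h1 : ∀ I : Fin n → Fin g, ∃ c : k, (∀ j, lev (I j) = lam j) → s I = algebraMap k F c := by
    intro I
    by_cases hI : ∀ j, lev (I j) = lam j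
    · have h2 : s I ∈ L (0 : Dv k F) := by
        refine inA_const.1 fun Q => ?_
        obtain ⟨s', -, hs'1, hs'2⟩ := hloc Q
        have h3 := hs'2 i (fun j => Pi.single (I j) 1) (fun j l hl => by
          rw [Pi.single_apply, if_neg]
          rintro rfl
          exact hl (hI j)) (fun j hj => absurd hj (hi j))
        have hes : ∀ φ : (Fin n → Fin g) → F, evf φ (fun j => Pi.single (I j) 1) = φ I := by
          intro φ
          have key : ∀ inst : DecidableEq (Fin g),
              evf φ (fun j => @Pi.single (Fin g) (fun _ => F) _ inst (I j) 1) = φ I := by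
            intro inst
            have h1 : inst = fun a b => Classical.propDecidable (a = b) := Subsingleton.elim _ _
            subst h1
            exact evf_single φ I
          exact key _
        rw [hes, hes] at h3
        have h4 : -(0 : Dv k F) Q = 0 := by
          rw [Finsupp.zero_apply, neg_zero]
        rw [h4, h3]
        exact hs'1 I
      obtain ⟨c, hc⟩ := hF.mem_L_zero.1 h2
      exact ⟨c, fun _ => hc⟩
    · exact ⟨0, fun h => absurd h hI⟩
  choose s₀ hs₀ using h1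
  refine ⟨s₀, fun i' c hc _ => ?_⟩
  unfold evf
  refine Finset.sum_congr rfl fun I _ => ?_
  by_cases hI : ∀ j, lev (I j) = lam j
  · rw [hs₀ I hI]
  · push Not at hI
    obtain ⟨j, hj⟩ := hI
    rw [Finset.prod_eq_zero (Finset.mem_univ j) (hc j (I j) hj), zero_mul, zero_mul]

/-- the counting argument -/
private theorem fdsl_count {r n G m m0 : ℕ} (hr : 1 ≤ r) (h1 : m0 + r * m ≤ n)
    (h2 : n + 2 ≤ (r + 1) * G) (h3 : G ≤ m) : m + m0 + 2 ≤ 2 * G := by
  obtain ⟨r', rfl⟩ := Nat.exists_eq_add_of_le' hr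
  have e1 : (r' + 1) * m = r' * m + m := by ring
  have e2 : (r' + 1 + 1) * G = r' * G + 2 * G := by ring
  have e3 := Nat.mul_le_mul_left r' h3
  omega

/-- DSL.
Proof.  Let `n_i` be the number of the places `j` with `lam j = i`.  (1) If `n_i = 0` for some `i`:
`AgrL` for this `i` at unit vectors (`evf_single`) gives `s I = s' I` for all `Q` and all `I` with
`lev (I j) = lam j`, so `s I ∈ L 0 = k` (`IsCurve.mem_L_zero`); `s₀ I` is this constant for such
`I` and `0` for the others; for vectors that are supported on the levels `lam j` only such `I`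
contribute to `evf`.  (2) Otherwise let `i₀ ≠ 0` have the smallest `n_i` (`i ≠ 0`).  `n_i₀ + 1 ≤
gon` (`dsl_A`), or `n_i₀ ≥ gon` and `n_0 + n_i₀ ≤ n - (r - 1) n_i₀ ≤ 2 gon - 2` (`dsl_B`).  So there
is `s₀` with `AltG lam i₀ s₀` that agrees with `s` for `i₀`.  For `i ≠ i₀` apply `dsl_E` to
`φ = s - s₀` (`AltG` from `hs`; `h2` from the choice of `s₀`; `h1` from `dsl_G`; `x l₀ ≠ 0` since
`L(κ i₀) ≠ 0`: `IsLvl.exists_basis`, `deg κ i₀ ≥ genus`, `IsCurve.le_ell`). -/
theorem DSL (hF : IsCurve k F) (hg : 1 ≤ genus k F) {W : Dv k F} (hW : IsCan W) {N N₁ : ℤ}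
    (hM : MCp W N) (hN : N ≤ N₁) {r g n : ℕ} {lev : Fin g → Fin (r + 1)} {x : Fin g → F}
    {κ : Fin (r + 1) → Dv k F} (hL : IsLvl W lev x κ) (hκ : ∀ i, i ≠ 0 → N₁ ≤ deg (κ i))
    (hN₁ : ((n : ℤ) + 3) * (2 * (genus k F : ℤ) + 3) ≤ N₁) (hr : 1 ≤ r)
    (hn : n + 2 ≤ (r + 1) * gon k F) (lam : Fin n → Fin (r + 1)) {s : (Fin n → Fin g) → F}
    (hs : Alt s)
    (hloc : ∀ Q : Pt k F, ∃ s' : (Fin n → Fin g) → F, Alt s' ∧ (∀ I, LeOrd Q 0 (s' I)) ∧
      ∀ i, AgrL lev x lam i s s') :
    ∃ s₀ : (Fin n → Fin g) → k, ∀ i, AgrL lev x lam i s fun I => algebraMap k F (s₀ I) := by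
  have hchar : CharZero F := charZero_of_injective_algebraMap (algebraMap k F).injective
  by_cases hz : ∃ i, ∀ j, lam j ≠ i
  · obtain ⟨i, hi⟩ := hz
    exact fdsl_empty hF lam hi hloc
  · have hsum : ∑ i, Fintype.card {j : Fin n // lam j = i} = n := by
      rw [← Fintype.card_sigma, Fintype.card_congr (Equiv.sigmaFiberEquiv lam), Fintype.card_fin]
    have hcard : (Finset.univ.erase (0 : Fin (r + 1))).card = r := by
      rw [Finset.card_erase_of_mem (Finset.mem_univ _), Finset.card_univ, Fintype.card_fin]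
      rfl
    have hne : (Finset.univ.erase (0 : Fin (r + 1))).Nonempty := by
      rw [← Finset.card_pos, hcard]
      exact hr
    obtain ⟨i₀, hi₀, hmin⟩ := Finset.exists_min_image (Finset.univ.erase (0 : Fin (r + 1)))
      (fun i => Fintype.card {j : Fin n // lam j = i}) hne
    have hi0 : i₀ ≠ 0 := (Finset.mem_erase.1 hi₀).1
    have hcnt : Fintype.card {j : Fin n // lam j = 0} +
        r * Fintype.card {j : Fin n // lam j = i₀} ≤ n := by
      have h1 := Finset.card_nsmul_le_sum (Finset.univ.erase (0 : Fin (r + 1)))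
        (fun i => Fintype.card {j : Fin n // lam j = i}) _ hmin
      have h2 := Finset.add_sum_erase Finset.univ
        (fun i => Fintype.card {j : Fin n // lam j = i}) (Finset.mem_univ (0 : Fin (r + 1)))
      rw [hcard, smul_eq_mul] at h1
      rw [hsum] at h2
      omega
    have hN0 : N ≤ deg (κ i₀) := hN.trans (hκ i₀ hi0)
    have hl : 0 < ell (κ i₀) := by
      have h1 := hF.le_ell (κ i₀)
      have h2 := hκ i₀ hi0
      have h3 : (0 : ℤ) ≤ (n : ℤ) * (2 * (genus k F : ℤ) + 3) := by positivity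
      have h4 : (0 : ℤ) < ell (κ i₀) := by nlinarith
      exact_mod_cast h4
    have hex : ∃ s₀ : (Fin n → Fin g) → k, AltG lam i₀ s₀ ∧
        AgrL lev x lam i₀ s fun I => algebraMap k F (s₀ I) := by
      by_cases hc : Fintype.card {j : Fin n // lam j = i₀} + 1 ≤ gon k F
      · refine dsl_A hF hW hM hL lam hN0 hl hc hs fun Q => ?_
        obtain ⟨s', h1, h2, h3⟩ := hloc Q
        exact ⟨s', h1, h2, h3 i₀⟩
      · refine dsl_B hF hg hW hM hL lam hi0 hN0 hl
          (fdsl_count hr hcnt hn (by omega)) hs fun Q => ?_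
        obtain ⟨s', h1, h2, h3⟩ := hloc Q
        exact ⟨s', h1, h2, h3 i₀, h3 0⟩
    obtain ⟨s₀, hs₀, hagr⟩ := hex
    refine ⟨s₀, fun i => ?_⟩
    by_cases hi : i = i₀
    · rw [hi]
      exact hagr
    -- an index of level `i₀`
    obtain ⟨ρ, d, a, ha⟩ := hL.exists_basis i₀
    have hρ : 0 < ρ := by
      unfold ell at hl
      rwa [Module.finrank_eq_card_basis a, Fintype.card_fin] at hl
    have hx : x (d ⟨0, hρ⟩ : Fin g) ≠ 0 := by
      rw [← ha]
      intro h
      exact a.ne_zero ⟨0, hρ⟩ (Subtype.ext h)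
    have hφ : AltG lam i₀ (s - fun I => algebraMap k F (s₀ I)) := by
      intro σ hσ I
      rw [Pi.sub_apply, Pi.sub_apply, hs σ I, hs₀ σ hσ I, map_zsmul, smul_sub]
    intro c hc hc1
    have h3 := dsl_E hi hφ (d ⟨0, hρ⟩).2 hx
      (fun c hc _ hc2 => by rw [evf_sub, hagr c hc hc2, sub_self])
      (fun j₀ hj₀ c hc hc1 hc2 => by
        rw [evf_sub, dsl_G hF hW hL hκ hN₁ lam hi0 hi (fun Q => by
          obtain ⟨s', -, h2, h3⟩ := hloc Q
          exact ⟨s', h2, h3 i⟩) hagr hj₀ c hc hc1 hc2, sub_self]) c hc hc1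
    rw [evf_sub, sub_eq_zero] at h3
    exact h3

end Pool.Agent.MPd118f9
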