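import Pool.Agent.Lib.MP_d118f9_ag_G.FDSL_R
import Pool.Agent.Lib.MP_d118f9_ag_G.FDS0

/-!
# MP_d118f9_ag, covers of any degree, DSL: constants from DS0
-/

set_option autoImplicit false

noncomputable section

open Classical

namespace Pool.Agent.MPd118f9

variable {k F : Type} [Field k] [IsAlgClosed k] [CharZero k] [Field F] [Algebra k F]

section Aux

/-- The value of a permuted form. -/
private theorem dslA_evf_perm {ι A : Type} [CommRing A] [Fintype ι] {n : ℕ}
    (φ : (Fin n → ι) → A) (c : Fin n → ι → A) (σ : Equiv.Perm (Fin n)) :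
    evf (fun I => φ (I ∘ σ)) c = evf φ (c ∘ σ) := by
  unfold evf
  refine Fintype.sum_equiv (Equiv.arrowCongr σ.symm (Equiv.refl ι)) _ _ fun I => ?_
  have h1 : (Equiv.arrowCongr σ.symm (Equiv.refl ι)) I = I ∘ σ := by
    funext j
    simp [Equiv.arrowCongr]
  rw [h1]
  congr 1
  exact (Equiv.prod_comp σ fun j => c j (I j)).symm

/-- The antisymmetrised form. -/
private theorem dslA_alt {ι k F : Type} [Field k] [CharZero k] [Field F] [Algebra k F] [Fintype ι]
    {n : ℕ} {x : ι → F} {f : (Fin n → ι) → F} (hf : Alt f) {f₀ : (Fin n → ι) → k}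
    (h : Agr x f fun I => algebraMap k F (f₀ I)) :
    ∃ f₁ : (Fin n → ι) → k, Alt f₁ ∧ Agr x f fun I => algebraMap k F (f₁ I) := by
  set N : k := (Fintype.card (Equiv.Perm (Fin n)) : k) with hN
  have hN0 : N ≠ 0 := by
    rw [hN]
    exact_mod_cast Fintype.card_ne_zero
  refine ⟨fun I => N⁻¹ * ∑ σ : Equiv.Perm (Fin n),
    ((Equiv.Perm.sign σ : ℤˣ) : ℤ) • f₀ (I ∘ σ), ?_, ?_⟩
  · intro τ I
    show N⁻¹ * ∑ σ : Equiv.Perm (Fin n), ((Equiv.Perm.sign σ : ℤˣ) : ℤ) • f₀ ((I ∘ τ) ∘ σ) =
      ((Equiv.Perm.sign τ : ℤˣ) : ℤ) • (N⁻¹ * ∑ σ : Equiv.Perm (Fin n),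
        ((Equiv.Perm.sign σ : ℤˣ) : ℤ) • f₀ (I ∘ σ))
    rw [← mul_smul_comm, Finset.smul_sum]
    congr 1
    refine Fintype.sum_equiv (Equiv.mulLeft τ) _ _ fun σ => ?_
    rw [smul_smul]
    have h1 : (I ∘ τ) ∘ σ = I ∘ ((Equiv.mulLeft τ) σ) := by
      funext j
      rfl
    have h2 : ((Equiv.Perm.sign τ : ℤˣ) : ℤ) *
        ((Equiv.Perm.sign ((Equiv.mulLeft τ) σ) : ℤˣ) : ℤ) =
        ((Equiv.Perm.sign σ : ℤˣ) : ℤ) := by
      rw [Equiv.coe_mulLeft, Equiv.Perm.sign_mul, Units.val_mul, ← mul_assoc]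
      rcases Int.units_eq_one_or (Equiv.Perm.sign τ) with h | h <;> rw [h] <;> simp
    rw [h1, h2]
  · intro c hc
    have h1 : ∀ σ : Equiv.Perm (Fin n),
        evf (fun I => algebraMap k F (f₀ (I ∘ σ))) c =
          ((Equiv.Perm.sign σ : ℤˣ) : ℤ) • evf f c := by
      intro σ
      rw [dslA_evf_perm (fun I => algebraMap k F (f₀ I)) c σ,
        ← h (c ∘ σ) fun j => hc (σ j), evf_perm hf]
    have h2 : evf (fun I => algebraMap k F (N⁻¹ * ∑ σ : Equiv.Perm (Fin n),
        ((Equiv.Perm.sign σ : ℤˣ) : ℤ) • f₀ (I ∘ σ))) c =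
        algebraMap k F N⁻¹ * ∑ σ : Equiv.Perm (Fin n), ((Equiv.Perm.sign σ : ℤˣ) : ℤ) •
          evf (fun I => algebraMap k F (f₀ (I ∘ σ))) c := by
      unfold evf
      rw [Finset.mul_sum]
      have h3 : ∀ σ : Equiv.Perm (Fin n), algebraMap k F N⁻¹ *
          (((Equiv.Perm.sign σ : ℤˣ) : ℤ) • ∑ I : Fin n → ι, (∏ j, c j (I j)) *
            algebraMap k F (f₀ (I ∘ σ))) = ∑ I : Fin n → ι, (∏ j, c j (I j)) *
              (algebraMap k F N⁻¹ * (((Equiv.Perm.sign σ : ℤˣ) : ℤ) •
                algebraMap k F (f₀ (I ∘ σ)))) := by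
        intro σ
        rw [Finset.smul_sum, Finset.mul_sum]
        refine Finset.sum_congr rfl fun I _ => ?_
        rw [zsmul_eq_mul, zsmul_eq_mul]
        ring
      rw [Finset.sum_congr rfl fun σ _ => h3 σ, Finset.sum_comm]
      refine Finset.sum_congr rfl fun I _ => ?_
      beta_reduce
      rw [← Finset.mul_sum, map_mul, map_sum, Finset.mul_sum]
      congr 1
      refine Finset.sum_congr rfl fun σ _ => ?_
      rw [map_zsmul]
    rw [h2]
    have h4 : ∀ σ : Equiv.Perm (Fin n), ((Equiv.Perm.sign σ : ℤˣ) : ℤ) •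
        evf (fun I => algebraMap k F (f₀ (I ∘ σ))) c = evf f c := by
      intro σ
      rw [h1 σ, smul_smul]
      rcases Int.units_eq_one_or (Equiv.Perm.sign σ) with h | h <;> rw [h] <;> simp
    rw [Finset.sum_congr rfl fun σ _ => h4 σ, Finset.sum_const, Finset.card_univ, nsmul_eq_mul,
      ← mul_assoc, map_inv₀, hN, map_natCast, inv_mul_cancel₀, one_mul]
    have h5 := (map_ne_zero_iff _ (algebraMap k F).injective).2 hN0
    rwa [hN, map_natCast] at h5

/-- Extension of a vector by zero outside of the level. -/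
private def dslAExt {Λ A : Type} [Zero A] {g ρ : ℕ} {lev : Fin g → Λ} {i₀ : Λ}
    (d : Fin ρ ≃ {l : Fin g // lev l = i₀}) (v : Fin ρ → A) : Fin g → A :=
  fun l => if h : lev l = i₀ then v (d.symm ⟨l, h⟩) else 0

private theorem dslAExt_d {Λ A : Type} [Zero A] {g ρ : ℕ} {lev : Fin g → Λ} {i₀ : Λ}
    (d : Fin ρ ≃ {l : Fin g // lev l = i₀}) (v : Fin ρ → A) (l : Fin ρ) :
    dslAExt d v (d l : Fin g) = v l := by
  unfold dslAExt
  rw [dif_pos (d l).2]
  congr 1
  exact (Equiv.symm_apply_eq d).2 rfl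

private theorem dslAExt_of_ne {Λ A : Type} [Zero A] {g ρ : ℕ} {lev : Fin g → Λ} {i₀ : Λ}
    (d : Fin ρ ≃ {l : Fin g // lev l = i₀}) (v : Fin ρ → A) {l : Fin g} (h : lev l ≠ i₀) :
    dslAExt d v l = 0 := dif_neg h

/-- The tuple of vectors with given vectors in the group and unit vectors at the other places. -/
private def dslAVec {Λ A : Type} [Zero A] [One A] {g n q ρ : ℕ} {lev : Fin g → Λ}
    {lam : Fin n → Λ} {i₀ : Λ} (e : Fin q ≃ {j : Fin n // lam j = i₀})
    (d : Fin ρ ≃ {l : Fin g // lev l = i₀}) (J : Fin n → Fin g) (c : Fin q → Fin ρ → A) :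
    Fin n → Fin g → A :=
  fun j => if h : lam j = i₀ then dslAExt d (c (e.symm ⟨j, h⟩)) else Pi.single (J j) 1

private theorem dslAVec_pos {Λ A : Type} [Zero A] [One A] {g n q ρ : ℕ} {lev : Fin g → Λ}
    {lam : Fin n → Λ} {i₀ : Λ} (e : Fin q ≃ {j : Fin n // lam j = i₀})
    (d : Fin ρ ≃ {l : Fin g // lev l = i₀}) (J : Fin n → Fin g) (c : Fin q → Fin ρ → A)
    {j : Fin n} (h : lam j = i₀) : dslAVec e d J c j = dslAExt d (c (e.symm ⟨j, h⟩)) :=
  dif_pos h

private theorem dslAVec_neg {Λ A : Type} [Zero A] [One A] {g n q ρ : ℕ} {lev : Fin g → Λ}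
    {lam : Fin n → Λ} {i₀ : Λ} (e : Fin q ≃ {j : Fin n // lam j = i₀})
    (d : Fin ρ ≃ {l : Fin g // lev l = i₀}) (J : Fin n → Fin g) (c : Fin q → Fin ρ → A)
    {j : Fin n} (h : lam j ≠ i₀) : dslAVec e d J c j = Pi.single (J j) 1 :=
  dif_neg h

end Aux

/-- The case in which the group of level `i₀` has at most `gon - 1` arguments.
Proof.  Let `q` be the number of the places of level `i₀`, `e : Fin q ≃ {j // lam j = i₀}`, and
`d`, `a` as in `IsLvl.exists_basis`.  For every tuple `J` the slice `f I = s (cmb e d J I)` is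
alternating (`alt_cmb`) and satisfies the hypothesis of `DS0`: take the slice of `s'` and for
vectors `c` in the kernel extend them to vectors of `Fin n → Fin g → F` (unit vectors `J j` at the
other places) and use `evf_cmb`, `pr_level`; this needs `lev (J j) = lam j` for `lam j ≠ i₀`, so
do it only for such `J`.  `DS0` gives `f₀ = f₀^J` with values in `k`; antisymmetrise it
(`(q !)⁻¹ * ∑ σ, sign σ * f₀ (I ∘ σ)`, still `Agr` since `f` is alternating).  Put
`s₀ I := f₀^I (I')` if `lev (I j) = lam j` for all `j`, where `I' t = d.symm (I (e t))`, and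
`s₀ I := 0` otherwise; choose `f₀^J` so that it only depends on the entries of `J` at the places
`lam j ≠ i₀` (for example apply `DS0` to `J` modified to a fixed value at the places of level
`i₀`).  `AgrL`: by `evf_eq_of_span` and `mem_span_units` one may assume that the vectors are unit
vectors at the places `lam j ≠ i₀` (for the places of level `i₀` use the set of the kernel vectors
themselves); then `evf_cmb` for `s` and for `s₀`. -/
theorem dsl_A (hF : IsCurve k F) {W : Dv k F} (hW : IsCan W) {N : ℤ} (hM : MCp W N) {r g n : ℕ}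
    {lev : Fin g → Fin (r + 1)} {x : Fin g → F} {κ : Fin (r + 1) → Dv k F}
    (hL : IsLvl W lev x κ) (lam : Fin n → Fin (r + 1)) {i₀ : Fin (r + 1)}
    (hN : N ≤ deg (κ i₀)) (hl : 0 < ell (κ i₀))
    (hcard : Fintype.card {j : Fin n // lam j = i₀} + 1 ≤ gon k F) {s : (Fin n → Fin g) → F}
    (hs : Alt s)
    (hloc : ∀ Q : Pt k F, ∃ s' : (Fin n → Fin g) → F, Alt s' ∧ (∀ I, LeOrd Q 0 (s' I)) ∧
      AgrL lev x lam i₀ s s') :
    ∃ s₀ : (Fin n → Fin g) → k, AltG lam i₀ s₀ ∧
      AgrL lev x lam i₀ s fun I => algebraMap k F (s₀ I) := by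
  obtain ⟨ρ, d, a, ha⟩ := hL.exists_basis i₀
  have hax : (fun l : Fin ρ => (a l : F)) = fun l : Fin ρ => x (d l : Fin g) := funext ha
  set q : ℕ := Fintype.card {j : Fin n // lam j = i₀} with hq
  obtain ⟨e⟩ : Nonempty (Fin q ≃ {j : Fin n // lam j = i₀}) := ⟨(Fintype.equivFin _).symm⟩
  -- the constants for one choice of the other arguments
  have key1 : ∀ J : Fin n → Fin g, (∀ j, lam j ≠ i₀ → lev (J j) = lam j) →
      ∃ f₀ : (Fin q → Fin ρ) → k, Alt f₀ ∧
        Agr (fun l => (a l : F)) (fun I => s (cmb e d J I)) fun I => algebraMap k F (f₀ I) := by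
    intro J hJ
    have h1 := DS0 hF hW hM (n := q) hcard hN hl a (alt_cmb hs e d J) fun Q => by
      obtain ⟨s', hs', hint, hagr⟩ := hloc Q
      refine ⟨fun I => s' (cmb e d J I), alt_cmb hs' e d J, fun I => hint _, ?_⟩
      intro c hc
      have hC1 : ∀ j, lam j = i₀ → ∀ l, lev l ≠ i₀ → dslAVec e d J c j l = 0 := by
        intro j hj l hl1
        rw [dslAVec_pos e d J c hj, dslAExt_of_ne d _ hl1]
      have hC2 : ∀ j, lam j ≠ i₀ → dslAVec e d J c j = Pi.single (J j) 1 :=
        fun j hj => dslAVec_neg e d J c hj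
      have hC3 : (fun (t : Fin q) (l : Fin ρ) => dslAVec e d J c (e t : Fin n) (d l : Fin g)) =
          c := by
        funext t l
        rw [dslAVec_pos e d J c (e t).2, dslAExt_d]
        have h3 : e.symm ⟨(e t : Fin n), (e t).2⟩ = t := (Equiv.symm_apply_eq e).2 rfl
        rw [h3]
      have e1 := evf_cmb s e d J (dslAVec e d J c) hC1 hC2
      have e2 := evf_cmb s' e d J (dslAVec e d J c) hC1 hC2
      rw [hC3] at e1 e2
      rw [← e1, ← e2]
      refine hagr _ ?_ ?_
      · intro j l hjl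
        by_cases hj : lam j = i₀
        · exact hC1 j hj l (by rw [← hj]; exact hjl)
        · rw [hC2 j hj, Pi.single_eq_of_ne]
          rintro rfl
          exact hjl (hJ j hj)
      · intro j hj
        rw [pr_level x d (hC1 j hj), ← hax]
        have h2 : (fun l : Fin ρ => dslAVec e d J c j (d l : Fin g)) = c (e.symm ⟨j, hj⟩) := by
          funext l
          rw [dslAVec_pos e d J c hj, dslAExt_d]
        rw [h2]
        exact hc _
    obtain ⟨f₀, hf₀⟩ := h1
    exact dslA_alt (alt_cmb hs e d J) hf₀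
  -- the constants only depend on the arguments outside of the group
  have key2 : ∀ u : {j : Fin n // lam j ≠ i₀} → Fin g, ∃ f₀ : (Fin q → Fin ρ) → k, Alt f₀ ∧
      ∀ J : Fin n → Fin g, (∀ j : {j : Fin n // lam j ≠ i₀}, J j = u j) →
        (∀ j, lam j ≠ i₀ → lev (J j) = lam j) →
          Agr (fun l => (a l : F)) (fun I => s (cmb e d J I)) fun I => algebraMap k F (f₀ I) := by
    intro u
    by_cases hu : ∃ J : Fin n → Fin g, (∀ j : {j : Fin n // lam j ≠ i₀}, J j = u j) ∧
        ∀ j, lam j ≠ i₀ → lev (J j) = lam j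
    · obtain ⟨J₀, hJ₀, hJ₁⟩ := hu
      obtain ⟨f₀, h1, h2⟩ := key1 J₀ hJ₁
      refine ⟨f₀, h1, fun J hJ _ => ?_⟩
      have h3 : ∀ I, cmb e d J I = cmb e d J₀ I := by
        intro I
        funext j
        unfold cmb
        by_cases hj : lam j = i₀
        · rw [dif_pos hj, dif_pos hj]
        · rw [dif_neg hj, dif_neg hj]
          exact (hJ ⟨j, hj⟩).trans (hJ₀ ⟨j, hj⟩).symm
      have h4 : (fun I => s (cmb e d J I)) = fun I => s (cmb e d J₀ I) := by
        funext I
        rw [h3]
      rw [h4]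
      exact h2
    · refine ⟨0, ?_, fun J hJ1 hJ2 => absurd ⟨J, hJ1, hJ2⟩ hu⟩
      intro σ I
      rw [Pi.zero_apply, Pi.zero_apply, smul_zero]
  choose f₀ hf₀ hagr₀ using key2
  set s₀ : (Fin n → Fin g) → k := fun I => if h : ∀ j, lev (I j) = lam j then
    f₀ (fun j => I (j : Fin n))
      (fun t => d.symm ⟨I (e t : Fin n), (h _).trans (e t).2⟩) else 0 with hs₀
  refine ⟨s₀, ?_, ?_⟩
  · intro σ hσ I
    have hlam : ∀ j, lam (σ j) = lam j := by
      intro j
      by_cases hj : lam j = i₀
      · rw [hj]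
        by_contra h
        have h1 := σ.injective (hσ (σ j) h)
        rw [h1] at h
        exact h hj
      · rw [hσ j hj]
    have hiff : (∀ j, lev ((I ∘ σ) j) = lam j) ↔ ∀ j, lev (I j) = lam j := by
      constructor
      · intro h j
        have h1 := h (σ.symm j)
        rw [Function.comp_apply, Equiv.apply_symm_apply] at h1
        rw [h1, ← hlam, Equiv.apply_symm_apply]
      · intro h j
        rw [Function.comp_apply, h, hlam]
    by_cases hI : ∀ j, lev (I j) = lam j
    · have hI' := hiff.2 hI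
      simp only [hs₀]
      rw [dif_pos hI', dif_pos hI]
      have hu : (fun j : {j : Fin n // lam j ≠ i₀} => (I ∘ σ) (j : Fin n)) =
          fun j : {j : Fin n // lam j ≠ i₀} => I (j : Fin n) := by
        funext j
        rw [Function.comp_apply, hσ j j.2]
      have hp1 : ∀ j, lam (σ j) = i₀ ↔ lam j = i₀ := fun j => by rw [hlam]
      have hp2 : ∀ j, σ j ≠ j → lam j = i₀ := fun j hj => by
        by_contra h
        exact hj (hσ j h)
      set τ : Equiv.Perm (Fin q) := e.symm.permCongr (σ.subtypePerm hp1) with hτ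
      have hsign : Equiv.Perm.sign τ = Equiv.Perm.sign σ := by
        rw [hτ, Equiv.Perm.sign_permCongr, Equiv.Perm.sign_subtypePerm σ hp1 hp2]
      have hK : (fun t => d.symm ⟨(I ∘ σ) (e t : Fin n), (hI' _).trans (e t).2⟩) =
          (fun t => d.symm ⟨I (e t : Fin n), (hI _).trans (e t).2⟩) ∘ τ := by
        funext t
        show d.symm _ = d.symm _
        congr 1
        apply Subtype.ext
        show I (σ (e t : Fin n)) = I (e (τ t) : Fin n)
        congr 1
        rw [hτ, Equiv.permCongr_apply, Equiv.symm_symm, Equiv.apply_symm_apply]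
        rfl
      rw [hu, hK, hf₀ _ τ, hsign]
    · have hI' : ¬ ∀ j, lev ((I ∘ σ) j) = lam j := fun h => hI (hiff.1 h)
      simp only [hs₀]
      rw [dif_neg hI', dif_neg hI, smul_zero]
  · intro c hc hck
    set T : Fin n → Set (Fin g → F) := fun j => if lam j = i₀ then
      {v | (∀ l, lev l ≠ i₀ → v l = 0) ∧ pr x v = 0} else
      {v | ∃ l, lev l = lam j ∧ v = Pi.single l 1} with hT
    refine evf_eq_of_span (T := T) ?_ c ?_
    · intro c hcT
      -- an index of level `i₀`
      have hρ : 0 < ρ := by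
        have h1 : ell (κ i₀) = ρ := by
          unfold ell
          rw [Module.finrank_eq_card_basis a, Fintype.card_fin]
        omega
      have h1 : ∀ j, ∃ l : Fin g, lam j ≠ i₀ → lev l = lam j ∧ c j = Pi.single l 1 := by
        intro j
        by_cases hj : lam j = i₀
        · exact ⟨d ⟨0, hρ⟩, fun h => absurd hj h⟩
        · have h2 := hcT j
          simp only [hT, if_neg hj] at h2
          obtain ⟨l, hl1, hl2⟩ := h2
          exact ⟨l, fun _ => ⟨hl1, hl2⟩⟩
      choose J hJ using h1
      have h2 : ∀ j, lam j = i₀ → (∀ l, lev l ≠ i₀ → c j l = 0) ∧ pr x (c j) = 0 := by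
        intro j hj
        have h3 := hcT j
        simp only [hT, if_pos hj] at h3
        exact h3
      have e1 := evf_cmb s e d J c (fun j hj => (h2 j hj).1) fun j hj => (hJ j hj).2
      have e2 := evf_cmb (fun I => algebraMap k F (s₀ I)) e d J c (fun j hj => (h2 j hj).1)
        fun j hj => (hJ j hj).2
      have e3 : (fun I : Fin q → Fin ρ => algebraMap k F (s₀ (cmb e d J I))) =
          fun I => algebraMap k F (f₀ (fun j => J (j : Fin n)) I) := by
        funext I
        congr 1
        have h4 : ∀ j, lev (cmb e d J I j) = lam j := by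
          intro j
          unfold cmb
          by_cases hj : lam j = i₀
          · rw [dif_pos hj, hj]
            exact (d _).2
          · rw [dif_neg hj]
            exact (hJ j hj).1
        simp only [hs₀]
        rw [dif_pos h4]
        have h5 : (fun j : {j : Fin n // lam j ≠ i₀} => cmb e d J I (j : Fin n)) =
            fun j : {j : Fin n // lam j ≠ i₀} => J (j : Fin n) := by
          funext j
          unfold cmb
          rw [dif_neg j.2]
        have h6 : (fun t => d.symm ⟨cmb e d J I (e t : Fin n), (h4 _).trans (e t).2⟩) = I := by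
          funext t
          rw [Equiv.symm_apply_eq]
          apply Subtype.ext
          show cmb e d J I (e t : Fin n) = (d (I t) : Fin g)
          unfold cmb
          rw [dif_pos (e t).2]
          congr 3
          exact (Equiv.symm_apply_eq e).2 rfl
        rw [h5, h6]
      rw [e1, e2, e3]
      refine hagr₀ (fun j => J (j : Fin n)) J (fun _ => rfl) (fun j hj => (hJ j hj).1) _ fun t => ?_
      have h7 := pr_level x d (c := c (e t : Fin n)) (h2 _ (e t).2).1
      rw [hax, ← h7]
      exact (h2 _ (e t).2).2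
    · intro j
      by_cases hj : lam j = i₀
      · refine Submodule.subset_span ?_
        simp only [hT, if_pos hj]
        exact ⟨fun l hl1 => hc j l (by rw [hj]; exact hl1), hck j hj⟩
      · simp only [hT, if_neg hj]
        have key : ∀ inst : DecidableEq (Fin g), c j ∈ Submodule.span F {v : Fin g → F |
            ∃ l, lev l = lam j ∧ v = @Pi.single (Fin g) (fun _ => F) _ inst l 1} := by
          intro inst
          have h1 : inst = fun a b => Classical.propDecidable (a = b) := Subsingleton.elim _ _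
          subst h1
          exact mem_span_units lev (lam j) (hc j)
        exact key _

end Pool.Agent.MPd118f9
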