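import Pool.Agent.Lib.MP_d118f9_ag_G.TRes
import Pool.Agent.Lib.MP_d118f9_ag_G.A
import Pool.Agent.Lib.MP_d118f9_ag.B.Pencil
import Pool.Agent.Lib.MP_d118f9_ag.B.Good

/-!
# MP_d118f9_ag, covers of any degree: small relations on Y
-/

set_option autoImplicit false

noncomputable section

open Classical

namespace Pool.Agent.MPd118f9

variable {k F : Type} [Field k] [IsAlgClosed k] [CharZero k] [Field F] [Algebra k F]

/-- The formula of Riemann with the sharp constant. -/
private theorem fs_rr (hF : IsCurve k F) {D : Dv k F} (hD : 2 * (genus k F : ℤ) - 1 ≤ deg D) :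
    (ell D : ℤ) = deg D + 1 - genus k F := by
  obtain ⟨W, hW⟩ := hF.exists_can
  have h1 := hW.riemann_roch hF D
  have h2 : ell (W - D) = 0 := hF.ell_of_deg_neg (by rw [deg_sub, hW.1]; linarith)
  rw [h2] at h1
  simpa using h1

private theorem fs_exists_mem (hF : IsCurve k F) {D D' : Dv k F} (h : ell D' < ell D) :
    ∃ a ∈ L D, a ∉ L D' := by
  by_contra hc
  push Not at hc
  haveI := hF.finDim D'
  exact absurd (Submodule.finrank_mono (show L D ≤ L D' from hc)) (not_le.2 h)

private theorem fs_exists_sec (hF : IsCurve k F) {a₀ : ℤ}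
    (hlt : ∀ (D : Dv k F) (P : Pt k F), a₀ ≤ deg D → ell (D - Finsupp.single P 1) < ell D)
    (hpos : ∀ D : Dv k F, a₀ ≤ deg D → 0 < ell D) {D : Dv k F} (hD : a₀ ≤ deg D)
    (Z : Finset (Pt k F)) :
    ∃ u ∈ L D, u ≠ 0 ∧ ∀ P ∈ Z, u ∉ L (D - Finsupp.single P 1) := by
  haveI : Infinite k := inferInstance
  let p : Option Z → Subspace k (L D) := fun o =>
    match o with
    | none => ⊥
    | some P => (L (D - Finsupp.single (P : Pt k F) 1)).comap (L D).subtype
  have hne : ⋃ i, (p i : Set (L D)) ≠ Set.univ := by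
    intro hc
    obtain ⟨i, hi⟩ := Subspace.exists_eq_top_of_iUnion_eq_univ hc
    match i, hi with
    | none, hi =>
      have h0 : ell D = 0 := by
        have : (⊥ : Submodule k (L D)) = ⊤ := hi
        have h2 : Module.finrank k (L D) = Module.finrank k (⊤ : Submodule k (L D)) :=
          (finrank_top k (L D)).symm
        rw [← this, finrank_bot] at h2
        exact h2
      have := hpos D hD
      omega
    | some P, hi =>
      have hle : L D ≤ L (D - Finsupp.single (P : Pt k F) 1) := by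
        intro x hx
        have : (⟨x, hx⟩ : L D) ∈ (L (D - Finsupp.single (P : Pt k F) 1)).comap (L D).subtype := by
          have hi' : (L (D - Finsupp.single (P : Pt k F) 1)).comap (L D).subtype = ⊤ := hi
          rw [hi']
          exact Submodule.mem_top
        exact this
      haveI := hF.finDim (D - Finsupp.single (P : Pt k F) 1)
      exact absurd (Submodule.finrank_mono hle) (not_le.2 (hlt D P hD))
  obtain ⟨x, hx⟩ := (Set.ne_univ_iff_exists_notMem _).1 hne
  rw [Set.mem_iUnion] at hx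
  push Not at hx
  refine ⟨x, x.2, ?_, fun P hP => ?_⟩
  · intro h0
    apply hx none
    show x ∈ (⊥ : Submodule k (L D))
    rw [Submodule.mem_bot]
    exact Subtype.ext h0
  · exact hx (some ⟨P, hP⟩)

private theorem fs_ord_eq {A : Dv k F} {P : Pt k F} {a : F} (h0 : a ≠ 0) (ha : a ∈ L A)
    (ha' : a ∉ L (A - Finsupp.single P 1)) : P.ord a = -A P := by
  rw [mem_L_of_ne h0] at ha ha'
  push Not at ha'
  obtain ⟨Q, hQ⟩ := ha'
  have hQ2 := ha Q
  rw [Finsupp.sub_apply] at hQ
  by_cases hPQ : Q = P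
  · subst hPQ
    rw [Finsupp.single_eq_same] at hQ
    omega
  · rw [Finsupp.single_apply, if_neg (fun e => hPQ e.symm)] at hQ
    omega

/-- The constant `2 h + 1` is good. -/
private theorem fs_isGood (hF : IsCurve k F) : IsGood k F (2 * (genus k F : ℤ) + 1) := by
  have hlt : ∀ (D : Dv k F) (P : Pt k F), 2 * (genus k F : ℤ) + 1 ≤ deg D →
      ell (D - Finsupp.single P 1) < ell D := by
    intro D P hD
    have e1 := fs_rr hF (D := D) (by linarith)
    have e2 := fs_rr hF (D := D - Finsupp.single P 1) (by rw [deg_sub, deg_single]; linarith)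
    rw [deg_sub, deg_single] at e2
    omega
  have hpos : ∀ D : Dv k F, 2 * (genus k F : ℤ) + 1 ≤ deg D → 0 < ell D := by
    intro D hD
    have e1 := fs_rr hF (D := D) (by linarith)
    omega
  refine ⟨by omega, by omega, fun {D} hD => fs_rr hF (by linarith), fun {D} hD => ?_,
    fun {D} P hD => fs_exists_mem hF (hlt D P hD)⟩
  obtain ⟨u₁, hu₁, n1, -⟩ := fs_exists_sec hF hlt hpos hD ∅
  have hZ : {P : Pt k F | P.ord u₁ ≠ -D P}.Finite := by
    refine ((hF.finite_ord n1).union D.support.finite_toSet).subset ?_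
    intro P hP
    by_contra hc
    rw [Set.mem_union, not_or] at hc
    obtain ⟨hc1, hc2⟩ := hc
    have e1 : P.ord u₁ = 0 := not_not.1 hc1
    have e2 : D P = 0 := Finsupp.notMem_support_iff.1 hc2
    apply hP
    rw [e1, e2, neg_zero]
  obtain ⟨u₂, hu₂, n2, hs⟩ := fs_exists_sec hF hlt hpos hD hZ.toFinset
  refine ⟨u₁, hu₁, u₂, hu₂, n1, n2, ?_⟩
  ext P
  rw [Finsupp.inf_apply, hF.dv_apply n1, hF.dv_apply n2, Finsupp.neg_apply]
  have g1 := (mem_L_of_ne n1).1 hu₁ P
  have g2 := (mem_L_of_ne n2).1 hu₂ P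
  by_cases hP : P.ord u₁ = -D P
  · rw [hP]
    exact inf_eq_left.2 g2
  · have := fs_ord_eq n2 hu₂ (hs P (hZ.mem_toFinset.2 hP))
    rw [this]
    exact inf_eq_right.2 g1

omit [IsAlgClosed k] [CharZero k] in
/-- A finite sum. -/
private theorem fs_sum {ι : Type} (s : Finset ι) {P : Pt k F} {n : ℤ} {f : ι → F}
    (h : ∀ i ∈ s, LeOrd P n (f i)) : LeOrd P n (∑ i ∈ s, f i) := by
  induction s using Finset.induction_on with
  | empty =>
    rw [Finset.sum_empty]
    exact LeOrd.zero P n
  | insert a s ha ih =>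
    rw [Finset.sum_insert ha]
    exact (h a (Finset.mem_insert_self _ _)).add
      (ih fun i hi => h i (Finset.mem_insert_of_mem hi))

omit [IsAlgClosed k] [CharZero k] in
/-- A constant that vanishes at a point is `0`. -/
private theorem fs_const {P : Pt k F} {c : k} (h : LeOrd P 1 (algebraMap k F c)) : c = 0 := by
  rcases h with h | h
  · exact (map_eq_zero_iff _ (algebraMap k F).injective).1 h
  · rw [P.ord_algebraMap] at h
    omega

/-- Vectors whose values at a point are linearly independent are linearly independent. -/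
private theorem fs_linInd (hF : IsCurve k F) (P : Pt k F) {s r : ℕ} {κ : Fin s → Fin r → k}
    (hκ : LinearIndependent k κ) {n : Fin s → Fin r → F}
    (hn : ∀ i j, LeOrd P 1 (n i j - algebraMap k F (κ i j))) : LinearIndependent F n := by
  by_contra hc
  rw [Fintype.not_linearIndependent_iff] at hc
  obtain ⟨g, hg, i₁, hi₁⟩ := hc
  obtain ⟨i₀, hi₀, hmin⟩ := Finset.exists_min_image
    (Finset.univ.filter fun i => g i ≠ 0) (fun i => P.ord (g i))
    ⟨i₁, Finset.mem_filter.2 ⟨Finset.mem_univ _, hi₁⟩⟩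
  have h0 : g i₀ ≠ 0 := (Finset.mem_filter.1 hi₀).2
  have hg' : ∀ i, LeOrd P 0 ((g i₀)⁻¹ * g i) := by
    intro i
    by_cases hi : g i = 0
    · left
      rw [hi, mul_zero]
    · right
      rw [P.ord_mul (inv_ne_zero h0) hi, P.ord_inv]
      have := hmin i (Finset.mem_filter.2 ⟨Finset.mem_univ _, hi⟩)
      linarith
  have hex : ∀ i, ∃ c : k, LeOrd P 1 ((g i₀)⁻¹ * g i - algebraMap k F c) := by
    intro i
    by_cases hi : (g i₀)⁻¹ * g i = 0
    · refine ⟨0, ?_⟩
      rw [hi, map_zero, sub_zero]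
      exact LeOrd.zero P 1
    · obtain ⟨c, hc⟩ := hF.exists_const P ((hg' i).resolve_left hi)
      refine ⟨c, ?_⟩
      rcases hc with hc | hc
      · left
        rw [hc, sub_self]
      · right
        omega
  choose c hc using hex
  have hsum : ∑ i, c i • κ i = 0 := by
    funext j
    rw [Finset.sum_apply, Pi.zero_apply]
    apply fs_const (P := P)
    have e1 : ∑ i, (g i₀)⁻¹ * g i * n i j = 0 := by
      have e2 := congrFun hg j
      rw [Finset.sum_apply, Pi.zero_apply] at e2
      have e3 : ∑ i, (g i₀)⁻¹ * g i * n i j = (g i₀)⁻¹ * ∑ i, (g i • n i) j := by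
        rw [Finset.mul_sum]
        refine Finset.sum_congr rfl fun i _ => ?_
        rw [Pi.smul_apply, smul_eq_mul, mul_assoc]
      rw [e3, e2, mul_zero]
    have e4 : algebraMap k F (∑ i, (c i • κ i) j) =
        -∑ i, (((g i₀)⁻¹ * g i - algebraMap k F (c i)) * algebraMap k F (κ i j) +
          (g i₀)⁻¹ * g i * (n i j - algebraMap k F (κ i j))) := by
      rw [map_sum, ← add_eq_zero_iff_eq_neg, ← Finset.sum_add_distrib, ← e1]
      refine Finset.sum_congr rfl fun i _ => ?_
      rw [Pi.smul_apply, smul_eq_mul, map_mul]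
      ring
    rw [e4]
    refine LeOrd.neg (fs_sum _ fun i _ => LeOrd.add ?_ ?_)
    · have := (hc i).mul (LeOrd.const P (κ i j))
      rwa [add_zero] at this
    · have := (hg' i).mul (hn i j)
      rwa [zero_add] at this
  have hci : c i₀ = 0 := Fintype.linearIndependent_iff.1 hκ c hsum i₀
  have h2 := hc i₀
  rw [hci, map_zero, sub_zero, inv_mul_cancel₀ h0] at h2
  have h3 : LeOrd P 1 (algebraMap k F 1) := by rwa [map_one]
  exact one_ne_zero (fs_const h3)

omit [IsAlgClosed k] [CharZero k] [Algebra k F] [Field k] in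
/-- The kernel of a linear form in `r` variables is spanned by `r - 1` independent elements. -/
private theorem fs_ker {r s : ℕ} (a : Fin r → F) {j₀ : Fin r} (h0 : a j₀ ≠ 0)
    {n : Fin s → Fin r → F} (hn : LinearIndependent F n) (hrs : r ≤ s + 1)
    (hk : ∀ i, ∑ j, n i j * a j = 0) (c : Fin r → F) (hc : ∑ j, c j * a j = 0) :
    c ∈ Submodule.span F (Set.range n) := by
  let φ : (Fin r → F) →ₗ[F] F := Fintype.linearCombination F a
  have hφ : ∀ c : Fin r → F, φ c = ∑ j, c j * a j := fun c => by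
    simp [φ, Fintype.linearCombination_apply]
  have h1 : LinearMap.range φ = ⊤ := by
    rw [LinearMap.range_eq_top]
    intro y
    refine ⟨Pi.single j₀ (y / a j₀), ?_⟩
    rw [hφ, Finset.sum_eq_single j₀]
    · rw [Pi.single_eq_same, div_mul_cancel₀ _ h0]
    · intro b _ hb
      rw [Pi.single_eq_of_ne hb, zero_mul]
    · intro h
      exact absurd (Finset.mem_univ _) h
  have h2 := LinearMap.finrank_range_add_finrank_ker φ
  rw [h1, finrank_top, Module.finrank_self, Module.finrank_fin_fun] at h2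
  have h3 : Submodule.span F (Set.range n) ≤ LinearMap.ker φ := by
    rw [Submodule.span_le]
    rintro _ ⟨i, rfl⟩
    show n i ∈ LinearMap.ker φ
    rw [LinearMap.mem_ker, hφ, hk]
  have h4 : Submodule.span F (Set.range n) = LinearMap.ker φ := by
    apply Submodule.eq_of_le_of_finrank_le h3
    rw [finrank_span_eq_card hn, Fintype.card_fin]
    omega
  rw [h4, LinearMap.mem_ker, hφ, hc]

/-- SMALL (a). -/
theorem small_A (hF : IsCurve k F) {A : Dv k F} (hA : 6 * (genus k F : ℤ) + 6 ≤ deg A) {r : ℕ}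
    (a : Module.Basis (Fin r) k (L A)) (c : Fin r → F) (hc : ∑ j, c j * (a j : F) = 0) :
    c ∈ Submodule.span F {m : Fin r → F | (∃ D : Dv k F, deg D ≤ 2 * (genus k F : ℤ) + 2 ∧
      ∀ j, m j ∈ L D) ∧ ∑ j, m j * (a j : F) = 0} := by
  have hg := fs_isGood hF
  haveI := hF.infinite_pt
  obtain ⟨y, P₁, hyP⟩ := exists_pair_ne (Pt k F)
  set D₀ : Dv k F := Finsupp.single P₁ (2 * (genus k F : ℤ) + 2) with hD₀
  have dD₀ : deg D₀ = 2 * (genus k F : ℤ) + 2 := by rw [hD₀, deg_single]
  have h0D₀ : 0 ≤ D₀ := by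
    rw [hD₀, Finsupp.single_nonneg]
    omega
  have hy0 : D₀ y = 0 := by
    rw [hD₀, Finsupp.single_apply, if_neg (fun e => hyP e.symm)]
  have hle1 : D₀ - Finsupp.single y 1 ≤ D₀ := by
    apply sub_le_self
    rw [Finsupp.single_nonneg]
    norm_num
  obtain ⟨s, hs, t, ht, s0, t0, hst⟩ := hg.pencil (D := D₀ - Finsupp.single y 1)
    (by rw [deg_sub, dD₀, deg_single]; linarith)
  have hbdl := hF.isBdl_L hg
  -- coordinates
  have hco : ∀ u : L A, ∑ j, algebraMap k F (a.repr u j) * (a j : F) = u := by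
    intro u
    have h1 := congrArg (L A).subtype (a.sum_repr u)
    rw [map_sum] at h1
    rw [← Submodule.subtype_apply, ← h1]
    refine Finset.sum_congr rfl fun j _ => ?_
    rw [map_smul, Submodule.subtype_apply, Algebra.smul_def]
  have hsub : A - D₀ ≤ A := sub_le_self _ h0D₀
  have hmulL : ∀ f ∈ L (D₀ - Finsupp.single y 1), ∀ g ∈ L (A - D₀), f * g ∈ L A := by
    intro f hf g hg'
    have h1 := hbdl.smul_mem hF hf hg'
    refine L_mono ?_ h1
    calc A - D₀ + (D₀ - Finsupp.single y 1) ≤ A - D₀ + D₀ := add_le_add le_rfl hle1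
      _ = A := sub_add_cancel _ _
  have hone : (1 : F) ∈ L D₀ := by
    rw [mem_L_of_ne one_ne_zero]
    intro P
    have h1 : P.ord (1 : F) = 0 := by
      rw [← map_one (algebraMap k F)]
      exact P.ord_algebraMap 1
    rw [h1]
    have := h0D₀ P
    rw [Finsupp.zero_apply] at this
    linarith
  have hcst : ∀ κ : k, algebraMap k F κ ∈ L D₀ := by
    intro κ
    rw [Algebra.algebraMap_eq_smul_one]
    exact (L D₀).smul_mem _ hone
  have hvan : ∀ f ∈ L (D₀ - Finsupp.single y 1), LeOrd y 1 f := by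
    intro f hf
    by_cases hf0 : f = 0
    · exact Or.inl hf0
    · right
      have h1 := (mem_L_of_ne hf0).1 hf y
      rw [Finsupp.sub_apply, Finsupp.single_eq_same, hy0] at h1
      linarith
  -- the small relations
  have key : ∀ x ∈ L (A - Finsupp.single y 1), ∀ hx : x ∈ L A, ∃ m : Fin r → F,
      (∀ j, m j ∈ L D₀) ∧ ∑ j, m j * (a j : F) = 0 ∧
        ∀ j, LeOrd y 1 (m j - algebraMap k F (a.repr ⟨x, hx⟩ j)) := by
    intro x hxy hx
    obtain ⟨g₁, hg₁, g₂, hg₂, hv⟩ := hbdl.pencil_surj hF (A := D₀ - Finsupp.single y 1)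
      (B := A - D₀) (by rw [deg_sub, dD₀, deg_single]; linarith)
      (by rw [deg_sub, deg_sub, dD₀, deg_single]; linarith) hs ht s0 t0 hst
      (v := x) (by
        show x ∈ L _
        have e1 : A - D₀ + (D₀ - Finsupp.single y 1) = A - Finsupp.single y 1 := by abel
        rw [e1]
        exact hxy)
    have hg₁' : g₁ ∈ L A := L_mono hsub hg₁
    have hg₂' : g₂ ∈ L A := L_mono hsub hg₂
    refine ⟨fun j => algebraMap k F (a.repr ⟨x, hx⟩ j) - s * algebraMap k F (a.repr ⟨g₁, hg₁'⟩ j) -
      t * algebraMap k F (a.repr ⟨g₂, hg₂'⟩ j), fun j => ?_, ?_, fun j => ?_⟩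
    · refine (L D₀).sub_mem ((L D₀).sub_mem (hcst _) ?_) ?_
      · rw [mul_comm, ← Algebra.smul_def]
        exact (L D₀).smul_mem _ (L_mono hle1 hs)
      · rw [mul_comm, ← Algebra.smul_def]
        exact (L D₀).smul_mem _ (L_mono hle1 ht)
    · have e1 := hco ⟨x, hx⟩
      have e2 := hco ⟨g₁, hg₁'⟩
      have e3 := hco ⟨g₂, hg₂'⟩
      have e4 : ∑ j, (algebraMap k F (a.repr ⟨x, hx⟩ j) -
          s * algebraMap k F (a.repr ⟨g₁, hg₁'⟩ j) -
          t * algebraMap k F (a.repr ⟨g₂, hg₂'⟩ j)) * (a j : F) =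
          ∑ j, algebraMap k F (a.repr ⟨x, hx⟩ j) * (a j : F) -
          s * ∑ j, algebraMap k F (a.repr ⟨g₁, hg₁'⟩ j) * (a j : F) -
          t * ∑ j, algebraMap k F (a.repr ⟨g₂, hg₂'⟩ j) * (a j : F) := by
        rw [Finset.mul_sum, Finset.mul_sum, ← Finset.sum_sub_distrib, ← Finset.sum_sub_distrib]
        refine Finset.sum_congr rfl fun j _ => ?_
        ring
      rw [e4, e1, e2, e3]
      show x - s * g₁ - t * g₂ = 0
      rw [hv]
      simp only [smul_eq_mul]
      ring
    · have e1 : algebraMap k F (a.repr ⟨x, hx⟩ j) - s * algebraMap k F (a.repr ⟨g₁, hg₁'⟩ j) -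
          t * algebraMap k F (a.repr ⟨g₂, hg₂'⟩ j) - algebraMap k F (a.repr ⟨x, hx⟩ j) =
          -(a.repr ⟨g₁, hg₁'⟩ j • s + a.repr ⟨g₂, hg₂'⟩ j • t) := by
        rw [Algebra.smul_def, Algebra.smul_def]
        ring
      rw [e1]
      exact (((hvan s hs).smul _).add ((hvan t ht).smul _)).neg
  -- a basis of `L(A - y)`
  have hAy : A - Finsupp.single y 1 ≤ A := by
    apply sub_le_self
    rw [Finsupp.single_nonneg]
    norm_num
  haveI := hF.finDim (A - Finsupp.single y 1)
  let b := Module.finBasis k (L (A - Finsupp.single y 1))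
  have hb : ∀ i, (b i : F) ∈ L A := fun i => L_mono hAy (b i).2
  choose m hmD hm0 hmy using fun i => key (b i) (b i).2 (hb i)
  have hκ : LinearIndependent k fun i => fun j => a.repr ⟨(b i : F), hb i⟩ j := by
    have h1 : LinearIndependent k fun i => (⟨(b i : F), hb i⟩ : L A) := by
      have h2 : LinearIndependent k ((Submodule.inclusion (L_mono hAy)) ∘ b) :=
        b.linearIndependent.map' _ (Submodule.ker_inclusion _ _ _)
      exact h2
    have h3 := h1.map' (a.equivFun : L A →ₗ[k] (Fin r → k)) a.equivFun.ker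
    exact h3
  have hind := fs_linInd hF y hκ hmy
  have hr : r = ell A := by
    unfold ell
    rw [Module.finrank_eq_card_basis a, Fintype.card_fin]
  have r1 := fs_rr hF (D := A) (by linarith)
  have r2 := fs_rr hF (D := A - Finsupp.single y 1) (by rw [deg_sub, deg_single]; linarith)
  rw [deg_sub, deg_single] at r2
  have hrs : r ≤ Module.finrank k (L (A - Finsupp.single y 1)) + 1 := by
    have : Module.finrank k (L (A - Finsupp.single y 1)) = ell (A - Finsupp.single y 1) := rfl
    rw [this, hr]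
    omega
  have hrpos : 0 < r := by
    rw [hr]
    omega
  have ha0 : (a ⟨0, hrpos⟩ : F) ≠ 0 := by
    intro h
    exact a.ne_zero ⟨0, hrpos⟩ (Subtype.ext h)
  have hmem := fs_ker (fun j => (a j : F)) ha0 hind hrs hm0 c hc
  refine Submodule.span_mono ?_ hmem
  rintro _ ⟨i, rfl⟩
  exact ⟨⟨D₀, dD₀.le, hmD i⟩, hm0 i⟩

/-- SMALL (b). -/
theorem small_W (hF : IsCurve k F) {W : Dv k F} (hW : IsCan W) {r : ℕ}
    (a : Module.Basis (Fin r) k (L W)) (c : Fin r → F) (hc : ∑ j, c j * (a j : F) = 0) :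
    c ∈ Submodule.span F {m : Fin r → F | (∃ D : Dv k F, deg D ≤ 2 * (genus k F : ℤ) + 2 ∧
      ∀ j, m j ∈ L D) ∧ ∑ j, m j * (a j : F) = 0} := by
  rcases Nat.eq_zero_or_pos r with hr | hr
  · subst hr
    have : c = 0 := Subsingleton.elim _ _
    rw [this]
    exact Submodule.zero_mem _
  set z : Fin r := ⟨0, hr⟩
  have ha0 : (a z : F) ≠ 0 := by
    intro h
    exact a.ne_zero z (Subtype.ext h)
  have h1 : c = ∑ j, (c j * (a z : F)⁻¹) •
      ((a z : F) • (Pi.single j 1 : Fin r → F) - (a j : F) • (Pi.single z 1 : Fin r → F)) := by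
    have e1 : ∀ j, (c j * (a z : F)⁻¹) •
        ((a z : F) • (Pi.single j 1 : Fin r → F) - (a j : F) • (Pi.single z 1 : Fin r → F)) =
        Pi.single j (c j) - ((a z : F)⁻¹ * (c j * (a j : F))) • (Pi.single z 1 : Fin r → F) := by
      intro j
      rw [smul_sub, smul_smul, smul_smul, mul_assoc, inv_mul_cancel₀ ha0, mul_one,
        ← Pi.single_smul, smul_eq_mul, mul_one]
      congr 2
      ring
    rw [Finset.sum_congr rfl fun j _ => e1 j, Finset.sum_sub_distrib, ← Finset.sum_smul,
      ← Finset.mul_sum, hc, mul_zero, zero_smul, sub_zero, Finset.univ_sum_single]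
  rw [h1]
  refine Submodule.sum_mem _ fun j _ => Submodule.smul_mem _ _ (Submodule.subset_span ?_)
  refine ⟨⟨W, ?_, fun l => ?_⟩, ?_⟩
  · rw [hW.1]
    linarith
  · rw [Pi.sub_apply, Pi.smul_apply, Pi.smul_apply, smul_eq_mul, smul_eq_mul]
    refine (L W).sub_mem ?_ ?_
    · by_cases hl : l = j
      · subst hl
        rw [Pi.single_eq_same, mul_one]
        exact (a z).2
      · rw [Pi.single_eq_of_ne hl, mul_zero]
        exact (L W).zero_mem
    · by_cases hl : l = z
      · rw [hl, Pi.single_eq_same, mul_one]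
        exact (a j).2
      · rw [Pi.single_eq_of_ne hl, mul_zero]
        exact (L W).zero_mem
  · have e2 : ∀ (i : Fin r) (x : F), ∑ l, (x • (Pi.single i 1 : Fin r → F)) l * (a l : F) =
        x * (a i : F) := by
      intro i x
      rw [Finset.sum_eq_single i]
      · rw [Pi.smul_apply, Pi.single_eq_same, smul_eq_mul, mul_one]
      · intro b _ hb
        rw [Pi.smul_apply, Pi.single_eq_of_ne hb, smul_zero, zero_mul]
      · intro h
        exact absurd (Finset.mem_univ _) h
    simp only [Pi.sub_apply, sub_mul, Finset.sum_sub_distrib]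
    rw [e2, e2]
    ring

end Pool.Agent.MPd118f9
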