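import Pool.Agent.Lib.MP_d118f9_ag_G.FDSL_S
import Pool.Agent.Lib.MP_d118f9_ag_G.FSmall

/-!
# MP_d118f9_ag, covers of any degree, DSL: small relations of one level
-/

set_option autoImplicit false

noncomputable section

open Classical

namespace Pool.Agent.MPd118f9

variable {k F : Type} [Field k] [IsAlgClosed k] [CharZero k] [Field F] [Algebra k F]

/-- The functions of one level, as a basis of `L(κ i)` (indexed by `Fin`). -/
theorem IsLvl.exists_basis {W : Dv k F} {r g : ℕ} {lev : Fin g → Fin (r + 1)} {x : Fin g → F}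
    {κ : Fin (r + 1) → Dv k F} (hL : IsLvl W lev x κ) (i : Fin (r + 1)) :
    ∃ (ρ : ℕ) (d : Fin ρ ≃ {l : Fin g // lev l = i}) (a : Module.Basis (Fin ρ) k (L (κ i))),
      ∀ l, (a l : F) = x (d l : Fin g) := by
  have hmem : ∀ l : {l : Fin g // lev l = i}, x l ∈ L (κ i) := by
    intro l
    rw [← hL.span i]
    exact Submodule.subset_span ⟨l, rfl⟩
  let v : {l : Fin g // lev l = i} → L (κ i) := fun l => ⟨x l, hmem l⟩
  have hli : LinearIndependent k v := by
    refine LinearIndependent.of_comp (L (κ i)).subtype ?_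
    exact hL.indep i
  have hsp : ⊤ ≤ Submodule.span k (Set.range v) := by
    intro y _
    have hy : (y : F) ∈ Submodule.span k (Set.range fun l : {l // lev l = i} => x l) := by
      rw [hL.span i]
      exact y.2
    have hmap : Submodule.map (L (κ i)).subtype (Submodule.span k (Set.range v)) =
        Submodule.span k (Set.range fun l : {l // lev l = i} => x l) := by
      rw [Submodule.map_span, ← Set.range_comp]
      rfl
    rw [← hmap] at hy
    obtain ⟨z, hz, hzy⟩ := hy
    have : z = y := Subtype.ext hzy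
    rwa [this] at hz
  let b : Module.Basis {l : Fin g // lev l = i} k (L (κ i)) := Module.Basis.mk hli hsp
  refine ⟨Fintype.card {l : Fin g // lev l = i}, (Fintype.equivFin _).symm,
    b.reindex (Fintype.equivFin _), ?_⟩
  intro l
  rw [Module.Basis.reindex_apply]
  simp only [b, Module.Basis.mk_apply, v]

/-- Extension by zero from one level. -/
private def extL {r g ρ : ℕ} {lev : Fin g → Fin (r + 1)} {i : Fin (r + 1)}
    (d : Fin ρ ≃ {l : Fin g // lev l = i}) : (Fin ρ → F) →ₗ[F] (Fin g → F) where
  toFun m := fun l => if h : lev l = i then m (d.symm ⟨l, h⟩) else 0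
  map_add' := by
    intro m m'
    funext l
    by_cases h : lev l = i <;> simp [h]
  map_smul' := by
    intro t m
    funext l
    by_cases h : lev l = i <;> simp [h]

private theorem extL_apply {r g ρ : ℕ} {lev : Fin g → Fin (r + 1)} {i : Fin (r + 1)}
    (d : Fin ρ ≃ {l : Fin g // lev l = i}) (m : Fin ρ → F) (l : Fin g) :
    extL (F := F) d m l = if h : lev l = i then m (d.symm ⟨l, h⟩) else 0 := rfl

private theorem extL_level {r g ρ : ℕ} {lev : Fin g → Fin (r + 1)} {i : Fin (r + 1)}
    (d : Fin ρ ≃ {l : Fin g // lev l = i}) (m : Fin ρ → F) (l : Fin ρ) :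
    extL (F := F) d m (d l : Fin g) = m l := by
  rw [extL_apply, dif_pos (d l).2]
  simp

private theorem extL_out {r g ρ : ℕ} {lev : Fin g → Fin (r + 1)} {i : Fin (r + 1)}
    (d : Fin ρ ≃ {l : Fin g // lev l = i}) (m : Fin ρ → F) (l : Fin g) (h : lev l ≠ i) :
    extL (F := F) d m l = 0 := by
  rw [extL_apply, dif_neg h]

/-- The relations between the `x l` of level `i` are spanned by those with entries in spaces `L(D)`
with `deg D ≤ 2h + 2`.  Proof: `IsLvl.exists_basis`, `small_A` for `i ≠ 0` and `small_W` for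
`i = 0` (`κ 0 = W`), and the embedding `(Fin ρ → F) → (Fin g → F)` (extension by zero), a linear
map that maps the span into the span (`Submodule.span_induction` or `Submodule.map_span`). -/
theorem mem_span_small (hF : IsCurve k F) {W : Dv k F} (hW : IsCan W) {r g : ℕ}
    {lev : Fin g → Fin (r + 1)} {x : Fin g → F} {κ : Fin (r + 1) → Dv k F}
    (hL : IsLvl W lev x κ) (hκ : ∀ i, i ≠ 0 → 6 * (genus k F : ℤ) + 6 ≤ deg (κ i))
    (i : Fin (r + 1)) {c : Fin g → F} (hc : ∀ l, lev l ≠ i → c l = 0) (hx : pr x c = 0) :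
    c ∈ Submodule.span F {m : Fin g → F | (∀ l, lev l ≠ i → m l = 0) ∧
      (∃ D : Dv k F, deg D ≤ 2 * (genus k F : ℤ) + 2 ∧ ∀ l, m l ∈ L D) ∧ pr x m = 0} := by
  obtain ⟨ρ, d, a, ha⟩ := hL.exists_basis i
  have hc' : ∑ j, (fun l : Fin ρ => c (d l : Fin g)) j * (a j : F) = 0 := by
    have h1 := pr_level x d hc
    rw [hx] at h1
    have h2 : ∑ j, c (d j : Fin g) * (a j : F) =
        pr (fun l : Fin ρ => x (d l : Fin g)) fun l => c (d l : Fin g) := by
      unfold pr
      refine Finset.sum_congr rfl fun j _ => ?_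
      rw [ha j, mul_comm]
    show ∑ j, c (d j : Fin g) * (a j : F) = 0
    rw [h2, ← h1]
  have hsmall : (fun l : Fin ρ => c (d l : Fin g)) ∈ Submodule.span F {m : Fin ρ → F |
      (∃ D : Dv k F, deg D ≤ 2 * (genus k F : ℤ) + 2 ∧ ∀ j, m j ∈ L D) ∧
        ∑ j, m j * (a j : F) = 0} := by
    by_cases hi : i = 0
    · subst hi
      have hk0 : κ 0 = W := hL.k0
      revert a
      rw [hk0]
      intro a ha hc'
      exact small_W hF hW a _ hc'
    · exact small_A hF (hκ i hi) a _ hc'
  have hext : extL (F := F) d (fun l : Fin ρ => c (d l : Fin g)) = c := by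
    funext l
    by_cases h : lev l = i
    · rw [extL_apply, dif_pos h]
      simp
    · rw [extL_out d _ l h, hc l h]
  have hmap := Submodule.mem_map_of_mem (f := extL (F := F) d) hsmall
  rw [hext, Submodule.map_span] at hmap
  refine Submodule.span_mono ?_ hmap
  rintro _ ⟨m, ⟨⟨D, hD, hmD⟩, hm0⟩, rfl⟩
  refine ⟨fun l hl => extL_out d m l hl, ⟨D, hD, ?_⟩, ?_⟩
  · intro l
    by_cases h : lev l = i
    · rw [extL_apply, dif_pos h]
      exact hmD _
    · rw [extL_out d m l h]
      exact Submodule.zero_mem _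
  · rw [pr_level x d fun l hl => extL_out d m l hl]
    unfold pr
    rw [← hm0]
    refine Finset.sum_congr rfl fun j _ => ?_
    show x (d j : Fin g) * extL (F := F) d m (d j : Fin g) = m j * (a j : F)
    rw [extL_level, ha j, mul_comm]

end Pool.Agent.MPd118f9
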