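import Pool.Agent.Lib.MP_d118f9_ag_G.A

/-!
# MP_d118f9_ag, covers of any degree, DSL: slices of a form and spans
-/

set_option autoImplicit false

noncomputable section

open Classical

namespace Pool.Agent.MPd118f9

section Span

variable {ι A : Type} [CommRing A] [Fintype ι] {n : ℕ}

/-- Two forms that agree on the tuples of elements of the sets `T j` agree on the tuples of
elements of the spans.  Proof: `evM (φ - ψ)` (`A.lean`) vanishes on `∏ T j`; replace the sets `T j`
by their spans one `j` after the other (induction on a finset of indices,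
`Submodule.span_induction`, `Function.update`). -/
theorem evf_eq_of_span {φ ψ : (Fin n → ι) → A} {T : Fin n → Set (ι → A)}
    (h : ∀ c : Fin n → ι → A, (∀ j, c j ∈ T j) → evf φ c = evf ψ c) (c : Fin n → ι → A)
    (hc : ∀ j, c j ∈ Submodule.span A (T j)) : evf φ c = evf ψ c := by
  have key : ∀ (s : Finset (Fin n)) (c : Fin n → ι → A),
      (∀ j ∈ s, c j ∈ Submodule.span A (T j)) → (∀ j, j ∉ s → c j ∈ T j) →
      evf φ c = evf ψ c := by
    intro s
    induction s using Finset.induction_on with
    | empty =>
      intro c _ h2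
      exact h c fun j => h2 j (Finset.notMem_empty j)
    | insert a s ha ih =>
      intro c h1 h2
      have h3 : ∀ v ∈ Submodule.span A (T a),
          evf φ (Function.update c a v) = evf ψ (Function.update c a v) := by
        intro v hv
        induction hv using Submodule.span_induction with
        | mem v hv =>
          refine ih _ ?_ ?_
          · intro j hj
            have h4 : j ≠ a := fun h => ha (h ▸ hj)
            rw [Function.update_of_ne h4]
            exact h1 j (Finset.mem_insert_of_mem hj)
          · intro j hj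
            by_cases hja : j = a
            · subst hja
              rw [Function.update_self]
              exact hv
            · rw [Function.update_of_ne hja]
              exact h2 j fun h => (Finset.mem_insert.1 h).elim hja hj
        | zero =>
          have h5 := evf_update_smul φ c a (0 : A) 0
          have h6 := evf_update_smul ψ c a (0 : A) 0
          rw [smul_zero, zero_mul] at h5 h6
          rw [h5, h6]
        | add x y _ _ hx hy => rw [evf_update_add, evf_update_add, hx, hy]
        | smul t x _ hx => rw [evf_update_smul, evf_update_smul, hx]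
      have h4 := h3 (c a) (h1 a (Finset.mem_insert_self a s))
      rwa [Function.update_eq_self] at h4
  exact key Finset.univ c (fun j _ => hc j) fun j hj => absurd (Finset.mem_univ j) hj

/-- The vectors that are supported on the level `i` are combinations of unit vectors. -/
theorem mem_span_units {Λ : Type} (lev : ι → Λ) (i : Λ) {c : ι → A}
    (hc : ∀ l, lev l ≠ i → c l = 0) :
    c ∈ Submodule.span A {v : ι → A | ∃ l, lev l = i ∧ v = Pi.single l 1} := by
  have h1 : c = ∑ l, c l • (Pi.single l 1 : ι → A) := by
    funext m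
    rw [Finset.sum_apply, Finset.sum_eq_single m]
    · rw [Pi.smul_apply, Pi.single_eq_same, smul_eq_mul, mul_one]
    · intro l _ hl
      rw [Pi.smul_apply, Pi.single_eq_of_ne (Ne.symm hl), smul_zero]
    · intro h
      exact absurd (Finset.mem_univ m) h
  rw [h1]
  refine Submodule.sum_mem _ fun l _ => ?_
  by_cases hl : lev l = i
  · exact Submodule.smul_mem _ _ (Submodule.subset_span ⟨l, hl, rfl⟩)
  · rw [hc l hl, zero_smul]
    exact Submodule.zero_mem _

end Span

section Slice

variable {Λ : Type} {g n q ρ : ℕ} {lev : Fin g → Λ} {lam : Fin n → Λ} {i₀ : Λ}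

/-- The tuple with the entries `J j` at the places `j` with `lam j ≠ i₀` and the entries `I` (in
the level `i₀`) at the places `j` with `lam j = i₀`. -/
def cmb (e : Fin q ≃ {j : Fin n // lam j = i₀}) (d : Fin ρ ≃ {l : Fin g // lev l = i₀})
    (J : Fin n → Fin g) (I : Fin q → Fin ρ) : Fin n → Fin g :=
  fun j => if h : lam j = i₀ then (d (I (e.symm ⟨j, h⟩)) : Fin g) else J j

/-- A slice of an alternating form is alternating.  Proof: a permutation `σ` of `Fin q` gives the
permutation of `Fin n` that is `e ∘ σ ∘ e.symm` on the places of level `i₀` and the identity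
elsewhere (`Equiv.Perm.ofSubtype`, `Equiv.Perm.sign_ofSubtype`, `Equiv.Perm.sign_symm_trans_trans`
or similar). -/
theorem alt_cmb {M : Type} [AddCommGroup M] {s : (Fin n → Fin g) → M} (hs : Alt s)
    (e : Fin q ≃ {j : Fin n // lam j = i₀}) (d : Fin ρ ≃ {l : Fin g // lev l = i₀})
    (J : Fin n → Fin g) : Alt fun I : Fin q → Fin ρ => s (cmb e d J I) := by
  intro σ I
  have h1 : cmb e d J (I ∘ σ) =
      cmb e d J I ∘ Equiv.Perm.ofSubtype (e.permCongr σ) := by
    funext j
    rw [Function.comp_apply]
    by_cases h : lam j = i₀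
    · have h2 : Equiv.Perm.ofSubtype (e.permCongr σ) j = (e (σ (e.symm ⟨j, h⟩)) : Fin n) := by
        rw [Equiv.Perm.ofSubtype_apply_of_mem (p := fun j => lam j = i₀) _ h]
        rfl
      rw [h2]
      have h3 : lam (e (σ (e.symm ⟨j, h⟩)) : Fin n) = i₀ := (e (σ (e.symm ⟨j, h⟩))).2
      unfold cmb
      rw [dif_pos h, dif_pos h3]
      have h4 : (⟨(e (σ (e.symm ⟨j, h⟩)) : Fin n), h3⟩ : {j : Fin n // lam j = i₀}) =
          e (σ (e.symm ⟨j, h⟩)) := rfl
      rw [h4, Equiv.symm_apply_apply, Function.comp_apply]
    · rw [Equiv.Perm.ofSubtype_apply_of_not_mem (p := fun j => lam j = i₀) _ h]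
      unfold cmb
      rw [dif_neg h, dif_neg h]
  show s (cmb e d J (I ∘ σ)) = _
  rw [h1, hs, Equiv.Perm.sign_ofSubtype, Equiv.Perm.sign_permCongr]

/-- The value of `s` at vectors that are unit vectors at the places `lam j ≠ i₀` and are supported
on the level `i₀` at the other places, as a value of the slice.  Proof: in
`evf s c = ∑ I', ∏ j, c j (I' j) * s I'` only the tuples `I' = cmb e d J I` contribute
(`Finset.sum_bij_ne_zero` or `Finset.sum_subset` with the injective map `I ↦ cmb e d J I`), and
`∏ j, c j (cmb e d J I j) = ∏ t, c (e t) (d (I t))` (split the product, `Fintype.prod_equiv`). -/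
theorem evf_cmb {A : Type} [CommRing A] (s : (Fin n → Fin g) → A)
    (e : Fin q ≃ {j : Fin n // lam j = i₀}) (d : Fin ρ ≃ {l : Fin g // lev l = i₀})
    (J : Fin n → Fin g) (c : Fin n → Fin g → A)
    (h1 : ∀ j, lam j = i₀ → ∀ l, lev l ≠ i₀ → c j l = 0)
    (h2 : ∀ j, lam j ≠ i₀ → c j = Pi.single (J j) 1) :
    evf s c = evf (fun I : Fin q → Fin ρ => s (cmb e d J I))
      fun t l => c (e t : Fin n) (d l : Fin g) := by
  unfold evf
  symm
  refine Fintype.sum_of_injective (fun I : Fin q → Fin ρ => cmb e d J I) ?_ _ _ ?_ ?_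
  · intro I I' h
    funext t
    have h3 := congrFun h (e t : Fin n)
    have h4 : lam (e t : Fin n) = i₀ := (e t).2
    simp only [cmb, dif_pos h4] at h3
    have h5 : (⟨(e t : Fin n), h4⟩ : {j : Fin n // lam j = i₀}) = e t := rfl
    rw [h5, Equiv.symm_apply_apply] at h3
    exact d.injective (Subtype.ext h3)
  · intro I' hI'
    by_contra h3
    apply hI'
    have h4 : ∀ j, c j (I' j) ≠ 0 := by
      intro j h
      exact h3 (by rw [Finset.prod_eq_zero (Finset.mem_univ j) h, zero_mul])
    have h5 : ∀ j, lam j = i₀ → lev (I' j) = i₀ := by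
      intro j hj
      by_contra h
      exact h4 j (h1 j hj _ h)
    have h6 : ∀ j, lam j ≠ i₀ → I' j = J j := by
      intro j hj
      by_contra h
      exact h4 j (by rw [h2 j hj, Pi.single_eq_of_ne h])
    refine ⟨fun t => d.symm ⟨I' (e t : Fin n), h5 _ (e t).2⟩, ?_⟩
    funext j
    show cmb e d J _ j = _
    unfold cmb
    by_cases h : lam j = i₀
    · rw [dif_pos h, Equiv.apply_symm_apply]
      show I' (e (e.symm ⟨j, h⟩) : Fin n) = _
      rw [Equiv.apply_symm_apply]
    · rw [dif_neg h, h6 j h]
  · intro I
    show (∏ t, c (e t : Fin n) (d (I t) : Fin g)) * s (cmb e d J I) =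
      (∏ j, c j (cmb e d J I j)) * s (cmb e d J I)
    congr 1
    refine Fintype.prod_of_injective (fun t : Fin q => (e t : Fin n)) ?_ _ _ ?_ ?_
    · intro t t' h
      exact e.injective (Subtype.ext h)
    · intro j hj
      have h3 : lam j ≠ i₀ := by
        intro h
        exact hj ⟨e.symm ⟨j, h⟩, congrArg Subtype.val (e.apply_symm_apply ⟨j, h⟩)⟩
      rw [h2 j h3]
      unfold cmb
      rw [dif_neg h3, Pi.single_eq_same]
    · intro t
      have h4 : lam (e t : Fin n) = i₀ := (e t).2
      have h5 : (⟨(e t : Fin n), h4⟩ : {j : Fin n // lam j = i₀}) = e t := rfl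
      unfold cmb
      rw [dif_pos h4, h5, Equiv.symm_apply_apply]

/-- The linear form on a vector that is supported on the level `i₀`. -/
theorem pr_level {A : Type} [CommRing A] (x : Fin g → A)
    (d : Fin ρ ≃ {l : Fin g // lev l = i₀}) {c : Fin g → A} (h1 : ∀ l, lev l ≠ i₀ → c l = 0) :
    pr x c = pr (fun l : Fin ρ => x (d l : Fin g)) fun l => c (d l : Fin g) := by
  unfold pr
  symm
  refine Fintype.sum_of_injective (fun l : Fin ρ => (d l : Fin g)) ?_ _ _ ?_ fun l => rfl
  · intro l l' h
    exact d.injective (Subtype.ext h)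
  · intro l hl
    have h3 : lev l ≠ i₀ := by
      intro h
      exact hl ⟨d.symm ⟨l, h⟩, congrArg Subtype.val (d.apply_symm_apply ⟨l, h⟩)⟩
    rw [h1 l h3, mul_zero]

/-- `φ` is alternating in the arguments of level `i₀`. -/
def AltG {M : Type} [AddCommGroup M] (lam : Fin n → Λ) (i₀ : Λ) (φ : (Fin n → Fin g) → M) :
    Prop :=
  ∀ σ : Equiv.Perm (Fin n), (∀ j, lam j ≠ i₀ → σ j = j) → ∀ I : Fin n → Fin g,
    φ (I ∘ σ) = ((Equiv.Perm.sign σ : ℤˣ) : ℤ) • φ I

end Slice

end Pool.Agent.MPd118f9
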