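import Pool.Agent.Lib.MP_d118f9_ag_G.TRes
import Pool.Agent.Lib.MP_d118f9_ag_G.A

/-!
# MP_d118f9_ag, covers of any degree: the lemma DUAL
-/

set_option autoImplicit false

noncomputable section

open Classical

namespace Pool.Agent.MPd118f9

section Aux

variable {ι A M : Type} [Fintype ι] [CommRing A] [AddCommGroup M] [Module A M] {n : ℕ}

private theorem fdual_reindex (f : (Fin n → ι) → M) (σ : Equiv.Perm (Fin n)) :
    ∑ I : Fin n → ι, f (I ∘ σ) = ∑ I, f I :=
  Equiv.sum_comp (Equiv.arrowCongr σ.symm (Equiv.refl ι)) f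

private theorem fdual_asymm_smul {T : (Fin n → ι) → M} (hT : Alt T) (G : (Fin n → ι) → A) :
    ∑ I, asymm G I • T I = n.factorial • ∑ I, G I • T I := by
  have h1 : ∀ I, asymm G I • T I = ∑ σ : Equiv.Perm (Fin n), G (I ∘ σ) • T (I ∘ σ) := by
    intro I
    unfold asymm
    rw [Finset.sum_smul]
    refine Finset.sum_congr rfl fun σ _ => ?_
    rw [hT σ I, smul_assoc, smul_comm]
  rw [Finset.sum_congr rfl fun I _ => h1 I, Finset.sum_comm,
    Finset.sum_congr rfl fun σ _ => fdual_reindex (fun I => G I • T I) σ, Finset.sum_const,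
    Finset.card_univ, Fintype.card_perm, Fintype.card_fin]

private theorem fdual_smul_asymm {T : (Fin n → ι) → A} (hT : Alt T) (G : (Fin n → ι) → M) :
    ∑ I, T I • asymm G I = n.factorial • ∑ I, T I • G I := by
  have h1 : ∀ I, T I • asymm G I = ∑ σ : Equiv.Perm (Fin n), T (I ∘ σ) • G (I ∘ σ) := by
    intro I
    unfold asymm
    rw [Finset.smul_sum]
    refine Finset.sum_congr rfl fun σ _ => ?_
    rw [hT σ I, smul_assoc, smul_comm]
  rw [Finset.sum_congr rfl fun I _ => h1 I, Finset.sum_comm,
    Finset.sum_congr rfl fun σ _ => fdual_reindex (fun I => T I • G I) σ, Finset.sum_const,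
    Finset.card_univ, Fintype.card_perm, Fintype.card_fin]

omit [Fintype ι] in
private theorem fdual_asymm_of_alt {T : (Fin n → ι) → M} (hT : Alt T) (I : Fin n → ι) :
    asymm T I = n.factorial • T I := by
  unfold asymm
  have h1 : ∀ σ : Equiv.Perm (Fin n),
      ((Equiv.Perm.sign σ : ℤˣ) : ℤ) • T (I ∘ σ) = T I := by
    intro σ
    rw [hT σ I, smul_smul, ← Units.val_mul, Int.units_mul_self, Units.val_one, one_smul]
  rw [Finset.sum_congr rfl fun σ _ => h1 σ, Finset.sum_const, Finset.card_univ,
    Fintype.card_perm, Fintype.card_fin]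

end Aux

variable {k F : Type} [Field k] [IsAlgClosed k] [CharZero k] [Field F] [Algebra k F]

omit [IsAlgClosed k] [CharZero k] in
private theorem fdual_leOrd_sum {ι : Type} {P : Pt k F} {n : ℤ} {s : Finset ι} {f : ι → F}
    (h : ∀ x ∈ s, LeOrd P n (f x)) : LeOrd P n (∑ x ∈ s, f x) := by
  classical
  induction s using Finset.induction_on with
  | empty =>
    rw [Finset.sum_empty]
    exact LeOrd.zero _ _
  | insert x s hx ih =>
    rw [Finset.sum_insert hx]
    exact (h x (Finset.mem_insert_self x s)).add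
      (ih fun y hy => h y (Finset.mem_insert_of_mem hy))

omit [IsAlgClosed k] [CharZero k] in
private theorem fdual_leOrd_zsmul {P : Pt k F} {n : ℤ} {f : F} (h : LeOrd P n f) (m : ℤ) :
    LeOrd P n (m • f) := by
  have h1 : m • f = (m : k) • f := by
    rw [Int.cast_smul_eq_zsmul]
  rw [h1]
  exact h.smul _

private theorem fdual_coe_sum (hF : IsCurve k F) {κ : Type} {s : Finset κ} (y : κ → F)
    (η : κ → Ad hF) (P : Pt k F) :
    ((∑ I ∈ s, y I • η I : Ad hF) : Pt k F → F) P = ∑ I ∈ s, y I * (η I : Pt k F → F) P := by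
  rw [Submodule.coe_sum, Finset.sum_apply]
  rfl

/-- The functional is given by a repartition that is a multiple of `a`. -/
private theorem fdual_rho (hF : IsCurve k F) {W : Dv k F} {ω : Ad hF →ₗ[k] k}
    (hω : IsRes hF W ω) {A : Dv k F} {i r : ℕ} (a : Module.Basis (Fin r) k (L A))
    (η : (Fin i → Fin r) → Ad hF)
    (h0 : ∀ y : (Fin i → Fin r) → F, Alt y → (∀ I, y I ∈ L (A + W)) →
      IsCyc (fun j => (a j : F)) y → ω (∑ I, y I • η I) = 0) :
    ∃ ρ : (Fin i → Fin r) → Ad hF, Alt ρ ∧
      (∀ (Q : Pt k F) I, wg (fun j => (a j : F)) (fun J => (ρ J : Pt k F → F) Q) I = 0) ∧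
      ∀ y : (Fin i → Fin r) → F, Alt y → (∀ I, y I ∈ L (A + W)) →
        ω (∑ I, y I • η I) = ω (∑ I, y I • ρ I) := by
  have : CharZero F := charZero_of_injective_algebraMap (algebraMap k F).injective
  cases i with
  | zero =>
    refine ⟨fun _ => 0, alt_zero, fun Q I => ?_, fun y hy hv => ?_⟩
    · unfold wg
      refine Finset.sum_eq_zero fun j _ => ?_
      show (-1) ^ (j : ℕ) * ((a (I j) : F) * (0 : F)) = 0
      rw [mul_zero, mul_zero]
    · rw [h0 y hy hv trivial]
      simp
  | succ n =>
    set av : Fin r → F := fun j => (a j : F) with hav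
    -- the space of the alternating functions
    let Y : Submodule k ((Fin (n + 1) → Fin r) → F) :=
      { carrier := {y | Alt y ∧ ∀ I, y I ∈ L (A + W)}
        zero_mem' := ⟨alt_zero, fun I => Submodule.zero_mem _⟩
        add_mem' := fun {x y} hx hy =>
          ⟨alt_add hx.1 hy.1, fun I => Submodule.add_mem _ (hx.2 I) (hy.2 I)⟩
        smul_mem' := fun c x hx => by
          refine ⟨?_, fun I => Submodule.smul_mem _ c (hx.2 I)⟩
          exact alt_hom hx.1 (DistribSMul.toAddMonoidHom F c) }
    have hmul : ∀ (j : Fin r) (f : F), f ∈ L (A + W) → av j * f ∈ L (A + (A + W)) := by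
      intro j f hf
      rw [← inA_const]
      have h1 : InA A (fun _ : Pt k F => av j) := inA_const.2 (a j).2
      have h2 := inA_const.2 hf
      intro P
      have h3 := (h1 P).mul (h2 P)
      rw [Finsupp.add_apply, neg_add]
      exact h3
    have hmem : ∀ (y : Y) (J : Fin n → Fin r),
        ∑ j, av j * (y : (Fin (n + 1) → Fin r) → F) (Fin.cons j J) ∈ L (A + (A + W)) :=
      fun y J => Submodule.sum_mem _ fun j _ => hmul j _ (y.2.2 _)
    let d : Y →ₗ[k] ((Fin n → Fin r) → L (A + (A + W))) :=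
      { toFun := fun y J => ⟨_, hmem y J⟩
        map_add' := fun x y => by
          funext J
          apply Subtype.ext
          show ∑ j, av j * ((x : (Fin (n + 1) → Fin r) → F) (Fin.cons j J) +
            (y : (Fin (n + 1) → Fin r) → F) (Fin.cons j J)) = _ + _
          simp only [mul_add, Finset.sum_add_distrib]
        map_smul' := fun c x => by
          funext J
          apply Subtype.ext
          show ∑ j, av j * (c • (x : (Fin (n + 1) → Fin r) → F) (Fin.cons j J)) = c • _
          rw [Finset.smul_sum]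
          exact Finset.sum_congr rfl fun j _ => mul_smul_comm _ _ _ }
    let lam : Y →ₗ[k] k :=
      { toFun := fun y => ω (∑ I, (y : (Fin (n + 1) → Fin r) → F) I • η I)
        map_add' := fun x y => by
          rw [← map_add, ← Finset.sum_add_distrib]
          congr 1
          exact Finset.sum_congr rfl fun I _ => add_smul _ _ _
        map_smul' := fun c x => by
          rw [RingHom.id_apply, ← map_smul, Finset.smul_sum]
          congr 1
          exact Finset.sum_congr rfl fun I _ => smul_assoc _ _ _ }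
    have hlam : lam ∈ (LinearMap.ker d).dualAnnihilator := by
      rw [Submodule.mem_dualAnnihilator]
      intro y hy
      refine h0 y y.2.1 y.2.2 ?_
      intro J
      have h1 := congrArg Subtype.val (congrFun (LinearMap.mem_ker.1 hy) J)
      exact h1
    rw [← LinearMap.range_dualMap_eq_dualAnnihilator_ker] at hlam
    obtain ⟨mu, hmu⟩ := hlam
    have hrep : ∀ J : Fin n → Fin r, ∃ α : Ad hF, ∀ s : L (A + (A + W)),
        mu (Pi.single J s) = ω ((s : F) • α) := by
      intro J
      exact hω.rep (A + (A + W))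
        (mu ∘ₗ LinearMap.single k (fun _ : Fin n → Fin r => L (A + (A + W))) J)
    choose m hm using hrep
    have hmu2 : ∀ y : (Fin (n + 1) → Fin r) → F, Alt y → (∀ I, y I ∈ L (A + W)) →
        ω (∑ I, y I • η I) = ω (∑ J, dk av y J • m J) := by
      intro y hy hv
      have h1 : lam ⟨y, hy, hv⟩ = mu (d ⟨y, hy, hv⟩) := by
        rw [← hmu]
        rfl
      have h2 : mu (d ⟨y, hy, hv⟩) = ∑ J, ω (dk av y J • m J) := by
        rw [← Finset.univ_sum_single (d ⟨y, hy, hv⟩), map_sum]
        exact Finset.sum_congr rfl fun J _ => hm J _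
      have h3 : ω (∑ J, dk av y J • m J) = ∑ J, ω (dk av y J • m J) := map_sum _ _ _
      rw [h3, ← h2, ← h1]
      rfl
    set c : F := ((n + 1 : F) * n.factorial)⁻¹ with hc
    have hc1 : ((n + 1 : F) * n.factorial) ≠ 0 := by
      have h1 : ((n : F) + 1) ≠ 0 := Nat.cast_add_one_ne_zero n
      exact mul_ne_zero h1 (Nat.cast_ne_zero.2 (Nat.factorial_ne_zero n))
    let m2 : (Fin n → Fin r) → Ad hF := fun J => c • asymm m J
    have hm2 : Alt m2 := alt_hom (alt_asymm m) (DistribSMul.toAddMonoidHom (Ad hF) c)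
    have hm3 : ∀ Q : Pt k F, Alt fun J => (m2 J : Pt k F → F) Q := by
      intro Q
      exact alt_hom hm2 ((Pi.evalAddMonoidHom (fun _ : Pt k F => F) Q).comp
        ((Ad hF).subtype : Ad hF →ₗ[F] _).toAddMonoidHom)
    let rho : (Fin (n + 1) → Fin r) → Ad hF := fun I =>
      ∑ j : Fin (n + 1), ((-1) ^ (j : ℕ) * av (I j)) • m2 fun l => I (j.succAbove l)
    have hrho : ∀ I (Q : Pt k F), (rho I : Pt k F → F) Q =
        wg av (fun J => (m2 J : Pt k F → F) Q) I := by
      intro I Q
      unfold wg
      show ((∑ j : Fin (n + 1), ((-1) ^ (j : ℕ) * av (I j)) • m2 fun l => I (j.succAbove l) :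
        Ad hF) : Pt k F → F) Q = _
      rw [fdual_coe_sum]
      exact Finset.sum_congr rfl fun j _ => mul_assoc _ _ _
    refine ⟨rho, ?_, ?_, ?_⟩
    · intro σ I
      apply Subtype.ext
      funext Q
      rw [hrho]
      have h1 := alt_wg av (hm3 Q) σ I
      rw [h1, ← hrho]
      rfl
    · intro Q I
      have h1 : (fun J => (rho J : Pt k F → F) Q) =
          wg av (fun J => (m2 J : Pt k F → F) Q) := by
        funext J
        exact hrho J Q
      rw [h1, wg_wg av (hm3 Q)]
      rfl
    · intro y hy hv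
      rw [hmu2 y hy hv]
      congr 1
      have h1 : Alt (dk av y) := alt_dk hy av
      have h2 := fdual_smul_asymm h1 m
      apply Subtype.ext
      funext Q
      rw [fdual_coe_sum, fdual_coe_sum]
      have h3 : ∑ I, y I * (rho I : Pt k F → F) Q =
          (n + 1) * ∑ J, (m2 J : Pt k F → F) Q * dk av y J := by
        have h4 := sum_wg_mul av (ψ := fun J => (m2 J : Pt k F → F) Q) hy
        refine Eq.trans ?_ h4
        refine Finset.sum_congr rfl fun I _ => ?_
        rw [hrho, mul_comm]
      rw [h3]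
      have h4 : ∀ J, (m2 J : Pt k F → F) Q =
        c * ((asymm m J : Ad hF) : Pt k F → F) Q := fun J => rfl
      have h5 := congrFun (congrArg Subtype.val h2) Q
      have h6 : ∑ J, dk av y J * ((asymm m J : Ad hF) : Pt k F → F) Q =
          n.factorial * ∑ J, dk av y J * (m J : Pt k F → F) Q := by
        have h7 : ((∑ J, dk av y J • asymm m J : Ad hF) : Pt k F → F) Q =
          ((n.factorial • ∑ J, dk av y J • m J : Ad hF) : Pt k F → F) Q := h5
        rw [fdual_coe_sum] at h7
        rw [h7, ← fdual_coe_sum, ← nsmul_eq_mul]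
        rfl
      have h8 : ∑ J, (m2 J : Pt k F → F) Q * dk av y J =
          c * ∑ J, dk av y J * ((asymm m J : Ad hF) : Pt k F → F) Q := by
        rw [Finset.mul_sum]
        refine Finset.sum_congr rfl fun J _ => ?_
        rw [h4]
        ring
      rw [h8, h6, ← mul_assoc, ← mul_assoc, mul_assoc ((n : F) + 1), mul_comm c, ← mul_assoc,
        hc, mul_inv_cancel₀ hc1, one_mul]

/-- DUAL.  `η Q` is a repartition in `Q` with values in the alternating forms; the functional
`y ↦ ω(∑ I, η(I) y(I))` vanishes on the cycles `y`. -/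
theorem dual_lemma (hF : IsCurve k F) {W : Dv k F} {ω : Ad hF →ₗ[k] k} (hω : IsRes hF W ω)
    {A : Dv k F} {i r : ℕ} (a : Module.Basis (Fin r) k (L A))
    (η : (Fin i → Fin r) → Ad hF) (hη : Alt η)
    (h0 : ∀ y : (Fin i → Fin r) → F, Alt y → (∀ I, y I ∈ L (A + W)) →
      IsCyc (fun j => (a j : F)) y → ω (∑ I, y I • η I) = 0) :
    ∃ θ : (Fin i → Fin r) → F, Alt θ ∧ ∀ (Q : Pt k F) (I : Fin (i + 1) → Fin r),
      LeOrd Q 0 (wg (fun j => (a j : F)) (fun J => (η J : Pt k F → F) Q - θ J) I) := by
  have : CharZero F := charZero_of_injective_algebraMap (algebraMap k F).injective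
  obtain ⟨rho, hr1, hr2, hr3⟩ := fdual_rho hF hω a η h0
  have hT : Alt fun I => η I - rho I := alt_sub hη hr1
  set T : (Fin i → Fin r) → Ad hF := fun I => η I - rho I with hTdef
  have hfac : (i.factorial : F) ≠ 0 := Nat.cast_ne_zero.2 (Nat.factorial_ne_zero i)
  have hfack : (i.factorial : k) ≠ 0 := Nat.cast_ne_zero.2 (Nat.factorial_ne_zero i)
  have hz : ∀ I₀, ∀ s ∈ L (A + W), ω (s • T I₀) = 0 := by
    intro I₀ s hs
    have hy : Alt (asymm fun I : Fin i → Fin r => if I = I₀ then s else 0) := alt_asymm _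
    have hv : ∀ I, asymm (fun I : Fin i → Fin r => if I = I₀ then s else 0) I ∈ L (A + W) := by
      intro I
      unfold asymm
      refine Submodule.sum_mem _ fun σ _ => ?_
      refine zsmul_mem ?_ _
      show (if I ∘ σ = I₀ then s else 0) ∈ L (A + W)
      split_ifs
      · exact hs
      · exact Submodule.zero_mem _
    have h1 := hr3 _ hy hv
    have h2 : ω (∑ I, asymm (fun I : Fin i → Fin r => if I = I₀ then s else 0) I • T I) = 0 := by
      rw [← sub_eq_zero, ← map_sub, ← Finset.sum_sub_distrib] at h1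
      rw [← h1]
      congr 1
      exact Finset.sum_congr rfl fun I _ => smul_sub _ _ _
    rw [fdual_asymm_smul hT] at h2
    have h3 : ∑ I, (if I = I₀ then s else 0) • T I = s • T I₀ := by
      rw [Finset.sum_eq_single I₀]
      · rw [if_pos rfl]
      · intro I _ hI
        rw [if_neg hI, zero_smul]
      · intro h
        exact absurd (Finset.mem_univ _) h
    rw [h3, map_nsmul, nsmul_eq_mul] at h2
    exact (mul_eq_zero.1 h2).resolve_left hfack
  have hx : ∀ I, ∃ x : F, InA (W - (A + W)) fun P => (T I : Pt k F → F) P - x :=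
    fun I => hω.nondeg (A + W) (T I) (hz I)
  choose x hx using hx
  have hx2 : ∀ I (Q : Pt k F), LeOrd Q (A Q) ((T I : Pt k F → F) Q - x I) := by
    intro I Q
    have h1 := hx I Q
    have h2 : -(W - (A + W)) Q = A Q := by
      rw [Finsupp.sub_apply, Finsupp.add_apply]
      ring
    rwa [h2] at h1
  refine ⟨fun I => (i.factorial : F)⁻¹ * asymm x I, alt_mul (alt_asymm x) _, ?_⟩
  have hsm : ∀ (Q : Pt k F) J,
      LeOrd Q (A Q) ((T J : Pt k F → F) Q - (i.factorial : F)⁻¹ * asymm x J) := by
    intro Q J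
    have h1 : (T J : Pt k F → F) Q =
        (i.factorial : F)⁻¹ * ((asymm T J : Ad hF) : Pt k F → F) Q := by
      rw [fdual_asymm_of_alt hT J]
      show _ = (i.factorial : F)⁻¹ * (i.factorial • (T J : Pt k F → F) Q)
      rw [nsmul_eq_mul, ← mul_assoc, inv_mul_cancel₀ hfac, one_mul]
    have h2 : ((asymm T J : Ad hF) : Pt k F → F) Q =
        ∑ σ : Equiv.Perm (Fin i), ((Equiv.Perm.sign σ : ℤˣ) : ℤ) •
          (T (J ∘ σ) : Pt k F → F) Q := by
      unfold asymm
      rw [Submodule.coe_sum, Finset.sum_apply]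
      rfl
    rw [h1, h2, ← mul_sub]
    unfold asymm
    rw [← Finset.sum_sub_distrib]
    have h3 : (i.factorial : F)⁻¹ = algebraMap k F (i.factorial : k)⁻¹ := by
      rw [map_inv₀, map_natCast]
    rw [h3, ← Algebra.smul_def]
    refine LeOrd.smul _ (fdual_leOrd_sum fun σ _ => ?_)
    rw [← smul_sub]
    exact fdual_leOrd_zsmul (hx2 _ Q) _
  intro Q I
  have h1 : (fun J => (η J : Pt k F → F) Q - (i.factorial : F)⁻¹ * asymm x J) =
      (fun J => (T J : Pt k F → F) Q - (i.factorial : F)⁻¹ * asymm x J) +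
        fun J => (rho J : Pt k F → F) Q := by
    funext J
    show _ = ((η J : Pt k F → F) Q - (rho J : Pt k F → F) Q) - _ + (rho J : Pt k F → F) Q
    ring
  rw [h1, wg_add, Pi.add_apply, hr2 Q I, add_zero]
  unfold wg
  refine fdual_leOrd_sum fun j _ => ?_
  have h2 : LeOrd Q (-A Q) (a (I j) : F) := (inA_const.2 (a (I j)).2) Q
  have h3 := h2.mul (hsm Q fun l => I (j.succAbove l))
  rw [neg_add_cancel] at h3
  have h4 := h3.smul ((-1 : k) ^ (j : ℕ))
  rw [Algebra.smul_def, map_pow, map_neg, map_one] at h4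
  exact h4

end Pool.Agent.MPd118f9
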