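import Pool.Agent.Lib.MP_d118f9_ag_G.KD_A

/-!
# MP_d118f9_ag, covers of any degree: from HC to exactness
-/

set_option autoImplicit false

noncomputable section

open Classical

namespace Pool.Agent.MPd118f9

variable {k K : Type} [Field k] [IsAlgClosed k] [CharZero k] [Field K] [Algebra k K]

/-- Division by a linear form. -/
theorem eq_wg_of_wg {K : Type} [Field K] [CharZero K] {g n : ℕ} {v : Fin g → K}
    {φ : (Fin (n + 1) → Fin g) → K} (hφ : Alt φ)
    (h : wg v φ = 0) {l : Fin g} (hl : v l ≠ 0) :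
    φ = wg v fun J => φ (Fin.cons l J) / v l := by
  funext I
  have h1 := contr_wg hφ (Pi.single l (1 : K)) (x := v) I
  have h2 : pr v (Pi.single l (1 : K)) = v l := by
    rw [pr, Finset.sum_eq_single l]
    · rw [Pi.single_eq_same, mul_one]
    · intro j _ hj
      rw [Pi.single_eq_of_ne hj, mul_zero]
    · intro h
      exact absurd (Finset.mem_univ l) h
  have h3 : ∀ J : Fin n → Fin g, ∑ j, (Pi.single l (1 : K) : Fin g → K) j * φ (Fin.cons j J) =
      φ (Fin.cons l J) := by
    intro J
    rw [Finset.sum_eq_single l]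
    · rw [Pi.single_eq_same, one_mul]
    · intro j _ hj
      rw [Pi.single_eq_of_ne hj, zero_mul]
    · intro h
      exact absurd (Finset.mem_univ l) h
  rw [h2, h] at h1
  simp only [Pi.zero_apply, mul_zero, Finset.sum_const_zero, zero_add, h3] at h1
  have h4 : v l * wg v (fun J => φ (Fin.cons l J) / v l) I =
      wg v (fun J => φ (Fin.cons l J)) I := by
    unfold wg
    rw [Finset.mul_sum]
    refine Finset.sum_congr rfl fun j _ => ?_
    field_simp
  exact mul_left_cancel₀ hl (h1.trans h4.symm)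

/-- Constants `s` with `v ∧ s = 0` are zero. -/
theorem const_cycle_zero {W : Dv k K} {g n : ℕ} (v : Module.Basis (Fin g) k (L W)) (hn : n < g)
    {s : (Fin n → Fin g) → K} (hc : ∀ I, ∃ c : k, s I = algebraMap k K c)
    (h : wg (fun l => (v l : K)) s = 0) : s = 0 := by
  choose σ hσ using hc
  funext I
  obtain ⟨j, hj⟩ : ∃ j, ∀ m, I m ≠ j := by
    by_contra hcon
    push Not at hcon
    have h1 : Function.Surjective I := hcon
    have h2 := Fintype.card_le_of_surjective I h1
    rw [Fintype.card_fin, Fintype.card_fin] at h2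
    omega
  have h1 : (∑ m : Fin (n + 1), ((-1) ^ (m : ℕ) * σ fun l =>
      (Fin.cons j I : Fin (n + 1) → Fin g) (m.succAbove l)) •
        v ((Fin.cons j I : Fin (n + 1) → Fin g) m) : L W) = 0 := by
    apply Subtype.ext
    have h2 := congrFun h (Fin.cons j I)
    rw [Pi.zero_apply, wg] at h2
    rw [Submodule.coe_sum, Submodule.coe_zero, ← h2]
    refine Finset.sum_congr rfl fun m _ => ?_
    rw [Submodule.coe_smul, Algebra.smul_def, map_mul, map_pow, map_neg, map_one, hσ]
    ring
  have h2 := congrArg (v.coord j) h1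
  rw [map_sum, map_zero, Fin.sum_univ_succ] at h2
  have h3 : ∀ m : Fin n, v.coord j (((-1) ^ ((m.succ : Fin (n + 1)) : ℕ) * σ fun l =>
      (Fin.cons j I : Fin (n + 1) → Fin g) (m.succ.succAbove l)) •
        v ((Fin.cons j I : Fin (n + 1) → Fin g) m.succ)) = 0 := by
    intro m
    rw [map_smul, Fin.cons_succ, Module.Basis.coord_apply, Module.Basis.repr_self,
      Finsupp.single_eq_of_ne (hj m).symm, smul_zero]
  rw [Finset.sum_eq_zero fun m _ => h3 m, add_zero, map_smul, Fin.cons_zero,
    Module.Basis.coord_apply, Module.Basis.repr_self, Finsupp.single_eq_same, Fin.val_zero,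
    pow_zero, one_mul, smul_eq_mul, mul_one] at h2
  have h4 : (fun l : Fin n => (Fin.cons j I : Fin (n + 1) → Fin g) ((0 : Fin (n + 1)).succAbove l))
      = I := by
    funext l
    rw [Fin.succAbove_zero, Fin.cons_succ]
  rw [h4] at h2
  rw [Pi.zero_apply, hσ, h2, map_zero]

/-- The cycles `s` with values in `L (W + E)`, `E = (2 - q) W`, come from `L E`. -/
theorem exists_tau_KD (hK : IsCurve k K) {WK : Dv k K} (hW : IsCan WK) {p : ℕ}
    (hg : p + 3 ≤ genus k K) {g : ℕ} (v : Module.Basis (Fin g) k (L WK))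
    (h : ∀ s : (Fin (p + 1 + 1) → Fin g) → K, Alt s →
      (∀ I, s I ∈ L WK) → wg (fun l => (v l : K)) s = 0 →
      ∃ τ : (Fin (p + 1) → Fin g) → k, Alt τ ∧
        s = wg (fun l => (v l : K)) fun I => algebraMap k K (τ I)) (q : ℕ) (hq : 2 ≤ q)
    {s : (Fin (p + 1 + 1) → Fin g) → K} (hs : Alt s)
    (hsL : ∀ I, s I ∈ L (WK + (WK - (q - 1) • WK))) (h0 : wg (fun l => (v l : K)) s = 0) :
    ∃ τ : (Fin (p + 1) → Fin g) → K, Alt τ ∧ (∀ I, τ I ∈ L (WK - (q - 1) • WK)) ∧
      s = wg (fun l => (v l : K)) τ := by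
  have hcard : g = genus k K := by
    have h1 := Module.finrank_eq_card_basis v
    rw [Fintype.card_fin] at h1
    rw [← h1]
    exact hW.2
  rcases Nat.lt_or_ge q 3 with h1 | h1
  · have h2 : q = 2 := by omega
    subst h2
    have h3 : WK - (2 - 1) • WK = 0 := by
      rw [show 2 - 1 = 1 from rfl, one_smul, sub_self]
    rw [h3, add_zero] at hsL
    obtain ⟨τ, hτ, he⟩ := h s hs hsL h0
    refine ⟨fun I => algebraMap k K (τ I), alt_hom hτ (algebraMap k K).toAddMonoidHom, ?_, he⟩
    intro I
    rw [h3]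
    exact hK.mem_L_zero.2 ⟨_, rfl⟩
  · have h2 : s = 0 := by
      rcases Nat.lt_or_ge q 4 with h3 | h3
      · have h4 : q = 3 := by omega
        subst h4
        have h5 : WK + (WK - (3 - 1) • WK) = 0 := by
          rw [show 3 - 1 = 2 from rfl, two_smul]
          abel
        rw [h5] at hsL
        exact const_cycle_zero v (by omega) (fun I => hK.mem_L_zero.1 (hsL I)) h0
      · funext I
        have h4 := hsL I
        have h5 : deg (WK + (WK - (q - 1) • WK)) < 0 := by
          rw [deg_add, deg_sub, deg_nsmul, hW.1]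
          have h6 : (3 : ℤ) ≤ ((q - 1 : ℕ) : ℤ) := by
            have h7 : 3 ≤ q - 1 := by omega
            exact_mod_cast h7
          have h7 : (3 : ℤ) ≤ genus k K := by exact_mod_cast (by omega : 3 ≤ genus k K)
          nlinarith
        have := hK.finDim (WK + (WK - (q - 1) • WK))
        have h8 : L (WK + (WK - (q - 1) • WK)) = ⊥ :=
          Submodule.finrank_eq_zero.1 (hK.ell_of_deg_neg h5)
        rw [h8] at h4
        exact (Submodule.mem_bot k).1 h4
    subst h2
    refine ⟨0, fun σ I => by simp, fun I => Submodule.zero_mem _, ?_⟩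
    funext I
    simp [wg]

/-- Multiples of the linear form. -/
theorem wg_mem_Ad (hK : IsCurve k K) {g n : ℕ} (v : Fin g → K)
    {r : (Fin n → Fin g) → Pt k K → K} (hr : ∀ I, r I ∈ Ad hK) (J : Fin (n + 1) → Fin g) :
    (fun P => wg v (fun I => r I P) J) ∈ Ad hK := by
  have h1 : (fun P => wg v (fun I => r I P) J) =
      ∑ j : Fin (n + 1), ((-1) ^ (j : ℕ) * v (J j)) • r fun l => J (j.succAbove l) := by
    funext P
    rw [Finset.sum_apply, wg]
    refine Finset.sum_congr rfl fun j _ => ?_
    rw [Pi.smul_apply, smul_eq_mul, mul_assoc]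
  rw [h1]
  exact Submodule.sum_mem _ fun j _ => Submodule.smul_mem _ _ (hr _)

/-- The final pairing is zero. -/
theorem pairing_zero {K : Type} [Field K] [CharZero K] {g p : ℕ} {v : Fin g → K} {l₀ : Fin g}
    (hl₀ : v l₀ ≠ 0)
    {c : (Fin p → Fin g) → K} (hc : Alt c) (hcyc : IsCyc v c) {χ : (Fin p → Fin g) → K}
    (hχ : Alt χ) (h : wg v χ = 0) : ∑ I, c I * χ I = 0 := by
  cases p with
  | zero =>
    have h1 := congrFun h fun _ => l₀
    rw [wg, Fin.sum_univ_succ, Finset.univ_eq_empty, Finset.sum_empty, add_zero] at h1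
    have h2 : χ (fun l => (fun _ : Fin 1 => l₀) ((0 : Fin 1).succAbove l)) = 0 := by
      have h3 : v l₀ * χ (fun l => (fun _ : Fin 1 => l₀) ((0 : Fin 1).succAbove l)) = 0 := by
        simpa using h1
      exact (mul_eq_zero.1 h3).resolve_left hl₀
    refine Finset.sum_eq_zero fun I _ => ?_
    have h3 : I = fun l => (fun _ : Fin 1 => l₀) ((0 : Fin 1).succAbove l) :=
      funext fun l => l.elim0
    rw [h3, h2, mul_zero]
  | succ p =>
    have h1 := eq_wg_of_wg hχ h hl₀
    have h2 := sum_wg_mul v (ψ := fun J => χ (Fin.cons l₀ J) / v l₀) hc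
    rw [← h1] at h2
    have h3 : ∑ I, c I * χ I = ∑ I, χ I * c I := Finset.sum_congr rfl fun I _ => mul_comm _ _
    rw [h3, h2]
    have h4 : ∀ J, ∑ j, v j * c (Fin.cons j J) = 0 := hcyc
    simp only [h4, mul_zero, Finset.sum_const_zero]

/-- KD (text PC, section 1). -/
theorem kosExact_of_HC (hK : IsCurve k K) {WK : Dv k K} (hW : IsCan WK) {p : ℕ}
    (hg : p + 3 ≤ genus k K) (h : HC WK (p + 1)) (q : ℕ) (hq : 2 ≤ q) : KosExact WK p q := by
  have hch : CharZero K := charZero_of_injective_algebraMap (algebraMap k K).injective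
  obtain ⟨g, v, hv⟩ := h
  obtain ⟨ω, hω⟩ := exists_res hK hW
  obtain ⟨ω', hreg, hconst, hrep, hnon⟩ := ext_res hK hω
  set x : Fin g → K := fun l => (v l : K) with hx
  obtain ⟨P₀⟩ := nonempty_pt hK
  obtain ⟨l₀, hl₀, -⟩ := can_bpf hK (by omega) hW v P₀
  have hl₀' : x l₀ ≠ 0 := hl₀
  suffices hKE : KE x (L ((q - 1) • WK)) (L (q • WK)) p by
    intro r v' c hc hcL hcyc
    exact KE.of_basis v v' hKE c hc hcL hcyc
  intro c hc hcL hcyc
  -- the image
  let S : Submodule k ((Fin p → Fin g) → K) :=
    { carrier := {c | ∃ b : (Fin (p + 1) → Fin g) → K, Alt b ∧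
        (∀ I, b I ∈ L ((q - 1) • WK)) ∧ ∀ I, c I = dk x b I}
      zero_mem' := ⟨0, fun σ I => by simp, fun I => Submodule.zero_mem _, fun I => by
        simp [dk]⟩
      add_mem' := by
        rintro c₁ c₂ ⟨b₁, h1, h2, h3⟩ ⟨b₂, h4, h5, h6⟩
        refine ⟨fun I => b₁ I + b₂ I, alt_add h1 h4, fun I => Submodule.add_mem _ (h2 I) (h5 I),
          fun I => ?_⟩
        rw [Pi.add_apply, h3, h6, dk, dk, dk, ← Finset.sum_add_distrib]
        exact Finset.sum_congr rfl fun j _ => (mul_add _ _ _).symm
      smul_mem' := by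
        rintro t c₁ ⟨b₁, h1, h2, h3⟩
        refine ⟨fun I => t • b₁ I, ?_, fun I => Submodule.smul_mem _ _ (h2 I), fun I => ?_⟩
        · intro σ I
          show t • b₁ (I ∘ σ) = _ • (t • b₁ I)
          rw [h1 σ I, smul_comm]
        · rw [Pi.smul_apply, h3, dk, dk, Finset.smul_sum]
          exact Finset.sum_congr rfl fun j _ => (mul_smul_comm _ _ _).symm }
  by_contra hcon
  have hcS : c ∉ S := fun hmem => hcon hmem
  obtain ⟨f, hfc, hfS⟩ := Submodule.exists_le_ker_of_notMem hcS
  obtain ⟨r, hr, hrA, hrf⟩ := exists_rep_alt hK (hrep (q • WK)) f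
  set E : Dv k K := WK - (q - 1) • WK with hE
  have hqq : (q - 1) • WK + WK = q • WK := by
    rw [← succ_nsmul, Nat.sub_add_cancel (by omega)]
  -- v ∧ r = t + regular part
  have hρalt : ∀ P, Alt (wg x fun I => r I P) := fun P => alt_wg x (by
    intro σ I
    have h1 := congrFun (hr σ I) P
    exact h1)
  have hrP : ∀ P, Alt fun I => r I P := fun P σ I => congrFun (hr σ I) P
  have hglob : ∀ J : Fin (p + 1) → Fin g, ∃ y : K,
      InA E fun P => (wg x fun I => r I P) J - y := by
    intro J
    refine hnon ((q - 1) • WK) _ (wg_mem_Ad hK x hrA J) ?_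
    intro y hy
    -- the test function
    have hbL : ∀ I, asymm (Pi.single J y : (Fin (p + 1) → Fin g) → K) I ∈ L ((q - 1) • WK) := by
      intro I
      refine asymm_mem (N := (L ((q - 1) • WK)).toAddSubgroup) (fun I' => ?_) I
      by_cases h1 : I' = J
      · rw [h1, Pi.single_eq_same]
        exact hy
      · rw [Pi.single_eq_of_ne h1]
        exact Submodule.zero_mem _
    have hbalt := alt_asymm (Pi.single J y : (Fin (p + 1) → Fin g) → K)
    set b := asymm (Pi.single J y : (Fin (p + 1) → Fin g) → K) with hb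
    have h1 : dk x b ∈ S := ⟨b, hbalt, hbL, fun I => rfl⟩
    have h2 : f (dk x b) = 0 := hfS h1
    have h3 : Alt (dk x b) := alt_dk hbalt x
    have h4 : ∀ I, dk x b I ∈ L (q • WK) := by
      intro I
      unfold dk
      refine Submodule.sum_mem _ fun j _ => ?_
      rw [← hqq, mul_comm]
      exact mul_mem_L (hbL _) (v j).2
    have h5 := hrf _ h3 h4
    rw [h2, smul_zero] at h5
    have h6 : ∀ P, ∑ I, dk x b I * r I P = ((p : K) + 1)⁻¹ * ((p + 1).factorial : K) *
        (y * wg x (fun I => r I P) J) := by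
      intro P
      have h7 := sum_wg_mul x (ψ := fun I => r I P) hbalt
      have h8 := sum_smul_asymm (hρalt P) (Pi.single J y : (Fin (p + 1) → Fin g) → K)
      rw [← hb] at h8
      simp only [smul_eq_mul] at h8
      rw [h7] at h8
      have h9 : ∑ I, wg x (fun I => r I P) I * (Pi.single J y : (Fin (p + 1) → Fin g) → K) I =
          wg x (fun I => r I P) J * y := by
        rw [Finset.sum_eq_single J]
        · rw [Pi.single_eq_same]
        · intro I _ hI
          rw [Pi.single_eq_of_ne hI, mul_zero]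
        · intro h
          exact absurd (Finset.mem_univ J) h
      rw [h9] at h8
      have h10 : ((p : K) + 1) ≠ 0 := by exact_mod_cast Nat.succ_ne_zero p
      have h11 : ∑ I, dk x b I * r I P = ∑ I, r I P * ∑ j, x j * b (Fin.cons j I) :=
        Finset.sum_congr rfl fun I _ => mul_comm _ _
      rw [h11, mul_assoc, eq_inv_mul_iff_mul_eq₀ h10, h8, zsmul_eq_mul, Int.cast_natCast]
      ring
    have h7 : (fun P => ∑ I, dk x b I * r I P) =
        (((p : k) + 1)⁻¹ * ((p + 1).factorial : k)) •
          (y • fun P => wg x (fun I => r I P) J) := by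
      funext P
      rw [h6 P, Pi.smul_apply, Pi.smul_apply, smul_eq_mul, Algebra.smul_def, map_mul, map_inv₀,
        map_add, map_natCast, map_natCast, map_one]
    rw [h7, map_smul, smul_eq_mul] at h5
    have h8 : ((p : k) + 1)⁻¹ * ((p + 1).factorial : k) ≠ 0 := by
      refine mul_ne_zero (inv_ne_zero ?_) (Nat.cast_ne_zero.2 (Nat.factorial_ne_zero _))
      exact_mod_cast Nat.succ_ne_zero p
    exact (mul_eq_zero.1 h5.symm).resolve_left h8
  obtain ⟨t, htalt, ht⟩ := exists_alt_global hρalt hglob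
  -- s = v ∧ t
  have hxW : ∀ P l, LeOrd P (-WK P) (x l) := fun P l => inA_const.2 (v l).2 P
  have hsL : ∀ I, wg x t I ∈ L (WK + E) := by
    intro I
    rw [← inA_const]
    intro P
    have h1 : wg x t = -wg x fun J => wg x (fun I => r I P) J - t J := by
      have h2 : wg x (fun J => wg x (fun I => r I P) J - t J) =
          wg x (wg x fun I => r I P) - wg x t := wg_sub x _ _
      rw [h2, wg_wg x (hrP P), zero_sub, neg_neg]
    rw [h1]
    have h2 := leOrd_wg (hxW P) (ht P) I
    have h3 : -(WK + E) P = -WK P + -E P := by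
      rw [Finsupp.add_apply]
      ring
    rw [h3]
    exact h2.neg
  obtain ⟨τ, hτalt, hτL, hτ⟩ := exists_tau_KD hK hW hg v hv q hq (alt_wg x htalt) hsL
    (wg_wg x htalt)
  -- u
  have ht'alt : Alt fun I => t I - τ I := alt_sub htalt hτalt
  have ht'0 : wg x (fun I => t I - τ I) = 0 := by
    have h1 : wg x (fun I => t I - τ I) = wg x t - wg x τ := wg_sub x _ _
    rw [h1, hτ, sub_self]
  have hu := eq_wg_of_wg ht'alt ht'0 hl₀'
  set u : (Fin p → Fin g) → K := fun J => (t (Fin.cons l₀ J) - τ (Fin.cons l₀ J)) / x l₀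
    with hudef
  have hualt : Alt u := by
    have h1 := alt_mul (alt_cons ht'alt l₀) (x l₀)⁻¹
    intro σ I
    have h2 := h1 σ I
    simp only [hudef, div_eq_mul_inv] at h2 ⊢
    simpa only [mul_comm] using h2
  -- u'
  have hu' : ∀ P, ∃ u' : (Fin p → Fin g) → K, Alt u' ∧
      (∀ I, LeOrd P (-(E - WK) P) (u' I)) ∧
      (fun J => wg x (fun I => r I P) J - t J + τ J) = wg x u' := by
    intro P
    obtain ⟨l, hl, hlW⟩ := can_bpf hK (by omega) hW v P
    have h1 : Alt fun J => wg x (fun I => r I P) J - t J + τ J :=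
      alt_add (alt_sub (hρalt P) htalt) hτalt
    have h2 : wg x (fun J => wg x (fun I => r I P) J - t J + τ J) = 0 := by
      have h3 : wg x (fun J => wg x (fun I => r I P) J - t J + τ J) =
          wg x (fun J => wg x (fun I => r I P) J - t J) + wg x τ := wg_add x _ _
      have h4 : wg x (fun J => wg x (fun I => r I P) J - t J) =
          wg x (wg x fun I => r I P) - wg x t := wg_sub x _ _
      rw [h3, h4, wg_wg x (hrP P), ← hτ, zero_sub, neg_add_cancel]
    have hl' : x l ≠ 0 := hl
    have h3 := eq_wg_of_wg h1 h2 hl'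
    refine ⟨_, ?_, ?_, h3⟩
    · have h4 := alt_mul (alt_cons h1 l) (x l)⁻¹
      intro σ I
      have h5 := h4 σ I
      simp only [div_eq_mul_inv] at h5 ⊢
      simpa only [mul_comm] using h5
    · intro I
      have h4 : LeOrd P (-E P) (wg x (fun I => r I P) (Fin.cons l I) - t (Fin.cons l I) +
          τ (Fin.cons l I)) := (ht P _).add (inA_const.2 (hτL _) P)
      have h5 : LeOrd P (WK P) (x l)⁻¹ := by
        refine Or.inr ?_
        rw [P.ord_inv]
        have h6 : P.ord (x l) = -WK P := hlW
        omega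
      have h6 := h4.mul h5
      have h7 : -(E - WK) P = -E P + WK P := by
        rw [Finsupp.sub_apply]
        ring
      rw [h7, div_eq_mul_inv]
      exact h6
  choose u' hu'alt hu'L hu'eq using hu'
  -- the pairing
  have hfin : ∀ P, ∑ I, c I * r I P = ∑ I, c I * u I + ∑ I, c I * u' P I := by
    intro P
    have h1 : Alt fun I => r I P - (u I + u' P I) := alt_sub (hrP P) (alt_add hualt (hu'alt P))
    have h2 : wg x (fun I => r I P - (u I + u' P I)) = 0 := by
      have h3 : wg x (fun I => r I P - (u I + u' P I)) =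
          wg x (fun I => r I P) - wg x (fun I => u I + u' P I) := wg_sub x _ _
      have h4 : wg x (fun I => u I + u' P I) = wg x u + wg x (u' P) := wg_add x _ _
      rw [h3, h4, ← hu, ← hu'eq P]
      funext J
      simp only [Pi.sub_apply, Pi.add_apply, Pi.zero_apply]
      ring
    have h3 := pairing_zero hl₀' hc hcyc h1 h2
    have h4 : ∑ I, c I * (r I P - (u I + u' P I)) =
        ∑ I, c I * r I P - (∑ I, c I * u I + ∑ I, c I * u' P I) := by
      rw [← Finset.sum_add_distrib, ← Finset.sum_sub_distrib]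
      exact Finset.sum_congr rfl fun I _ => by ring
    rw [h4] at h3
    exact sub_eq_zero.1 h3
  have h1 := hrf c hc hcL
  have h2 : (fun P => ∑ I, c I * r I P) =
      (fun _ : Pt k K => ∑ I, c I * u I) + fun P => ∑ I, c I * u' P I := funext hfin
  have h3 : InA WK fun P => ∑ I, c I * u' P I := by
    intro P
    have h4 : ∑ I, c I * u' P I ∈ LoS P (-WK P) := by
      refine Submodule.sum_mem _ fun I _ => ?_
      have h5 := (inA_const.2 (hcL I) P).mul (hu'L P I)
      have h6 : -(q • WK) P + -(E - WK) P = -WK P := by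
        rw [hE, ← hqq]
        simp only [Finsupp.sub_apply, Finsupp.add_apply]
        ring
      rw [h6] at h5
      exact h5
    exact h4
  rw [h2, map_add, hconst, hreg _ h3, add_zero] at h1
  have h4 : ((p.factorial : ℤ) * (p.factorial : ℤ)) • f c =
      ((p.factorial : k) * (p.factorial : k)) * f c := by
    rw [zsmul_eq_mul, Int.cast_mul, Int.cast_natCast]
  rw [h4] at h1
  have h5 : (p.factorial : k) ≠ 0 := Nat.cast_ne_zero.2 (Nat.factorial_ne_zero p)
  exact hfc ((mul_eq_zero.1 h1).resolve_left (mul_ne_zero h5 h5))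

end Pool.Agent.MPd118f9
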