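import Pool.Agent.Lib.MP_d118f9_ag_G.TRes
import Pool.Agent.Lib.MP_d118f9_ag_G.A

/-!
# MP_d118f9_ag, covers of any degree: KD, preparations
-/

set_option autoImplicit false

noncomputable section

open Classical

namespace Pool.Agent.MPd118f9

section

variable {ι R M : Type} [CommRing R] [AddCommGroup M] [Module R M] [Fintype ι] {n : ℕ}

theorem sum_smul_asymm {c : (Fin n → ι) → R} (hc : Alt c) (G : (Fin n → ι) → M) :
    ∑ I, c I • asymm G I = (n.factorial : ℤ) • ∑ I, c I • G I := by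
  have h1 : ∀ I, c I • asymm G I = ∑ σ : Equiv.Perm (Fin n), c (I ∘ σ) • G (I ∘ σ) := by
    intro I
    rw [asymm, Finset.smul_sum]
    refine Finset.sum_congr rfl fun σ _ => ?_
    rw [hc σ I, smul_comm, smul_assoc]
  rw [Finset.sum_congr rfl fun I _ => h1 I, Finset.sum_comm]
  have h2 : ∀ σ : Equiv.Perm (Fin n), ∑ I : Fin n → ι, c (I ∘ σ) • G (I ∘ σ) =
      ∑ I, c I • G I := by
    intro σ
    exact Fintype.sum_equiv (Equiv.arrowCongr σ.symm (Equiv.refl ι)) _ _ fun I => rfl
  rw [Finset.sum_congr rfl fun σ _ => h2 σ, Finset.sum_const, Finset.card_univ,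
    Fintype.card_perm, Fintype.card_fin, natCast_zsmul]

end

section

variable {k K : Type} [Field k] [IsAlgClosed k] [CharZero k] [Field K] [Algebra k K]

/-- The functions that vanish to order at least `n` at `P`. -/
def LoS (P : Pt k K) (n : ℤ) : Submodule k K where
  carrier := {f | LeOrd P n f}
  zero_mem' := LeOrd.zero P n
  add_mem' := fun ha hb => LeOrd.add ha hb
  smul_mem' := fun c _ ha => LeOrd.smul c ha

omit [IsAlgClosed k] [CharZero k] in
theorem leOrd_wg {ι : Type} [Fintype ι] {P : Pt k K} {a b : ℤ} {v : ι → K} {n : ℕ}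
    {ψ : (Fin n → ι) → K} (hv : ∀ l, LeOrd P a (v l)) (hψ : ∀ I, LeOrd P b (ψ I))
    (I : Fin (n + 1) → ι) : LeOrd P (a + b) (wg v ψ I) := by
  have h1 : wg v ψ I ∈ LoS P (a + b) := by
    unfold wg
    refine Submodule.sum_mem _ fun j _ => ?_
    have h2 : v (I j) * ψ (fun l => I (j.succAbove l)) ∈ LoS P (a + b) := (hv _).mul (hψ _)
    rcases neg_one_pow_eq_or K (j : ℕ) with h3 | h3
    · rw [h3, one_mul]
      exact h2
    · rw [h3, neg_one_mul]
      exact Submodule.neg_mem _ h2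
  exact h1

/-- Extension of the differential to all functions on the set of points. -/
theorem ext_res (hK : IsCurve k K) {W : Dv k K} {ω : Ad hK →ₗ[k] k} (hω : IsRes hK W ω) :
    ∃ ω' : (Pt k K → K) →ₗ[k] k, (∀ α, InA W α → ω' α = 0) ∧ (∀ x : K, ω' (fun _ => x) = 0) ∧
      (∀ (D : Dv k K) (lam : L D →ₗ[k] k), ∃ α ∈ Ad hK, ∀ s : L D, lam s = ω' ((s : K) • α)) ∧
      ∀ (D : Dv k K), ∀ α ∈ Ad hK, (∀ s ∈ L D, ω' (s • α) = 0) →
        ∃ x : K, InA (W - D) fun P => α P - x := by
  obtain ⟨ω', hω'⟩ := LinearMap.exists_extend (p := (Ad hK).restrictScalars k) ω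
  have h1 : ∀ α (hα : α ∈ Ad hK), ω' α = ω ⟨α, hα⟩ := by
    intro α hα
    have h2 := congrArg (fun f => f ⟨α, hα⟩) hω'
    exact h2
  refine ⟨ω', ?_, ?_, ?_, ?_⟩
  · intro α hα
    rw [h1 α ⟨W, hα⟩]
    exact hω.reg _ hα
  · intro x
    have h2 := hω.const x
    rw [← h2]
    exact h1 _ (cst hK x).2
  · intro D lam
    obtain ⟨α, hα⟩ := hω.rep D lam
    refine ⟨α, α.2, fun s => ?_⟩
    rw [hα s, h1 _ ((Ad hK).smul_mem _ α.2)]
    rfl
  · intro D α hα hs
    refine hω.nondeg D ⟨α, hα⟩ fun s hs' => ?_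
    have h2 := hs s hs'
    rw [h1 _ ((Ad hK).smul_mem _ hα)] at h2
    exact h2

/-- The antisymmetrisation as a linear map. -/
def asymL (k K ι : Type) [Field k] [Field K] [Algebra k K] (n : ℕ) :
    ((Fin n → ι) → K) →ₗ[k] ((Fin n → ι) → K) :=
  ∑ σ : Equiv.Perm (Fin n), ((Equiv.Perm.sign σ : ℤˣ) : ℤ) •
    LinearMap.funLeft k K fun I : Fin n → ι => I ∘ σ

omit [IsAlgClosed k] [CharZero k] in
theorem asymL_apply {ι : Type} {n : ℕ} (G : (Fin n → ι) → K) : asymL k K ι n G = asymm G := by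
  funext I
  rw [asymL, LinearMap.sum_apply, Finset.sum_apply, asymm]
  rfl

/-- Representation of functionals on the alternating functions with values in `L D`. -/
theorem exists_rep_alt (hK : IsCurve k K) {ω' : (Pt k K → K) →ₗ[k] k} {D : Dv k K}
    (hrep : ∀ lam : L D →ₗ[k] k, ∃ α ∈ Ad hK, ∀ s : L D, lam s = ω' ((s : K) • α)) {g n : ℕ}
    (f : ((Fin n → Fin g) → K) →ₗ[k] k) :
    ∃ r : (Fin n → Fin g) → Pt k K → K, Alt r ∧ (∀ I, r I ∈ Ad hK) ∧
      ∀ c : (Fin n → Fin g) → K, Alt c → (∀ I, c I ∈ L D) →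
        ((n.factorial : ℤ) * (n.factorial : ℤ)) • f c = ω' fun P => ∑ I, c I * r I P := by
  have h0 : ∀ I : Fin n → Fin g, ∃ α ∈ Ad hK, ∀ s : L D,
      f (asymm (Pi.single I (s : K))) = ω' ((s : K) • α) := by
    intro I
    obtain ⟨α, hα, h⟩ := hrep (f ∘ₗ asymL k K (Fin g) n ∘ₗ
      LinearMap.single k (fun _ : Fin n → Fin g => K) I ∘ₗ (L D).subtype)
    refine ⟨α, hα, fun s => ?_⟩
    rw [← h s]
    simp only [LinearMap.comp_apply, asymL_apply]
    rfl
  choose r₀ hr₀ hf using h0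
  refine ⟨asymm r₀, alt_asymm _, fun I => ?_, ?_⟩
  · exact asymm_mem (N := (Ad hK).toAddSubgroup) hr₀ I
  · intro c hc hcL
    have h1 : (n.factorial : ℤ) • f c = ∑ I, ω' (c I • r₀ I) := by
      have h2 : ((n.factorial : ℤ) • c : (Fin n → Fin g) → K) =
          ∑ I, asymL k K (Fin g) n (Pi.single I (c I)) := by
        rw [← map_sum, asymL_apply]
        have h3 : ∑ I, Pi.single I (c I) = c := Finset.univ_sum_single c
        rw [h3]
        funext I
        rw [asymm_of_alt hc]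
        rfl
      rw [← map_zsmul, h2, map_sum]
      refine Finset.sum_congr rfl fun I _ => ?_
      rw [asymL_apply]
      exact hf I ⟨c I, hcL I⟩
    rw [mul_smul, h1, ← map_sum, ← map_zsmul]
    congr 1
    funext P
    have h2 := sum_smul_asymm hc fun I => r₀ I P
    have h3 : ∀ I, asymm r₀ I P = asymm (fun I => r₀ I P) I := by
      intro I
      rw [asymm, asymm, Finset.sum_apply]
      rfl
    simp only [smul_eq_mul] at h2
    rw [Pi.smul_apply, Finset.sum_apply]
    simp only [h3, Pi.smul_apply, smul_eq_mul]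
    exact h2.symm

/-- Alternating choice of the global part. -/
theorem exists_alt_global {E : Dv k K} {g n : ℕ} {ρ : Pt k K → (Fin n → Fin g) → K}
    (hρ : ∀ P, Alt (ρ P)) (h : ∀ J, ∃ x : K, InA E fun P => ρ P J - x) :
    ∃ t : (Fin n → Fin g) → K, Alt t ∧ ∀ P J, LeOrd P (-E P) (ρ P J - t J) := by
  choose x hx using h
  have h0 : (n.factorial : k) ≠ 0 := Nat.cast_ne_zero.2 (Nat.factorial_ne_zero n)
  refine ⟨fun J => (n.factorial : k)⁻¹ • asymm x J, ?_, ?_⟩
  · intro σ J
    show (n.factorial : k)⁻¹ • asymm x (J ∘ σ) = _ • ((n.factorial : k)⁻¹ • asymm x J)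
    rw [alt_asymm x σ J, smul_comm]
  · intro P J
    have h1 : ρ P J = (n.factorial : k)⁻¹ • asymm (ρ P) J := by
      rw [asymm_of_alt (hρ P), natCast_zsmul, ← Nat.cast_smul_eq_nsmul k, smul_smul,
        inv_mul_cancel₀ h0, one_smul]
    have h2 : asymm (fun J => ρ P J - x J) J ∈ LoS P (-E P) :=
      asymm_mem (N := (LoS P (-E P)).toAddSubgroup) (fun I => hx I P) J
    have h3 : ρ P J - (n.factorial : k)⁻¹ • asymm x J =
        (n.factorial : k)⁻¹ • asymm (fun J => ρ P J - x J) J := by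
      nth_rewrite 1 [h1]
      rw [← smul_sub]
      congr 1
      rw [asymm, asymm, asymm, ← Finset.sum_sub_distrib]
      refine Finset.sum_congr rfl fun σ _ => ?_
      rw [← smul_sub]
    show LeOrd P (-E P) (ρ P J - (n.factorial : k)⁻¹ • asymm x J)
    rw [h3]
    exact Submodule.smul_mem _ _ h2

/-- The canonical divisor has no base points. -/
theorem can_bpf (hK : IsCurve k K) (hg : 1 ≤ genus k K) {W : Dv k K} (hW : IsCan W) {g : ℕ}
    (v : Module.Basis (Fin g) k (L W)) (P : Pt k K) :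
    ∃ l, (v l : K) ≠ 0 ∧ P.ord (v l : K) = -W P := by
  by_contra hcon
  push Not at hcon
  have hne : ∀ l, (v l : K) ≠ 0 := fun l => by
    intro h
    exact v.ne_zero l (Subtype.ext h)
  have h1 : L W ≤ L (W - Finsupp.single P 1) := by
    have h2 : ∀ l, (v l : K) ∈ L (W - Finsupp.single P 1) := by
      intro l
      have h3 := (mem_L_of_ne (hne l)).1 (v l).2
      rw [mem_L_of_ne (hne l)]
      intro Q
      by_cases hQ : Q = P
      · subst hQ
        rw [Finsupp.sub_apply, Finsupp.single_eq_same]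
        have h4 := h3 Q
        have h5 := hcon l (hne l)
        omega
      · rw [Finsupp.sub_apply, Finsupp.single_eq_of_ne hQ, sub_zero]
        exact h3 Q
    intro x hx
    have h3 := v.sum_repr ⟨x, hx⟩
    have h4 : x = ∑ l, v.repr ⟨x, hx⟩ l • (v l : K) := by
      have h5 := congrArg (fun y : L W => (y : K)) h3
      simp only [Submodule.coe_sum, Submodule.coe_smul] at h5
      exact h5.symm
    rw [h4]
    exact Submodule.sum_mem _ fun l _ => Submodule.smul_mem _ _ (h2 l)
  have := hK.finDim (W - Finsupp.single P 1)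
  have h2 : ell W ≤ ell (W - Finsupp.single P 1) := Submodule.finrank_mono h1
  have h3 := hW.riemann_roch hK (W - Finsupp.single P 1)
  rw [sub_sub_cancel, deg_sub, deg_single, hW.1] at h3
  have h4 := hK.ell_add_single_le (0 : Dv k K) P
  rw [zero_add, hK.ell_zero] at h4
  have h5 : ell (Finsupp.single P 1 : Dv k K) ≤ 1 := by
    by_contra hc
    have h6 : ell (Finsupp.single P 1 : Dv k K) = 2 := by omega
    have h7 := two_le_deg hK hg (Finsupp.single_nonneg.2 zero_le_one) h6
    rw [deg_single] at h7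
    omega
  have h6 := hW.2
  omega

end

end Pool.Agent.MPd118f9
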