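import Pool.Agent.Lib.MP_d118f9_ag.M.MC

/-!
# MP_d118f9_ag, project G: the statement MG (the theorem of Ein and Lazarsfeld) for one curve

The assembly is the assembly of MC (`M/Main1`), with the space `L(W)` in place of the functions
`∑ c' w + ∑ w b`, and without the second group of arguments.
-/

set_option autoImplicit false

noncomputable section

open Classical

namespace Pool.Agent.MPd118f9

variable {k F : Type} [Field k] [IsAlgClosed k] [CharZero k] [Field F] [Algebra k F]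

/-- The local decomposition at the affine ring of `z`. -/
private theorem locG (hF : IsCurve k F) {W : Dv k F} (hW : IsCan W) (i : ℕ)
    (h : i + 2 ≤ gon k F) {z : F} (hz : ∀ c : k, z ≠ algebraMap k F c) {b : F}
    (hb : b ∈ bz z W) :
    ∃ μ₀ : ℕ, ∃ (T : ℕ) (H : Fin T → SS k F i) (γ : Fin T → F),
      (∀ μ, μ₀ ≤ μ → ∀ t, H t ∈ PT SS.ι (μ • poles k z)) ∧ (∀ t, γ t ∈ L W) ∧
      ∀ l : Fin (i + 1), (SS.ι l b : SS k F i) = ∑ t, H t * SS.ι l (γ t) := by
  have hWb : ∀ v ∈ L W, v ∈ bz z W := by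
    intro v hv
    rcases mem_L.1 hv with h0 | h0
    · exact Or.inl h0
    · exact Or.inr fun P _ => h0 P
  have hE0 : 0 ≤ poles k z := le_sup_right
  have hR : Algebra.FiniteType k (Rz k z) := hF.finiteType_Rz hz
  have hMf : Module.Finite (Rz k z) (bz z W) := Module.Finite.iff_fg.2 (hF.fg_bz hz W)
  let δ : ∀ _ : Fin (i + 1), (bz z W) →+ SS k F i := fun l =>
    { toFun := fun c => SS.ι l (c : F)
      map_zero' := map_zero _
      map_add' := fun x y => map_add _ _ _ }
  obtain ⟨T, H, γ, hH, hγ, hid⟩ := nch (N := fun _ => SS k F i)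
    (fun l : Fin (i + 1) => (SS.ι l : F →ₐ[k] SS k F i).comp (Rz k z).val) δ (by
      intro l r b
      change SS.ι l ((r : F) * (b : F)) = SS.ι l (r : F) * SS.ι l (b : F)
      rw [map_mul])
    {γ : bz z W | (γ : F) ∈ L W} (by
      intro χ d
      obtain ⟨v, hv, hv'⟩ := hyp_i hF hW hz (n := i + 1) h χ d.2
      refine ⟨⟨v, hWb v hv⟩, hv, ?_⟩
      rw [Submodule.mem_smul_top_iff]
      exact hv') ⟨b, hb⟩
  have hH' : ∀ t, ∃ μ : ℕ, H t ∈ PT SS.ι (μ • poles k z) := by
    intro t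
    refine exists_PT_of_mem_adjoin SS.ι hF hz ?_
    have h3 : genAlg (fun l : Fin (i + 1) => (SS.ι l : F →ₐ[k] SS k F i).comp (Rz k z).val) ≤
        Algebra.adjoin k (⋃ l, (SS.ι l : F →ₐ[k] SS k F i) '' (Rz k z : Set F)) := by
      refine iSup_le fun l => ?_
      rintro _ ⟨r, rfl⟩
      exact Algebra.subset_adjoin (Set.mem_iUnion.2 ⟨l, ⟨(r : F), r.2, rfl⟩⟩)
    exact h3 (hH t)
  choose μ₁ hμ₁ using hH'
  refine ⟨∑ t, μ₁ t, T, H, fun t => (γ t : F), fun μ hμ t => ?_, hγ, fun l => ?_⟩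
  · refine PT_mono SS.ι (nsmul_le_nsmul_left hE0 ?_) (hμ₁ t)
    have h1 : μ₁ t ≤ ∑ t, μ₁ t :=
      Finset.single_le_sum (fun _ _ => Nat.zero_le _) (Finset.mem_univ t)
    omega
  · exact hid l

/-- The decomposition of the elements of `Fb A i (A + W)` for MG. -/
theorem mainG (hF : IsCurve k F) {W : Dv k F} (hW : IsCan W) (i : ℕ) (h : i + 2 ≤ gon k F)
    (V : Vars k F (SS k F i))
    (hx : ∀ (l : Fin i) (f : F), V.x l f = SS.ι l.castSucc f)
    (hd : ∀ t < i, V.Disj t) (hρ : ∀ s t f, s ≠ t → V.ρ s (V.x t f) = V.x t f)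
    (hσ : ∀ l : Fin i, ∃ σ : SS k F i →ₐ[k] SS k F i,
        (∀ f, σ (SS.ι (Fin.last i) f) = SS.ι l.castSucc f) ∧
        (∀ (m : Fin i) (f : F), σ (SS.ι m.castSucc f) = SS.ι m.castSucc f) ∧
        ∀ u, σ (V.ρ l u) = σ u) :
    ∃ N : ℤ, ∀ A : Dv k F, N ≤ deg A → ∀ x ∈ V.Fb (fun _ => A) i (A + W),
      ∃ (nq : ℕ) (D : Fin nq → Dv k F) (Ξ : Fin nq → SS k F i) (γ : Fin nq → F),
        (∀ q, 0 ≤ D q) ∧ (∀ q, Ξ q ∈ PT SS.ι (A - D q)) ∧ (∀ q, γ q ∈ L W) ∧
        (∀ l : Fin i, ∑ q, Ξ q * SS.ι l.castSucc (γ q) = 0) ∧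
        ∑ q, Ξ q * SS.ι (Fin.last i) (γ q) = x := by
  obtain ⟨z, hzt, -⟩ := id hF
  have hz : ∀ c : k, z ≠ algebraMap k F c := by
    rintro c rfl
    exact hzt (isAlgebraic_algebraMap c)
  let c : Fin (i + 2) → k := fun j => (j.1 : k)
  have hc : Function.Injective c := fun j j' hjj => Fin.ext (Nat.cast_injective hjj)
  have hzc : ∀ j, ∀ d : k, (z - algebraMap k F (c j))⁻¹ ≠ algebraMap k F d := by
    intro j d hd
    apply hz (c j + d⁻¹)
    have h1 : z - algebraMap k F (c j) = (algebraMap k F d)⁻¹ := by rw [← hd, inv_inv]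
    rw [map_add, map_inv₀, ← h1]
    ring
  obtain ⟨M', hM'⟩ := Vars.output hF i hz W c hc
  have hEc0 : ∀ j, 0 ≤ Ec z (c j) := fun j => le_sup_right
  have hfin : ∀ j, FiniteDimensional k (L (W + M' • Ec z (c j))) := fun j => hF.finDim _
  let sj : Fin (i + 2) → ℕ := fun j => Module.finrank k (L (W + M' • Ec z (c j)))
  let b : ∀ j : Fin (i + 2), Module.Basis (Fin (sj j)) k (L (W + M' • Ec z (c j))) :=
    fun j => Module.finBasis k _
  have hbz : ∀ j a, ((b j a : L (W + M' • Ec z (c j))) : F) ∈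
      bz (z - algebraMap k F (c j))⁻¹ W := fun j a =>
    (hF.mem_bz_iff (hzc j) W _).2 ⟨M', (b j a).2⟩
  choose μ₀ T H γ hH hγ hid using fun (j : Fin (i + 2)) (a : Fin (sj j)) =>
    locG hF hW i h (hzc j) (hbz j a)
  set μ : ℕ := ∑ j, ∑ a, μ₀ j a with hμdef
  have hμ : ∀ j a, μ₀ j a ≤ μ := by
    intro j a
    have h1 : μ₀ j a ≤ ∑ a, μ₀ j a :=
      Finset.single_le_sum (fun _ _ => Nat.zero_le _) (Finset.mem_univ a)
    have h2 : ∑ a, μ₀ j a ≤ ∑ j, ∑ a, μ₀ j a :=
      Finset.single_le_sum (f := fun j => ∑ a, μ₀ j a) (fun _ _ => Nat.zero_le _)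
        (Finset.mem_univ j)
    omega
  obtain ⟨N, hN⟩ := hM' (2 * μ)
  refine ⟨N, fun A hA x hxF => ?_⟩
  obtain ⟨y, hy, hxy⟩ := hN (SS k F i) V hd A hA x hxF
  choose G hG1 hG2 hG3 using fun j : Fin (i + 2) => split hF V hx hd hρ hσ (b j) (hy j)
  let ell : Fin (i + 2) → SS k F i := fun j =>
    (∏ l, (SS.ι l z - algebraMap k (SS k F i) (c j))) ^ (2 * μ)
  have hell : ∀ j, ((∏ l ∈ Finset.range i, (V.x l z - algebraMap k (SS k F i) (c j))) *
      (algebraMap F (SS k F i) z - algebraMap k (SS k F i) (c j))) ^ (2 * μ) = ell j := by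
    intro j
    simp only [ell]
    rw [Fin.prod_univ_castSucc, Finset.prod_range, SS.algebraMap_eq]
    congr 2
    refine Finset.prod_congr rfl fun l _ => ?_
    rw [hx]
  have hxy' : x = ∑ j, ell j * y j := by
    rw [hxy]
    exact Finset.sum_congr rfl fun j _ => by rw [hell j]
  let Q : Type := Σ (j : Fin (i + 2)) (a : Fin (sj j)), Fin (T j a)
  let e : Fin (Fintype.card Q) ≃ Q := (Fintype.equivFin Q).symm
  have hsum : ∀ f : Q → SS k F i, ∑ q, f (e q) = ∑ j, ∑ a, ∑ t, f ⟨j, a, t⟩ := by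
    intro f
    rw [e.sum_comp f, Fintype.sum_sigma]
    refine Finset.sum_congr rfl fun j _ => ?_
    rw [Fintype.sum_sigma]
  have hT : ∀ (l : Fin (i + 1)) (j : Fin (i + 2)) (a : Fin (sj j)),
      ∑ t, ell j * G j a * H j a t * SS.ι l (γ j a t) =
      ell j * (G j a * SS.ι l ((b j a : L (W + M' • Ec z (c j))) : F)) := by
    intro l j a
    rw [hid j a l, Finset.mul_sum, Finset.mul_sum]
    refine Finset.sum_congr rfl fun t _ => ?_
    ring
  have hΞ : ∀ (j : Fin (i + 2)) (a : Fin (sj j)) (t : Fin (T j a)),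
      ell j * G j a * H j a t ∈ PT SS.ι (A - μ • Ec z (c j)) := by
    intro j a t
    have h1 := mul_mem_PT SS.ι (hG1 j a) (hH j a μ (hμ j a) t)
    have h2 : A - (2 * μ) • poles k z + μ • poles k (z - algebraMap k F (c j))⁻¹ =
        (A - (2 * μ) • poles k z - μ • Ec z (c j)) + (2 * μ) • Ec z (c j) := by
      have h3 : poles k (z - algebraMap k F (c j))⁻¹ = Ec z (c j) := rfl
      rw [h3, two_mul, add_smul μ μ (Ec z (c j))]
      abel
    rw [h2] at h1
    have h3 := ell_mul_mem_PT SS.ι hF hz (c j) (2 * μ) h1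
    have h4 : A - (2 * μ) • poles k z - μ • Ec z (c j) + (2 * μ) • poles k z =
        A - μ • Ec z (c j) := by
      abel
    rw [h4] at h3
    rw [mul_assoc]
    exact h3
  refine ⟨Fintype.card Q, fun q => μ • Ec z (c (e q).1),
    fun q => ell (e q).1 * G (e q).1 (e q).2.1 * H (e q).1 (e q).2.1 (e q).2.2,
    fun q => γ (e q).1 (e q).2.1 (e q).2.2,
    fun q => nsmul_nonneg (hEc0 _) μ, fun q => ?_, fun q => hγ _ _ _, fun l => ?_, ?_⟩
  · have key : ∀ q' : Q, ell q'.1 * G q'.1 q'.2.1 * H q'.1 q'.2.1 q'.2.2 ∈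
        PT SS.ι (A - μ • Ec z (c q'.1)) := by
      rintro ⟨j, a, t⟩
      exact hΞ j a t
    exact key (e q)
  · rw [hsum fun q => ell q.1 * G q.1 q.2.1 * H q.1 q.2.1 q.2.2 *
      SS.ι l.castSucc (γ q.1 q.2.1 q.2.2)]
    refine Finset.sum_eq_zero fun j _ => ?_
    rw [Finset.sum_congr rfl fun a _ => hT l.castSucc j a, ← Finset.mul_sum, hG2 j l, mul_zero]
  · rw [hsum fun q => ell q.1 * G q.1 q.2.1 * H q.1 q.2.1 q.2.2 *
      SS.ι (Fin.last i) (γ q.1 q.2.1 q.2.2), hxy']
    refine Finset.sum_congr rfl fun j _ => ?_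
    rw [Finset.sum_congr rfl fun a _ => hT (Fin.last i) j a, ← Finset.mul_sum, ← hG3 j]

omit [IsAlgClosed k] [CharZero k] in
private theorem constG_mul_mem {D : Dv k F} (e : k) {f : F} (hf : f ∈ L D) :
    algebraMap k F e * f ∈ L D := by
  rw [← Algebra.smul_def]
  exact Submodule.smul_mem _ _ hf

omit [IsAlgClosed k] [CharZero k] in
private theorem asymG_map {ι : Type} {n : ℕ} (X : (Fin n → ι) → k) (I : Fin n → ι) :
    asym (fun I => algebraMap k F (X I)) I = algebraMap k F (asym X I) := by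
  unfold asym
  rw [map_sum]
  exact Finset.sum_congr rfl fun σ _ => (map_zsmul _ _ _).symm

private theorem asymG_lin {ι : Type} {n nq : ℕ} (X : Fin nq → (Fin n → ι) → F) (γ : Fin nq → F)
    (I : Fin n → ι) :
    asym (fun I => ∑ q, X q I * γ q) I = ∑ q, asym (X q) I * γ q := by
  unfold asym
  simp only [Finset.smul_sum, Finset.sum_mul]
  rw [Finset.sum_comm]
  exact Finset.sum_congr rfl fun q _ => Finset.sum_congr rfl fun σ _ => (smul_mul_assoc _ _ _).symm

omit [IsAlgClosed k] in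
/-- The last step of MG. -/
theorem last_stepG {i r nq : ℕ} {W : Dv k F} {a : Fin r → F} (hr : 0 < r)
    (c : (Fin i → Fin r) → F) (hc : Alt c) (X : Fin nq → (Fin (i + 1) → Fin r) → k)
    (γ : Fin nq → F) (hγ : ∀ q, γ q ∈ L W)
    (hP2 : ∀ l ≠ Fin.last i, ∀ I,
      ∑ q, (∑ j, algebraMap k F (X q (Function.update I l j)) * a j) * γ q = 0)
    (hP3 : ∀ I, ∑ q, (∑ j, algebraMap k F (X q (Function.update I (Fin.last i) j)) * a j) *
      γ q = c (fun l => I l.castSucc)) :
    ∃ g : (Fin (i + 1) → Fin r) → F, Alt g ∧ (∀ I, g I ∈ L W) ∧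
      ∀ I, c I = ∑ j, a j * g (Fin.cons j I) := by
  have : CharZero F := charZero_of_injective_algebraMap (algebraMap k F).injective
  let j₀ : Fin r := ⟨0, hr⟩
  obtain ⟨κ, hκ⟩ : ∃ κ : k, κ * ((-1) ^ i * (i.factorial : k)) = 1 := by
    refine ⟨((-1) ^ i * (i.factorial : k))⁻¹, inv_mul_cancel₀ ?_⟩
    refine mul_ne_zero (pow_ne_zero _ (neg_ne_zero.2 one_ne_zero)) ?_
    exact_mod_cast i.factorial_ne_zero
  have hY : ∀ q, Alt fun I => algebraMap k F (asym (X q) I) := fun q =>
    alt_hom (alt_asym (X q)) (algebraMap k F : k →+ F)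
  have key : ∀ I, ∑ j, a j * ∑ q, algebraMap k F (asym (X q) (Fin.cons j I)) * γ q =
      ((-1) ^ i * (i.factorial : F)) * c I := by
    intro I
    have h1 := contr_asym a (fun I : Fin (i + 1) → Fin r => ∑ q, algebraMap k F (X q I) * γ q)
      c hc ?_ ?_ I
    · have h2 : ∀ K : Fin (i + 1) → Fin r,
          asym (fun I : Fin (i + 1) → Fin r => ∑ q, algebraMap k F (X q I) * γ q) K =
          ∑ q, algebraMap k F (asym (X q) K) * γ q := by
        intro K
        rw [asymG_lin (fun q I => algebraMap k F (X q I))]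
        exact Finset.sum_congr rfl fun q _ => by rw [asymG_map]
      simp only [h2, smul_eq_mul] at h1
      rw [h1, zsmul_eq_mul]
      push_cast
      ring
    · intro l hl K
      have h2 := hP2 l hl (Fin.insertNth (α := fun _ => Fin r) l j₀ K)
      simp only [Fin.update_insertNth] at h2
      rw [← h2]
      simp only [smul_eq_mul, Finset.mul_sum, Finset.sum_mul]
      rw [Finset.sum_comm]
      refine Finset.sum_congr rfl fun q _ => Finset.sum_congr rfl fun j _ => ?_
      ring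
    · intro K
      have h2 := hP3 (Fin.insertNth (α := fun _ => Fin r) (Fin.last i) j₀ K)
      simp only [Fin.update_insertNth] at h2
      have h3 : (fun l : Fin i => (Fin.insertNth (α := fun _ => Fin r) (Fin.last i) j₀ K)
          l.castSucc) = K := by
        funext l
        have := Fin.insertNth_apply_succAbove (α := fun _ => Fin r) (Fin.last i) j₀ K l
        rwa [Fin.succAbove_last_apply] at this
      rw [h3] at h2
      rw [← h2]
      simp only [smul_eq_mul, Finset.mul_sum, Finset.sum_mul]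
      rw [Finset.sum_comm]
      refine Finset.sum_congr rfl fun q _ => Finset.sum_congr rfl fun j _ => ?_
      ring
  refine ⟨fun I => algebraMap k F κ * ∑ q, algebraMap k F (asym (X q) I) * γ q, ?_, ?_, ?_⟩
  · refine alt_mul (alt_sum fun q _ => ?_) _
    simp only [mul_comm (algebraMap k F (asym (X q) _))]
    exact alt_mul (hY q) _
  · intro I
    exact constG_mul_mem κ (Submodule.sum_mem _ fun q _ => constG_mul_mem _ (hγ q))
  · intro I
    have h1 := key I
    have h2 : algebraMap k F κ * ((-1) ^ i * (i.factorial : F)) = 1 := by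
      have := congrArg (algebraMap k F) hκ
      simpa using this
    have h3 : c I = algebraMap k F κ * (((-1) ^ i * (i.factorial : F)) * c I) := by
      rw [← mul_assoc, h2, one_mul]
    rw [h3, ← h1, Finset.mul_sum]
    refine Finset.sum_congr rfl fun j _ => ?_
    ring

/-- **MG.**  The theorem of Ein and Lazarsfeld (gonality conjecture): if `i + 2 ≤ gon` and
`deg A` is large, then every alternating Koszul cycle `c` of `i` indices in a basis of `L(A)` with
values in `L(A + W)` is the boundary of an alternating function with values in `L(W)`. -/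
theorem MG (hF : IsCurve k F) {W : Dv k F} (hW : IsCan W) (i : ℕ) (h : i + 2 ≤ gon k F) :
    ∃ N : ℤ, ∀ A : Dv k F, N ≤ deg A → ∀ (r : ℕ) (a : Module.Basis (Fin r) k (L A))
      (c : (Fin i → Fin r) → F), Alt c → (∀ I, c I ∈ L (A + W)) →
      IsCyc (fun j => (a j : F)) c →
      ∃ g : (Fin (i + 1) → Fin r) → F, Alt g ∧ (∀ I, g I ∈ L W) ∧
        ∀ I, c I = ∑ j, (a j : F) * g (Fin.cons j I) := by
  obtain ⟨V, hx, hd, hρ, hσ⟩ := SS.exists_vars k F i
  obtain ⟨N, hN⟩ := mainG hF hW i h V hx hd hρ hσ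
  refine ⟨max N (genus k F), fun A hA' r a c hc hcW hcyc => ?_⟩
  have hA : N ≤ deg A := (le_max_left _ _).trans hA'
  have hr : 0 < r := by
    have h1 : ell A = r := by
      unfold ell
      rw [Module.finrank_eq_card_basis a, Fintype.card_fin]
    have h2 := hF.le_ell A
    have h3 : (genus k F : ℤ) ≤ deg A := (le_max_right _ _).trans hA'
    omega
  have haA : ∀ j, (a j : F) ∈ L A := fun j => (a j).2
  have ha : LinearIndependent k fun j => (a j : F) :=
    a.linearIndependent.map' (L A).subtype (Submodule.ker_subtype _)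
  have hsp : L A ≤ Submodule.span k (Set.range fun j => (a j : F)) := by
    intro x hx'
    have h1 := a.mem_span ⟨x, hx'⟩
    have h2 := Submodule.mem_map_of_mem (f := (L A).subtype) h1
    rw [Submodule.map_span, ← Set.range_comp] at h2
    exact h2
  obtain ⟨nq, D, Ξ, γ, hD, hΞ, hγ, h2, h3⟩ :=
    hN A hA (V.arr (fun j => (a j : F)) c) (V.arr_mem_Fb haA hcW
      fun l I => hc.contr_update hcyc l I)
  obtain ⟨X, -, hX2, hX3⟩ := to_arrays (m := 0) (s := 0) V hx ha haA hsp
    (fun I _ => c I) D hD Ξ hΞ (fun q _ => γ q) (fun l _ => h2 l) (fun _ => by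
      rw [h3, Nat.factorial_zero, Nat.cast_one, one_mul])
  refine last_stepG hr c hc X γ hγ (fun l hl I => hX2 l hl I Fin.elim0) fun I => ?_
  have h4 := hX3 I Fin.elim0
  rw [Nat.factorial_zero, Nat.cast_one, one_mul] at h4
  exact h4

end Pool.Agent.MPd118f9
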