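import Pool.Agent.Lib.MP_d118f9_ag_G.TRel

/-!
# MP_d118f9_ag, covers of any degree: P1
-/

set_option autoImplicit false

noncomputable section

open Classical

namespace Pool.Agent.MPd118f9

variable {k F K : Type} [Field k] [IsAlgClosed k] [CharZero k] [Field F] [Field K] [Algebra k F]
  [Algebra k K] [Algebra F K] [IsScalarTower k F K] [FiniteDimensional F K]

/-- The trace maps `L(WK + f^*B)` to `L(W + B)`. -/
private theorem vb_trace_mem (hK : IsCurve k K) {W : Dv k F} {WK : Dv k K} (h : IsRel W WK)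
    {B : Dv k F} {x : K} (hx : x ∈ L (WK + pull K B)) : Algebra.trace F K x ∈ L (W + B) := by
  refine inA_const.1 fun Q => ?_
  obtain ⟨t, ht0, ht⟩ := exists_ord_eq Q (B Q)
  have h1 : LeQ Q WK (algebraMap F K t * x) := by
    intro P hP
    have hx' : LeOrd P (-(WK + pull K B) P) x := (inA_const.2 hx) P
    have ht' : LeOrd P ((P.ram F : ℤ) * B Q) (algebraMap F K t) := by
      refine Or.inr ?_
      rw [P.ord_map, hP, ht]
    refine (ht'.mul hx').mono ?_
    rw [Finsupp.add_apply, pull_apply hK, hP]
    linarith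
  have h2 := h.tr Q _ h1
  rw [← Algebra.smul_def, map_smul, smul_eq_mul] at h2
  have h3 : LeOrd Q (-B Q) t⁻¹ := by
    refine Or.inr ?_
    rw [Q.ord_inv, ht]
  have h4 := h3.mul h2
  rw [inv_mul_cancel_left₀ ht0] at h4
  refine h4.mono ?_
  rw [Finsupp.add_apply]
  linarith

private theorem vb_pull_neg (hK : IsCurve k K) (D : Dv k F) : pull K (-D) = -pull K D := by
  ext P
  rw [Finsupp.neg_apply, pull_apply hK, pull_apply hK, Finsupp.neg_apply, mul_neg]

private theorem vb_pull_inf (hK : IsCurve k K) (D D' : Dv k F) :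
    pull K (D ⊓ D') = pull K D ⊓ pull K D' := by
  ext P
  rw [Finsupp.inf_apply, pull_apply hK, pull_apply hK, pull_apply hK, Finsupp.inf_apply]
  have h0 : (0 : ℤ) ≤ P.ram F := Int.natCast_nonneg _
  rcases le_total (D P.below) (D' P.below) with h | h
  · rw [inf_eq_left.2 h, inf_eq_left.2 (mul_le_mul_of_nonneg_left h h0)]
  · rw [inf_eq_right.2 h, inf_eq_right.2 (mul_le_mul_of_nonneg_left h h0)]

private theorem vb_pull_dv (hF : IsCurve k F) (hK : IsCurve k K) {f : F} (hf : f ≠ 0) :
    pull K (dv k f) = dv k (algebraMap F K f) := by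
  ext P
  rw [pull_apply hK, hF.dv_apply hf, hK.dv_apply ((map_ne_zero _).2 hf), P.ord_map]

/-- `l(f^*B) = l(B)` for `deg B ≤ Ψ`. -/
private theorem vb_ell_pull (hK : IsCurve k K) {Ψ : ℤ} (hP : Prim k F K Ψ) {B : Dv k F}
    (hB : deg B ≤ Ψ) : ell (pull K B) = ell B := by
  let e : F →ₗ[k] K := (IsScalarTower.toAlgHom k F K).toLinearMap
  have hinj : Function.Injective e := (algebraMap F K).injective
  have h1 : (L B).map e = L (pull K B) := by
    apply le_antisymm
    · rintro _ ⟨f, hf, rfl⟩
      exact (map_mem_pull hK).2 hf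
    · intro x hx
      obtain ⟨f, rfl⟩ := hP B hB x hx
      exact ⟨f, (map_mem_pull hK).1 hx, rfl⟩
  unfold ell
  rw [← h1]
  exact (Submodule.equivMapOfInjective e hinj (L B)).finrank_eq.symm

/-- Rank and nullity for the trace. -/
private theorem vb_finrank (hK : IsCurve k K) {W : Dv k F} {WK : Dv k K}
    (h : IsRel W WK) (B : Dv k F) :
    ell (WK + pull K B) = ell (W + B) + Module.finrank k (VB WK B : Submodule k K) := by
  have hc : CharZero F := charZero_of_injective_algebraMap (algebraMap k F).injective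
  have hfin := hK.finDim (WK + pull K B)
  let T : K →ₗ[k] F := (Algebra.trace F K).restrictScalars k
  let φ : L (WK + pull K B) →ₗ[k] L (W + B) :=
    T.restrict (p := L (WK + pull K B)) (q := L (W + B)) fun x hx => vb_trace_mem hK h hx
  have hsurj : Function.Surjective φ := by
    rintro ⟨f, hf⟩
    have hd : (Module.finrank F K : F) ≠ 0 := by
      exact_mod_cast (Module.finrank_pos (R := F) (M := K)).ne'
    have h1 : algebraMap F K f ∈ L (WK + pull K B) := by
      refine L_mono ?_ ((map_mem_pull hK).2 hf)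
      rw [pull_add hK]
      exact add_le_add_left h.le _
    have h2 : (Module.finrank F K : k)⁻¹ • algebraMap F K f ∈ L (WK + pull K B) :=
      Submodule.smul_mem _ _ h1
    refine ⟨⟨_, h2⟩, Subtype.ext ?_⟩
    change Algebra.trace F K ((Module.finrank F K : k)⁻¹ • algebraMap F K f) = f
    have h3 : (Module.finrank F K : k)⁻¹ • algebraMap F K f =
        algebraMap F K ((Module.finrank F K : F)⁻¹ * f) := by
      rw [map_mul, Algebra.smul_def, map_inv₀, map_inv₀, map_natCast, map_natCast]
    rw [h3, Algebra.trace_algebraMap, nsmul_eq_mul, mul_inv_cancel_left₀ hd]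
  have h1 := LinearMap.finrank_range_add_finrank_ker φ
  rw [LinearMap.range_eq_top.2 hsurj, finrank_top] at h1
  have h2 : Module.finrank k (LinearMap.ker φ) =
      Module.finrank k (VB WK B : Submodule k K) := by
    refine LinearEquiv.finrank_eq (LinearEquiv.ofBijective
      ({ toFun := fun x => ⟨x.1.1, x.1.2, ?_⟩
         map_add' := fun x y => rfl
         map_smul' := fun c x => rfl } : LinearMap.ker φ →ₗ[k] VB WK B) ⟨?_, ?_⟩)
    · have h3 := x.2
      rw [LinearMap.mem_ker] at h3
      exact congrArg (Subtype.val) h3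
    · intro x y hxy
      have h4 := congrArg (fun z : (VB WK B : Submodule k K) => (z : K)) hxy
      exact Subtype.ext (Subtype.ext h4)
    · rintro ⟨x, hx, hx'⟩
      exact ⟨⟨⟨x, hx⟩, LinearMap.mem_ker.2 (Subtype.ext hx')⟩, rfl⟩
  rw [h2] at h1
  exact h1.symm

/-- P1.  `dim V(B) = (d - 1) deg B + (g - h)` for `deg B ≥ -Ψ`. -/
theorem isBdl_VB (hF : IsCurve k F) (hK : IsCurve k K) {W : Dv k F} {WK : Dv k K}
    (h : IsRel W WK) {Ψ : ℤ} (hP : Prim k F K Ψ) :
    IsBdl (VB WK : Dv k F → Submodule k K) ((Module.finrank F K : ℤ) - 1)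
      ((genus k K : ℤ) - genus k F) (-Ψ) := by
  constructor
  · intro B B' hB
    refine inf_le_inf_right _ (L_mono (add_le_add_right (pull_mono hK hB) _))
  · rintro f u B hf ⟨hu, hu'⟩
    have hf' : algebraMap F K f ≠ 0 := (map_ne_zero _).2 hf
    refine ⟨?_, ?_⟩
    · change f • u ∈ L (WK + pull K (B - dv k f))
      rw [Algebra.smul_def, hK.mul_mem_iff hf', pull_sub hK, vb_pull_dv hF hK hf,
        add_assoc, sub_add_cancel]
      exact hu
    · change Algebra.trace F K (f • u) = 0
      have h1 : Algebra.trace F K u = 0 := hu'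
      rw [map_smul, h1, smul_zero]
  · rintro u B B' ⟨hu, hu'⟩ ⟨hv, -⟩
    refine ⟨?_, hu'⟩
    have h1 := L_inf hu hv
    have h2 : (WK + pull K B) ⊓ (WK + pull K B') = WK + pull K (B ⊓ B') := by
      rw [vb_pull_inf hK]
      ext P
      rw [Finsupp.inf_apply, Finsupp.add_apply, Finsupp.add_apply, Finsupp.add_apply,
        Finsupp.inf_apply]
      omega
    rw [h2] at h1
    exact h1
  · intro B
    have h1 := hK.finDim (WK + pull K B)
    exact Submodule.finiteDimensional_of_le (inf_le_left : VB WK B ≤ L (WK + pull K B))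
  · intro B hB
    have h1 := vb_finrank hK h B
    have h2 := h.canK.riemann_roch hK (WK + pull K B)
    have h3 := h.canF.riemann_roch hF (W + B)
    have e1 : WK - (WK + pull K B) = pull K (-B) := by
      rw [vb_pull_neg hK]
      abel
    have e2 : W - (W + B) = -B := by abel
    have e3 : ell (pull K (-B)) = ell (-B) := vb_ell_pull hK hP (by rw [deg_neg]; omega)
    have e4 := h.canK.1
    have e5 := h.canF.1
    rw [e1, e3, deg_add, deg_pull_cov hF hK, e4] at h2
    rw [e2, deg_add, e5] at h3
    rw [h1] at h2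
    push_cast at h2
    rw [h3] at h2
    linarith

end Pool.Agent.MPd118f9
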