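import Pool.Agent.Lib.MP_d118f9_ag_G.P1

/-!
# MP_d118f9_ag, covers of any degree: P2
-/

set_option autoImplicit false

noncomputable section

open Classical

namespace Pool.Agent.MPd118f9

/-- Vectors of `N` that are independent modulo `N'`. -/
private theorem P2_quot {k U : Type} [Field k] [AddCommGroup U] [Module k U]
    {N N' : Submodule k U} (hN : N' ≤ N) [FiniteDimensional k N] {m : ℕ}
    (hm : Module.finrank k N = Module.finrank k N' + m) :
    ∃ u : Fin m → U, (∀ i, u i ∈ N) ∧ ∀ c : Fin m → k, ∑ i, c i • u i ∈ N' → c = 0 := by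
  let N₁ : Submodule k N := N'.comap N.subtype
  have h1 : Module.finrank k N₁ = Module.finrank k N' :=
    (Submodule.comapSubtypeEquivOfLe hN).finrank_eq
  have h2 : Module.finrank k (N ⧸ N₁) = m := by
    have h := Submodule.finrank_quotient_add_finrank N₁
    omega
  let b := Module.finBasisOfFinrankEq k (N ⧸ N₁) h2
  choose v hv using fun i => N₁.mkQ_surjective (b i)
  refine ⟨fun i => (v i : U), fun i => (v i).2, fun c hc => ?_⟩
  have h3 : ∑ i, c i • v i ∈ N₁ := by
    show N.subtype (∑ i, c i • v i) ∈ N'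
    rw [map_sum]
    exact hc
  have h4 : ∑ i, c i • b i = 0 := by
    have h5 : N₁.mkQ (∑ i, c i • v i) = 0 := (Submodule.Quotient.mk_eq_zero N₁).2 h3
    rw [map_sum] at h5
    rw [← h5]
    refine Finset.sum_congr rfl fun i _ => ?_
    rw [map_smul, hv]
  funext i
  exact Fintype.linearIndependent_iff.1 b.linearIndependent c h4 i

/-- Independent elements of a bundle. -/
private theorem P2_main {k F U : Type} [Field k] [IsAlgClosed k] [CharZero k] [Field F]
    [Algebra k F] [AddCommGroup U] [Module k U] [Module F U] [IsScalarTower k F U]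
    (hF : IsCurve k F) {G : Dv k F → Submodule k U} {α β b : ℤ} (hG : IsBdl G α β b)
    {B : Dv k F} (Q : Pt k F) {m : ℕ} (hm : α = m) (hb : b ≤ deg B - 1) :
    ∃ u : Fin m → U, LinearIndependent F u ∧ ∀ i, u i ∈ G B := by
  have hle : B - Finsupp.single Q 1 ≤ B := by
    intro P
    rw [Finsupp.sub_apply, Finsupp.single_apply]
    split_ifs <;> omega
  have hd : deg (B - Finsupp.single Q 1) = deg B - 1 := by rw [deg_sub, deg_single]
  have := hG.fin B
  have h1 := hG.rr (B := B) (by linarith)
  have h2 := hG.rr (B := B - Finsupp.single Q 1) (by rw [hd]; exact hb)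
  have h3 : Module.finrank k (G B) = Module.finrank k (G (B - Finsupp.single Q 1)) + m := by
    rw [hd] at h2
    have h4 : (Module.finrank k (G B) : ℤ)
        = Module.finrank k (G (B - Finsupp.single Q 1)) + m := by
      rw [h1, h2, hm]
      ring
    exact_mod_cast h4
  obtain ⟨u, hu, hu'⟩ := P2_quot (hG.mono hle) h3
  refine ⟨u, ?_, hu⟩
  rw [Fintype.linearIndependent_iff]
  intro f hf
  by_contra hcon
  rw [not_forall] at hcon
  obtain ⟨i₀, hi₀, hmin⟩ : ∃ i₀, f i₀ ≠ 0 ∧ ∀ i, f i ≠ 0 → Q.ord (f i₀) ≤ Q.ord (f i) := by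
    obtain ⟨i, hi⟩ := hcon
    obtain ⟨i₀, h4, h5⟩ := (Finset.univ.filter fun i => f i ≠ 0).exists_min_image
      (fun i => Q.ord (f i)) ⟨i, Finset.mem_filter.2 ⟨Finset.mem_univ _, hi⟩⟩
    exact ⟨i₀, (Finset.mem_filter.1 h4).2, fun j hj =>
      h5 j (Finset.mem_filter.2 ⟨Finset.mem_univ _, hj⟩)⟩
  have hg : ∀ i, ∃ c : k, f i / f i₀ = algebraMap k F c ∨
      0 < Q.ord (f i / f i₀ - algebraMap k F c) := by
    intro i
    refine hF.exists_const Q ?_
    by_cases hi : f i = 0
    · rw [hi, zero_div, Q.ord_zero]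
    · rw [div_eq_mul_inv, Q.ord_mul hi (inv_ne_zero hi₀), Q.ord_inv]
      have := hmin i hi
      linarith
  choose c hc using hg
  have hc0 : c i₀ ≠ 0 := by
    intro h0
    have h5 := hc i₀
    rw [h0, map_zero, div_self hi₀, sub_zero, Q.ord_one] at h5
    rcases h5 with h5 | h5
    · exact one_ne_zero h5
    · exact lt_irrefl _ h5
  -- the sum with the coefficients `f i / f i₀ - c i`
  have hS : ∀ s : Finset (Fin m), ∃ B' : Dv k F, B' Q ≤ B Q - 1 ∧
      ∑ i ∈ s, (f i / f i₀ - algebraMap k F (c i)) • u i ∈ G B' := by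
    intro s
    induction s using Finset.induction_on with
    | empty =>
      refine ⟨B - Finsupp.single Q 1, ?_, ?_⟩
      · rw [Finsupp.sub_apply, Finsupp.single_eq_same]
      · rw [Finset.sum_empty]
        exact Submodule.zero_mem _
    | insert i s hi ih =>
      obtain ⟨B', h5, h6⟩ := ih
      rw [Finset.sum_insert hi]
      by_cases h0 : f i / f i₀ - algebraMap k F (c i) = 0
      · refine ⟨B', h5, ?_⟩
        rw [h0, zero_smul, zero_add]
        exact h6
      · refine ⟨(B - dv k (f i / f i₀ - algebraMap k F (c i))) ⊔ B', ?_, ?_⟩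
        · rw [Finsupp.sup_apply]
          refine sup_le ?_ h5
          rw [Finsupp.sub_apply, hF.dv_apply h0]
          have h7 := (hc i).resolve_left fun h => h0 (sub_eq_zero.2 h)
          omega
        · exact Submodule.add_mem _ (hG.mono le_sup_left (hG.smul h0 (hu i)))
            (hG.mono le_sup_right h6)
  obtain ⟨B', h5, h6⟩ := hS Finset.univ
  have h7 : ∑ i, c i • u i = -∑ i, (f i / f i₀ - algebraMap k F (c i)) • u i := by
    have h8 : ∑ i, (f i / f i₀) • u i = 0 := by
      have h9 : ∑ i, (f i / f i₀) • u i = (f i₀)⁻¹ • ∑ i, f i • u i := by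
        rw [Finset.smul_sum]
        refine Finset.sum_congr rfl fun i _ => ?_
        rw [smul_smul, div_eq_inv_mul]
      rw [h9, hf, smul_zero]
    have h9 : ∑ i, (f i / f i₀ - algebraMap k F (c i)) • u i
        = ∑ i, (f i / f i₀) • u i - ∑ i, c i • u i := by
      rw [← Finset.sum_sub_distrib]
      refine Finset.sum_congr rfl fun i _ => ?_
      rw [sub_smul, algebraMap_smul]
    rw [h9, h8, zero_sub, neg_neg]
  have h8 : ∑ i, c i • u i ∈ G B := Submodule.sum_mem _ fun i _ => Submodule.smul_mem _ _ (hu i)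
  have h9 : ∑ i, c i • u i ∈ G B' := by
    rw [h7]
    exact Submodule.neg_mem _ h6
  have h10 : B ⊓ B' ≤ B - Finsupp.single Q 1 := by
    intro P
    rw [Finsupp.inf_apply, Finsupp.sub_apply]
    by_cases hP : Q = P
    · subst hP
      rw [Finsupp.single_eq_same]
      exact inf_le_right.trans h5
    · rw [Finsupp.single_apply, if_neg hP, sub_zero]
      exact inf_le_left
  have h11 := hu' c (hG.mono h10 (hG.inf h8 h9))
  exact hc0 (congrFun h11 i₀)

variable {k F K : Type} [Field k] [IsAlgClosed k] [CharZero k] [Field F] [Field K] [Algebra k F]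
  [Algebra k K] [Algebra F K] [IsScalarTower k F K] [FiniteDimensional F K]

/-- P2. -/
theorem exists_indep (hF : IsCurve k F) (hK : IsCurve k K) {W : Dv k F} {WK : Dv k K}
    (h : IsRel W WK) {Ψ : ℤ} (hP : Prim k F K Ψ) {D : Dv k F} (hD : deg D + 1 ≤ Ψ) :
    ∃ u : Fin (Module.finrank F K - 1) → K, LinearIndependent F u ∧ ∀ i, u i ∈ VB WK (-D) := by
  obtain ⟨Q⟩ := nonempty_pt hF
  have h0 : 0 < Module.finrank F K := Module.finrank_pos
  refine P2_main hF (isBdl_VB hF hK h hP) Q ?_ ?_
  · omega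
  · rw [deg_neg]
    linarith

end Pool.Agent.MPd118f9
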