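import Pool.Agent.Lib.MP_d118f9_ag_G.WFlB

/-!
# MP_d118f9_ag, covers of any degree: the divisors `κ` of the flag
-/

set_option autoImplicit false

noncomputable section

open Classical

namespace Pool.Agent.MPd118f9

variable {k F K : Type} [Field k] [IsAlgClosed k] [CharZero k] [Field F] [Field K] [Algebra k F]
  [Algebra k K] [Algebra F K] [IsScalarTower k F K] [FiniteDimensional F K]

section LeQ

variable {Q : Pt k F} {D : Dv k K}

theorem LeQ.fl_zero : LeQ Q D (0 : K) := fun P _ => LeOrd.zero P _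

theorem LeQ.fl_add {x y : K} (hx : LeQ Q D x) (hy : LeQ Q D y) : LeQ Q D (x + y) :=
  fun P hP => (hx P hP).add (hy P hP)

theorem LeQ.fl_neg {x : K} (hx : LeQ Q D x) : LeQ Q D (-x) := fun P hP => (hx P hP).neg

theorem LeQ.fl_sub {x y : K} (hx : LeQ Q D x) (hy : LeQ Q D y) : LeQ Q D (x - y) :=
  fun P hP => (hx P hP).sub (hy P hP)

theorem LeQ.fl_sum {ι : Type} {s : Finset ι} {x : ι → K} (h : ∀ i ∈ s, LeQ Q D (x i)) :
    LeQ Q D (∑ i ∈ s, x i) := by
  induction s using Finset.induction_on with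
  | empty =>
    rw [Finset.sum_empty]
    exact LeQ.fl_zero
  | insert a s ha ih =>
    rw [Finset.sum_insert ha]
    exact (h a (Finset.mem_insert_self a s)).fl_add
      (ih fun i hi => h i (Finset.mem_insert_of_mem hi))

/-- The order of a function of `F` at a point of `K`. -/
theorem fl_leOrd_map (P : Pt k K) {n : ℤ} {f : F} (hf : LeOrd (P.below : Pt k F) n f) :
    LeOrd P ((P.ram F : ℤ) * n) (algebraMap F K f) := by
  rcases hf with h | h
  · refine Or.inl ?_
    rw [h, map_zero]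
  · refine Or.inr ?_
    rw [P.ord_map]
    exact mul_le_mul_of_nonneg_left h (Int.natCast_nonneg _)

theorem LeQ.fl_smul {f : F} {x : K} (hf : LeOrd Q 0 f) (hx : LeQ Q D x) : LeQ Q D (f • x) := by
  intro P hP
  rw [Algebra.smul_def]
  subst hP
  have h1 := (fl_leOrd_map P hf).mul (hx P rfl)
  rwa [mul_zero, zero_add] at h1

theorem LeQ.fl_smul_pull (hK : IsCurve k K) {B : Dv k F} {f : F} {x : K} (hf : LeOrd Q (-B Q) f)
    (hx : LeQ Q (D - pull K B) x) : LeQ Q D (f • x) := by
  intro P hP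
  rw [Algebra.smul_def]
  subst hP
  have h1 := (fl_leOrd_map P hf).mul (hx P rfl)
  rw [Finsupp.sub_apply, pull_apply hK] at h1
  refine h1.mono ?_
  linarith

theorem fl_leQ_of_mem {x : K} (hx : x ∈ L D) : LeQ Q D x := by
  intro P _
  by_cases h0 : x = 0
  · exact Or.inl h0
  · exact Or.inr ((mem_L_of_ne h0).1 hx P)

theorem fl_mem_of_leQ {x : K} (hx : ∀ Q : Pt k F, LeQ Q D x) : x ∈ L D := by
  by_cases h0 : x = 0
  · rw [h0]
    exact Submodule.zero_mem _
  · exact (mem_L_of_ne h0).2 fun P => (hx P.below P rfl).resolve_left h0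

end LeQ

/-- The coordinates as traces. -/
theorem fl_exists_dual [CharZero F] {r : ℕ} (u : Module.Basis (Fin (r + 1)) F K) :
    ∃ w : Fin (r + 1) → K, ∀ x i, u.repr x i = Algebra.trace F K (x * w i) := by
  have hnd := traceForm_nondegenerate F K
  have hsymm := Algebra.traceForm_isSymm F (S := K)
  refine ⟨fun i => (Algebra.traceForm F K).dualBasis hnd u i, fun x i => ?_⟩
  have h1 := LinearMap.BilinForm.dualBasis_repr_apply hnd
    ((Algebra.traceForm F K).dualBasis hnd u) x i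
  rw [LinearMap.BilinForm.dualBasis_dualBasis hnd hsymm u] at h1
  rw [h1, Algebra.traceForm_apply]

/-- The coordinates of the elements of `K_Q(WK)` are bounded. -/
theorem fl_exists_bound (hK : IsCurve k K) {W : Dv k F} {WK : Dv k K} (h : IsRel W WK) (w : K)
    (Q : Pt k F) : ∃ N : ℕ, ∀ x : K, LeQ Q WK x →
      LeOrd Q (-W Q - N) (Algebra.trace F K (x * w)) := by
  obtain ⟨t, ht⟩ := Q.exists_unif
  have ht0 : t ≠ 0 := by
    rintro rfl
    rw [Q.ord_zero] at ht
    exact absurd ht (by norm_num)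
  have hfin := finite_fiber (F := F) hK Q
  obtain ⟨N, hN⟩ : ∃ N : ℕ, ∀ P ∈ hfin.toFinset, (-P.ord w).toNat ≤ N :=
    ⟨hfin.toFinset.sup fun P => (-P.ord w).toNat, fun P hP =>
      Finset.le_sup (f := fun P => (-P.ord w).toNat) hP⟩
  refine ⟨N, fun x hx => ?_⟩
  have h1 : LeQ Q WK (t ^ N • (x * w)) := by
    intro P hP
    have hP' : P ∈ hfin.toFinset := (Set.Finite.mem_toFinset _).2 hP
    have h2 := hN P hP'
    rw [Algebra.smul_def, map_pow, show algebraMap F K t ^ N * (x * w) =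
      x * (algebraMap F K t ^ N * w) by ring]
    have h3 : LeOrd P 0 (algebraMap F K t ^ N * w) := by
      by_cases hw : w = 0
      · rw [hw, mul_zero]
        exact LeOrd.zero _ _
      refine Or.inr ?_
      have htK : algebraMap F K t ≠ 0 := (map_ne_zero_iff _ (algebraMap F K).injective).2 ht0
      rw [P.ord_mul (pow_ne_zero _ htK) hw, P.ord_pow, P.ord_map, hP, ht, mul_one]
      have h4 : (1 : ℤ) ≤ P.ram F := by exact_mod_cast P.ram_pos F
      have h5 : (N : ℤ) ≤ N * P.ram F := le_mul_of_one_le_right (Int.natCast_nonneg _) h4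
      omega
    have h4 := (hx P hP).mul h3
    rwa [add_zero] at h4
  have h2 := h.tr Q _ h1
  rw [map_smul, smul_eq_mul] at h2
  rcases h2 with h3 | h3
  · exact Or.inl ((mul_eq_zero.1 h3).resolve_left (pow_ne_zero _ ht0))
  · by_cases h4 : Algebra.trace F K (x * w) = 0
    · exact Or.inl h4
    refine Or.inr ?_
    rw [Q.ord_mul (pow_ne_zero _ ht0) h4, Q.ord_pow, ht] at h3
    linarith

/-- The data of the flag. -/
structure FlagU (W : Dv k F) (WK : Dv k K) (B : Dv k F) {r : ℕ}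
    (u : Module.Basis (Fin (r + 1)) F K) : Prop where
  one : u 0 = 1
  tr : ∀ i, i ≠ 0 → Algebra.trace F K (u i) = 0
  mem : ∀ i, i ≠ 0 → u i ∈ L (WK - pull K B)
  nonneg : 0 ≤ B

section Flag

variable {W : Dv k F} {WK : Dv k K} {B : Dv k F} {r : ℕ} {u : Module.Basis (Fin (r + 1)) F K}

theorem FlagU.leQ (hK : IsCurve k K) (hu : FlagU W WK B u) {i : Fin (r + 1)} (hi : i ≠ 0)
    {Q : Pt k F} {f : F} (hf : LeOrd Q (-B Q) f) : LeQ Q WK (f • u i) :=
  LeQ.fl_smul_pull hK hf (fl_leQ_of_mem (hu.mem i hi))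

theorem FlagU.trace_eq (hu : FlagU W WK B u) (x : K) :
    Algebra.trace F K x = Module.finrank F K • u.repr x 0 := by
  conv_lhs => rw [← u.sum_repr x]
  rw [map_sum, Finset.sum_eq_single 0]
  · rw [map_smul, hu.one, ← map_one (algebraMap F K), Algebra.trace_algebraMap, smul_eq_mul,
      nsmul_eq_mul, nsmul_eq_mul, mul_one, mul_comm]
  · intro j _ hj
    rw [map_smul, hu.tr j hj, smul_zero]
  · intro h
    exact absurd (Finset.mem_univ _) h

/-- The coordinate `0`. -/
theorem FlagU.leOrd_zero (h : IsRel W WK) (hu : FlagU W WK B u) {Q : Pt k F} {x : K}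
    (hx : LeQ Q WK x) : LeOrd Q (-W Q) (u.repr x 0) := by
  have : CharZero F := charZero_of_injective_algebraMap (algebraMap k F).injective
  have h1 := h.tr Q x hx
  rw [hu.trace_eq] at h1
  have hpos : (Module.finrank F K : k) ≠ 0 := by
    rw [Nat.cast_ne_zero]
    exact Module.finrank_pos.ne'
  have h2 : u.repr x 0 = ((Module.finrank F K : k))⁻¹ • (Module.finrank F K • u.repr x 0) := by
    rw [← Nat.cast_smul_eq_nsmul k, smul_smul, inv_mul_cancel₀ hpos, one_smul]
  rw [h2]
  exact h1.smul _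

/-- The functions of `F` in `K_Q(WK)`. -/
theorem fl_leQ_algebraMap (hK : IsCurve k K) (h : IsRel W WK) {Q : Pt k F} {f : F}
    (hf : LeOrd Q (-W Q) f) : LeQ Q WK (algebraMap F K f) := by
  intro P hP
  subst hP
  refine (fl_leOrd_map P hf).mono ?_
  have h1 := h.le P
  rw [pull_apply hK] at h1
  linarith

/-- One level. -/
private theorem exists_kappa_aux (hK : IsCurve k K) (h : IsRel W WK) (hu : FlagU W WK B u)
    {i : Fin (r + 1)} (hi : i ≠ 0) : ∃ κ : Dv k F, B ≤ κ ∧ ∀ (Q : Pt k F) (f : F),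
      (∃ x, LeQ Q WK x ∧ (∀ j, i < j → u.repr x j = 0) ∧ u.repr x i = f) ↔ LeOrd Q (-κ Q) f := by
  have : CharZero F := charZero_of_injective_algebraMap (algebraMap k F).injective
  obtain ⟨w, hw⟩ := fl_exists_dual u
  have hM : ∀ Q : Pt k F, ∃ n : ℤ, B Q ≤ n ∧ (∀ f : F,
      (∃ x, LeQ Q WK x ∧ (∀ j, i < j → u.repr x j = 0) ∧ u.repr x i = f) ↔ LeOrd Q (-n) f) ∧
      ∀ m : ℤ, (∀ x : K, LeQ Q WK x → LeOrd Q (-m) (u.repr x i)) → n ≤ m := by
    intro Q
    have hmem : ∀ f : F, LeOrd Q (-B Q) f →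
        ∃ x, LeQ Q WK x ∧ (∀ j, i < j → u.repr x j = 0) ∧ u.repr x i = f := by
      intro f hf
      refine ⟨f • u i, hu.leQ hK hi hf, fun j hj => ?_, ?_⟩
      · rw [map_smul, Module.Basis.repr_self, Finsupp.smul_apply, Finsupp.single_eq_of_ne hj.ne',
          smul_zero]
      · rw [map_smul, Module.Basis.repr_self, Finsupp.smul_apply, Finsupp.single_eq_same,
          smul_eq_mul, mul_one]
    obtain ⟨N, hN⟩ := fl_exists_bound hK h (w i) Q
    let T : ℤ → Prop := fun n => ∃ f : F, f ≠ 0 ∧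
      (∃ x, LeQ Q WK x ∧ (∀ j, i < j → u.repr x j = 0) ∧ u.repr x i = f) ∧ Q.ord f = -n
    have hbd : ∃ b : ℤ, ∀ z, T z → z ≤ b := by
      refine ⟨W Q + N, ?_⟩
      rintro z ⟨f, hf0, ⟨x, hx, -, rfl⟩, hf⟩
      have h1 := hN x hx
      rw [← hw x i] at h1
      have h2 := h1.resolve_left hf0
      linarith
    have hne : ∃ z, T z := by
      obtain ⟨f, hf0, hf⟩ := exists_ord_eq Q (-B Q)
      exact ⟨B Q, f, hf0, hmem f (Or.inr hf.ge), hf⟩
    obtain ⟨n, ⟨f₀, hf₀, ⟨x₀, hx₀, hx₀', hx₀''⟩, hfn⟩, hmax⟩ := Int.exists_greatest_of_bdd hbd hne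
    refine ⟨n, ?_, ?_, ?_⟩
    · obtain ⟨f, hf0, hf⟩ := exists_ord_eq Q (-B Q)
      exact hmax _ ⟨f, hf0, hmem f (Or.inr hf.ge), hf⟩
    · intro f
      constructor
      · intro hf
        by_cases hf0 : f = 0
        · exact Or.inl hf0
        · refine Or.inr ?_
          have h1 := hmax (-Q.ord f) ⟨f, hf0, hf, (neg_neg _).symm⟩
          linarith
      · intro hf
        have h1 : LeOrd Q 0 (f / f₀) := by
          rcases hf with h2 | h2
          · refine Or.inl ?_
            rw [h2, zero_div]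
          · by_cases hf0 : f = 0
            · refine Or.inl ?_
              rw [hf0, zero_div]
            refine Or.inr ?_
            rw [div_eq_mul_inv, Q.ord_mul hf0 (inv_ne_zero hf₀), Q.ord_inv, hfn]
            linarith
        refine ⟨(f / f₀) • x₀, LeQ.fl_smul h1 hx₀, fun j hj => ?_, ?_⟩
        · rw [map_smul, Finsupp.smul_apply, hx₀' j hj, smul_zero]
        · rw [map_smul, Finsupp.smul_apply, hx₀'', smul_eq_mul, div_mul_cancel₀ _ hf₀]
    · intro m hm
      have h1 := hm x₀ hx₀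
      rw [hx₀''] at h1
      have h2 := h1.resolve_left hf₀
      linarith
  choose n hn1 hn2 hn3 using hM
  have hfin : {Q : Pt k F | n Q ≠ 0}.Finite := by
    have h1 : {P : Pt k K | P.ord (w i) ≠ 0}.Finite := by
      by_cases hwi : w i = 0
      · convert Set.finite_empty
        ext P
        simp [hwi, P.ord_zero]
      · exact hK.finite_ord hwi
    refine (((h1.image (fun P : Pt k K => (P.below : Pt k F))).union
      (W.support.finite_toSet)).union (B.support.finite_toSet)).subset ?_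
    intro Q hQ
    by_contra hcon
    simp only [Set.mem_union, Set.mem_image, Finset.mem_coe, Finsupp.mem_support_iff,
      not_or, not_not] at hcon
    obtain ⟨⟨h2, h3⟩, h4⟩ := hcon
    have h5 := hn1 Q
    rw [h4] at h5
    have h6 := hn3 Q 0 fun x hx => by
      rw [hw x i]
      have h7 : LeOrd Q (-W Q) (Algebra.trace F K (x * w i)) := by
        refine h.tr Q _ fun P hP => ?_
        have h8 : 0 ≤ P.ord (w i) := by
          by_contra h9
          exact h2 ⟨P, by
            show P.ord (w i) ≠ 0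
            omega, hP⟩
        have h10 := (hx P hP).mul (Or.inr h8 : LeOrd P 0 (w i))
        rwa [add_zero] at h10
      rwa [h3] at h7
    exact hQ (le_antisymm h6 h5)
  refine ⟨Finsupp.onFinset hfin.toFinset n fun Q hQ => ?_, ?_, ?_⟩
  · exact (Set.Finite.mem_toFinset _).2 hQ
  · exact fun Q => hn1 Q
  · exact fun Q f => hn2 Q f

/-- The divisors `κ i`. -/
theorem exists_kappa (hK : IsCurve k K) (h : IsRel W WK) (hu : FlagU W WK B u) :
    ∃ κ : Fin (r + 1) → Dv k F, κ 0 = W ∧ (∀ i, i ≠ 0 → B ≤ κ i) ∧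
      ∀ (i : Fin (r + 1)) (Q : Pt k F) (f : F),
        (∃ x, LeQ Q WK x ∧ (∀ j, i < j → u.repr x j = 0) ∧ u.repr x i = f) ↔
          LeOrd Q (-κ i Q) f := by
  have h1 : ∀ i : Fin (r + 1), ∃ κ : Dv k F, (i = 0 → κ = W) ∧ (i ≠ 0 → B ≤ κ) ∧
      ∀ (Q : Pt k F) (f : F),
      (∃ x, LeQ Q WK x ∧ (∀ j, i < j → u.repr x j = 0) ∧ u.repr x i = f) ↔ LeOrd Q (-κ Q) f := by
    intro i
    by_cases hi : i = 0
    · subst hi
      refine ⟨W, fun _ => rfl, fun h => absurd rfl h, fun Q f => ⟨?_, fun hf => ?_⟩⟩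
      · rintro ⟨x, hx, -, rfl⟩
        exact hu.leOrd_zero h hx
      · refine ⟨f • u 0, ?_, fun j hj => ?_, ?_⟩
        · rw [hu.one, Algebra.smul_def, mul_one]
          exact fl_leQ_algebraMap hK h hf
        · rw [map_smul, Module.Basis.repr_self, Finsupp.smul_apply,
            Finsupp.single_eq_of_ne hj.ne', smul_zero]
        · rw [map_smul, Module.Basis.repr_self, Finsupp.smul_apply, Finsupp.single_eq_same,
            smul_eq_mul, mul_one]
    · obtain ⟨κ, h2, h3⟩ := exists_kappa_aux hK h hu hi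
      exact ⟨κ, fun h => absurd h hi, fun _ => h2, h3⟩
  choose κ h2 h3 h4 using h1
  exact ⟨κ, h2 0 rfl, h3, h4⟩

end Flag

end Pool.Agent.MPd118f9
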