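import Pool.Agent.Lib.MP_d118f9_ag_G.P1
import Pool.Agent.Lib.MP_d118f9_ag_G.WFlC

/-!
# MP_d118f9_ag, covers of any degree: P3
-/

set_option autoImplicit false

noncomputable section

open Classical

namespace Pool.Agent.MPd118f9

variable {k F K : Type} [Field k] [IsAlgClosed k] [CharZero k] [Field F] [Field K] [Algebra k F]
  [Algebra k K] [Algebra F K] [IsScalarTower k F K] [FiniteDimensional F K]

/-- The elements of `L(WK)` are in `U`. -/
theorem mem_Uh (hF : IsCurve k F) (hK : IsCurve k K) {W : Dv k F} {WK : Dv k K}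
    (h : IsRel W WK) {x : K} (hx : x ∈ L WK) : x ∈ Uh k F K := by
  unfold Uh
  split_ifs with hg
  · exact Submodule.mem_top
  · have h0 : genus k F = 0 := by omega
    have h1 : Algebra.trace F K x ∈ L W := by
      rw [← inA_const]
      intro Q
      exact h.tr Q x (fl_leQ_of_mem hx)
    have h2 : L W = ⊥ := by
      have := hF.finDim W
      refine Submodule.finrank_eq_zero.1 ?_
      have h3 := h.canF.2
      rw [h0] at h3
      exact h3
    rw [h2, Submodule.mem_bot] at h1
    exact h1

theorem finrank_Uh : Module.finrank F (Uh k F K) =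
    if 1 ≤ genus k F then Module.finrank F K else Module.finrank F K - 1 := by
  have hch : CharZero F := charZero_of_injective_algebraMap (algebraMap k F).injective
  by_cases hg : 1 ≤ genus k F
  · have h0 : Uh k F K = ⊤ := if_pos hg
    rw [h0, if_pos hg]
    exact finrank_top F K
  · have h0 : Uh k F K = LinearMap.ker (Algebra.trace F K) := if_neg hg
    rw [h0, if_neg hg]
    have h1 := (Algebra.trace F K).finrank_range_add_finrank_ker
    have h2 : LinearMap.range (Algebra.trace F K) = ⊤ :=
      LinearMap.range_eq_top.2 (Algebra.trace_surjective F K)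
    rw [h2, finrank_top, Module.finrank_self] at h1
    omega

private theorem P3_key (hF : IsCurve k F) (hK : IsCurve k K) {WK : Dv k K} {Q : Pt k F} {m : ℕ}
    {y : Fin m → K} (hy : ∀ b, y b ∈ L WK)
    (hind : ∀ c : Fin m → k, ∑ b, c b • y b ∈ L (WK - pull K (Finsupp.single Q 1)) → c = 0)
    (f : Fin m → F) (hf : LeQ Q WK (∑ b, f b • y b)) (b : Fin m) : LeOrd Q 0 (f b) := by
  by_contra hb
  have hb0 : f b ≠ 0 := fun h => hb (Or.inl h)
  have hne : (Finset.univ.filter fun j => f j ≠ 0).Nonempty :=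
    ⟨b, Finset.mem_filter.2 ⟨Finset.mem_univ _, hb0⟩⟩
  obtain ⟨j0, hj0, hmin⟩ := Finset.exists_min_image _ (fun j => Q.ord (f j)) hne
  have ha0 : f j0 ≠ 0 := (Finset.mem_filter.1 hj0).2
  have hneg : Q.ord (f j0) < 0 := by
    have h1 := hmin b (Finset.mem_filter.2 ⟨Finset.mem_univ _, hb0⟩)
    have h2 : Q.ord (f b) < 0 := by
      by_contra h3
      exact hb (Or.inr (not_lt.1 h3))
    exact h1.trans_lt h2
  have hg : ∀ j, LeOrd Q 0 (f j / f j0) := by
    intro j
    by_cases hj : f j = 0
    · rw [hj, zero_div]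
      exact LeOrd.zero _ _
    · refine Or.inr ?_
      rw [div_eq_mul_inv, Q.ord_mul hj (inv_ne_zero ha0), Q.ord_inv]
      have := hmin j (Finset.mem_filter.2 ⟨Finset.mem_univ _, hj⟩)
      linarith
  have hc : ∀ j, ∃ c : k, LeOrd Q 1 (f j / f j0 - algebraMap k F c) := by
    intro j
    rcases hg j with h | h
    · exact ⟨0, by rw [h, map_zero, sub_zero]; exact LeOrd.zero _ _⟩
    · obtain ⟨c, h1 | h1⟩ := hF.exists_const Q h
      · exact ⟨c, by rw [h1, sub_self]; exact LeOrd.zero _ _⟩
      · exact ⟨c, Or.inr (by omega)⟩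
  choose c hc using hc
  have hmul : ∀ {g : F} {x : K}, LeOrd Q 1 g → LeQ Q WK x →
      LeQ Q (WK - pull K (Finsupp.single Q 1)) (g • x) := by
    intro g x hg' hx
    have h1 : WK - pull K (Finsupp.single Q 1) - pull K (-Finsupp.single Q 1) = WK := by
      have h2 : pull K (-Finsupp.single Q 1 : Dv k F) = -pull K (Finsupp.single Q 1) := by
        rw [← zero_sub, pull_sub hK]
        have h3 : pull K (0 : Dv k F) = 0 := by
          have h4 := pull_sub hK (0 : Dv k F) 0
          rw [sub_self, sub_self] at h4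
          exact h4
        rw [h3, zero_sub]
      rw [h2, sub_neg_eq_add, sub_add_cancel]
    refine LeQ.fl_smul_pull hK (B := -Finsupp.single Q 1) ?_ ?_
    · rw [Finsupp.neg_apply, Finsupp.single_eq_same, neg_neg]
      exact hg'
    · rw [h1]
      exact hx
  have hsum : ∑ b, c b • y b = (f j0)⁻¹ • (∑ b, f b • y b) -
      ∑ b, (f b / f j0 - algebraMap k F (c b)) • y b := by
    rw [Finset.smul_sum, ← Finset.sum_sub_distrib]
    refine Finset.sum_congr rfl fun b _ => ?_
    rw [sub_smul, smul_smul, div_eq_mul_inv, mul_comm (f b), sub_sub_cancel, algebraMap_smul]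
  have hQ : LeQ Q (WK - pull K (Finsupp.single Q 1)) (∑ b, c b • y b) := by
    rw [hsum]
    refine LeQ.fl_sub (hmul ?_ hf) (LeQ.fl_sum fun b _ => hmul (hc b) (fl_leQ_of_mem (hy b)))
    refine Or.inr ?_
    rw [Q.ord_inv]
    omega
  have hmem : ∑ b, c b • y b ∈ L WK :=
    Submodule.sum_mem _ fun b _ => Submodule.smul_mem _ _ (hy b)
  have hall : ∑ b, c b • y b ∈ L (WK - pull K (Finsupp.single Q 1)) := by
    refine fl_mem_of_leQ (F := F) fun Q' => ?_
    by_cases hQ' : Q' = Q
    · rw [hQ']
      exact hQ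
    · intro P hP
      have h1 := fl_leQ_of_mem (F := F) (Q := Q') hmem P hP
      have h2 : (WK - pull K (Finsupp.single Q 1)) P = WK P := by
        rw [Finsupp.sub_apply, pull_apply hK, hP, Finsupp.single_eq_of_ne hQ', mul_zero, sub_zero]
      rw [h2]
      exact h1
  have h0 := hind c hall
  have h1 := hc j0
  rw [div_self ha0, h0, Pi.zero_apply, map_zero, sub_zero] at h1
  rcases h1 with h2 | h2
  · exact one_ne_zero h2
  · have h3 : Q.ord (1 : F) = 0 := by
      rw [← map_one (algebraMap k F), Q.ord_algebraMap]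
    omega

/-- The dimension of `L(WK) / L(WK - f^* Q)`. -/
private theorem P3_dim (hF : IsCurve k F) (hK : IsCurve k K) {W : Dv k F} {WK : Dv k K}
    (h : IsRel W WK) {Ψ : ℤ} (hP : Prim k F K Ψ) (hΨ : 1 ≤ Ψ) (Q : Pt k F) :
    ell WK = ell (WK - pull K (Finsupp.single Q 1)) + Module.finrank F (Uh k F K) := by
  have h1 := h.canK.riemann_roch hK (WK - pull K (Finsupp.single Q 1))
  have hd := deg_pull_cov hF hK (Finsupp.single Q 1)
  rw [deg_single, mul_one] at hd
  rw [sub_sub_cancel, deg_sub, hd, h.canK.1] at h1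
  have h2 : ell (pull K (Finsupp.single Q 1) : Dv k K) = ell (Finsupp.single Q 1 : Dv k F) := by
    have hfd := hK.finDim (pull K (Finsupp.single Q 1))
    have hfE := hF.finDim (Finsupp.single Q 1)
    let φ : F →ₗ[k] K := (IsScalarTower.toAlgHom k F K).toLinearMap
    have hφ : ∀ x : L (Finsupp.single Q 1 : Dv k F), φ (x : F) ∈ L (pull K (Finsupp.single Q 1)) :=
      fun x => (map_mem_pull hK).2 x.2
    refine (LinearEquiv.finrank_eq (LinearEquiv.ofBijective
      (LinearMap.codRestrict (L (pull K (Finsupp.single Q 1)))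
        (φ.comp (L (Finsupp.single Q 1 : Dv k F)).subtype) hφ) ⟨?_, ?_⟩)).symm
    · intro x y hxy
      have h4 := congrArg (Subtype.val) hxy
      exact Subtype.ext ((algebraMap F K).injective h4)
    · rintro ⟨x, hx⟩
      obtain ⟨f, hf⟩ := hP (Finsupp.single Q 1) (by rw [deg_single]; exact hΨ) x hx
      have h5 : f ∈ L (Finsupp.single Q 1 : Dv k F) := by
        rw [← hf] at hx
        exact (map_mem_pull hK).1 hx
      exact ⟨⟨f, h5⟩, Subtype.ext hf⟩
  have hpos : 0 < Module.finrank F K := Module.finrank_pos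
  have h3 : (ell (Finsupp.single Q 1 : Dv k F) : ℤ) + Module.finrank F (Uh k F K) =
      Module.finrank F K + 1 := by
    rw [finrank_Uh]
    have h4 := hF.ell_add_single_le (0 : Dv k F) Q
    rw [zero_add, hF.ell_zero] at h4
    split_ifs with hg
    · have h5 : ell (Finsupp.single Q 1 : Dv k F) ≤ 1 := by
        by_contra hc
        have h6 : ell (Finsupp.single Q 1 : Dv k F) = 2 := by omega
        have h7 := two_le_deg hF hg (Finsupp.single_nonneg.2 zero_le_one) h6
        rw [deg_single] at h7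
        omega
      have h6 : 1 ≤ ell (Finsupp.single Q 1 : Dv k F) := by
        have := hF.finDim (Finsupp.single Q 1)
        have h7 : ell (0 : Dv k F) ≤ ell (Finsupp.single Q 1 : Dv k F) :=
          Submodule.finrank_mono (L_mono (Finsupp.single_nonneg.2 zero_le_one))
        rwa [hF.ell_zero] at h7
      omega
    · have h5 := h.canF.riemann_roch hF (Finsupp.single Q 1)
      have h6 : ell (W - Finsupp.single Q 1) = 0 := by
        refine hF.ell_of_deg_neg ?_
        rw [deg_sub, deg_single, h.canF.1]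
        omega
      rw [deg_single, h6] at h5
      push_cast at h5 ⊢
      omega
  have h4 := h.canK.2
  rw [h2] at h1
  omega

/-- P3. -/
theorem local_basis (hF : IsCurve k F) (hK : IsCurve k K) {W : Dv k F} {WK : Dv k K}
    (h : IsRel W WK) {Ψ : ℤ} (hP : Prim k F K Ψ) (hΨ : 1 ≤ Ψ) {g : ℕ}
    (v : Module.Basis (Fin g) k (L WK)) (Q : Pt k F) :
    ∃ idx : Fin (Module.finrank F (Uh k F K)) → Fin g,
      (LinearIndependent F fun b => (v (idx b) : K)) ∧
      ∀ x ∈ Uh k F K, LeQ Q WK x → ∃ a : Fin (Module.finrank F (Uh k F K)) → F,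
        (∀ b, LeOrd Q 0 (a b)) ∧ x = ∑ b, a b • (v (idx b) : K) := by
  have hdim := P3_dim hF hK h hP hΨ Q
  set N' : Submodule k K := L (WK - pull K (Finsupp.single Q 1)) with hN'
  have hfin := hK.finDim WK
  have hle : N' ≤ L WK := by
    refine L_mono ?_
    intro P
    rw [Finsupp.sub_apply, pull_apply hK]
    have h1 : (0 : ℤ) ≤ (P.ram F : ℤ) * (Finsupp.single Q 1 : Dv k F) P.below :=
      mul_nonneg (Int.natCast_nonneg _) (Finsupp.single_nonneg.2 zero_le_one _)
    omega
  let N₁ : Submodule k (L WK) := N'.comap (L WK).subtype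
  have h1 : Module.finrank k N₁ = Module.finrank k N' :=
    (Submodule.comapSubtypeEquivOfLe hle).finrank_eq
  have h2 : Module.finrank k (L WK ⧸ N₁) = Module.finrank F (Uh k F K) := by
    have h3 := Submodule.finrank_quotient_add_finrank N₁
    have h4 : Module.finrank k (L WK) = Module.finrank k N' + Module.finrank F (Uh k F K) := hdim
    omega
  obtain ⟨κ, a, ha, hspan, hli⟩ := exists_linearIndependent' k (N₁.mkQ ∘ v)
  have htop : Submodule.span k (Set.range (N₁.mkQ ∘ v)) = ⊤ := by
    rw [Set.range_comp, ← Submodule.map_span, v.span_eq, Submodule.map_top, Submodule.range_mkQ]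
  have hκ : Fintype κ := Fintype.ofInjective a ha
  have hcard : Fintype.card κ = Module.finrank F (Uh k F K) := by
    rw [← h2]
    exact (Module.finrank_eq_card_basis (Module.Basis.mk hli (by rw [hspan, htop]))).symm
  let e : Fin (Module.finrank F (Uh k F K)) ≃ κ := (finCongr hcard.symm).trans
    (Fintype.equivFin κ).symm
  have hind : ∀ c : Fin (Module.finrank F (Uh k F K)) → k,
      ∑ b, c b • (v (a (e b)) : K) ∈ N' → c = 0 := by
    intro c hc
    have h3 : ∑ b, c b • v (a (e b)) ∈ N₁ := by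
      show (L WK).subtype (∑ b, c b • v (a (e b))) ∈ N'
      rw [map_sum]
      exact hc
    have h4 : ∑ b, c b • (N₁.mkQ ∘ v ∘ a) (e b) = 0 := by
      have h5 : N₁.mkQ (∑ b, c b • v (a (e b))) = 0 := (Submodule.Quotient.mk_eq_zero N₁).2 h3
      rw [map_sum] at h5
      rw [← h5]
      exact Finset.sum_congr rfl fun i _ => (map_smul _ _ _).symm
    have h5 : LinearIndependent k ((N₁.mkQ ∘ v ∘ a) ∘ e) :=
      LinearIndependent.comp hli e e.injective
    funext b
    exact Fintype.linearIndependent_iff.1 h5 c h4 b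
  have hkey := P3_key hF hK (Q := Q) (y := fun b => (v (a (e b)) : K)) (fun b => (v (a (e b))).2)
    hind
  obtain ⟨t, ht⟩ := Q.exists_unif
  have ht0 : t ≠ 0 := by
    rintro rfl
    have h3 := Q.ord_zero
    omega
  have hliF : LinearIndependent F fun b => (v (a (e b)) : K) := by
    rw [Fintype.linearIndependent_iff]
    intro f hf b
    by_contra hb
    -- multiply by a large power of the inverse of the uniformizer
    have h3 := hkey (fun j => (f b)⁻¹ * t⁻¹ * f j) (by
      have h4 : ∑ j, ((f b)⁻¹ * t⁻¹ * f j) • (v (a (e j)) : K) = 0 := by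
        have h5 : ∀ j, ((f b)⁻¹ * t⁻¹ * f j) • (v (a (e j)) : K) =
            ((f b)⁻¹ * t⁻¹) • (f j • (v (a (e j)) : K)) := fun j => mul_smul _ _ _
        rw [Finset.sum_congr rfl fun j _ => h5 j, ← Finset.smul_sum, hf, smul_zero]
      rw [h4]
      exact LeQ.fl_zero) b
    have h4 : (f b)⁻¹ * t⁻¹ * f b = t⁻¹ := by
      field_simp
    rw [h4] at h3
    rcases h3 with h5 | h5
    · exact inv_ne_zero ht0 h5
    · rw [Q.ord_inv] at h5
      omega
  refine ⟨fun b => a (e b), hliF, fun x hx hxQ => ?_⟩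
  -- the elements span `U`
  have hmemU : ∀ b, (v (a (e b)) : K) ∈ Uh k F K := fun b => mem_Uh hF hK h (v (a (e b))).2
  have hliU : LinearIndependent F fun b =>
      (⟨(v (a (e b)) : K), hmemU b⟩ : Uh k F K) :=
    LinearIndependent.of_comp (Uh k F K).subtype hliF
  have hspU : Submodule.span F (Set.range fun b =>
      (⟨(v (a (e b)) : K), hmemU b⟩ : Uh k F K)) = ⊤ :=
    hliU.span_eq_top_of_card_eq_finrank' (by rw [Fintype.card_fin])
  have hx' : (⟨x, hx⟩ : Uh k F K) ∈ Submodule.span F (Set.range fun b =>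
      (⟨(v (a (e b)) : K), hmemU b⟩ : Uh k F K)) := by
    rw [hspU]
    exact Submodule.mem_top
  obtain ⟨f, hf⟩ := (Submodule.mem_span_range_iff_exists_fun F).1 hx'
  have hf' : ∑ b, f b • (v (a (e b)) : K) = x := by
    have h3 := congrArg (Uh k F K).subtype hf
    rw [map_sum] at h3
    exact h3
  refine ⟨f, hkey f ?_, hf'.symm⟩
  rw [hf']
  exact hxQ

end Pool.Agent.MPd118f9
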