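import Pool.Agent.Lib.MP_d118f9_ag_G.P2
import Pool.Agent.Lib.MP_d118f9_ag_G.P3
import Pool.Agent.Lib.MP_d118f9_ag_G.FSmall

/-!
# MP_d118f9_ag, covers of any degree: P4
-/

set_option autoImplicit false

noncomputable section

open Classical

namespace Pool.Agent.MPd118f9

section Pencil

variable {k F : Type} [Field k] [IsAlgClosed k] [CharZero k] [Field F] [Algebra k F]

private theorem p4_ell (hF : IsCurve k F) {D : Dv k F} (hD : 2 * (genus k F : ℤ) - 1 ≤ deg D) :
    (ell D : ℤ) = deg D + 1 - genus k F := by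
  obtain ⟨W, hW⟩ := hF.exists_can
  have h1 := hW.riemann_roch hF D
  have h2 : ell (W - D) = 0 := by
    apply hF.ell_of_deg_neg
    rw [deg_sub, hW.1]
    linarith
  rw [h2] at h1
  push_cast at h1
  linarith

private theorem p4_sec (hF : IsCurve k F) {D : Dv k F} (hD : 2 * (genus k F : ℤ) ≤ deg D)
    (Z : Finset (Pt k F)) :
    ∃ u ∈ L D, u ≠ 0 ∧ ∀ P ∈ Z, u ∉ L (D - Finsupp.single P 1) := by
  haveI : Infinite k := inferInstance
  have hlt : ∀ P : Pt k F, ell (D - Finsupp.single P 1) < ell D := by
    intro P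
    have e1 := p4_ell hF (D := D) (by linarith)
    have e2 := p4_ell hF (D := D - Finsupp.single P 1) (by rw [deg_sub, deg_single]; linarith)
    rw [deg_sub, deg_single] at e2
    omega
  have hpos : 0 < ell D := by
    have e1 := p4_ell hF (D := D) (by linarith)
    omega
  let p : Option Z → Subspace k (L D) := fun o =>
    match o with
    | none => ⊥
    | some P => (L (D - Finsupp.single (P : Pt k F) 1)).comap (L D).subtype
  have hne : ⋃ i, (p i : Set (L D)) ≠ Set.univ := by
    intro hc
    obtain ⟨i, hi⟩ := Subspace.exists_eq_top_of_iUnion_eq_univ hc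
    match i, hi with
    | none, hi =>
      have h0 : ell D = 0 := by
        have : (⊥ : Submodule k (L D)) = ⊤ := hi
        have h2 : Module.finrank k (L D) = Module.finrank k (⊤ : Submodule k (L D)) :=
          (finrank_top k (L D)).symm
        rw [← this, finrank_bot] at h2
        exact h2
      omega
    | some P, hi =>
      have hle : L D ≤ L (D - Finsupp.single (P : Pt k F) 1) := by
        intro x hx
        have : (⟨x, hx⟩ : L D) ∈ (L (D - Finsupp.single (P : Pt k F) 1)).comap (L D).subtype := by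
          have hi' : (L (D - Finsupp.single (P : Pt k F) 1)).comap (L D).subtype = ⊤ := hi
          rw [hi']
          exact Submodule.mem_top
        exact this
      haveI := hF.finDim (D - Finsupp.single (P : Pt k F) 1)
      exact absurd (Submodule.finrank_mono hle) (not_le.2 (hlt P))
  obtain ⟨x, hx⟩ := (Set.ne_univ_iff_exists_notMem _).1 hne
  rw [Set.mem_iUnion] at hx
  push Not at hx
  refine ⟨x, x.2, ?_, fun P hP => ?_⟩
  · intro h0
    apply hx none
    show x ∈ (⊥ : Submodule k (L D))
    rw [Submodule.mem_bot]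
    exact Subtype.ext h0
  · exact hx (some ⟨P, hP⟩)

private theorem p4_ord {A : Dv k F} {P : Pt k F} {a : F} (h0 : a ≠ 0) (ha : a ∈ L A)
    (ha' : a ∉ L (A - Finsupp.single P 1)) : P.ord a = -A P := by
  rw [mem_L_of_ne h0] at ha ha'
  push Not at ha'
  obtain ⟨Q, hQ⟩ := ha'
  have hQ2 := ha Q
  rw [Finsupp.sub_apply] at hQ
  by_cases hPQ : Q = P
  · subst hPQ
    rw [Finsupp.single_eq_same] at hQ
    omega
  · rw [Finsupp.single_apply, if_neg (fun e => hPQ e.symm)] at hQ
    omega

/-- Pencils without base points. -/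
private theorem p4_pencil (hF : IsCurve k F) {D : Dv k F} (hD : 2 * (genus k F : ℤ) ≤ deg D) :
    ∃ u₁ ∈ L D, ∃ u₂ ∈ L D, u₁ ≠ 0 ∧ u₂ ≠ 0 ∧ dv k u₁ ⊓ dv k u₂ = -D := by
  obtain ⟨u₁, hu₁, n1, -⟩ := p4_sec hF hD ∅
  have hZ : {P : Pt k F | P.ord u₁ ≠ -D P}.Finite := by
    refine ((hF.finite_ord n1).union D.support.finite_toSet).subset ?_
    intro P hP
    by_contra hc
    rw [Set.mem_union, not_or] at hc
    obtain ⟨hc1, hc2⟩ := hc
    have e1 : P.ord u₁ = 0 := not_not.1 hc1
    have e2 : D P = 0 := Finsupp.notMem_support_iff.1 hc2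
    apply hP
    rw [e1, e2, neg_zero]
  obtain ⟨u₂, hu₂, n2, hs⟩ := p4_sec hF hD hZ.toFinset
  refine ⟨u₁, hu₁, u₂, hu₂, n1, n2, ?_⟩
  ext P
  rw [Finsupp.inf_apply, hF.dv_apply n1, hF.dv_apply n2, Finsupp.neg_apply]
  have g1 := (mem_L_of_ne n1).1 hu₁ P
  have g2 := (mem_L_of_ne n2).1 hu₂ P
  by_cases hP : P.ord u₁ = -D P
  · rw [hP]
    exact inf_eq_left.2 g2
  · have := p4_ord n2 hu₂ (hs P (hZ.mem_toFinset.2 hP))
    rw [this]
    exact inf_eq_right.2 g1

/-- Vectors whose values at a point are independent are independent. -/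
private theorem p4_indep (hF : IsCurve k F) (P : Pt k F) {q m : ℕ} (X : Fin q → Fin m → k)
    (hX : LinearIndependent k X) (s : Fin q → Fin m → F)
    (hs : ∀ j i, LeOrd P 1 (s j i - algebraMap k F (X j i))) : LinearIndependent F s := by
  rw [Fintype.linearIndependent_iff]
  intro a ha
  by_contra hcon
  push Not at hcon
  have hne : (Finset.univ.filter fun j => a j ≠ 0).Nonempty := by
    obtain ⟨j, hj⟩ := hcon
    exact ⟨j, Finset.mem_filter.2 ⟨Finset.mem_univ _, hj⟩⟩
  obtain ⟨j0, hj0, hmin⟩ := Finset.exists_min_image _ (fun j => P.ord (a j)) hne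
  have ha0 : a j0 ≠ 0 := (Finset.mem_filter.1 hj0).2
  -- normalise
  have hb : ∀ j, LeOrd P 0 (a j / a j0) := by
    intro j
    by_cases hj : a j = 0
    · rw [hj, zero_div]; exact LeOrd.zero _ _
    · refine Or.inr ?_
      rw [div_eq_mul_inv, P.ord_mul hj (inv_ne_zero ha0), P.ord_inv]
      have := hmin j (Finset.mem_filter.2 ⟨Finset.mem_univ _, hj⟩)
      linarith
  have hc : ∀ j, ∃ c : k, LeOrd P 1 (a j / a j0 - algebraMap k F c) := by
    intro j
    rcases hb j with h | h
    · exact ⟨0, by rw [h, map_zero, sub_zero]; exact LeOrd.zero _ _⟩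
    · obtain ⟨c, h1 | h1⟩ := hF.exists_const P h
      · exact ⟨c, by rw [h1, sub_self]; exact LeOrd.zero _ _⟩
      · exact ⟨c, Or.inr (by omega)⟩
  choose c hc using hc
  have hconst : ∀ x : k, LeOrd P 1 (algebraMap k F x) → x = 0 := by
    intro x hx
    rcases hx with h | h
    · exact (map_eq_zero_iff _ (algebraMap k F).injective).1 h
    · rw [P.ord_algebraMap] at h
      omega
  have hsum : ∀ (J : Finset (Fin q)) (f : Fin q → F), (∀ j, LeOrd P 1 (f j)) →
      LeOrd P 1 (∑ j ∈ J, f j) := by
    intro J f hf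
    induction J using Finset.induction_on with
    | empty => rw [Finset.sum_empty]; exact LeOrd.zero _ _
    | insert j J hj ih => rw [Finset.sum_insert hj]; exact (hf j).add ih
  have hzero : ∀ i, ∑ j, c j * X j i = 0 := by
    intro i
    apply hconst
    have h1 : ∑ j, a j / a j0 * s j i = 0 := by
      have h2 := congrFun ha i
      simp only [Finset.sum_apply, Pi.smul_apply, smul_eq_mul, Pi.zero_apply] at h2
      have h3 : ∑ j, a j / a j0 * s j i = (∑ j, a j * s j i) / a j0 := by
        rw [Finset.sum_div]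
        exact Finset.sum_congr rfl fun j _ => by ring
      rw [h3, h2, zero_div]
    have h2 : algebraMap k F (∑ j, c j * X j i) =
        ∑ j, (-(a j / a j0 - algebraMap k F (c j)) * algebraMap k F (X j i) -
          a j / a j0 * (s j i - algebraMap k F (X j i))) := by
      rw [map_sum, ← sub_eq_zero, ← Finset.sum_sub_distrib]
      rw [← h1]
      refine Finset.sum_congr rfl fun j _ => ?_
      rw [map_mul]
      ring
    rw [h2]
    apply hsum
    intro j
    have h3 := (hc j).neg.mul (LeOrd.const P (X j i))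
    have h4 := (hb j).mul (hs j i)
    rw [add_zero] at h3
    rw [zero_add] at h4
    exact h3.sub h4
  have hc0 : ∀ j, c j = 0 := by
    rw [Fintype.linearIndependent_iff] at hX
    apply hX c
    funext i
    simp only [Finset.sum_apply, Pi.smul_apply, smul_eq_mul, Pi.zero_apply]
    exact hzero i
  have h5 := hc j0
  rw [div_self ha0, hc0 j0, map_zero, sub_zero, ← map_one (algebraMap k F)] at h5
  exact one_ne_zero (hconst 1 h5)

/-- Relations between the sections of a bundle. -/
private theorem p4_bdl (hF : IsCurve k F) {U : Type} [AddCommGroup U] [Module k U] [Module F U]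
    [IsScalarTower k F U] {G : Dv k F → Submodule k U} {α β b : ℤ} (hG : IsBdl G α β b)
    {B : Dv k F} (hB : b + (4 * (genus k F : ℤ) + 3) ≤ deg B) {a : ℕ} (ha : (a : ℤ) = α)
    (u : Fin a → U) (hu : LinearIndependent F u) (huG : ∀ i, u i ∈ G B) {m : ℕ}
    (z : Module.Basis (Fin m) k (G B)) (c : Fin m → F) (hc : ∑ i, c i • (z i : U) = 0) :
    c ∈ Submodule.span F {m' : Fin m → F | (∃ D : Dv k F, deg D ≤ 2 * (genus k F : ℤ) + 2 ∧
      ∀ i, m' i ∈ L D) ∧ ∑ i, m' i • (z i : U) = 0} := by
  haveI := hF.infinite_pt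
  haveI := hG.fin B
  obtain ⟨y, y', hyy⟩ := exists_pair_ne (Pt k F)
  set D0 : Dv k F := Finsupp.single y' (2 * (genus k F : ℤ) + 2) with hD0
  have hD0n : 0 ≤ D0 := by
    rw [hD0, Finsupp.single_nonneg]
    positivity
  have dD0 : deg D0 = 2 * (genus k F : ℤ) + 2 := by rw [hD0, deg_single]
  set A : Dv k F := D0 - Finsupp.single y 1 with hA
  have dA : deg A = 2 * (genus k F : ℤ) + 1 := by rw [hA, deg_sub, dD0, deg_single]; ring
  have hAD0 : A ≤ D0 := by
    rw [hA]
    apply sub_le_self
    rw [Finsupp.single_nonneg]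
    norm_num
  have hAy : A y = -1 := by
    rw [hA, hD0, Finsupp.sub_apply, Finsupp.single_eq_same, Finsupp.single_apply,
      if_neg (fun e => hyy e.symm)]
    ring
  obtain ⟨u₁, hu₁, u₂, hu₂, n1, n2, hdv⟩ := p4_pencil hF (D := A) (by rw [dA]; linarith)
  have hord : ∀ w ∈ L A, LeOrd y 1 w := by
    intro w hw
    rcases hw with h | h
    · exact Or.inl h
    · refine Or.inr ?_
      have := h y
      rw [hAy] at this
      linarith
  -- the bundle at `y`
  have hBy : B - Finsupp.single y 1 ≤ B := by
    apply sub_le_self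
    rw [Finsupp.single_nonneg]
    norm_num
  haveI := hG.fin (B - Finsupp.single y 1)
  set q := Module.finrank k (G (B - Finsupp.single y 1)) with hq
  let x : Module.Basis (Fin q) k (G (B - Finsupp.single y 1)) := Module.finBasis k _
  have hgen : ∀ j, ∃ g₁ ∈ G (B - D0), ∃ g₂ ∈ G (B - D0), (x j : U) = u₁ • g₁ + u₂ • g₂ := by
    intro j
    apply hG.pencil_surj hF (A := A) (B := B - D0) (by rw [dA]; positivity)
      (by rw [dA, deg_sub, dD0]; linarith) hu₁ hu₂ n1 n2 hdv
    have : B - D0 + A = B - Finsupp.single y 1 := by rw [hA]; abel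
    rw [this]
    exact (x j).2
  choose g₁ hg₁ g₂ hg₂ hx using hgen
  have hBD : B - D0 ≤ B := sub_le_self _ hD0n
  have hrepr : ∀ w : G B, ∑ i, algebraMap k F (z.repr w i) • (z i : U) = (w : U) := by
    intro w
    have h1 := congrArg (Submodule.subtype (G B)) (z.sum_repr w)
    rw [map_sum] at h1
    simp only [map_smul, Submodule.subtype_apply] at h1
    rw [← h1]
    exact Finset.sum_congr rfl fun i _ => algebraMap_smul F _ _
  set X : Fin q → Fin m → k := fun j => z.repr ⟨x j, hG.mono hBy (x j).2⟩ with hX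
  set G1 : Fin q → Fin m → k := fun j => z.repr ⟨g₁ j, hG.mono hBD (hg₁ j)⟩ with hG1
  set G2 : Fin q → Fin m → k := fun j => z.repr ⟨g₂ j, hG.mono hBD (hg₂ j)⟩ with hG2
  set s : Fin q → Fin m → F := fun j i => algebraMap k F (X j i) -
    (u₁ * algebraMap k F (G1 j i) + u₂ * algebraMap k F (G2 j i)) with hs
  have hXi : LinearIndependent k X := by
    let ι : G (B - Finsupp.single y 1) →ₗ[k] (Fin m → k) :=
      z.equivFun.toLinearMap ∘ₗ Submodule.inclusion (hG.mono hBy)
    have h1 : X = fun j => ι (x j) := by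
      funext j
      rfl
    rw [h1]
    apply LinearIndependent.map' x.linearIndependent ι
    rw [LinearMap.ker_eq_bot]
    exact z.equivFun.injective.comp (Submodule.inclusion_injective _)
  have hsi : LinearIndependent F s := by
    apply p4_indep hF y X hXi s
    intro j i
    have h1 : s j i - algebraMap k F (X j i) =
        -(u₁ * algebraMap k F (G1 j i) + u₂ * algebraMap k F (G2 j i)) := by
      simp only [hs]; ring
    rw [h1]
    have h2 := (hord u₁ hu₁).mul (LeOrd.const y (G1 j i))
    have h3 := (hord u₂ hu₂).mul (LeOrd.const y (G2 j i))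
    rw [add_zero] at h2 h3
    exact (h2.add h3).neg
  set μ : (Fin m → F) →ₗ[F] U := Fintype.linearCombination F (fun i => (z i : U)) with hμ
  have hμa : ∀ v, μ v = ∑ i, v i • (z i : U) := fun v => by
    rw [hμ, Fintype.linearCombination_apply]
  set S : Submodule F (Fin m → F) := Submodule.span F {m' : Fin m → F | (∃ D : Dv k F,
    deg D ≤ 2 * (genus k F : ℤ) + 2 ∧ ∀ i, m' i ∈ L D) ∧ ∑ i, m' i • (z i : U) = 0} with hS
  have hconstL : ∀ (x : k), algebraMap k F x ∈ L D0 := by
    intro x
    have := (L D0).smul_mem x (one_mem_L hD0n)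
    rwa [Algebra.smul_def, mul_one] at this
  have hmulL : ∀ (w : F) (x : k), w ∈ L A → w * algebraMap k F x ∈ L D0 := by
    intro w x hw
    have := (L D0).smul_mem x (L_mono hAD0 hw)
    rwa [Algebra.smul_def, mul_comm] at this
  have hsS : ∀ j, s j ∈ S := by
    intro j
    apply Submodule.subset_span
    refine ⟨⟨D0, dD0.le, fun i => ?_⟩, ?_⟩
    · exact (L D0).sub_mem (hconstL _) ((L D0).add_mem (hmulL _ _ hu₁) (hmulL _ _ hu₂))
    · have e1 := hrepr ⟨x j, hG.mono hBy (x j).2⟩
      have e2 := hrepr ⟨g₁ j, hG.mono hBD (hg₁ j)⟩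
      have e3 := hrepr ⟨g₂ j, hG.mono hBD (hg₂ j)⟩
      simp only at e1 e2 e3
      have e4 : ∑ i, s j i • (z i : U) = (x j : U) - (u₁ • g₁ j + u₂ • g₂ j) := by
        rw [← e1, ← e2, ← e3, Finset.smul_sum, Finset.smul_sum, ← Finset.sum_add_distrib,
          ← Finset.sum_sub_distrib]
        refine Finset.sum_congr rfl fun i _ => ?_
        simp only [hs, hX, hG1, hG2]
        rw [sub_smul, add_smul, mul_smul, mul_smul]
      rw [e4, hx j, sub_self]
  have hSM : S ≤ LinearMap.ker μ := by
    apply Submodule.span_le.2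
    rintro v ⟨-, hv⟩
    rw [SetLike.mem_coe, LinearMap.mem_ker, hμa]
    exact hv
  have hrank : a ≤ Module.finrank F (LinearMap.range μ) := by
    have h1 : ∀ i, u i ∈ LinearMap.range μ := by
      intro i
      refine ⟨fun l => algebraMap k F (z.repr ⟨u i, huG i⟩ l), ?_⟩
      rw [hμa]
      exact hrepr ⟨u i, huG i⟩
    have h2 : LinearIndependent F (fun i => (⟨u i, h1 i⟩ : LinearMap.range μ)) := by
      apply LinearIndependent.of_comp (LinearMap.range μ).subtype
      exact hu
    have := h2.fintype_card_le_finrank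
    rwa [Fintype.card_fin] at this
  have hdim := LinearMap.finrank_range_add_finrank_ker μ
  rw [Module.finrank_fintype_fun_eq_card, Fintype.card_fin] at hdim
  have hqS : q ≤ Module.finrank F S := by
    have h2 : LinearIndependent F (fun j => (⟨s j, hsS j⟩ : S)) := by
      apply LinearIndependent.of_comp S.subtype
      exact hsi
    have := h2.fintype_card_le_finrank
    rwa [Fintype.card_fin] at this
  have hg0 : (0 : ℤ) ≤ genus k F := Int.natCast_nonneg _
  have r1 := hG.rr (B := B) (by linarith)
  have r2 := hG.rr (B := B - Finsupp.single y 1) (by rw [deg_sub, deg_single]; linarith)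
  have hm : Module.finrank k (G B) = m := by
    rw [Module.finrank_eq_card_basis z, Fintype.card_fin]
  rw [hm] at r1
  rw [deg_sub, deg_single, ← hq] at r2
  have hqm : (q : ℤ) = m - a := by rw [r1, r2, ha]; ring
  have hle : Module.finrank F (LinearMap.ker μ) ≤ Module.finrank F S := by
    omega
  have hEq : S = LinearMap.ker μ := Submodule.eq_of_le_of_finrank_le hSM hle
  rw [hEq, LinearMap.mem_ker, hμa]
  exact hc

end Pencil

variable {k F K : Type} [Field k] [IsAlgClosed k] [CharZero k] [Field F] [Field K] [Algebra k F]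
  [Algebra k K] [Algebra F K] [IsScalarTower k F K] [FiniteDimensional F K]

/-- P4. -/
theorem small_rel (hF : IsCurve k F) (hK : IsCurve k K) {W : Dv k F} {WK : Dv k K}
    (h : IsRel W WK) {Ψ : ℤ} (hP : Prim k F K Ψ) (hΨ : 2 * (2 * (genus k F : ℤ) + 2) ≤ Ψ) {g : ℕ}
    (v : Module.Basis (Fin g) k (L WK)) (c : Fin g → F) (hc : ∑ l, c l • (v l : K) = 0) :
    c ∈ Submodule.span F {m : Fin g → F | (∃ D : Dv k F, deg D ≤ 2 * (genus k F : ℤ) + 2 ∧
      ∀ l, m l ∈ L D) ∧ ∑ l, m l • (v l : K) = 0} := by
  classical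
  have hd0 : 0 < Module.finrank F K := Module.finrank_pos
  set d := Module.finrank F K with hd
  have hdF : (d : F) ≠ 0 := by
    haveI : CharZero F := charZero_of_injective_algebraMap (algebraMap k F).injective
    exact_mod_cast hd0.ne'
  haveI := hK.finDim WK
  haveI := hF.finDim W
  -- the sections of `W`
  set S : Submodule F (Fin g → F) := Submodule.span F {m : Fin g → F | (∃ D : Dv k F,
    deg D ≤ 2 * (genus k F : ℤ) + 2 ∧ ∀ l, m l ∈ L D) ∧ ∑ l, m l • (v l : K) = 0} with hS
  have hrepr : ∀ w : L WK, ∑ l, algebraMap k F (v.repr w l) • (v l : K) = (w : K) := by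
    intro w
    have h1 := congrArg (Submodule.subtype (L WK)) (v.sum_repr w)
    rw [map_sum] at h1
    simp only [map_smul, Submodule.subtype_apply] at h1
    rw [← h1]
    exact Finset.sum_congr rfl fun i _ => algebraMap_smul F _ _
  -- transport of relations
  have htr : ∀ (s : ℕ) (y : Fin s → L WK) (b : Fin s → F),
      b ∈ Submodule.span F {m : Fin s → F | (∃ D : Dv k F,
        deg D ≤ 2 * (genus k F : ℤ) + 2 ∧ ∀ l, m l ∈ L D) ∧ ∑ l, m l • (y l : K) = 0} →
      (fun l => ∑ i, b i * algebraMap k F (v.repr (y i) l)) ∈ S := by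
    intro s y b hb
    let Φ : (Fin s → F) →ₗ[F] (Fin g → F) :=
      { toFun := fun b l => ∑ i, b i * algebraMap k F (v.repr (y i) l)
        map_add' := by
          intro b b'
          funext l
          simp only [Pi.add_apply, add_mul, Finset.sum_add_distrib]
        map_smul' := by
          intro t b
          funext l
          simp only [Pi.smul_apply, smul_eq_mul, RingHom.id_apply, Finset.mul_sum, mul_assoc] }
    have h1 : Submodule.map Φ (Submodule.span F {m : Fin s → F | (∃ D : Dv k F,
        deg D ≤ 2 * (genus k F : ℤ) + 2 ∧ ∀ l, m l ∈ L D) ∧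
          ∑ l, m l • (y l : K) = 0}) ≤ S := by
      rw [Submodule.map_span_le]
      rintro m ⟨⟨D, hD, hm⟩, hm0⟩
      apply Submodule.subset_span
      refine ⟨⟨D, hD, fun l => ?_⟩, ?_⟩
      · show ∑ i, m i * algebraMap k F (v.repr (y i) l) ∈ L D
        apply Submodule.sum_mem
        intro i _
        have := (L D).smul_mem (v.repr (y i) l) (hm i)
        rwa [Algebra.smul_def, mul_comm] at this
      · show ∑ l, (∑ i, m i * algebraMap k F (v.repr (y i) l)) • (v l : K) = 0
        rw [← hm0]
        simp only [Finset.sum_smul, mul_smul]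
        rw [Finset.sum_comm]
        refine Finset.sum_congr rfl fun i _ => ?_
        rw [← Finset.smul_sum, hrepr]
    exact h1 (Submodule.mem_map_of_mem hb)
  -- the two parts of `L WK`
  have hTrW : ∀ x ∈ L WK, Algebra.trace F K x ∈ L W := by
    intro x hx
    have h1 : ∀ Q : Pt k F, LeOrd Q (-W Q) (Algebra.trace F K x) := by
      intro Q
      apply h.tr Q x
      intro P _
      rcases hx with h2 | h2
      · exact Or.inl h2
      · exact Or.inr (h2 P)
    by_cases h0 : Algebra.trace F K x = 0
    · exact Or.inl h0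
    · exact Or.inr fun Q => (h1 Q).resolve_left h0
  have hWK : ∀ f ∈ L W, algebraMap F K f ∈ L WK := by
    intro f hf
    exact L_mono h.le ((map_mem_pull hK).2 hf)
  let w : Module.Basis (Fin (Module.finrank k (L W))) k (L W) := Module.finBasis k _
  have hpull0 : WK + pull K (0 : Dv k F) = WK := by
    have : pull K (0 : Dv k F) = 0 := by
      ext P
      rw [pull_apply hK]
      simp
    rw [this, add_zero]
  have hbd := isBdl_VB hF hK h hP
  haveI := hbd.fin 0
  let z : Module.Basis (Fin (Module.finrank k (VB WK (0 : Dv k F)))) k (VB WK (0 : Dv k F)) :=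
    Module.finBasis k _
  have hVB : ∀ x ∈ VB WK (0 : Dv k F), x ∈ L WK := by
    intro x hx
    have := hx.1
    rwa [hpull0] at this
  have hdk : (d : k) ≠ 0 := by exact_mod_cast hd0.ne'
  -- the parts of the basis elements
  have hpt : ∀ l, (d : k)⁻¹ • Algebra.trace F K (v l : K) ∈ L W := fun l =>
    (L W).smul_mem _ (hTrW _ (v l).2)
  have htm : ∀ t : F, Algebra.trace F K (algebraMap F K t) = d * t := by
    intro t
    rw [Algebra.trace_algebraMap, nsmul_eq_mul]
  have hsmulF : ∀ t : F, (d : k)⁻¹ • t = (d : F)⁻¹ * t := by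
    intro t
    rw [Algebra.smul_def, map_inv₀, map_natCast]
  have hpe : ∀ l, (v l : K) - algebraMap F K ((d : k)⁻¹ • Algebra.trace F K (v l : K)) ∈
      VB WK (0 : Dv k F) := by
    intro l
    refine ⟨?_, ?_⟩
    · rw [hpull0]
      exact (L WK).sub_mem (v l).2 (hWK _ (hpt l))
    · show Algebra.trace F K ((v l : K) -
        algebraMap F K ((d : k)⁻¹ • Algebra.trace F K (v l : K))) = 0
      rw [map_sub, htm, hsmulF, mul_inv_cancel_left₀ hdF, sub_self]
  set τ : Fin g → L W := fun l => ⟨_, hpt l⟩ with hτ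
  set ε : Fin g → VB WK (0 : Dv k F) := fun l => ⟨_, hpe l⟩ with hε
  -- the parts of the relation
  set cW : Fin (Module.finrank k (L W)) → F := fun a =>
    ∑ l, c l * algebraMap k F (w.repr (τ l) a) with hcW
  set cZ : Fin (Module.finrank k (VB WK (0 : Dv k F))) → F := fun i =>
    ∑ l, c l * algebraMap k F (z.repr (ε l) i) with hcZ
  have hwr : ∀ x : L W, ∑ a, algebraMap k F (w.repr x a) * (w a : F) = (x : F) := by
    intro x
    have h1 := congrArg (Submodule.subtype (L W)) (w.sum_repr x)
    rw [map_sum] at h1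
    simp only [map_smul, Submodule.subtype_apply] at h1
    rw [← h1]
    exact Finset.sum_congr rfl fun i _ => (Algebra.smul_def _ _).symm
  have hzr : ∀ x : VB WK (0 : Dv k F), ∑ i, algebraMap k F (z.repr x i) • (z i : K) = (x : K) := by
    intro x
    have h1 := congrArg (Submodule.subtype (VB WK (0 : Dv k F))) (z.sum_repr x)
    rw [map_sum] at h1
    simp only [map_smul, Submodule.subtype_apply] at h1
    rw [← h1]
    exact Finset.sum_congr rfl fun i _ => algebraMap_smul F _ _
  have hTr0 : ∑ l, c l * Algebra.trace F K (v l : K) = 0 := by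
    have h1 := congrArg (Algebra.trace F K) hc
    rw [map_sum, map_zero] at h1
    rw [← h1]
    exact Finset.sum_congr rfl fun l _ => by rw [map_smul, smul_eq_mul]
  have hW0 : ∑ l, c l * ((d : k)⁻¹ • Algebra.trace F K (v l : K)) = 0 := by
    have h1 : ∑ l, c l * ((d : k)⁻¹ • Algebra.trace F K (v l : K)) =
        (d : F)⁻¹ * ∑ l, c l * Algebra.trace F K (v l : K) := by
      rw [Finset.mul_sum]
      refine Finset.sum_congr rfl fun l _ => ?_
      rw [hsmulF]
      ring
    rw [h1, hTr0, mul_zero]
  have hcW0 : ∑ a, cW a * (w a : F) = 0 := by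
    rw [← hW0]
    simp only [hcW, Finset.sum_mul]
    rw [Finset.sum_comm]
    refine Finset.sum_congr rfl fun l _ => ?_
    have := hwr (τ l)
    simp only [mul_assoc]
    rw [← Finset.mul_sum, this]
  have hcZ0 : ∑ i, cZ i • (z i : K) = 0 := by
    have h1 : ∑ l, c l • ((v l : K) -
        algebraMap F K ((d : k)⁻¹ • Algebra.trace F K (v l : K))) = 0 := by
      simp only [smul_sub, Finset.sum_sub_distrib, hc, zero_sub]
      have h2 : ∑ l, c l • algebraMap F K ((d : k)⁻¹ • Algebra.trace F K (v l : K)) =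
          algebraMap F K (∑ l, c l * ((d : k)⁻¹ • Algebra.trace F K (v l : K))) := by
        rw [map_sum]
        exact Finset.sum_congr rfl fun l _ => by rw [map_mul, Algebra.smul_def]
      rw [h2, hW0, map_zero, neg_zero]
    rw [← h1]
    simp only [hcZ, Finset.sum_smul, mul_smul]
    rw [Finset.sum_comm]
    refine Finset.sum_congr rfl fun l _ => ?_
    have := hzr (ε l)
    rw [← Finset.smul_sum, this]
  -- the first part
  have hS1 := small_W hF h.canF w cW hcW0
  have hT1 := htr _ (fun a => ⟨algebraMap F K (w a : F), hWK _ (w a).2⟩) cW (by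
    refine Submodule.span_mono ?_ hS1
    rintro m ⟨hm1, hm2⟩
    refine ⟨hm1, ?_⟩
    have h1 : ∑ a, m a • algebraMap F K (w a : F) = algebraMap F K (∑ a, m a * (w a : F)) := by
      rw [map_sum]
      exact Finset.sum_congr rfl fun a _ => by rw [map_mul, Algebra.smul_def]
    show ∑ a, m a • algebraMap F K (w a : F) = 0
    rw [h1, hm2, map_zero])
  -- the second part
  obtain ⟨u, hu, huV⟩ := exists_indep hF hK h hP (D := 0) (by
    rw [deg_zero]
    have : (0 : ℤ) ≤ genus k F := Int.natCast_nonneg _
    linarith)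
  have hS2 := p4_bdl hF hbd (B := 0) (by rw [deg_zero]; linarith) (a := d - 1)
    (by rw [Nat.cast_sub hd0]; push_cast; rfl) u hu
    (fun i => by have := huV i; rwa [neg_zero] at this) z cZ hcZ0
  have hT2 := htr _ (fun i => ⟨(z i : K), hVB _ (z i).2⟩) cZ hS2
  -- the sum
  have hsum : c = (fun l => ∑ a, cW a * algebraMap k F (v.repr
      ⟨algebraMap F K (w a : F), hWK _ (w a).2⟩ l)) +
      fun l => ∑ i, cZ i * algebraMap k F (v.repr ⟨(z i : K), hVB _ (z i).2⟩ l) := by
    have hv : ∀ l, v l = ∑ a, w.repr (τ l) a • (⟨algebraMap F K (w a : F), hWK _ (w a).2⟩ : L WK) +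
        ∑ i, z.repr (ε l) i • (⟨(z i : K), hVB _ (z i).2⟩ : L WK) := by
      intro l
      apply Subtype.ext
      have e1 := congrArg (algebraMap F K) (hwr (τ l))
      have e2 := hzr (ε l)
      rw [map_sum] at e1
      rw [Submodule.coe_add, Submodule.coe_sum, Submodule.coe_sum]
      simp only [Submodule.coe_smul]
      have e3 : ∑ a, w.repr (τ l) a • algebraMap F K (w a : F) = algebraMap F K (τ l : F) := by
        rw [← e1]
        refine Finset.sum_congr rfl fun a _ => ?_
        rw [map_mul, Algebra.smul_def, ← IsScalarTower.algebraMap_apply]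
      have e4 : ∑ i, z.repr (ε l) i • (z i : K) = (ε l : K) := by
        rw [← e2]
        exact Finset.sum_congr rfl fun i _ => (algebraMap_smul F _ _).symm
      rw [e3, e4]
      simp only [hτ, hε]
      ring
    funext l
    have h1 : ∀ l', v.repr (v l') l = ∑ a, w.repr (τ l') a * v.repr
        (⟨algebraMap F K (w a : F), hWK _ (w a).2⟩ : L WK) l +
        ∑ i, z.repr (ε l') i * v.repr (⟨(z i : K), hVB _ (z i).2⟩ : L WK) l := by
      intro l'
      conv_lhs => rw [hv l']
      rw [map_add, map_sum, map_sum, Finsupp.add_apply, Finsupp.finsetSum_apply,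
        Finsupp.finsetSum_apply]
      simp only [map_smul, Finsupp.smul_apply, smul_eq_mul]
    have h2 : c l = ∑ l', c l' * algebraMap k F (v.repr (v l') l) := by
      rw [Finset.sum_eq_single l]
      · rw [v.repr_self, Finsupp.single_eq_same, map_one, mul_one]
      · intro l' _ hl
        rw [v.repr_self, Finsupp.single_eq_of_ne hl.symm, map_zero, mul_zero]
      · intro hl
        exact absurd (Finset.mem_univ _) hl
    rw [h2, Pi.add_apply]
    simp only [hcW, hcZ, Finset.sum_mul, h1, map_add, map_sum, map_mul, mul_add, Finset.mul_sum]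
    rw [Finset.sum_add_distrib]
    congr 1
    · rw [Finset.sum_comm]
      exact Finset.sum_congr rfl fun a _ => Finset.sum_congr rfl fun l' _ => by ring
    · rw [Finset.sum_comm]
      exact Finset.sum_congr rfl fun a _ => Finset.sum_congr rfl fun l' _ => by ring
  rw [hsum]
  exact S.add_mem hT1 hT2

end Pool.Agent.MPd118f9
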