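import Pool.Agent.Lib.MP_d118f9_ag_G.A
import Pool.Agent.Lib.MP_d118f9_ag_G.P2
import Pool.Agent.Lib.MP_d118f9_ag_G.P3
import Pool.Agent.Lib.MP_d118f9_ag_G.P4
import Pool.Agent.Lib.MP_d118f9_ag_R.SkJ

/-!
# MP_d118f9_ag, covers of any degree: the theorem of the text REL
-/

set_option autoImplicit false

noncomputable section

open Classical

namespace Pool.Agent.MPd118f9

variable {k F K : Type} [Field k] [IsAlgClosed k] [CharZero k] [Field F] [Field K] [Algebra k F]
  [Algebra k K] [Algebra F K] [IsScalarTower k F K] [FiniteDimensional F K]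

/-- The main theorem of the text REL. -/
theorem rel (hF : IsCurve k F) (hK : IsCurve k K) {W : Dv k F} {WK : Dv k K}
    (h : IsRel W WK) {Ψ : ℤ} (hP : Prim k F K Ψ) {n : ℕ}
    (hΨ : ((n : ℤ) + 3) * (2 * (genus k F : ℤ) + 2) ≤ Ψ) (hd : 2 ≤ Module.finrank F K) {g : ℕ}
    (v : Module.Basis (Fin g) k (L WK)) {s : (Fin (n + 1) → Fin g) → K} (hs : Alt s)
    (hsL : ∀ I, s I ∈ L WK) (hv : wg (fun l => (v l : K)) s = 0) (Q : Pt k F) :
    ∃ τ : (Fin n → Fin g) → F, Alt τ ∧ (∀ I, LeOrd Q 0 (τ I)) ∧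
      s = wg (fun l => (v l : K)) fun I => algebraMap F K (τ I) := by
  have hc : CharZero F := charZero_of_injective_algebraMap (algebraMap k F).injective
  have hh : (0 : ℤ) ≤ genus k F := Int.natCast_nonneg _
  have hn : (0 : ℤ) ≤ n := Int.natCast_nonneg _
  have hΨ1 : (n : ℤ) * (2 * (genus k F : ℤ) + 2) + (6 * (genus k F : ℤ) + 6) ≤ Ψ := by
    have h1 : ((n : ℤ) + 3) * (2 * (genus k F : ℤ) + 2) =
        (n : ℤ) * (2 * (genus k F : ℤ) + 2) + (6 * (genus k F : ℤ) + 6) := by ring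
    linarith
  have hn1 : 0 ≤ (n : ℤ) * (2 * (genus k F : ℤ) + 2) := mul_nonneg hn (by linarith)
  obtain ⟨Q₀⟩ := nonempty_pt hF
  set D₀ : Dv k F := Finsupp.single Q₀ (Ψ - 1) with hD₀
  have hdeg₀ : deg D₀ = Ψ - 1 := deg_single _ _
  obtain ⟨w, hw1, hw2⟩ := exists_indep hF hK h hP (D := D₀) (by rw [hdeg₀]; linarith)
  refine Rel.rel_gen (ρ := 2 * (genus k F : ℤ) + 2)
    (fun l => (⟨v l, mem_Uh hF hK h (v l).2⟩ : Uh k F K)) (fun l => (v l).2)
    (local_basis hF hK h hP (by linarith) v)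
    (fun c hc' => small_rel hF hK h hP (by linarith) v c hc') ?_ hs hsL
    (fun I => mem_Uh hF hK h (hsL I)) hv Q
  intro i j hij hir D' hD' u R hR htr hreg
  have hj : (j : ℤ) * (2 * (genus k F : ℤ) + 2) ≤ (n : ℤ) * (2 * (genus k F : ℤ) + 2) := by
    refine mul_le_mul_of_nonneg_right ?_ (by linarith)
    exact_mod_cast (by omega : j ≤ n)
  have hfr := finrank_Uh (k := k) (F := F) (K := K)
  by_cases hg : 1 ≤ genus k F
  · have hU : ∀ x, x ∈ Uh k F K := by
      intro x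
      unfold Uh
      rw [if_pos hg]
      exact Submodule.mem_top
    rw [if_pos hg] at hfr
    exact Rel.claim_one hF hK h hg hP hU u hfr hw1 hw2 hir hR htr hreg (by linarith)
      (by rw [hdeg₀]; linarith) (by rw [hdeg₀]; linarith)
  · have hU : ∀ x, x ∈ Uh k F K ↔ Algebra.trace F K x = 0 := by
      intro x
      unfold Uh
      rw [if_neg hg, LinearMap.mem_ker]
    rw [if_neg hg] at hfr
    have hw3 : LinearIndependent F fun b : Fin (Module.finrank F (Uh k F K)) =>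
        w (Fin.cast hfr b) := hw1.comp _ (Fin.cast_injective _)
    refine Rel.claim_zero hF hK hU u hw3 (D₀ := D₀) (fun b => hw2 _) hir hR htr hreg fun hi => ?_
    rw [hdeg₀]
    have h1 : (1 : ℤ) ≤ i := by exact_mod_cast hi
    have h2 : 0 ≤ Ψ - 1 := by linarith
    have h3 : Ψ - 1 ≤ (i : ℤ) * (Ψ - 1) := by nlinarith
    linarith

end Pool.Agent.MPd118f9
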