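import Pool.Agent.Lib.MP_d118f9_ag_G.TDeg

/-!
# MP_d118f9_ag, covers of any degree: the Clifford index of a cover
-/

set_option autoImplicit false

noncomputable section

open Classical

namespace Pool.Agent.MPd118f9

variable {k F K : Type} [Field k] [IsAlgClosed k] [CharZero k] [Field F] [Field K] [Algebra k F]
  [Algebra k K] [Algebra F K] [IsScalarTower k F K] [FiniteDimensional F K]

/-- The Clifford index of a cover. -/
theorem cliff_cov (hF : IsCurve k F) (hK : IsCurve k K) {WK : Dv k K} (hWK : IsCan WK)
    (hg : Module.finrank F K * gon k F + 3 ≤ genus k K) :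
    cliff WK + 2 ≤ Module.finrank F K * gon k F := by
  obtain ⟨E, hE0, hE2, hEd⟩ := exists_gon hF
  have hdeg := deg_pull_cov hF hK E
  rw [hEd] at hdeg
  have hpos : 0 ≤ pull K E := by
    intro P
    rw [pull_apply hK]
    exact mul_nonneg (Int.natCast_nonneg _) (hE0 _)
  have h1 : 2 ≤ ell (pull K E) := by
    have hfd := hK.finDim (pull K E)
    have hfE := hF.finDim E
    let φ : F →ₗ[k] K := (IsScalarTower.toAlgHom k F K).toLinearMap
    have hφ : ∀ x : L E, φ (x : F) ∈ L (pull K E) := fun x => (map_mem_pull hK).2 x.2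
    have h3 : ell E ≤ ell (pull K E) := by
      refine LinearMap.finrank_le_finrank_of_injective
        (f := LinearMap.codRestrict (L (pull K E)) (φ.comp (L E).subtype) hφ) ?_
      intro x y hxy
      have h4 := congrArg (Subtype.val) hxy
      exact Subtype.ext ((algebraMap F K).injective h4)
    exact hE2.trans h3
  have h2 : 2 ≤ ell (WK - pull K E) := by
    have h3 := hK.le_ell (WK - pull K E)
    rw [deg_sub, hdeg, hWK.1] at h3
    have h4 : ((Module.finrank F K * gon k F : ℕ) : ℤ) + 3 ≤ (genus k K : ℤ) := by
      exact_mod_cast hg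
    push_cast at h4
    omega
  have h4 := cliff_le hK (by omega) hpos h1 h2
  rw [hdeg] at h4
  exact_mod_cast h4

end Pool.Agent.MPd118f9
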