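import Pool.Agent.Lib.MP_d118f9_ag_G.TDeg

/-!
# MP_d118f9_ag, covers of any degree: the genus of F(x)
-/

set_option autoImplicit false

noncomputable section

open Classical

namespace Pool.Agent.MPd118f9

variable {k F K : Type} [Field k] [IsAlgClosed k] [CharZero k] [Field F] [Field K] [Algebra k F]
  [Algebra k K] [Algebra F K] [IsScalarTower k F K] [FiniteDimensional F K]

private theorem pow_mem_pull (hK : IsCurve k K) {x : K} {B : Dv k F} (hx : x ∈ L (pull K B))
    (j : ℕ) : x ^ j ∈ L (pull K (j • B)) := by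
  induction j with
  | zero =>
    rw [pow_zero, pull_nsmul hK, zero_smul]
    exact one_mem_L le_rfl
  | succ j ih =>
    rw [pow_succ, succ_nsmul, pull_add hK]
    exact mul_mem_L ih hx

private theorem sum_ell_le (hF : IsCurve k F) (hK : IsCurve k K) {x : K} {B : Dv k F}
    (hx : x ∈ L (pull K B)) (hadj : IntermediateField.adjoin F {x} = ⊤) (A : Dv k F) :
    ∑ j : Fin (Module.finrank F K), ell (A + (Module.finrank F K - 1 - (j : ℕ)) • B) ≤
      ell (pull K (A + (Module.finrank F K - 1) • B)) := by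
  have hdeg := (Field.primitive_element_iff_minpoly_natDegree_eq F x).1 hadj
  have hli := linearIndependent_pow (K := F) x
  rw [hdeg] at hli
  obtain ⟨d, hd⟩ : ∃ d : ℕ, d = Module.finrank F K := ⟨_, rfl⟩
  rw [← hd] at hli ⊢
  have hmem : ∀ (j : Fin d) (f : F), f ∈ L (A + (d - 1 - (j : ℕ)) • B) →
      algebraMap F K f * x ^ (j : ℕ) ∈ L (pull K (A + (d - 1) • B)) := by
    intro j f hf
    have h1 := mul_mem_L ((map_mem_pull (K := K) hK).2 hf) (pow_mem_pull hK hx (j : ℕ))
    rw [← pull_add hK, add_assoc, ← add_smul] at h1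
    have h2 : d - 1 - (j : ℕ) + (j : ℕ) = d - 1 := by
      have := j.2
      omega
    rw [h2] at h1
    exact h1
  have hfin : ∀ D : Dv k F, FiniteDimensional k (L D) := hF.finDim
  have hfinK : FiniteDimensional k (L (pull K (A + (d - 1) • B))) := hK.finDim _
  let φ : (∀ j : Fin d, L (A + (d - 1 - (j : ℕ)) • B)) →ₗ[k] L (pull K (A + (d - 1) • B)) :=
    { toFun := fun p => ⟨∑ j, algebraMap F K (p j) * x ^ (j : ℕ),
        Submodule.sum_mem _ fun j _ => hmem j _ (p j).2⟩
      map_add' := by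
        intro p q
        apply Subtype.ext
        simp only [Pi.add_apply, Submodule.coe_add, map_add, add_mul, Finset.sum_add_distrib]
      map_smul' := by
        intro c p
        apply Subtype.ext
        simp only [Pi.smul_apply, Submodule.coe_smul, RingHom.id_apply, Algebra.smul_def, map_mul,
          ← IsScalarTower.algebraMap_apply k F K, Finset.mul_sum, mul_assoc] }
  have hφ : ∀ p, ((φ p : L (pull K (A + (d - 1) • B))) : K) =
      ∑ j, algebraMap F K (p j) * x ^ (j : ℕ) := fun _ => rfl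
  have hinj : Function.Injective φ := by
    rw [injective_iff_map_eq_zero]
    intro p hp
    have h1 : ∑ j, ((p j : F)) • x ^ (j : ℕ) = 0 := by
      have h2 := hφ p
      rw [hp] at h2
      simp only [Algebra.smul_def]
      exact h2.symm
    funext j
    exact Subtype.ext ((Fintype.linearIndependent_iff.1 hli) (fun j => (p j : F)) h1 j)
  have h3 := LinearMap.finrank_le_finrank_of_injective hinj
  rw [Module.finrank_pi_fintype] at h3
  exact h3

/-- The genus of `F(x)`. -/
theorem genus_adjoin (hF : IsCurve k F) (hK : IsCurve k K) {x : K} {B : Dv k F} (hB : 0 ≤ deg B)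
    (hx : x ∈ L (pull K B)) (hadj : IntermediateField.adjoin F {x} = ⊤) :
    (genus k K : ℤ) ≤ Module.finrank F K * genus k F + (Module.finrank F K) ^ 2 * deg B + 1 := by
  obtain ⟨c₁, h1⟩ := hK.riemann
  obtain ⟨Q⟩ := nonempty_pt hF
  have hs := sum_ell_le hF hK hx hadj (c₁.toNat • Finsupp.single Q 1)
  have hd0 : 0 < Module.finrank F K := Module.finrank_pos
  have hdp : deg (pull K ((c₁.toNat • Finsupp.single Q 1 : Dv k F) +
      (Module.finrank F K - 1) • B)) = Module.finrank F K *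
        ((c₁.toNat : ℤ) + ((Module.finrank F K : ℤ) - 1) * deg B) := by
    rw [deg_pull_cov hF hK, deg_add, deg_nsmul, deg_nsmul, deg_single, mul_one, Nat.cast_sub hd0,
      Nat.cast_one]
  obtain ⟨d, hd⟩ : ∃ d : ℕ, d = Module.finrank F K := ⟨_, rfl⟩
  rw [← hd] at hs hd0 hdp ⊢
  have hd1 : (1 : ℤ) ≤ d := by exact_mod_cast hd0
  have hc : c₁ ≤ (c₁.toNat : ℤ) := Int.self_le_toNat c₁
  have hc0 : (0 : ℤ) ≤ (c₁.toNat : ℤ) := Int.natCast_nonneg _
  obtain ⟨m, hm⟩ : ∃ m : ℤ, m = (c₁.toNat : ℤ) := ⟨_, rfl⟩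
  have hdB : 0 ≤ ((d : ℤ) - 1) * deg B := mul_nonneg (by linarith) hB
  have h2 := h1 _ (by
    rw [hdp, ← hm]
    rw [← hm] at hc hc0
    nlinarith)
  rw [hdp, ← hm] at h2
  have h3 : ∀ j : Fin d, m + 1 - genus k F ≤
      (ell ((c₁.toNat • Finsupp.single Q 1 : Dv k F) + (d - 1 - (j : ℕ)) • B) : ℤ) := by
    intro j
    have h4 := hF.le_ell ((c₁.toNat • Finsupp.single Q 1 : Dv k F) + (d - 1 - (j : ℕ)) • B)
    rw [deg_add, deg_nsmul, deg_nsmul, deg_single, mul_one, ← hm] at h4
    have h5 : 0 ≤ ((d - 1 - (j : ℕ) : ℕ) : ℤ) * deg B := mul_nonneg (Int.natCast_nonneg _) hB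
    linarith
  have h6 : (d : ℤ) * (m + 1 - genus k F) ≤ ∑ j : Fin d,
      (ell ((c₁.toNat • Finsupp.single Q 1 : Dv k F) + (d - 1 - (j : ℕ)) • B) : ℤ) := by
    have h7 := Finset.sum_le_sum fun j (_ : j ∈ (Finset.univ : Finset (Fin d))) => h3 j
    rw [Finset.sum_const, Finset.card_univ, Fintype.card_fin, nsmul_eq_mul] at h7
    exact h7
  have h8 : ∑ j : Fin d,
      (ell ((c₁.toNat • Finsupp.single Q 1 : Dv k F) + (d - 1 - (j : ℕ)) • B) : ℤ) ≤
      (ell (pull K ((c₁.toNat • Finsupp.single Q 1 : Dv k F) + (d - 1) • B)) : ℤ) := by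
    exact_mod_cast hs
  rw [h2] at h8
  have h9 : 0 ≤ (d : ℤ) * deg B := mul_nonneg (by linarith) hB
  nlinarith

end Pool.Agent.MPd118f9
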