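import Pool.Agent.Lib.MP_d118f9_ag_G.Defs

/-!
# MP_d118f9_ag, covers of any degree: the gonality
-/

set_option autoImplicit false

noncomputable section

open Classical

namespace Pool.Agent.MPd118f9

variable {k F : Type} [Field k] [IsAlgClosed k] [CharZero k] [Field F] [Algebra k F]

private theorem SGon_le (hF : IsCurve k F) : gon k F ≤ genus k F + 1 := by
  have := hF.infinite_pt
  obtain ⟨P⟩ : Nonempty (Pt k F) := inferInstance
  obtain ⟨W, hW⟩ := hF.exists_can
  obtain ⟨n, hn⟩ : ∃ n : ℕ, n = genus k F + 1 := ⟨_, rfl⟩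
  have h1 := hW.riemann_roch hF (Finsupp.single P (n : ℤ))
  rw [deg_single] at h1
  rw [← hn]
  exact Nat.sInf_le ⟨Finsupp.single P (n : ℤ), Finsupp.single_nonneg.2 (Int.natCast_nonneg _),
    by omega, (deg_single P _).symm⟩

/-- The gonality in genus `0`. -/
theorem gon_of_genus_zero (hF : IsCurve k F) (hg : genus k F = 0) : gon k F = 1 := by
  have h1 := SGon_le hF
  rw [hg] at h1
  obtain ⟨D, h0, h2, h3⟩ := exists_gon hF
  by_contra hne
  have h4 : gon k F = 0 := by omega
  rw [h4] at h3
  have h5 : D = 0 := by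
    by_contra hD
    obtain ⟨P, hP⟩ : ∃ P, D P ≠ 0 := by
      by_contra hcon
      push Not at hcon
      exact hD (Finsupp.ext hcon)
    have hP0 : 0 ≤ D P := h0 P
    have hle : Finsupp.single P 1 ≤ D := by
      intro Q
      have hQ : 0 ≤ D Q := h0 Q
      rw [Finsupp.single_apply]
      split_ifs with h
      · rw [← h]
        omega
      · exact hQ
    have h6 := deg_mono hle
    rw [deg_single] at h6
    push_cast at h3
    omega
  rw [h5, hF.ell_zero] at h2
  omega

/-- The gonality is at most `genus + 1` (the sharp bound is not needed). -/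
theorem gon_le (hF : IsCurve k F) : gon k F ≤ genus k F + 1 :=
  SGon_le hF

end Pool.Agent.MPd118f9
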