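import Pool.Agent.Lib.MP_d118f9_ag_G.SGenus

/-!
# MP_d118f9_ag, covers of any degree: intermediate fields
-/

set_option autoImplicit false

noncomputable section

open Classical

namespace Pool.Agent.MPd118f9

/-- The pull back is transitive. -/
private theorem sinter_pull {k F E K : Type} [Field k] [IsAlgClosed k] [CharZero k] [Field F]
    [Field E] [Field K] [Algebra k F] [Algebra k E] [Algebra k K] [Algebra F E] [Algebra F K]
    [Algebra E K] [IsScalarTower k F E] [IsScalarTower k F K] [IsScalarTower k E K]
    [IsScalarTower F E K] [FiniteDimensional F E] [FiniteDimensional F K] [FiniteDimensional E K]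
    (hE : IsCurve k E) (hK : IsCurve k K) (B : Dv k F) : pull K (pull E B) = pull K B := by
  ext P
  have h0 : ∀ f : F, P.ord (algebraMap F K f) =
      ((P.ram E * (P.below : Pt k E).ram F : ℕ) : ℤ) *
        ((P.below : Pt k E).below : Pt k F).ord f := by
    intro f
    rw [IsScalarTower.algebraMap_apply F E K, P.ord_map, Pt.ord_map]
    push_cast
    ring
  have h1 : (P.below : Pt k F) = (P.below : Pt k E).below := by
    refine Pt.below_eq fun f _ hf => ?_
    rw [h0]
    exact mul_nonneg (Int.natCast_nonneg _) hf
  have h2 : P.ram F = P.ram E * (P.below : Pt k E).ram F := by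
    refine Pt.ram_eq fun f => ?_
    rw [h0, h1]
  rw [pull_apply hK, pull_apply hE, pull_apply hK, h2, h1]
  push_cast
  ring

variable {k F K : Type} [Field k] [IsAlgClosed k] [CharZero k] [Field F] [Field K] [Algebra k F]
  [Algebra k K] [Algebra F K] [IsScalarTower k F K] [FiniteDimensional F K]

/-- If the cover is not primitive then there is an intermediate field of bounded genus. -/
theorem exists_intermediate (hF : IsCurve k F) (hK : IsCurve k K) {Ψ : ℤ} (hΨ : 0 ≤ Ψ)
    (h : ¬ Prim k F K Ψ) : ∃ F' : IntermediateField F K, F' ≠ ⊥ ∧
      (genus k F' : ℤ) ≤ Module.finrank F F' * genus k F + (Module.finrank F F') ^ 2 * Ψ + 1 := by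
  unfold Prim at h
  push Not at h
  obtain ⟨B, hB, x, hx, hne⟩ := h
  refine ⟨IntermediateField.adjoin F {x}, ?_, ?_⟩
  · rw [Ne, IntermediateField.adjoin_simple_eq_bot_iff, IntermediateField.mem_bot]
    rintro ⟨f, hf⟩
    exact hne f hf
  · have hgen : IntermediateField.adjoin F {IntermediateField.AdjoinSimple.gen F x} = ⊤ := by
      apply IntermediateField.map_injective (IntermediateField.val _)
      rw [IntermediateField.adjoin_map, Set.image_singleton, ← AlgHom.fieldRange_eq_map,
        IntermediateField.fieldRange_val]
      rfl
    have htow : IsScalarTower k (IntermediateField.adjoin F {x}) K :=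
      IsScalarTower.of_algebraMap_eq fun _ => rfl
    have hE : IsCurve k (IntermediateField.adjoin F {x}) := hF.of_finite
    have hx' : IntermediateField.AdjoinSimple.gen F x ∈
        L (pull (IntermediateField.adjoin F {x}) B) := by
      rw [← map_mem_pull (K := K) hK, sinter_pull hE hK]
      exact hx
    have hdeg : 0 ≤ deg B := by
      by_contra hlt
      push Not at hlt
      have h1 : deg (pull K B) < 0 := by
        rw [deg_pull_cov hF hK]
        have h2 : (0 : ℤ) < Module.finrank F K := by exact_mod_cast Module.finrank_pos
        nlinarith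
      have h2 := hK.ell_of_deg_neg h1
      have h3 := hK.finDim (pull K B)
      have h4 : L (pull K B) = ⊥ := by
        unfold ell at h2
        exact Submodule.finrank_eq_zero.1 h2
      rw [h4, Submodule.mem_bot] at hx
      exact hne 0 (by rw [map_zero, hx])
    have h1 := genus_adjoin (K := IntermediateField.adjoin F {x}) hF hE hdeg hx' hgen
    have h2 := mul_le_mul_of_nonneg_left hB
      (sq_nonneg ((Module.finrank F (IntermediateField.adjoin F {x}) : ℕ) : ℤ))
    linarith

end Pool.Agent.MPd118f9
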