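import Mathlib

/-!
# MP_d118f9_ag, covers of any degree: a basis adapted to a flag (linear algebra)
-/

set_option autoImplicit false

noncomputable section

open Classical

namespace Pool.Agent.MPd118f9

section

variable {k V X : Type} [Field k] [AddCommGroup V] [Module k V] [AddCommGroup X] [Module k X]

/-- The flag is given by the coordinates `co i : V → X`; `Lv i` is the space of the leading
coefficients of level `i`. -/
theorem exists_flag_basis {r : ℕ} (co : Fin (r + 1) → V →ₗ[k] X)
    (hinj : ∀ x, (∀ i, co i x = 0) → x = 0) (Lv : Fin (r + 1) → Submodule k X)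
    (hfin : ∀ i, FiniteDimensional k (Lv i))
    (h1 : ∀ i x, (∀ j, i < j → co j x = 0) → co i x ∈ Lv i)
    (h2 : ∀ i, ∀ f ∈ Lv i, ∃ x, (∀ j, i < j → co j x = 0) ∧ co i x = f) :
    ∃ (g : ℕ) (v : Module.Basis (Fin g) k V) (lev : Fin g → Fin (r + 1)),
      (∀ l j, lev l < j → co j (v l) = 0) ∧
      (∀ i, LinearIndependent k fun l : {l // lev l = i} => co (lev l) (v l)) ∧
      ∀ i, Submodule.span k (Set.range fun l : {l // lev l = i} => co (lev l) (v l)) = Lv i := by
  have b : ∀ i, Module.Basis (Fin (Module.finrank k (Lv i))) k (Lv i) := fun i =>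
    Module.finBasis k (Lv i)
  choose lift hl1 hl2 using fun (i : Fin (r + 1)) (a : Fin (Module.finrank k (Lv i))) =>
    h2 i (b i a) (b i a).2
  let ι : Type := Σ i : Fin (r + 1), Fin (Module.finrank k (Lv i))
  let w : ι → V := fun p => lift p.1 p.2
  have hind : LinearIndependent k w := by
    rw [Fintype.linearIndependent_iff]
    intro c hc
    have key : ∀ n : ℕ, ∀ i : Fin (r + 1), r - (i : ℕ) = n → ∀ a, c ⟨i, a⟩ = 0 := by
      intro n
      induction n using Nat.strong_induction_on with
      | _ n ih =>
        intro i hi a
        have h3 : co i (∑ p, c p • w p) = 0 := by rw [hc, map_zero]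
        rw [map_sum] at h3
        have h4 : ∀ p : ι, p.1 ≠ i → co i (c p • w p) = 0 := by
          intro p hp
          rw [map_smul]
          rcases lt_or_gt_of_ne hp with h | h
          · rw [show co i (w p) = 0 from hl1 p.1 p.2 i h, smul_zero]
          · have h5 : r - ((p.1 : Fin (r + 1)) : ℕ) < n := by
              have := p.1.2
              have := i.2
              have h6 : (i : ℕ) < (p.1 : ℕ) := h
              omega
            rw [show c p = 0 from ih _ h5 p.1 rfl p.2, zero_smul]
        have h5 : ∑ a, c ⟨i, a⟩ • (b i a : X) = 0 := by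
          rw [← h3, Fintype.sum_sigma, Finset.sum_eq_single i]
          · refine Finset.sum_congr rfl fun a _ => ?_
            rw [map_smul]
            congr 1
            exact (hl2 i a).symm
          · intro j _ hj
            exact Finset.sum_eq_zero fun a _ => h4 ⟨j, a⟩ hj
          · intro h
            exact absurd (Finset.mem_univ _) h
        have h6 : ∑ a, c ⟨i, a⟩ • b i a = 0 := by
          apply Subtype.ext
          rw [AddSubmonoidClass.coe_finsetSum]
          exact h5
        exact Fintype.linearIndependent_iff.1 (b i).linearIndependent _ h6 a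
    intro p
    exact key _ p.1 rfl p.2
  have hspan : ⊤ ≤ Submodule.span k (Set.range w) := by
    have key : ∀ n : ℕ, ∀ x : V, (∀ j : Fin (r + 1), n ≤ (j : ℕ) → co j x = 0) →
        x ∈ Submodule.span k (Set.range w) := by
      intro n
      induction n with
      | zero =>
        intro x hx
        rw [hinj x fun i => hx i (Nat.zero_le _)]
        exact Submodule.zero_mem _
      | succ n ih =>
        intro x hx
        by_cases hn : n < r + 1
        · let i : Fin (r + 1) := ⟨n, hn⟩
          have h3 : co i x ∈ Lv i := h1 i x fun j hj => hx j hj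
          obtain ⟨c, hc⟩ : ∃ c, (b i).repr ⟨co i x, h3⟩ = c := ⟨_, rfl⟩
          have h4 : co i x = ∑ a, c a • (b i a : X) := by
            have h5 := (b i).sum_repr ⟨co i x, h3⟩
            rw [hc] at h5
            have h6 := congrArg (Submodule.subtype (Lv i)) h5
            rw [map_sum] at h6
            exact h6.symm
          have h5 : x - ∑ a, c a • lift i a ∈ Submodule.span k (Set.range w) := by
            apply ih
            intro j hj
            rw [map_sub, map_sum]
            rcases hj.eq_or_lt with h | h
            · have h6 : j = i := Fin.ext h.symm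
              rw [h6, h4, sub_eq_zero]
              refine Finset.sum_congr rfl fun a _ => ?_
              rw [map_smul, hl2]
            · rw [hx j h, zero_sub, neg_eq_zero]
              refine Finset.sum_eq_zero fun a _ => ?_
              rw [map_smul, hl1 i a j h, smul_zero]
          have h6 : ∑ a, c a • lift i a ∈ Submodule.span k (Set.range w) :=
            Submodule.sum_mem _ fun a _ => Submodule.smul_mem _ _
              (Submodule.subset_span ⟨⟨i, a⟩, rfl⟩)
          have h7 := Submodule.add_mem _ h5 h6
          rwa [sub_add_cancel] at h7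
        · exact ih x fun j hj => absurd j.2 (by omega)
    intro x _
    exact key (r + 1) x fun j hj => absurd j.2 (by omega)
  let B : Module.Basis ι k V := Module.Basis.mk hind hspan
  let e : ι ≃ Fin (Fintype.card ι) := Fintype.equivFin ι
  refine ⟨Fintype.card ι, B.reindex e, fun l => (e.symm l).1, ?_, ?_, ?_⟩
  · intro l j hj
    rw [Module.Basis.reindex_apply]
    have h3 : B (e.symm l) = w (e.symm l) := Module.Basis.mk_apply hind hspan _
    rw [h3]
    exact hl1 _ _ j hj
  · intro i
    have h3 : LinearIndependent k fun a => (b i a : X) :=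
      (b i).linearIndependent.map' (Submodule.subtype (Lv i)) (Submodule.ker_subtype _)
    have hval : ∀ l : {l // (e.symm l).1 = i}, ∃ a, e.symm l = ⟨i, a⟩ := by
      rintro ⟨l, hl⟩
      subst hl
      exact ⟨_, rfl⟩
    choose s hs using hval
    have hsinj : Function.Injective s := by
      intro l l' h
      have h4 := hs l
      rw [h, ← hs l'] at h4
      exact Subtype.ext (e.symm.injective h4)
    have h4 := h3.comp s hsinj
    convert h4 using 1
    funext l
    show co (e.symm l).1 (B.reindex e l) = (b i (s l) : X)
    rw [Module.Basis.reindex_apply, show B (e.symm l) = w (e.symm l) from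
      Module.Basis.mk_apply hind hspan _, hs l]
    exact hl2 i (s l)
  · intro i
    apply le_antisymm
    · rw [Submodule.span_le]
      rintro _ ⟨⟨l, hl⟩, rfl⟩
      subst hl
      show co (e.symm l).1 (B.reindex e l) ∈ Lv (e.symm l).1
      rw [Module.Basis.reindex_apply, show B (e.symm l) = w (e.symm l) from
        Module.Basis.mk_apply hind hspan _, show co (e.symm l).1 (w (e.symm l)) = _ from
        hl2 _ _]
      exact (b _ _).2
    · intro f hf
      have h3 := (b i).sum_repr ⟨f, hf⟩
      have h4 := congrArg (Submodule.subtype (Lv i)) h3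
      rw [map_sum] at h4
      rw [show f = _ from h4.symm]
      refine Submodule.sum_mem _ fun a _ => ?_
      rw [map_smul]
      refine Submodule.smul_mem _ _ (Submodule.subset_span ⟨⟨e ⟨i, a⟩, ?_⟩, ?_⟩)
      · show (e.symm (e ⟨i, a⟩)).1 = i
        rw [Equiv.symm_apply_apply]
      · show co (e.symm (e ⟨i, a⟩)).1 (B.reindex e (e ⟨i, a⟩)) = _
        rw [Module.Basis.reindex_apply, Equiv.symm_apply_apply,
          show B ⟨i, a⟩ = w ⟨i, a⟩ from Module.Basis.mk_apply hind hspan _]
        exact hl2 i a

end

end Pool.Agent.MPd118f9
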