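import Pool.Agent.Lib.MP_d118f9_ag_G.WFlC

/-!
# MP_d118f9_ag, covers of any degree: lifts of the leading coefficients
-/

set_option autoImplicit false

noncomputable section

open Classical

namespace Pool.Agent.MPd118f9

variable {k F K : Type} [Field k] [IsAlgClosed k] [CharZero k] [Field F] [Field K] [Algebra k F]
  [Algebra k K] [Algebra F K] [IsScalarTower k F K] [FiniteDimensional F K]

variable {W : Dv k F} {WK : Dv k K} {B : Dv k F} {r : ℕ} {u : Module.Basis (Fin (r + 1)) F K}

/-- Every `f ∈ L(κ i)` is the leading coefficient of an element of `L(WK)`. -/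
theorem fl_exists_lift (hF : IsCurve k F) (hK : IsCurve k K) (h : IsRel W WK)
    (hu : FlagU W WK B u) (hB : 2 * (genus k F : ℤ) - 2 < deg B) {κ : Fin (r + 1) → Dv k F}
    (hκ : ∀ (i : Fin (r + 1)) (Q : Pt k F) (f : F),
      (∃ x, LeQ Q WK x ∧ (∀ j, i < j → u.repr x j = 0) ∧ u.repr x i = f) ↔
        LeOrd Q (-κ i Q) f) (h0 : κ 0 = W) (i : Fin (r + 1)) {f : F} (hf : f ∈ L (κ i)) :
    ∃ v ∈ L WK, (∀ j, i < j → u.repr v j = 0) ∧ u.repr v i = f := by
  have hfQ : ∀ Q : Pt k F, LeOrd Q (-κ i Q) f := by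
    intro Q
    by_cases hf0 : f = 0
    · exact Or.inl hf0
    · exact Or.inr ((mem_L_of_ne hf0).1 hf Q)
  have hfu : ∀ j, u.repr (f • u i) j = if j = i then f else 0 := by
    intro j
    rw [map_smul, Module.Basis.repr_self, Finsupp.smul_apply, Finsupp.single_apply, smul_eq_mul]
    by_cases hj : i = j
    · rw [if_pos hj, if_pos hj.symm, mul_one]
    · rw [if_neg hj, if_neg (Ne.symm hj), mul_zero]
  by_cases hi : i = 0
  · subst hi
    refine ⟨f • u 0, ?_, fun j hj => ?_, ?_⟩
    · refine fl_mem_of_leQ (F := F) fun Q => ?_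
      rw [hu.one, Algebra.smul_def, mul_one]
      refine fl_leQ_algebraMap hK h ?_
      have h1 := hfQ Q
      rwa [h0] at h1
    · rw [hfu, if_neg hj.ne']
    · rw [hfu, if_pos rfl]
  have hloc : ∀ Q : Pt k F, ∃ x, LeQ Q WK x ∧ (∀ j, i < j → u.repr x j = 0) ∧
      u.repr x i = f ∧ u.repr x 0 = 0 ∧ (LeOrd Q 0 f → x = f • u i) := by
    intro Q
    by_cases hfi : LeOrd Q 0 f
    · refine ⟨f • u i, hu.leQ hK hi (hfi.mono ?_), fun j hj => ?_, ?_, ?_, fun _ => rfl⟩
      · have := hu.nonneg Q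
        rw [Finsupp.zero_apply] at this
        linarith
      · rw [hfu, if_neg hj.ne']
      · rw [hfu, if_pos rfl]
      · rw [hfu, if_neg (Ne.symm hi)]
    · obtain ⟨x, hx1, hx2, hx3⟩ := (hκ i Q f).2 (hfQ Q)
      have h1 : LeQ Q WK (u.repr x 0 • u 0) := by
        rw [hu.one, Algebra.smul_def, mul_one]
        exact fl_leQ_algebraMap hK h (hu.leOrd_zero h hx1)
      have h2 : ∀ j, u.repr (x - u.repr x 0 • u 0) j =
          u.repr x j - if j = 0 then u.repr x 0 else 0 := by
        intro j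
        rw [map_sub, Finsupp.sub_apply, map_smul, Module.Basis.repr_self, Finsupp.smul_apply,
          Finsupp.single_apply, smul_eq_mul]
        by_cases hj : 0 = j
        · rw [if_pos hj, if_pos hj.symm, mul_one]
        · rw [if_neg hj, if_neg (Ne.symm hj), mul_zero]
      refine ⟨x - u.repr x 0 • u 0, hx1.fl_sub h1, fun j hj => ?_, ?_, ?_,
        fun h => absurd h hfi⟩
      · rw [h2, hx2 j hj, if_neg, sub_zero]
        rintro rfl
        exact absurd hj (Fin.not_lt_zero i)
      · rw [h2, if_neg hi, sub_zero, hx3]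
      · rw [h2, if_pos rfl, sub_self]
  choose x hx1 hx2 hx3 hx4 hx5 using hloc
  have hfin : {Q : Pt k F | ¬ LeOrd Q 0 f}.Finite := by
    by_cases hf0 : f = 0
    · convert Set.finite_empty
      ext Q
      simp only [Set.mem_ofPred_eq, Set.mem_empty_iff_false, iff_false, not_not]
      exact Or.inl hf0
    · refine (hF.finite_ord hf0).subset ?_
      intro Q hQ hQ'
      exact hQ (Or.inr hQ'.ge)
  have happ : ∀ j : Fin (r + 1), ∃ y : F, j ≠ i → ∀ Q : Pt k F,
      LeOrd Q (-B Q) (u.repr (x Q) j - y) := by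
    intro j
    by_cases hj : j = i
    · exact ⟨0, fun h => absurd hj h⟩
    obtain ⟨y, hy⟩ := exists_approx_of_deg hF h.canF hB (α := fun Q => u.repr (x Q) j)
      (hfin.subset fun Q hQ hQ' => hQ (by
        show u.repr (x Q) j = 0
        rw [hx5 Q hQ', hfu, if_neg hj]))
    exact ⟨y, fun _ => hy⟩
  choose y hy using happ
  let c : Fin (r + 1) → F := fun j => if j = i then f else if j ≠ 0 ∧ j < i then y j else 0
  have hc : ∀ j, u.repr (∑ j, c j • u j) j = c j := fun j => by rw [u.repr_sum_self]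
  refine ⟨∑ j, c j • u j, ?_, fun j hj => ?_, ?_⟩
  · refine fl_mem_of_leQ (F := F) fun Q => ?_
    have h1 : ∑ j, c j • u j = x Q - ∑ j, (u.repr (x Q) j - c j) • u j := by
      simp only [sub_smul, Finset.sum_sub_distrib]
      rw [u.sum_repr, sub_sub_cancel]
    rw [h1]
    refine (hx1 Q).fl_sub (LeQ.fl_sum fun j _ => ?_)
    by_cases hji : j = i
    · have h2 : c j = f := if_pos hji
      rw [h2, hji, hx3, sub_self, zero_smul]
      exact LeQ.fl_zero
    by_cases hj0 : j = 0
    · have h2 : c j = 0 := by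
        show (if j = i then f else if j ≠ 0 ∧ j < i then y j else 0) = 0
        rw [if_neg hji, if_neg fun h => h.1 hj0]
      rw [h2, hj0, hx4, sub_self, zero_smul]
      exact LeQ.fl_zero
    by_cases hlt : j < i
    · have h2 : c j = y j := by
        show (if j = i then f else if j ≠ 0 ∧ j < i then y j else 0) = y j
        rw [if_neg hji, if_pos ⟨hj0, hlt⟩]
      rw [h2]
      exact hu.leQ hK hj0 (hy j hji Q)
    · have hlt' : i < j := lt_of_le_of_ne (not_lt.1 hlt) (Ne.symm hji)
      have h2 : c j = 0 := by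
        show (if j = i then f else if j ≠ 0 ∧ j < i then y j else 0) = 0
        rw [if_neg hji, if_neg fun h => hlt h.2]
      rw [h2, hx2 Q j hlt', sub_self, zero_smul]
      exact LeQ.fl_zero
  · rw [hc]
    show (if j = i then f else if j ≠ 0 ∧ j < i then y j else 0) = 0
    rw [if_neg hj.ne', if_neg fun h => absurd h.2 (not_lt.2 hj.le)]
  · rw [hc]
    exact if_pos rfl

/-- Local elimination: the elements of `K_Q(WK)` are combinations of elements whose leading
coefficients have minimal order. -/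
theorem fl_elim {κ : Fin (r + 1) → Dv k F}
    (hκ : ∀ (i : Fin (r + 1)) (Q : Pt k F) (f : F),
      (∃ x, LeQ Q WK x ∧ (∀ j, i < j → u.repr x j = 0) ∧ u.repr x i = f) ↔
        LeOrd Q (-κ i Q) f) {Q : Pt k F} {v : Fin (r + 1) → K} (hv : ∀ i, LeQ Q WK (v i))
    (hv1 : ∀ i j, i < j → u.repr (v i) j = 0) (hv2 : ∀ i, u.repr (v i) i ≠ 0)
    (hv3 : ∀ i, Q.ord (u.repr (v i) i) = -κ i Q) (n : ℕ) (hn : n ≤ r + 1) {x : K}
    (hx : LeQ Q WK x) (hxn : ∀ j : Fin (r + 1), n ≤ (j : ℕ) → u.repr x j = 0) :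
    ∃ a : Fin (r + 1) → F, (∀ i, LeOrd Q 0 (a i)) ∧ x = ∑ i, a i • v i ∧
      ∀ j : Fin (r + 1), n ≤ (j : ℕ) → a j = 0 := by
  induction n generalizing x with
  | zero =>
    refine ⟨fun _ => 0, fun _ => LeOrd.zero _ _, ?_, fun _ _ => rfl⟩
    have h1 : x = 0 := by
      rw [← u.sum_repr x]
      exact Finset.sum_eq_zero fun i _ => by rw [hxn i (Nat.zero_le _), zero_smul]
    rw [h1]
    simp
  | succ n ih =>
    let i : Fin (r + 1) := ⟨n, hn⟩
    have h1 : LeOrd Q (-κ i Q) (u.repr x i) := (hκ i Q _).1 ⟨x, hx, fun j hj => hxn j hj, rfl⟩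
    let b : F := u.repr x i / u.repr (v i) i
    have hb : LeOrd Q 0 b := by
      by_cases h0 : u.repr x i = 0
      · refine Or.inl ?_
        show u.repr x i / u.repr (v i) i = 0
        rw [h0, zero_div]
      refine Or.inr ?_
      show 0 ≤ Q.ord (u.repr x i / u.repr (v i) i)
      rw [div_eq_mul_inv, Q.ord_mul h0 (inv_ne_zero (hv2 i)), Q.ord_inv, hv3]
      have h2 := h1.resolve_left h0
      linarith
    have hx' : LeQ Q WK (x - b • v i) := hx.fl_sub (LeQ.fl_smul hb (hv i))
    obtain ⟨a, ha1, ha2, ha3⟩ := ih (by omega) hx' fun j hj => by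
      rw [map_sub, Finsupp.sub_apply, map_smul, Finsupp.smul_apply, smul_eq_mul]
      rcases hj.eq_or_lt with h2 | h2
      · have h3 : j = i := Fin.ext h2.symm
        rw [h3, show b = u.repr x i / u.repr (v i) i from rfl, div_mul_cancel₀ _ (hv2 i),
          sub_self]
      · rw [hxn j h2, hv1 i j h2, mul_zero, sub_zero]
    refine ⟨fun j => a j + if j = i then b else 0, fun j => ?_, ?_, fun j hj => ?_⟩
    · refine (ha1 j).add ?_
      split_ifs
      · exact hb
      · exact LeOrd.zero _ _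
    · simp only [add_smul, Finset.sum_add_distrib, ite_smul, zero_smul, Finset.sum_ite_eq',
        Finset.mem_univ, if_true]
      rw [← ha2, sub_add_cancel]
    · have h2 : j ≠ i := by
        rintro rfl
        exact absurd hj (by
          show ¬ n + 1 ≤ n
          omega)
      show a j + (if j = i then b else 0) = 0
      rw [if_neg h2, add_zero]
      exact ha3 j (by omega)

end Pool.Agent.MPd118f9
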