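import Pool.Agent.Lib.MP_d118f9_ag_G.P2
import Pool.Agent.Lib.MP_d118f9_ag_G.P3
import Pool.Agent.Lib.MP_d118f9_ag_G.WFlA
import Pool.Agent.Lib.MP_d118f9_ag_G.WFlD

/-!
# MP_d118f9_ag, covers of any degree: the flag
-/

set_option autoImplicit false

noncomputable section

open Classical

namespace Pool.Agent.MPd118f9

variable {k F K : Type} [Field k] [IsAlgClosed k] [CharZero k] [Field F] [Field K] [Algebra k F]
  [Algebra k K] [Algebra F K] [IsScalarTower k F K] [FiniteDimensional F K]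

/-- The basis `1, u_1, …, u_r`. -/
private theorem exists_flagU (hF : IsCurve k F) (hK : IsCurve k K) {W : Dv k F}
    {WK : Dv k K} (h : IsRel W WK) {Ψ : ℤ} (hP : Prim k F K Ψ) {B : Dv k F} (hB0 : 0 ≤ B)
    (hB : deg B + 1 ≤ Ψ) {r : ℕ} (hr : Module.finrank F K = r + 1) :
    ∃ u : Module.Basis (Fin (r + 1)) F K, FlagU W WK B u := by
  have hCF : CharZero F := charZero_of_injective_algebraMap (algebraMap k F).injective
  obtain ⟨u', hu1, hu2⟩ := exists_indep hF hK h hP hB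
  have hr' : r = Module.finrank F K - 1 := by omega
  let u'' : Fin r → K := fun i => u' (Fin.cast hr' i)
  have hli : LinearIndependent F u'' := hu1.comp _ (Fin.cast_injective hr')
  have htr : ∀ i, Algebra.trace F K (u'' i) = 0 := fun i => (hu2 _).2
  have h1 : (1 : K) ∉ Submodule.span F (Set.range u'') := by
    intro hmem
    have h2 : Submodule.span F (Set.range u'') ≤ LinearMap.ker (Algebra.trace F K) := by
      rw [Submodule.span_le]
      rintro _ ⟨i, rfl⟩
      exact htr i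
    have h3 : Algebra.trace F K (1 : K) = 0 := h2 hmem
    rw [← map_one (algebraMap F K), Algebra.trace_algebraMap, hr, nsmul_eq_mul, mul_one] at h3
    exact absurd h3 (Nat.cast_ne_zero.2 (Nat.succ_ne_zero r))
  have hcons : LinearIndependent F (Fin.cons 1 u'' : Fin (r + 1) → K) :=
    linearIndependent_finCons.2 ⟨hli, h1⟩
  let u : Module.Basis (Fin (r + 1)) F K :=
    basisOfLinearIndependentOfCardEqFinrank hcons (by rw [Fintype.card_fin, hr])
  have hu : ∀ i, u i = (Fin.cons 1 u'' : Fin (r + 1) → K) i := fun i => by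
    show (basisOfLinearIndependentOfCardEqFinrank hcons _) i = _
    rw [coe_basisOfLinearIndependentOfCardEqFinrank]
  refine ⟨u, ?_, ?_, ?_, hB0⟩
  · rw [hu]
    rfl
  · intro i hi
    obtain ⟨j, rfl⟩ := Fin.exists_succ_eq.2 hi
    rw [hu, Fin.cons_succ]
    exact htr j
  · intro i hi
    obtain ⟨j, rfl⟩ := Fin.exists_succ_eq.2 hi
    rw [hu, Fin.cons_succ]
    have h2 := (hu2 (Fin.cast hr' j)).1
    have h3 : WK + pull K (-B) = WK - pull K B := by
      ext P
      rw [Finsupp.add_apply, Finsupp.sub_apply, pull_apply hK, pull_apply hK, Finsupp.neg_apply]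
      ring
    rw [h3] at h2
    exact h2

/-- FLAG. -/
theorem exists_flag (hF : IsCurve k F) (hK : IsCurve k K) (hg : 1 ≤ genus k F) {W : Dv k F}
    {WK : Dv k K} (h : IsRel W WK) {Ψ N₁ : ℤ} (hP : Prim k F K Ψ) (hN : N₁ + 2 ≤ Ψ)
    (hh : 2 * (genus k F : ℤ) + 2 ≤ N₁) {r : ℕ} (hr : Module.finrank F K = r + 1)
    (hr1 : 1 ≤ r) :
    ∃ (u : Module.Basis (Fin (r + 1)) F K) (g : ℕ) (v : Module.Basis (Fin g) k (L WK))
      (lev : Fin g → Fin (r + 1)) (κ : Fin (r + 1) → Dv k F),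
      IsFlag W WK u (fun l => (v l : K)) lev κ ∧ ∀ i, i ≠ 0 → N₁ ≤ deg (κ i) := by
  obtain ⟨P₀⟩ := nonempty_pt hF
  have hgz : (1 : ℤ) ≤ genus k F := by exact_mod_cast hg
  have hB0 : (0 : Dv k F) ≤ Finsupp.single P₀ (Ψ - 1) := Finsupp.single_nonneg.2 (by linarith)
  have hBd : deg (Finsupp.single P₀ (Ψ - 1) : Dv k F) = Ψ - 1 := deg_single _ _
  generalize (Finsupp.single P₀ (Ψ - 1) : Dv k F) = B at hB0 hBd
  obtain ⟨u, hu⟩ := exists_flagU hF hK h hP hB0 (by rw [hBd]; linarith) hr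
  obtain ⟨κ, hκ0, hκB, hκ⟩ := exists_kappa hK h hu
  have hdeg : ∀ i, i ≠ 0 → N₁ ≤ deg (κ i) := by
    intro i hi
    have h1 := deg_mono (hκB i hi)
    rw [hBd] at h1
    linarith
  have := hK.finDim WK
  let co : Fin (r + 1) → L WK →ₗ[k] F := fun i =>
    ((u.coord i).restrictScalars k).comp (L WK).subtype
  have hco : ∀ i (x : L WK), co i x = u.repr (x : K) i := fun _ _ => rfl
  obtain ⟨g, v, lev, h1, h2, h3⟩ := exists_flag_basis co
    (by
      intro x hx
      apply Subtype.ext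
      rw [← u.sum_repr (x : K)]
      exact Finset.sum_eq_zero fun i _ => by rw [← hco, hx i, zero_smul])
    (fun i => L (κ i)) (fun i => hF.finDim (κ i))
    (by
      intro i x hx
      rw [hco, ← inA_const]
      exact fun Q => (hκ i Q _).1 ⟨x, fl_leQ_of_mem x.2, hx, rfl⟩)
    (by
      intro i f hf
      obtain ⟨w, hw, hw1, hw2⟩ := fl_exists_lift hF hK h hu (by rw [hBd]; linarith) hκ hκ0 i hf
      exact ⟨⟨w, hw⟩, hw1, hw2⟩)
  refine ⟨u, g, v, lev, κ, ⟨h1, ⟨hκ0, h2, h3⟩, ?_⟩, hdeg⟩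
  intro Q
  have hidx : ∀ i, ∃ l, lev l = i ∧ u.repr (v l : K) i ≠ 0 ∧
      Q.ord (u.repr (v l : K) i) = -κ i Q := by
    intro i
    obtain ⟨⟨l, hl⟩, h4, h5⟩ := exists_ord_eq_of_span (P := Q) (h3 i) (by
      by_cases hi : i = 0
      · rw [hi, hκ0]
        exact exists_not_mem_can hF hg h.canF Q
      · exact exists_not_mem_sub hF Q (by
          have := hdeg i hi
          linarith))
    subst hl
    exact ⟨l, rfl, h4, h5⟩
  choose idx hi1 hi2 hi3 using hidx
  refine ⟨idx, hi1, fun x hx => ?_⟩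
  have hex : ∃ n : ℕ, ∀ j : Fin (r + 1), n ≤ (j : ℕ) → u.repr x j = 0 :=
    ⟨r + 1, fun j hj => absurd j.2 (by omega)⟩
  obtain ⟨a, ha1, ha2, ha3⟩ := fl_elim (v := fun i => (v (idx i) : K)) hκ
    (fun i => fl_leQ_of_mem (v (idx i)).2) (fun i j hj => h1 (idx i) j (by rwa [hi1])) hi2 hi3
    (Nat.find hex) (Nat.find_min' hex fun j hj => absurd j.2 (by omega)) hx (Nat.find_spec hex)
  refine ⟨a, ha1, ha2, fun i hi j hj => ha3 j ?_⟩
  have h4 : Nat.find hex ≤ (i : ℕ) + 1 := Nat.find_min' hex fun j' hj' => hi j' hj'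
  exact h4.trans hj

end Pool.Agent.MPd118f9
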