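import Pool.Agent.Lib.MP_d118f9_ag_G.TDegTr

/-!
# MP_d118f9_ag, covers of any degree: the degree of a pull back (T5)
-/

set_option autoImplicit false

noncomputable section

open Classical

namespace Pool.Agent.MPd118f9

variable {k F K : Type} [Field k] [IsAlgClosed k] [CharZero k] [Field F] [Field K] [Algebra k F]
  [Algebra k K] [Algebra F K] [IsScalarTower k F K] [FiniteDimensional F K]

private theorem tdeg_lin {p q a b : ℤ} {n₀ : ℕ}
    (h : ∀ n : ℕ, n₀ ≤ n → (n : ℤ) * p + a ≤ n * q + b) : p ≤ q := by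
  by_contra hc
  push Not at hc
  have h1 := h (n₀ + (b - a).toNat + 1) (by omega)
  have h2 : b - a ≤ ((b - a).toNat : ℤ) := Int.self_le_toNat _
  have h3 : (0 : ℤ) ≤ ((n₀ + (b - a).toNat + 1 : ℕ) : ℤ) := Int.natCast_nonneg _
  have h4 : ((n₀ + (b - a).toNat + 1 : ℕ) : ℤ) = n₀ + ((b - a).toNat : ℤ) + 1 := by push_cast; ring
  have h5 : (0 : ℤ) ≤ (n₀ : ℤ) := Int.natCast_nonneg _
  nlinarith

/-- Every function of `K` is a section of the pull back of some divisor. -/
private theorem tdeg_one (hK : IsCurve k K) (x : K) :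
    ∃ C : Dv k F, 0 ≤ C ∧ x ∈ L (pull K C) := by
  by_cases hx : x = 0
  · exact ⟨0, le_rfl, Or.inl hx⟩
  let S : Finset (Pt k K) := (hK.finite_ord hx).toFinset
  have hS : ∀ P : Pt k K, P ∈ S ↔ P.ord x ≠ 0 := fun P => by
    simp only [S, Set.Finite.mem_toFinset, Set.mem_setOf_eq]
  let C : Dv k F := ∑ P ∈ S, |P.ord x| • (Finsupp.single (P.below : Pt k F) (1 : ℤ) : Dv k F)
  have hnn : ∀ (P : Pt k K) (Q : Pt k F),
      0 ≤ (|P.ord x| • (Finsupp.single (P.below : Pt k F) (1 : ℤ) : Dv k F)) Q := by
    intro P Q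
    rw [Finsupp.smul_apply, smul_eq_mul, Finsupp.single_apply]
    split_ifs
    · rw [mul_one]
      exact abs_nonneg _
    · rw [mul_zero]
  have hC : ∀ Q : Pt k F, C Q =
      ∑ P ∈ S, (|P.ord x| • (Finsupp.single (P.below : Pt k F) (1 : ℤ) : Dv k F)) Q :=
    fun Q => Finsupp.finset_sum_apply _ _ _
  have hC0 : 0 ≤ C := by
    intro Q
    rw [hC]
    exact Finset.sum_nonneg fun P _ => hnn P Q
  refine ⟨C, hC0, Or.inr fun P => ?_⟩
  rw [pull_apply hK]
  have h0 : (1 : ℤ) ≤ P.ram F := by exact_mod_cast P.ram_pos F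
  have h00 : 0 ≤ C P.below := hC0 P.below
  by_cases hP : P.ord x = 0
  · rw [hP]
    have h1 : 0 ≤ (P.ram F : ℤ) * C P.below := mul_nonneg (by linarith) h00
    linarith
  · have h1 : (|P.ord x| • (Finsupp.single (P.below : Pt k F) (1 : ℤ) : Dv k F)) P.below ≤
        C P.below := by
      rw [hC]
      exact Finset.single_le_sum
        (f := fun P' : Pt k K =>
          (|P'.ord x| • (Finsupp.single (P'.below : Pt k F) (1 : ℤ) : Dv k F)) P.below)
        (fun P' _ => hnn P' _) ((hS P).2 hP)
    rw [Finsupp.smul_apply, smul_eq_mul, Finsupp.single_eq_same, mul_one] at h1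
    have h2 : C P.below ≤ (P.ram F : ℤ) * C P.below := by nlinarith
    have h3 := neg_abs_le (P.ord x)
    linarith

private theorem tdeg_all (hK : IsCurve k K) {m : ℕ} (u : Fin m → K) :
    ∃ C : Dv k F, 0 ≤ C ∧ ∀ i, u i ∈ L (pull K C) := by
  choose C hC0 hC using fun i => tdeg_one (F := F) hK (u i)
  refine ⟨∑ i, C i, Finset.sum_nonneg fun i _ => hC0 i, fun i => ?_⟩
  exact L_mono (pull_mono hK (Finset.single_le_sum (fun i _ => hC0 i) (Finset.mem_univ i))) (hC i)

private theorem tdeg_A (hF : IsCurve k F) (hK : IsCurve k K) {m : ℕ}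
    (u : Module.Basis (Fin m) F K) {C : Dv k F}
    (hC : ∀ i, u i ∈ L (pull K C)) (D : Dv k F) :
    m * ell D ≤ ell (pull K (D + C)) := by
  have h4 := hF.finDim D
  let φ : (Fin m → L D) →ₗ[k] L (pull K (D + C)) :=
    { toFun := fun f => ⟨∑ i, algebraMap F K (f i) * u i, by
        refine Submodule.sum_mem _ fun i _ => ?_
        rw [pull_add hK]
        exact mul_mem_L ((map_mem_pull hK).2 (f i).2) (hC i)⟩
      map_add' := by
        intro f g
        apply Subtype.ext
        simp only [Pi.add_apply, Submodule.coe_add, map_add, add_mul, Finset.sum_add_distrib]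
      map_smul' := by
        intro c f
        apply Subtype.ext
        simp only [Pi.smul_apply, Submodule.coe_smul, RingHom.id_apply, Algebra.smul_def, map_mul,
          ← IsScalarTower.algebraMap_apply k F K, Finset.mul_sum, mul_assoc] }
  have hφ : ∀ f, ((φ f : L (pull K (D + C))) : K) = ∑ i, algebraMap F K (f i) * u i :=
    fun _ => rfl
  have hinj : Function.Injective φ := by
    rw [injective_iff_map_eq_zero]
    intro f hf
    have h1 : ∑ i, algebraMap F K (f i) * u i = 0 := by
      rw [← hφ, hf]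
      rfl
    have h2 : ∑ i, (f i : F) • u i = 0 := by
      rw [← h1]
      exact Finset.sum_congr rfl fun i _ => Algebra.smul_def _ _
    have h3 := Fintype.linearIndependent_iff.1 u.linearIndependent (fun i => (f i : F)) h2
    funext i
    exact Subtype.ext (h3 i)
  have h2 := hK.finDim (pull K (D + C))
  have h3 := LinearMap.finrank_le_finrank_of_injective hinj
  rw [Module.finrank_pi_fintype, Finset.sum_const, Finset.card_univ, Fintype.card_fin,
    smul_eq_mul] at h3
  exact h3

private theorem tdeg_B (hF : IsCurve k F) (hK : IsCurve k K) {m : ℕ}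
    (u : Module.Basis (Fin m) F K) {C : Dv k F}
    (hC : ∀ i, u i ∈ L (pull K C)) (D : Dv k F) :
    ell (pull K D) ≤ m * ell (D + C) := by
  have : CharZero F := charZero_of_injective_algebraMap (algebraMap k F).injective
  let ψ : L (pull K D) →ₗ[k] (Fin m → L (D + C)) :=
    { toFun := fun x i => ⟨Algebra.trace F K (x * u i), by
        refine trace_mem_of_pull hK ?_
        rw [pull_add hK]
        exact mul_mem_L x.2 (hC i)⟩
      map_add' := by
        intro x y
        funext i
        apply Subtype.ext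
        simp only [Submodule.coe_add, add_mul, map_add, Pi.add_apply]
      map_smul' := by
        intro c x
        funext i
        apply Subtype.ext
        simp only [Submodule.coe_smul, RingHom.id_apply, Pi.smul_apply, smul_mul_assoc,
          LinearMap.map_smul_of_tower] }
  have hψ : ∀ x i, ((ψ x i : L (D + C)) : F) = Algebra.trace F K (x * u i) := fun _ _ => rfl
  have hinj : Function.Injective ψ := by
    rw [injective_iff_map_eq_zero]
    intro x hx
    by_contra hx0
    have hx0' : (x : K) ≠ 0 := fun h => hx0 (Subtype.ext h)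
    have h1 : ∀ i, Algebra.trace F K (x * u i) = 0 := by
      intro i
      rw [← hψ, hx]
      rfl
    have h2 : ∀ y : K, Algebra.trace F K (x * y) = 0 := by
      intro y
      rw [← u.sum_repr y, Finset.mul_sum, map_sum]
      refine Finset.sum_eq_zero fun i _ => ?_
      rw [mul_smul_comm, map_smul, h1, smul_zero]
    have h3 := h2 (x : K)⁻¹
    rw [mul_inv_cancel₀ hx0', ← map_one (algebraMap F K), Algebra.trace_algebraMap, nsmul_eq_mul,
      mul_one] at h3
    have h4 : Module.finrank F K = 0 := by exact_mod_cast h3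
    exact Module.finrank_pos.ne' h4
  have h1 := hF.finDim (D + C)
  have h3 := LinearMap.finrank_le_finrank_of_injective hinj
  rw [Module.finrank_pi_fintype, Finset.sum_const, Finset.card_univ, Fintype.card_fin,
    smul_eq_mul] at h3
  exact h3

private theorem tdeg_single (hF : IsCurve k F) (hK : IsCurve k K) (Q : Pt k F) :
    deg (pull K (Finsupp.single Q 1)) = Module.finrank F K := by
  obtain ⟨c₀, h0⟩ := hF.riemann
  obtain ⟨c₁, h1⟩ := hK.riemann
  obtain ⟨C, hC0, hC⟩ := tdeg_all (F := F) hK (Module.finBasis F K)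
  have hd := deg_pull_single_pos hK Q
  have hm : 0 < Module.finrank F K := Module.finrank_pos
  set d := deg (pull K (Finsupp.single Q 1)) with hd'
  set m := Module.finrank F K with hm'
  have hdC : 0 ≤ deg C := by
    have h2 := deg_mono hC0
    rwa [deg_zero] at h2
  have hdP : 0 ≤ deg (pull K C) := by
    have h3 : (0 : Dv k K) ≤ pull K C := by
      intro P
      rw [pull_apply hK]
      exact mul_nonneg (Int.natCast_nonneg _) (hC0 _)
    have h2 := deg_mono h3
    rwa [deg_zero] at h2
  have e0 : ∀ n : ℕ, deg (n • (Finsupp.single Q 1 : Dv k F)) = n := by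
    intro n
    rw [deg_nsmul, deg_single, mul_one]
  have e1 : ∀ n : ℕ, deg (pull K (n • (Finsupp.single Q 1 : Dv k F))) = n * d := by
    intro n
    rw [pull_nsmul hK, deg_nsmul]
  have e2 : ∀ n : ℕ, (n : ℤ) ≤ n * d := by
    intro n
    have : (n : ℤ) * 1 ≤ n * d := mul_le_mul_of_nonneg_left (by omega) (Int.natCast_nonneg n)
    linarith
  have hle1 : (m : ℤ) ≤ d := by
    refine tdeg_lin (a := m * (1 - genus k F)) (b := deg (pull K C) + 1 - genus k K)
      (n₀ := (|c₀| + |c₁|).toNat) fun n hn => ?_
    have a1 := le_abs_self c₀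
    have a2 := le_abs_self c₁
    have b1 := abs_nonneg c₀
    have b2 := abs_nonneg c₁
    have hn1 : |c₀| + |c₁| ≤ n := by omega
    have f1 := tdeg_A hF hK (Module.finBasis F K) hC (n • (Finsupp.single Q 1 : Dv k F))
    have f2 := h0 (n • (Finsupp.single Q 1 : Dv k F)) (by rw [e0]; omega)
    have f3 := h1 (pull K (n • (Finsupp.single Q 1 : Dv k F) + C)) (by
      rw [pull_add hK, deg_add, e1]
      have := e2 n
      omega)
    have f4 : (m : ℤ) * ell (n • (Finsupp.single Q 1 : Dv k F)) ≤
        ell (pull K (n • (Finsupp.single Q 1 : Dv k F) + C)) := by exact_mod_cast f1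
    rw [f2, f3, pull_add hK, deg_add, e1, e0] at f4
    linarith
  have hle2 : d ≤ (m : ℤ) := by
    refine tdeg_lin (a := 1 - genus k K) (b := m * (deg C + 1 - genus k F))
      (n₀ := (|c₀| + |c₁|).toNat) fun n hn => ?_
    have a1 := le_abs_self c₀
    have a2 := le_abs_self c₁
    have b1 := abs_nonneg c₀
    have b2 := abs_nonneg c₁
    have hn1 : |c₀| + |c₁| ≤ n := by omega
    have f1 := tdeg_B hF hK (Module.finBasis F K) hC (n • (Finsupp.single Q 1 : Dv k F))
    have f2 := h0 (n • (Finsupp.single Q 1 : Dv k F) + C) (by rw [deg_add, e0]; omega)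
    have f3 := h1 (pull K (n • (Finsupp.single Q 1 : Dv k F))) (by
      rw [e1]
      have := e2 n
      omega)
    have f4 : (ell (pull K (n • (Finsupp.single Q 1 : Dv k F))) : ℤ) ≤
        m * ell (n • (Finsupp.single Q 1 : Dv k F) + C) := by exact_mod_cast f1
    rw [f2, f3, deg_add, e1, e0] at f4
    linarith
  omega

/-- T5. -/
theorem deg_pull_cov (hF : IsCurve k F) (hK : IsCurve k K) (D : Dv k F) :
    deg (pull K D) = Module.finrank F K * deg D := by
  let φ : Dv k F →+ ℤ := AddMonoidHom.mk' (fun D => deg (pull K D) - Module.finrank F K * deg D) (by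
    intro D D'
    rw [pull_add hK, deg_add, deg_add]
    ring)
  have hφ : ∀ D, φ D = deg (pull K D) - Module.finrank F K * deg D := fun _ => rfl
  have h1 : φ = 0 := by
    refine Finsupp.addHom_ext fun Q n => ?_
    have e1 : (Finsupp.single Q n : Dv k F) = n • Finsupp.single Q 1 := by
      rw [Finsupp.smul_single, smul_eq_mul, mul_one]
    rw [e1, map_zsmul, hφ, tdeg_single hF hK Q, deg_single]
    simp
  have h2 := hφ D
  rw [h1] at h2
  have h3 : (0 : Dv k F →+ ℤ) D = 0 := rfl
  rw [h3] at h2
  linarith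

end Pool.Agent.MPd118f9
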