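import Pool.Agent.Lib.MP_d118f9_ag_G.Defs

/-!
# MP_d118f9_ag, covers of any degree: the trace and regularity (T1)
-/

set_option autoImplicit false

noncomputable section

open Classical

namespace Pool.Agent.MPd118f9

variable {k F K : Type} [Field k] [Field F] [Field K] [Algebra k F]
  [Algebra k K] [Algebra F K] [IsScalarTower k F K] [FiniteDimensional F K]

/-- The ring of the elements of `K` integral over `O` satisfies the hypotheses of
`exists_dvr_not_mem`; the traces of its elements are in `O`. -/
private theorem above_tr [CharZero F] (Q : Pt k F) :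
    ∃ R : Subalgebra k K, IsNoetherianRing R ∧ IsIntegrallyClosed R ∧
      (∀ x : K, ∃ r ∈ R, ∃ s ∈ R, s ≠ 0 ∧ x = r / s) ∧ (∀ f ∈ Q.1, algebraMap F K f ∈ R) ∧
      ∀ x ∈ R, Algebra.trace F K x ∈ Q.1 := by
  let O := Q.1
  let iO : Algebra O K := ((algebraMap F K).comp (algebraMap O F)).toAlgebra
  have hO : ∀ x : O, algebraMap O K x = algebraMap F K (x : F) := fun _ => rfl
  have hst : IsScalarTower O F K := IsScalarTower.of_algebraMap_eq fun _ => rfl
  have hdvr : IsDiscreteValuationRing O := Q.2.2
  have hsep : Algebra.IsSeparable F K := inferInstance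
  have hnoeth : IsNoetherianRing (integralClosure O K) :=
    IsIntegralClosure.isNoetherianRing O F K (integralClosure O K)
  have hcl : IsIntegrallyClosed (integralClosure O K) :=
    integralClosure.isIntegrallyClosedOfFiniteExtension F
  let R : Subalgebra k K :=
    { (integralClosure O K).toSubsemiring with
      algebraMap_mem' := fun c => by
        have h1 : algebraMap k F c ∈ O := Q.2.1 c
        have h2 : algebraMap k K c = algebraMap O K ⟨algebraMap k F c, h1⟩ := by
          rw [hO, IsScalarTower.algebraMap_apply k F K]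
        rw [h2]
        exact (integralClosure O K).algebraMap_mem _ }
  have hR : ∀ x : K, x ∈ R ↔ IsIntegral O x := fun x => Iff.rfl
  let e : integralClosure O K ≃+* R :=
    { toFun := fun x => ⟨x.1, x.2⟩
      invFun := fun x => ⟨x.1, x.2⟩
      left_inv := fun _ => rfl
      right_inv := fun _ => rfl
      map_mul' := fun _ _ => rfl
      map_add' := fun _ _ => rfl }
  have halg : Algebra.IsAlgebraic O K := by
    rw [IsFractionRing.comap_isAlgebraic_iff (A := O) (K := F) (C := K)]
    infer_instance
  have hinjO : Function.Injective (algebraMap O K) := by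
    rw [IsScalarTower.algebraMap_eq O F K]
    exact (algebraMap F K).injective.comp (IsFractionRing.injective O F)
  refine ⟨R, isNoetherianRing_of_ringEquiv _ e, IsIntegrallyClosed.of_equiv e, fun x => ?_,
    fun f hf => ?_, fun x hx => ?_⟩
  · obtain ⟨y, hy, hyx⟩ := (Algebra.IsAlgebraic.isAlgebraic (R := O) x).exists_integral_multiple
    have hy0 : algebraMap O K y ≠ 0 := (map_ne_zero_iff _ hinjO).2 hy
    refine ⟨y • x, hyx, algebraMap O K y, (hR _).2 isIntegral_algebraMap, hy0, ?_⟩
    rw [Algebra.smul_def, mul_div_cancel_left₀ _ hy0]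
  · rw [hR]
    exact isIntegral_algebraMap (x := (⟨f, hf⟩ : O))
  · rw [hR] at hx
    have h1 : IsIntegral O (Algebra.trace F K x) := Algebra.isIntegral_trace hx
    obtain ⟨y, hy⟩ := IsIntegrallyClosed.isIntegral_iff.1 h1
    rw [← hy]
    exact y.2

/-- T1. -/
theorem TRel_trace_int [CharZero F] (Q : Pt k F) {x : K}
    (h : ∀ P : Pt k K, P.below = Q → LeOrd P 0 x) : LeOrd Q 0 (Algebra.trace F K x) := by
  obtain ⟨R, h1, h2, h3, h4, h5⟩ := above_tr (K := K) Q
  have hx : x ∈ R := by
    by_contra hx
    obtain ⟨A, hA, hRA, hxA, -⟩ := MP9a7843.exists_dvr_not_mem R h3 hx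
    have hx0 : x ≠ 0 := by
      rintro rfl
      exact hxA (zero_mem A)
    have hb : (Pt.below (⟨A, hA⟩ : Pt k K) : Pt k F) = Q := by
      refine Pt.below_eq fun f hf hQf => ?_
      have hf' : algebraMap F K f ≠ 0 := (map_ne_zero_iff _ (algebraMap F K).injective).2 hf
      exact (hA.ord_nonneg_iff hf').2 (hRA _ (h4 f ((Q.2.ord_nonneg_iff hf).1 hQf)))
    have h6 := (h ⟨A, hA⟩ hb).resolve_left hx0
    exact hxA ((hA.ord_nonneg_iff hx0).1 h6)
  have h6 := h5 x hx
  by_cases h0 : Algebra.trace F K x = 0
  · exact Or.inl h0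
  · exact Or.inr ((Q.2.ord_nonneg_iff h0).2 h6)

end Pool.Agent.MPd118f9

namespace Pool.Agent.MPd118f9

variable {k F K : Type} [Field k] [IsAlgClosed k] [CharZero k] [Field F] [Field K] [Algebra k F]
  [Algebra k K] [Algebra F K] [IsScalarTower k F K] [FiniteDimensional F K]

/-- T1, with poles. -/
theorem TRel_trace_pull (hK : IsCurve k K) (B : Dv k F) (Q : Pt k F) {v : K}
    (h : LeQ Q (pull K B) v) : LeOrd Q (-B Q) (Algebra.trace F K v) := by
  have : CharZero F := charZero_of_injective_algebraMap (algebraMap k F).injective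
  obtain ⟨f, hf0, hf⟩ := exists_ord_eq Q (B Q)
  have h1 : LeOrd Q 0 (Algebra.trace F K (f • v)) := by
    refine TRel_trace_int Q fun P hP => ?_
    have h2 := h P hP
    rw [pull_apply hK, hP] at h2
    have h3 : LeOrd P ((P.ram F : ℤ) * B Q) (algebraMap F K f) := by
      refine Or.inr ?_
      rw [P.ord_map, hP, hf]
    have h4 := h3.mul h2
    rw [Algebra.smul_def]
    rwa [add_neg_cancel] at h4
  rw [map_smul, smul_eq_mul] at h1
  have h5 : LeOrd Q (-B Q) f⁻¹ := by
    refine Or.inr ?_
    rw [Q.ord_inv, hf]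
  have h6 := h5.mul h1
  rwa [add_zero, ← mul_assoc, inv_mul_cancel₀ hf0, one_mul] at h6

/-- Every divisor is bounded by a pull back. -/
theorem TRel_exists_le_pull (hK : IsCurve k K) (D : Dv k K) : ∃ B : Dv k F, D ≤ pull K B := by
  refine ⟨∑ P ∈ D.support, Finsupp.single (P.below : Pt k F) |D P|, fun P => ?_⟩
  rw [pull_apply hK]
  have h0 : ∀ R ∈ D.support, 0 ≤ (Finsupp.single (R.below : Pt k F) |D R| : Dv k F) P.below := by
    intro R _
    rw [Finsupp.single_apply]
    split_ifs
    · exact abs_nonneg _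
    · exact le_rfl
  have h1 : (0 : ℤ) ≤ (∑ R ∈ D.support, Finsupp.single (R.below : Pt k F) |D R| : Dv k F)
      P.below := by
    rw [Finsupp.finsetSum_apply]
    exact Finset.sum_nonneg h0
  have h2 : (1 : ℤ) ≤ P.ram F := by
    exact_mod_cast P.ram_pos F
  have h3 : D P ≤ (∑ R ∈ D.support, Finsupp.single (R.below : Pt k F) |D R| : Dv k F)
      P.below := by
    by_cases hP : P ∈ D.support
    · rw [Finsupp.finsetSum_apply]
      refine le_trans ?_ (Finset.single_le_sum h0 hP)
      rw [Finsupp.single_eq_same]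
      exact le_abs_self _
    · rw [Finsupp.notMem_support_iff.1 hP]
      exact h1
  nlinarith

end Pool.Agent.MPd118f9
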