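import Pool.Agent.Lib.MP_d118f9_ag_G.TRes
import Pool.Agent.Lib.MP_d118f9_ag_G.TDeg
import Pool.Agent.Lib.MP_d118f9_ag_G.TRel_A

/-!
# MP_d118f9_ag, covers of any degree: the canonical divisor of a cover (T3)

Let `ω` be a differential of `F` with the divisor `W`.  The functional `β ↦ ω (Tr β)` on the
repartitions of `K` that are constant on the fibres vanishes on those in `A(pull K W)`, so it
extends to a differential of `K` that vanishes on `A(pull K W)`; its divisor is `WK`.
-/

set_option autoImplicit false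

noncomputable section

open Classical

namespace Pool.Agent.MPd118f9

section One

variable {k F : Type} [Field k] [IsAlgClosed k] [CharZero k] [Field F] [Algebra k F]

/-- The divisor of a differential satisfies the theorem of Riemann and Roch. -/
private theorem rr_of_div (hF : IsCurve k F) {W : Dv k F} {ω : Ad hF →ₗ[k] k}
    (hW : ω ∈ Om hF W) (hω0 : ω ≠ 0) (hWmax : ∀ D, ω ∈ Om hF D → D ≤ W) (D : Dv k F) :
    (ell D : ℤ) = deg D + 1 - genus k F + ell (W - D) := by
  have hmap : (L (W - D)).map (mulOmL hF ω) = Om hF D := by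
    apply le_antisymm
    · rintro _ ⟨x, hx, rfl⟩
      exact mulOm_mem_of_L hF hW hx
    · intro η hη
      by_cases hη0 : η = 0
      · rw [hη0]
        exact Submodule.zero_mem _
      obtain ⟨x, hx0, hx⟩ := Om_one_dim hF hW hη hω0 hη0
      refine ⟨x, ?_, hx.symm⟩
      have h1 : ω = mulOm hF x⁻¹ η := by
        rw [hx, mulOm_mul, inv_mul_cancel₀ hx0, mulOm_one]
      have h2 := mulOm_mem hF hη (inv_ne_zero hx0)
      rw [← h1, hF.dv_inv hx0] at h2
      have h3 := hWmax _ h2
      refine (mem_L_of_ne hx0).2 fun P => ?_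
      have h4 := h3 P
      rw [Finsupp.add_apply, Finsupp.neg_apply, hF.dv_apply hx0] at h4
      rw [Finsupp.sub_apply]
      linarith
  have h1 : Module.finrank k (Om hF D) = ell (W - D) := by
    rw [← hmap]
    exact (Submodule.equivMapOfInjective _ (mulOmL_inj hF hω0) (L (W - D))).finrank_eq.symm
  have h2 := (finrank_Om hF D).2
  rw [h1] at h2
  linarith

/-- Every canonical divisor is the divisor of a differential. -/
theorem TRel_exists_div (hF : IsCurve k F) {W : Dv k F} (hW : IsCan W) :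
    ∃ ω : Ad hF →ₗ[k] k, ω ≠ 0 ∧ ω ∈ Om hF W ∧ ∀ D, ω ∈ Om hF D → D ≤ W := by
  obtain ⟨D₀, ω₀, hω, hω0⟩ := exists_Om_ne hF
  obtain ⟨W₀, hW₀, hmax⟩ := exists_div_Om hF hω hω0
  obtain ⟨f, hf0, rfl⟩ := equiv_of_rr hF (rr_of_div hF hW₀ hω0 hmax) hW
  refine ⟨mulOm hF f ω₀, fun h => ?_, mulOm_mem hF hW₀ hf0, fun D hD => ?_⟩
  · exact hf0 (mulOmL_inj hF hω0 (by rw [mulOmL_apply, h, map_zero]))
  · have h1 := mulOm_mem hF hD (inv_ne_zero hf0)
    rw [mulOm_mul, inv_mul_cancel₀ hf0, mulOm_one, hF.dv_inv hf0] at h1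
    have h2 := hmax _ h1
    intro P
    have h3 := h2 P
    rw [Finsupp.add_apply, Finsupp.neg_apply] at h3
    rw [Finsupp.add_apply]
    linarith

/-- The local residues determine the poles. -/
theorem TRel_local (hF : IsCurve k F) {W : Dv k F} {ω : Ad hF →ₗ[k] k} (hω : ω ∈ Om hF W)
    (hmax : ∀ D, ω ∈ Om hF D → D ≤ W) {Q : Pt k F} {y : F}
    (h : ∀ a : F, LeOrd Q 0 a → ω (one hF Q (a * y)) = 0) : LeOrd Q (-W Q) y := by
  by_contra hcon
  have hy0 : y ≠ 0 := by
    rintro rfl
    exact hcon (LeOrd.zero _ _)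
  have hy : Q.ord y < -W Q := by
    by_contra h1
    exact hcon (Or.inr (not_lt.1 h1))
  have h1 : ω ∈ Om hF (W + Finsupp.single Q 1) := by
    refine ⟨fun α hα => ?_, hω.2⟩
    have hβQ : ((one hF Q ((α : Pt k F → F) Q) : Ad hF) : Pt k F → F) Q =
        (α : Pt k F → F) Q := Pi.single_eq_same (M := fun _ : Pt k F => F) Q _
    have hβR : ∀ R, R ≠ Q → ((one hF Q ((α : Pt k F → F) Q) : Ad hF) : Pt k F → F) R = 0 :=
      fun R hR => Pi.single_eq_of_ne (M := fun _ : Pt k F => F) hR _
    have hβ : ω (one hF Q ((α : Pt k F → F) Q)) = 0 := by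
      have h2 : LeOrd Q 0 ((α : Pt k F → F) Q * y⁻¹) := by
        have h3 := hα Q
        rw [Finsupp.add_apply, Finsupp.single_eq_same] at h3
        have h4 : LeOrd Q (-Q.ord y) y⁻¹ := Or.inr (by rw [Q.ord_inv])
        exact (h3.mul h4).mono (by omega)
      have h3 := h _ h2
      rwa [mul_assoc, inv_mul_cancel₀ hy0, mul_one] at h3
    have hαβ : ω (α - one hF Q ((α : Pt k F → F) Q)) = 0 := by
      refine hω.1 _ fun R => ?_
      change LeOrd R (-W R) ((α : Pt k F → F) R -
        ((one hF Q ((α : Pt k F → F) Q) : Ad hF) : Pt k F → F) R)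
      by_cases hR : R = Q
      · subst hR
        rw [hβQ, sub_self]
        exact LeOrd.zero _ _
      · rw [hβR R hR, sub_zero]
        refine (hα R).mono ?_
        rw [Finsupp.add_apply, Finsupp.single_eq_of_ne hR, add_zero]
    rw [map_sub, hβ, sub_zero] at hαβ
    exact hαβ
  have h2 := hmax _ h1 Q
  rw [Finsupp.add_apply, Finsupp.single_eq_same] at h2
  omega

end One

variable {k F K : Type} [Field k] [IsAlgClosed k] [CharZero k] [Field F] [Field K] [Algebra k F]
  [Algebra k K] [Algebra F K] [IsScalarTower k F K] [FiniteDimensional F K]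

/-- The families of elements of `K` indexed by the points of `F` with bounded poles. -/
private def AQ (k F K : Type) [Field k] [IsAlgClosed k] [CharZero k] [Field F] [Field K]
    [Algebra k F] [Algebra k K] [Algebra F K] [IsScalarTower k F K] [FiniteDimensional F K]
    (hK : IsCurve k K) : Submodule k (Pt k F → K) where
  carrier := {β | ∃ B : Dv k F, ∀ Q, LeQ Q (pull K B) (β Q)}
  zero_mem' := ⟨0, fun Q P _ => LeOrd.zero _ _⟩
  add_mem' := by
    rintro β γ ⟨B, hB⟩ ⟨C, hC⟩
    refine ⟨B ⊔ C, fun Q P hP => ?_⟩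
    refine LeOrd.add ((hB Q P hP).mono ?_) ((hC Q P hP).mono ?_)
    · exact neg_le_neg (pull_mono hK le_sup_left P)
    · exact neg_le_neg (pull_mono hK le_sup_right P)
  smul_mem' := by
    rintro c β ⟨B, hB⟩
    exact ⟨B, fun Q P hP => (hB Q P hP).smul c⟩

/-- The inclusion into the repartitions of `K`. -/
private def inc (hK : IsCurve k K) : AQ k F K hK →ₗ[k] Ad hK where
  toFun β := ⟨fun P => (β : Pt k F → K) P.below, by
    obtain ⟨B, hB⟩ := β.2
    exact ⟨pull K B, fun P => hB P.below P rfl⟩⟩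
  map_add' _ _ := rfl
  map_smul' _ _ := rfl

/-- The trace. -/
private def trA (hF : IsCurve k F) (hK : IsCurve k K) : AQ k F K hK →ₗ[k] Ad hF where
  toFun β := ⟨fun Q => Algebra.trace F K ((β : Pt k F → K) Q), by
    obtain ⟨B, hB⟩ := β.2
    exact ⟨B, fun Q => TRel_trace_pull hK B Q (hB Q)⟩⟩
  map_add' β γ := Subtype.ext (funext fun Q => map_add (Algebra.trace F K) _ _)
  map_smul' c β := Subtype.ext (funext fun Q => by
    change Algebra.trace F K (c • (β : Pt k F → K) Q) = c • Algebra.trace F K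
      ((β : Pt k F → K) Q)
    rw [← IsScalarTower.algebraMap_smul F c, map_smul, IsScalarTower.algebraMap_smul])

/-- The repartitions with poles bounded by `D`. -/
private def AD (hK : IsCurve k K) (D : Dv k K) : Submodule k (Ad hK) where
  carrier := {α | InA D (α : Pt k K → K)}
  zero_mem' := InA.zero D
  add_mem' := InA.add
  smul_mem' := fun c _ h => InA.smulk c h

/-- The lift of the functional. -/
private theorem exists_lift (hF : IsCurve k F) (hK : IsCurve k K) {W : Dv k F}
    {ω : Ad hF →ₗ[k] k} (hω : ω ∈ Om hF W) :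
    ∃ η : Ad hK →ₗ[k] k, (∀ α : Ad hK, InA (pull K W) (α : Pt k K → K) → η α = 0) ∧
      ∀ β : AQ k F K hK, η (inc hK β) = ω (trA hF hK β) := by
  let f : AQ k F K hK →ₗ[k] (Ad hK ⧸ AD hK (pull K W)) := (AD hK (pull K W)).mkQ ∘ₗ inc hK
  have hker : ω ∘ₗ trA hF hK ∈ (LinearMap.ker f).dualAnnihilator := by
    rw [Submodule.mem_dualAnnihilator]
    intro β hβ
    rw [LinearMap.mem_ker] at hβ
    have h1 : inc hK β ∈ AD hK (pull K W) := by
      rwa [← Submodule.Quotient.mk_eq_zero]
    have h2 : InA (pull K W) (inc hK β : Pt k K → K) := h1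
    refine hω.1 _ fun Q => ?_
    refine TRel_trace_pull hK W Q fun P hP => ?_
    have h3 := h2 P
    rw [← hP]
    exact h3
  rw [← LinearMap.range_dualMap_eq_dualAnnihilator_ker] at hker
  obtain ⟨g, hg⟩ := hker
  refine ⟨g ∘ₗ (AD hK (pull K W)).mkQ, fun α hα => ?_, fun β => ?_⟩
  · have h1 : (AD hK (pull K W)).mkQ α = 0 := (Submodule.Quotient.mk_eq_zero _).2 hα
    rw [LinearMap.comp_apply, h1, map_zero]
  · have h1 := LinearMap.congr_fun hg β
    exact h1

/-- T3. -/
theorem exists_rel (hF : IsCurve k F) (hK : IsCurve k K) {W : Dv k F} (hW : IsCan W) :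
    ∃ WK : Dv k K, IsRel W WK := by
  have : CharZero F := charZero_of_injective_algebraMap (algebraMap k F).injective
  obtain ⟨ω, hω0, hω, hmax⟩ := TRel_exists_div hF hW
  obtain ⟨η, hη1, hη2⟩ := exists_lift hF hK hω
  -- the constants
  have hcst : ∀ x : K, η (cst hK x) = 0 := by
    intro x
    obtain ⟨D, hD⟩ := (cst hK x).2
    obtain ⟨B, hB⟩ := TRel_exists_le_pull (F := F) hK D
    have hmem : (fun _ : Pt k F => x) ∈ AQ k F K hK :=
      ⟨B, fun Q P _ => (hD P).mono (neg_le_neg (hB P))⟩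
    have h1 := hη2 ⟨fun _ => x, hmem⟩
    have h2 : inc hK ⟨fun _ : Pt k F => x, hmem⟩ = cst hK x := rfl
    have h3 : trA hF hK ⟨fun _ : Pt k F => x, hmem⟩ = cst hF (Algebra.trace F K x) := rfl
    rw [h2, h3, hω.2] at h1
    exact h1
  have hηm : η ∈ Om hK (pull K W) := ⟨hη1, hcst⟩
  -- it is not zero
  have hη0 : η ≠ 0 := by
    intro h0
    apply hω0
    apply LinearMap.ext
    intro α
    obtain ⟨B, hB⟩ := α.2
    have hmem : (fun Q : Pt k F => algebraMap F K ((α : Pt k F → F) Q)) ∈ AQ k F K hK := by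
      refine ⟨B, fun Q P hP => ?_⟩
      change LeOrd P (-pull K B P) (algebraMap F K ((α : Pt k F → F) Q))
      rw [pull_apply hK, hP]
      rcases hB Q with h | h
      · rw [h, map_zero]
        exact LeOrd.zero _ _
      · refine Or.inr ?_
        rw [P.ord_map, hP]
        have h2 := mul_le_mul_of_nonneg_left h (Int.natCast_nonneg (P.ram F))
        linarith
    have h1 := hη2 ⟨_, hmem⟩
    rw [h0, LinearMap.zero_apply] at h1
    have h2 : trA hF hK ⟨_, hmem⟩ = (Module.finrank F K : k) • α := by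
      apply Subtype.ext
      funext Q
      change Algebra.trace F K (algebraMap F K ((α : Pt k F → F) Q)) =
        (Module.finrank F K : k) • (α : Pt k F → F) Q
      rw [Algebra.trace_algebraMap, nsmul_eq_mul, Algebra.smul_def, map_natCast]
    rw [h2, map_smul, smul_eq_mul] at h1
    have h3 : (Module.finrank F K : k) ≠ 0 := by
      exact_mod_cast (Module.finrank_pos (R := F) (M := K)).ne'
    rw [LinearMap.zero_apply]
    exact (mul_eq_zero.1 h1.symm).resolve_left h3
  obtain ⟨WK, hWK, hWKmax⟩ := exists_div_Om hK hηm hη0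
  refine ⟨WK, hW, isCan_of_rr hK (rr_of_div hK hWK hη0 hWKmax), hWKmax _ hηm, fun Q v hv => ?_⟩
  refine TRel_local hF hω hmax fun a ha => ?_
  have hle : ∀ P : Pt k K, P.below = Q → LeOrd P (-WK P) (algebraMap F K a * v) := by
    intro P hP
    have h1 : LeOrd P 0 (algebraMap F K a) := by
      rcases ha with h | h
      · rw [h, map_zero]
        exact LeOrd.zero _ _
      · refine Or.inr ?_
        rw [P.ord_map, hP]
        exact mul_nonneg (Int.natCast_nonneg _) h
    have h2 := h1.mul (hv P hP)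
    rwa [zero_add] at h2
  have hval : ∀ P : Pt k K, LeOrd P (-WK P)
      ((Pi.single Q (algebraMap F K a * v) : Pt k F → K) P.below) := by
    intro P
    by_cases hP : P.below = Q
    · rw [hP, Pi.single_eq_same]
      exact hle P hP
    · rw [Pi.single_eq_of_ne hP]
      exact LeOrd.zero _ _
  obtain ⟨B, hB⟩ := TRel_exists_le_pull (F := F) hK WK
  have hmem : (Pi.single Q (algebraMap F K a * v) : Pt k F → K) ∈ AQ k F K hK := by
    refine ⟨B, fun R P hP => ?_⟩
    have h1 := hval P
    rw [hP] at h1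
    exact h1.mono (neg_le_neg (hB P))
  have h1 := hη2 ⟨_, hmem⟩
  have hval' : InA WK (inc hK ⟨_, hmem⟩ : Pt k K → K) := hval
  rw [hWK.1 _ hval'] at h1
  rw [h1]
  refine congrArg ω (Subtype.ext (funext fun R => ?_))
  change (Pi.single Q (a * Algebra.trace F K v) : Pt k F → F) R =
    Algebra.trace F K ((Pi.single Q (algebraMap F K a * v) : Pt k F → K) R)
  by_cases hR : R = Q
  · rw [hR, Pi.single_eq_same, Pi.single_eq_same, ← Algebra.smul_def, map_smul, smul_eq_mul]
  · rw [Pi.single_eq_of_ne hR, Pi.single_eq_of_ne hR, map_zero]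

end Pool.Agent.MPd118f9
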