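import Pool.Agent.Lib.MP_d118f9_ag_G.WMain_A
import Pool.Agent.Lib.MP_d118f9_ag_G.FDSL
import Pool.Agent.Lib.MP_d118f9_ag_G.TRel

/-!
# MP_d118f9_ag, covers of any degree: W2
-/

set_option autoImplicit false

noncomputable section

open Classical

namespace Pool.Agent.MPd118f9

variable {k F K : Type} [Field k] [IsAlgClosed k] [CharZero k] [Field F] [Field K] [Algebra k F]
  [Algebra k K] [Algebra F K] [IsScalarTower k F K] [FiniteDimensional F K]

/-- The ring of the functions that are regular at `Q`. -/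
private def regQ (Q : Pt k F) : Subring F where
  carrier := {f | LeOrd Q 0 f}
  mul_mem' := by
    intro f g hf hg
    have h1 := LeOrd.mul hf hg
    rwa [add_zero] at h1
  one_mem' := by
    have h1 := LeOrd.const Q (1 : k)
    rwa [map_one] at h1
  add_mem' := fun hf hg => LeOrd.add hf hg
  zero_mem' := LeOrd.zero Q 0
  neg_mem' := fun hf => LeOrd.neg hf

/-- The adapted basis of the flag at a point. -/
private theorem flag_ad {W : Dv k F} {WK : Dv k K} {r g : ℕ}
    {u : Module.Basis (Fin (r + 1)) F K} {v : Fin g → K} {lev : Fin g → Fin (r + 1)}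
    {κ : Fin (r + 1) → Dv k F} (hfl : IsFlag W WK u v lev κ) (hv : ∀ l, v l ∈ L WK)
    (Q : Pt k F) : ∃ (idx : Fin (r + 1) → Fin g) (a : Fin g → Fin (r + 1) → F),
      IsAd lev (fun l => u.repr (v l) (lev l)) idx a ∧
      LinearIndependent F (fun i => v (idx i)) ∧ (∀ l, v l = ∑ i, a l i • v (idx i)) ∧
      ∀ l i, LeOrd Q 0 (a l i) := by
  obtain ⟨idx, hlev, hloc⟩ := hfl.loc Q
  have hvQ : ∀ l, LeQ Q WK (v l) := by
    intro l P _
    rcases mem_L.1 (hv l) with h0 | h0
    · exact Or.inl h0
    · exact Or.inr (h0 P)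
  choose a ha1 ha2 ha3 using fun l => hloc (v l) (hvQ l)
  have hx0 : ∀ i, u.repr (v (idx i)) i ≠ 0 := by
    intro i
    have h1 := (hfl.lvl.indep i).ne_zero ⟨idx i, hlev i⟩
    simp only [hlev i] at h1
    exact h1
  have htri : ∀ i j, i < j → u.repr (v (idx i)) j = 0 := fun i j hij =>
    hfl.tri _ _ (by rw [hlev]; exact hij)
  have hind : LinearIndependent F fun i => v (idx i) := by
    rw [Fintype.linearIndependent_iff]
    intro c hc
    by_contra hcon
    push Not at hcon
    obtain ⟨i₀, hi₀⟩ := hcon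
    obtain ⟨i, hi, hmax⟩ := (Finset.univ.filter fun i => c i ≠ 0).exists_max_image id
      ⟨i₀, Finset.mem_filter.2 ⟨Finset.mem_univ _, hi₀⟩⟩
    rw [Finset.mem_filter] at hi
    have h1 := congrArg (fun y => u.repr y i) hc
    simp only [map_sum, map_smul, Finsupp.coe_finsetSum, Finset.sum_apply, Finsupp.smul_apply,
      smul_eq_mul, map_zero, Finsupp.coe_zero, Pi.zero_apply] at h1
    rw [Finset.sum_eq_single i] at h1
    · rcases mul_eq_zero.1 h1 with h2 | h2
      · exact hi.2 h2
      · exact hx0 i h2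
    · intro j _ hj
      rcases lt_or_gt_of_ne hj with h2 | h2
      · rw [htri j i h2, mul_zero]
      · by_cases h3 : c j = 0
        · rw [h3, zero_mul]
        · have h4 := hmax j (Finset.mem_filter.2 ⟨Finset.mem_univ _, h3⟩)
          exact absurd h2 (not_lt.2 h4)
    · intro hm
      exact absurd (Finset.mem_univ _) hm
  have hlow : ∀ l i, lev l < i → a l i = 0 := fun l i hi =>
    ha3 l (lev l) (fun j hj => hfl.tri _ _ hj) i hi
  refine ⟨idx, a, ⟨hlev, fun i => ?_, hlow, fun l => ?_, fun i => ?_⟩, hind, ha2, ha1⟩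
  · have h1 : ∑ j, (a (idx i) j - (Pi.single i (1 : F) : Fin (r + 1) → F) j) • v (idx j) = 0 := by
      simp only [sub_smul, Finset.sum_sub_distrib]
      rw [← ha2 (idx i), Finset.sum_eq_single i]
      · rw [Pi.single_eq_same, one_smul, sub_self]
      · intro j _ hj
        rw [Pi.single_eq_of_ne hj, zero_smul]
      · intro hm
        exact absurd (Finset.mem_univ _) hm
    funext j
    exact sub_eq_zero.1 (Fintype.linearIndependent_iff.1 hind _ h1 j)
  · show a l (lev l) * u.repr (v (idx (lev l))) (lev (idx (lev l))) = u.repr (v l) (lev l)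
    rw [hlev]
    conv_rhs => rw [ha2 l]
    simp only [map_sum, map_smul, Finsupp.coe_finsetSum, Finset.sum_apply, Finsupp.smul_apply,
      smul_eq_mul]
    symm
    rw [Finset.sum_eq_single (lev l)]
    · intro j _ hj
      rcases lt_or_gt_of_ne hj with h2 | h2
      · rw [htri j _ h2, mul_zero]
      · rw [hlow l j h2, zero_mul]
    · intro hm
      exact absurd (Finset.mem_univ _) hm
  · show u.repr (v (idx i)) (lev (idx i)) ≠ 0
    rw [hlev]
    exact hx0 i

/-- W2. -/
theorem const_of_flag (hF : IsCurve k F) (hK : IsCurve k K) (hg : 1 ≤ genus k F) {W : Dv k F}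
    {WK : Dv k K} (h : IsRel W WK) {N N₁ : ℤ} (hM : MCp W N) (hN : N ≤ N₁) {r g n : ℕ}
    {u : Module.Basis (Fin (r + 1)) F K} {v : Fin g → K} {lev : Fin g → Fin (r + 1)}
    {κ : Fin (r + 1) → Dv k F} (hfl : IsFlag W WK u v lev κ) (hv : ∀ l, v l ∈ L WK)
    (hκ : ∀ i, i ≠ 0 → N₁ ≤ deg (κ i))
    (hN₁ : ((n : ℤ) + 3) * (2 * (genus k F : ℤ) + 3) ≤ N₁) (hr : 1 ≤ r)
    (hn : n + 2 ≤ (r + 1) * gon k F) {s : (Fin n → Fin g) → F} (hs : Alt s)
    (hloc : ∀ Q : Pt k F, ∃ s' : (Fin n → Fin g) → F, Alt s' ∧ (∀ I, LeOrd Q 0 (s' I)) ∧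
      Agr v (fun I => algebraMap F K (s I)) fun I => algebraMap F K (s' I)) :
    ∃ s₀ : (Fin n → Fin g) → k, Alt s₀ ∧
      Agr v (fun I => algebraMap F K (s I)) fun I => algebraMap k K (s₀ I) := by
  have hcF : CharZero F := charZero_of_injective_algebraMap (algebraMap k F).injective
  set x : Fin g → F := fun l => u.repr (v l) (lev l) with hx
  have hL : IsLvl W lev x κ := hfl.lvl
  -- the forms `s - s'` with `Agr`
  have hagr : ∀ φ φ' : (Fin n → Fin g) → F,
      Agr v (fun I => algebraMap F K (φ I)) (fun I => algebraMap F K (φ' I)) ↔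
      Agr v (fun I => algebraMap F K ((φ - φ') I)) 0 := by
    intro φ φ'
    have h1 : (fun I => algebraMap F K ((φ - φ') I)) =
        (fun I => algebraMap F K (φ I)) - fun I => algebraMap F K (φ' I) := by
      funext I
      rw [Pi.sub_apply, Pi.sub_apply, map_sub]
    unfold Agr
    rw [h1]
    constructor
    · intro h2 c hc
      rw [evf_sub, evf_zero, h2 c hc, sub_self]
    · intro h2 c hc
      have h3 := h2 c hc
      rw [evf_sub, evf_zero] at h3
      exact sub_eq_zero.1 h3
  have key : ∀ (t w : ℕ), n * r + 1 ≤ w + t → ∀ s : (Fin n → Fin g) → F, Alt s →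
      Van lev w s → (∀ Q : Pt k F, ∃ s' : (Fin n → Fin g) → F, Alt s' ∧
        (∀ I, LeOrd Q 0 (s' I)) ∧
        Agr v (fun I => algebraMap F K (s I)) fun I => algebraMap F K (s' I)) →
      ∃ s₀ : (Fin n → Fin g) → k, Alt s₀ ∧
        Agr v (fun I => algebraMap F K (s I))
          fun I => algebraMap F K (algebraMap k F (s₀ I)) := by
    intro t
    induction t with
    | zero =>
      intro w hw s hs hV _
      have h0 : ∀ I, s I = 0 := by
        intro I
        apply hV I
        have h1 : wt lev I ≤ n * r := by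
          have h2 : wt lev I ≤ ∑ _j : Fin n, r :=
            Finset.sum_le_sum fun j _ => Nat.lt_succ_iff.1 (lev (I j)).2
          rwa [Finset.sum_const, Finset.card_univ, Fintype.card_fin, smul_eq_mul] at h2
        omega
      refine ⟨fun _ => 0, alt_zero, fun c _ => ?_⟩
      simp only [h0, map_zero]
    | succ t ih =>
      intro w hw s hs hV hloc
      -- the constants in weight `w`
      obtain ⟨s₀, hs₀, hV₀, hs₀'⟩ := exists_avg (k := k) (lev := lev) (x := x) (w := w) hs (by
        intro lam hlam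
        refine DSL hF hg h.canF hM hN hL hκ hN₁ hr hn lam hs fun Q => ?_
        obtain ⟨s', hs', hO, hA⟩ := hloc Q
        obtain ⟨idx, a, had, hind, hsum, hint⟩ := flag_ad hfl hv Q
        have hD : InD idx a (s - s') :=
          (agr_iff_inD v idx hind a hsum (alt_sub hs hs')).1 ((hagr s s').1 hA)
        obtain ⟨s'', hs'', hV'', hD'', hO''⟩ := had.exists_trunc hs' hV hD (regQ Q) hint hO
        refine ⟨s'', hs'', hO'', fun i c hc hker => ?_⟩
        have h1 := had.agrL (hV.sub hV'') hD'' lam hlam i c hc hker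
        rw [evf_sub, evf_zero] at h1
        exact sub_eq_zero.1 h1)
      set s₁ : (Fin n → Fin g) → F := fun I => algebraMap k F (s₀ I) with hs₁
      have hs₁a : Alt s₁ := alt_hom hs₀ (algebraMap k F : k →+ F)
      have hρa : Alt (s - s₁) := alt_sub hs hs₁a
      obtain ⟨Q₀⟩ := nonempty_pt hF
      obtain ⟨idx, a, had, hind, hsum, -⟩ := flag_ad hfl hv Q₀
      obtain ⟨ψ, hψ, hψD, hψV⟩ := had.exists_lift (w := w) hρa (hV.sub hV₀) (by
        intro lam hlam i c hc hker
        rw [evf_sub, evf_zero, hs₀' lam hlam i c hc hker, sub_self])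
      have hψA : Agr v (fun I => algebraMap F K (ψ I)) 0 :=
        (agr_iff_inD v idx hind a hsum hψ).2 hψD
      have hev : ∀ (φ φ' : (Fin n → Fin g) → F) (c : Fin n → Fin g → K),
          evf (fun I => algebraMap F K ((φ - φ') I)) c =
            evf (fun I => algebraMap F K (φ I)) c - evf (fun I => algebraMap F K (φ' I)) c := by
        intro φ φ' c
        rw [← evf_sub]
        congr 1
        funext I
        rw [Pi.sub_apply, Pi.sub_apply, map_sub]
      obtain ⟨s₂, hs₂, hs₂'⟩ := ih (w + 1) (by omega) (s - s₁ - ψ) (alt_sub hρa hψ) hψV (by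
        intro Q
        obtain ⟨s', hs', hO, hA⟩ := hloc Q
        refine ⟨s' - s₁, alt_sub hs' hs₁a, fun I => ?_, fun c hc => ?_⟩
        · exact LeOrd.sub (hO I) (LeOrd.const Q (s₀ I))
        · rw [hev, hev, hev, hA c hc, hψA c hc, evf_zero, sub_zero])
      refine ⟨fun I => s₀ I + s₂ I, alt_add hs₀ hs₂, fun c hc => ?_⟩
      have h1 := hs₂' c hc
      rw [hev, hev, hψA c hc, evf_zero, sub_zero] at h1
      have h2 : evf (fun I => algebraMap F K (algebraMap k F (s₀ I + s₂ I))) c =
          evf (fun I => algebraMap F K (s₁ I)) c +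
            evf (fun I => algebraMap F K (algebraMap k F (s₂ I))) c := by
        rw [← evf_add]
        congr 1
        funext I
        rw [Pi.add_apply, map_add, map_add]
      rw [h2, ← h1]
      ring
  obtain ⟨s₀, h1, h2⟩ := key (n * r + 1) 0 (by omega) s hs (fun I hI => absurd hI (by omega))
    hloc
  refine ⟨s₀, h1, fun c hc => ?_⟩
  rw [h2 c hc]
  congr 1
  funext I
  rw [← IsScalarTower.algebraMap_apply]

end Pool.Agent.MPd118f9
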