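import Pool.Agent.Lib.MP_d118f9_ag_G.REL
import Pool.Agent.Lib.MP_d118f9_ag_G.WFlag
import Pool.Agent.Lib.MP_d118f9_ag_G.WMain

/-!
# MP_d118f9_ag, covers of any degree: the case of positive genus
-/

set_option autoImplicit false

noncomputable section

open Classical

namespace Pool.Agent.MPd118f9

section

variable {ι L : Type} [Field L] [CharZero L] [Fintype ι] {n : ℕ}

/-- A form `φ` with `x ∧ φ = 0` vanishes on the kernel of `x`. -/
private theorem sPos_agr_of_wg {x : ι → L} {φ : (Fin n → ι) → L} (hφ : Alt φ) (h : wg x φ = 0)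
    {l : ι} (hl : x l ≠ 0) : Agr x φ 0 := by
  cases n with
  | zero =>
    have h1 : φ = 0 := by
      funext I
      have h2 := congrFun h fun _ => l
      have h3 : wg x φ (fun _ => l) = x l * φ I := by
        unfold wg
        rw [Fin.sum_univ_one]
        have h4 : (fun l_1 : Fin 0 => l) = I := Subsingleton.elim _ _
        simp only [Fin.val_zero, pow_zero, one_mul]
        rw [h4]
      rw [h3] at h2
      exact (mul_eq_zero.1 h2).resolve_left hl
    intro c _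
    rw [h1]
  | succ n =>
    have ha : pr x (Pi.single l (x l)⁻¹ : ι → L) = 1 := by
      unfold pr
      rw [Finset.sum_eq_single l]
      · rw [Pi.single_eq_same, mul_inv_cancel₀ hl]
      · intro b _ hb
        rw [Pi.single_eq_of_ne hb, mul_zero]
      · intro h'
        exact absurd (Finset.mem_univ l) h'
    have h1 : φ = wg x fun J => ∑ l', (Pi.single l (x l)⁻¹ : ι → L) l' * φ (Fin.cons l' J) := by
      funext I
      have h2 := contr_wg (x := x) hφ (Pi.single l (x l)⁻¹ : ι → L) I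
      rw [ha, one_mul, h] at h2
      simpa using h2
    intro c hc
    rw [h1]
    exact agr_wg _ _ c hc

omit [CharZero L] in
private theorem sPos_agr_sub {x : ι → L} {φ ψ : (Fin n → ι) → L} (h : Agr x (φ - ψ) 0) :
    Agr x φ ψ := by
  intro c hc
  have h1 := h c hc
  rw [evf_sub, evf_zero] at h1
  exact sub_eq_zero.1 h1

private theorem sPos_agr_of_wg_eq {x : ι → L} {φ ψ : (Fin n → ι) → L} (hφ : Alt φ)
    (hψ : Alt ψ) (h : wg x φ = wg x ψ) {l : ι} (hl : x l ≠ 0) : Agr x φ ψ := by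
  refine sPos_agr_sub (sPos_agr_of_wg (alt_sub hφ hψ) ?_ hl)
  rw [wg_sub, h, sub_self]

private theorem sPos_wg_eq_of_agr {x : ι → L} {φ ψ : (Fin n → ι) → L} (hφ : Alt φ) (hψ : Alt ψ)
    (h : Agr x φ ψ) {l : ι} (hl : x l ≠ 0) : wg x φ = wg x ψ := by
  cases n with
  | zero =>
    have h1 : φ = ψ := by
      funext I
      have h2 := h (fun j => Pi.single (I j) 1) fun j => j.elim0
      rwa [evf_single, evf_single] at h2
    rw [h1]
  | succ n =>
    have h0 : Alt (φ - ψ) := alt_sub hφ hψ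
    have h1 : Agr x (φ - ψ) 0 := by
      intro c hc
      rw [evf_sub, evf_zero, h c hc, sub_self]
    have h2 := eq_wg_of_agr h0 h1 hl
    have h3 : Alt fun J : Fin n → ι => (φ - ψ) (Fin.cons l J) / x l := by
      simp only [div_eq_inv_mul]
      exact alt_mul (alt_cons h0 l) (x l)⁻¹
    have h6 : wg x (φ - ψ) = 0 := by
      rw [h2]
      exact wg_wg x h3
    rw [wg_sub] at h6
    exact sub_eq_zero.1 h6

end

variable {k F K : Type} [Field k] [IsAlgClosed k] [CharZero k] [Field F] [Field K] [Algebra k F]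
  [Algebra k K] [Algebra F K] [IsScalarTower k F K] [FiniteDimensional F K]

/-- The case `h ≥ 1`. -/
theorem HC_pos (hF : IsCurve k F) (hK : IsCurve k K) (hg : 1 ≤ genus k F) {W : Dv k F}
    {WK : Dv k K} (h : IsRel W WK) {N Ψ : ℤ} (hM : MCp W N) (hP : Prim k F K Ψ) {n : ℕ}
    (hΨ : ((n : ℤ) + 3) * (2 * (genus k F : ℤ) + 3) + 2 ≤ Ψ) (hN : N + 2 ≤ Ψ)
    (hd : 2 ≤ Module.finrank F K) (hn : n + 2 ≤ Module.finrank F K * gon k F) : HC WK n := by
  have : CharZero K := charZero_of_injective_algebraMap (algebraMap k K).injective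
  obtain ⟨r, hr⟩ : ∃ r, Module.finrank F K = r + 1 := ⟨Module.finrank F K - 1, by omega⟩
  have hr1 : 1 ≤ r := by omega
  have hn0 : (0 : ℤ) ≤ (n : ℤ) := Int.natCast_nonneg n
  have hh0 : (0 : ℤ) ≤ (genus k F : ℤ) := Int.natCast_nonneg _
  have hN2 : max N (((n : ℤ) + 3) * (2 * (genus k F : ℤ) + 3)) + 2 ≤ Ψ := by
    rcases max_cases N (((n : ℤ) + 3) * (2 * (genus k F : ℤ) + 3)) with hc | hc <;> omega
  have hN3 : ((n : ℤ) + 3) * (2 * (genus k F : ℤ) + 3) ≤
      max N (((n : ℤ) + 3) * (2 * (genus k F : ℤ) + 3)) := le_max_right _ _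
  have hN4 : 2 * (genus k F : ℤ) + 2 ≤
      max N (((n : ℤ) + 3) * (2 * (genus k F : ℤ) + 3)) := by
    refine le_trans ?_ hN3
    nlinarith
  have hΨ' : ((n : ℤ) + 3) * (2 * (genus k F : ℤ) + 2) ≤ Ψ := by
    nlinarith
  obtain ⟨u, g, v, lev, κ, hfl, hκ⟩ := exists_flag hF hK hg h hP hN2 hN4 hr hr1
  obtain ⟨Q₀⟩ := nonempty_pt hF
  obtain ⟨idx, -, -⟩ := hfl.loc Q₀
  have hl : ((v (idx 0) : L WK) : K) ≠ 0 := by
    intro h0
    exact v.ne_zero (idx 0) (Subtype.ext h0)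
  refine ⟨g, v, fun s hs hsL hv => ?_⟩
  have h1 := fun Q => rel hF hK h hP hΨ' hd v hs hsL hv Q
  choose τ hτA hτL hτ using h1
  have hloc : ∀ Q : Pt k F, ∃ s' : (Fin n → Fin g) → F, Alt s' ∧ (∀ I, LeOrd Q 0 (s' I)) ∧
      Agr (fun l => (v l : K)) (fun I => algebraMap F K (τ Q₀ I))
        fun I => algebraMap F K (s' I) := fun Q =>
    ⟨τ Q, hτA Q, hτL Q, sPos_agr_of_wg_eq
      (alt_hom (hτA Q₀) (algebraMap F K).toAddMonoidHom)
      (alt_hom (hτA Q) (algebraMap F K).toAddMonoidHom) ((hτ Q₀).symm.trans (hτ Q)) hl⟩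
  have hn' : n + 2 ≤ (r + 1) * gon k F := by rwa [hr] at hn
  obtain ⟨s₀, hs₀, hs₁⟩ := const_of_flag hF hK hg h hM (le_max_left _ _) hfl
    (fun l => (v l).2) hκ hN3 hr1 hn'
    (hτA Q₀) hloc
  refine ⟨s₀, hs₀, (hτ Q₀).trans ?_⟩
  exact sPos_wg_eq_of_agr (alt_hom (hτA Q₀) (algebraMap F K).toAddMonoidHom)
    (alt_hom hs₀ (algebraMap k K).toAddMonoidHom) hs₁ hl

end Pool.Agent.MPd118f9
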