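import Pool.Agent.Lib.MP_d118f9_ag_G.SZero
import Pool.Agent.Lib.MP_d118f9_ag_G.SPos
import Pool.Agent.Lib.MP_d118f9_ag_G.SGon
import Pool.Agent.Lib.MP_d118f9_ag_G.KD
import Pool.Agent.Lib.MP_d118f9_ag_G.TRel
import Pool.Agent.Lib.MP_d118f9_ag.K.KLin

/-!
# MP_d118f9_ag, covers of any degree: stage 1
-/

set_option autoImplicit false

noncomputable section

open Classical

namespace Pool.Agent.MPd118f9

variable {k F K : Type} [Field k] [IsAlgClosed k] [CharZero k] [Field F] [Field K] [Algebra k F]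
  [Algebra k K] [Algebra F K] [IsScalarTower k F K] [FiniteDimensional F K]

/-- ST1. -/
theorem stage1 (hF : IsCurve k F) (hK : IsCurve k K) {W : Dv k F} (hW : IsCan W) {N Ψ : ℤ}
    (hM : 1 ≤ genus k F → MCp W N) (hP : Prim k F K Ψ)
    (hΨ : ((Module.finrank F K * gon k F : ℕ) + 3 : ℤ) * (2 * (genus k F : ℤ) + 3) + 2 ≤ Ψ)
    (hN : N + 2 ≤ Ψ) (hd : 2 ≤ Module.finrank F K)
    (hgK : Module.finrank F K * gon k F ≤ genus k K) {WK : Dv k K} (hWK : IsCan WK) {p : ℕ}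
    (hp : p + 3 ≤ Module.finrank F K * gon k F) : Np WK p := by
  obtain ⟨WK', hrel⟩ := exists_rel (K := K) hF hK hW
  refine Np.of_can hK hrel.canK hWK ?_
  intro i hi q hq
  refine kosExact_of_HC hK hrel.canK (by omega) ?_ q hq
  have hgen : (0 : ℤ) ≤ (genus k F : ℤ) := by positivity
  have hm : ((i + 1 : ℕ) : ℤ) + 3 ≤ ((Module.finrank F K * gon k F : ℕ) : ℤ) + 3 := by
    have h1 : i + 1 ≤ Module.finrank F K * gon k F := by omega
    have h2 : ((i + 1 : ℕ) : ℤ) ≤ ((Module.finrank F K * gon k F : ℕ) : ℤ) := by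
      exact_mod_cast h1
    linarith
  have hm0 : (0 : ℤ) ≤ ((i + 1 : ℕ) : ℤ) + 3 := by positivity
  have hmul : (((i + 1 : ℕ) : ℤ) + 3) * (2 * (genus k F : ℤ) + 3) ≤
      (((Module.finrank F K * gon k F : ℕ) : ℤ) + 3) * (2 * (genus k F : ℤ) + 3) :=
    mul_le_mul_of_nonneg_right hm (by linarith)
  rcases Nat.eq_zero_or_pos (genus k F) with h0 | hpos
  · have hgon : gon k F = 1 := gon_of_genus_zero hF h0
    refine HC_zero hF hK h0 hrel hP ?_ ?_
    · nlinarith [hmul, hΨ, hm0]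
    · rw [hgon, mul_one] at hp
      omega
  · refine HC_pos hF hK hpos hrel (hM hpos) hP ?_ hN hd ?_
    · linarith
    · omega

end Pool.Agent.MPd118f9
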