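import Pool.Agent.Lib.MP_d118f9_ag_G.Defs
import Pool.Agent.Lib.MP_d118f9_ag_G.MG
import Pool.Agent.Lib.MP_d118f9_ag_G.U.UEnd

/-!
# MP_d118f9_ag, covers of any degree: stage 2
-/

set_option autoImplicit false

noncomputable section

open Classical

namespace Pool.Agent.MPd118f9

private theorem st2_bound (f : ℕ → ℤ) (n : ℕ) : ∃ M : ℤ, ∀ i ≤ n, f i ≤ M := by
  induction n with
  | zero => exact ⟨f 0, fun i hi => by rw [Nat.le_zero.1 hi]⟩
  | succ n ih =>
    obtain ⟨M, hM⟩ := ih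
    refine ⟨max M (f (n + 1)), fun i hi => ?_⟩
    rcases Nat.le_succ_iff.1 hi with h | h
    · exact (hM i h).trans (le_max_left _ _)
    · rw [h]
      exact le_max_right _ _

section

variable (k : Type) [Field k] [IsAlgClosed k] [CharZero k]

/-- (MC) with a bound that only depends on the genus. -/
private theorem st2_mc (h : ℕ) (hh : 1 ≤ h) (p : ℕ) : ∃ N : ℤ, ∀ (F : Type) [Field F]
    [Algebra k F], IsCurve k F → genus k F = h → p + 3 ≤ 2 * gon k F → ∀ W : Dv k F, IsCan W →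
      ∀ (s : ℕ) (w : Module.Basis (Fin s) k (L W)) (A : Dv k F), N ≤ deg A →
        XA A W (fun l => (w l : F)) p := by
  by_contra hcon
  push Not at hcon
  have h1 : ∀ n : ℕ, ∃ (F : Type) (_ : Field F) (_ : Algebra k F), IsCurve k F ∧
      genus k F = h ∧ p + 3 ≤ 2 * gon k F ∧ ∃ W : Dv k F, IsCan W ∧
        ∃ w : Fin h → F, LinearIndependent k w ∧ (∀ l, w l ∈ L W) ∧ ∃ A : Dv k F,
          (n : ℤ) ≤ deg A ∧ ¬ XA A W w p := by
    intro n
    obtain ⟨F, i1, i2, hF, hg, hgon, W, hW, s, w, A, hA, hX⟩ := hcon n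
    have hs : s = h := by
      have e1 : ell W = s := by
        unfold ell
        rw [Module.finrank_eq_card_basis w, Fintype.card_fin]
      rw [← e1, hW.2, hg]
    subst hs
    exact ⟨F, i1, i2, hF, hg, hgon, W, hW, fun l => (w l : F),
      w.linearIndependent.map' (L W).subtype (Submodule.ker_subtype _), fun l => (w l).2, A, hA,
      hX⟩
  choose F i1 i2 hF hg hgon W hW w hwi hw A hA hX using h1
  obtain ⟨K, E, j1, j2, j3, j4, j5, hE, hgE, hgonE, W', w', hW', hw', hwi', hbad⟩ :=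
    XA.ultra (k := k) hh (p := p) (g := (p + 4) / 2) F hF hg (fun n => by
      have := hgon n
      omega) W hW w hw hwi A hA hX
  have hfin := hE.finDim W'
  have hcard : Module.finrank K (L W') = h := by
    have e1 := hW'.2
    rw [hgE] at e1
    exact e1
  let x : Fin h → L W' := fun l => ⟨w' l, hw' l⟩
  have hx : LinearIndependent K x := by
    have e1 : LinearIndependent K ((L W').subtype ∘ x) := hwi'
    exact e1.of_comp _
  have : Nonempty (Fin h) := ⟨⟨0, hh⟩⟩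
  let b : Module.Basis (Fin h) K (L W') := basisOfLinearIndependentOfCardEqFinrank hx (by
    rw [Fintype.card_fin, hcard])
  have hb : ∀ l, (b l : E) = w' l := by
    intro l
    simp only [b, coe_basisOfLinearIndependentOfCardEqFinrank]
    rfl
  obtain ⟨N, hN⟩ := MC hE hW' b p (by omega)
  obtain ⟨A', hA', hX'⟩ := hbad N
  refine hX' fun r a => ?_
  have h2 := hN A' hA' r a
  have h3 : (fun l => (b l : E)) = w' := funext hb
  rwa [h3] at h2

/-- (MG) with a bound that only depends on the genus. -/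
private theorem st2_mg (h : ℕ) (hh : 1 ≤ h) (p : ℕ) : ∃ N : ℤ, ∀ (F : Type) [Field F]
    [Algebra k F], IsCurve k F → genus k F = h → p + 2 ≤ gon k F → ∀ W : Dv k F, IsCan W →
      ∀ A : Dv k F, N ≤ deg A → XA A W (Fin.elim0 : Fin 0 → F) p := by
  by_contra hcon
  push Not at hcon
  have h1 : ∀ n : ℕ, ∃ (F : Type) (_ : Field F) (_ : Algebra k F), IsCurve k F ∧
      genus k F = h ∧ p + 2 ≤ gon k F ∧ ∃ W : Dv k F, IsCan W ∧ ∃ A : Dv k F,
          (n : ℤ) ≤ deg A ∧ ¬ XA A W (Fin.elim0 : Fin 0 → F) p := by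
    intro n
    obtain ⟨F, i1, i2, hF, hg, hgon, W, hW, A, hA, hX⟩ := hcon n
    exact ⟨F, i1, i2, hF, hg, hgon, W, hW, A, hA, hX⟩
  choose F i1 i2 hF hg hgon W hW A hA hX using h1
  obtain ⟨K, E, j1, j2, j3, j4, j5, hE, hgE, hgonE, W', w', hW', hw', hwi', hbad⟩ :=
    XA.ultra (k := k) hh (p := p) (s := 0) (g := p + 2) F hF hg hgon W hW
      (fun n => Fin.elim0) (fun n l => l.elim0) (fun n => linearIndependent_empty_type) A hA hX
  obtain ⟨N, hN⟩ := MG hE hW' p hgonE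
  obtain ⟨A', hA', hX'⟩ := hbad N
  refine hX' (XA.of_ke fun r a c hc hcL hcy => ?_)
  obtain ⟨g, hg1, hg2, hg3⟩ := hN A' hA' r a c hc hcL hcy
  exact ⟨g, hg1, hg2, hg3⟩

end

/-- ST2 (captain helper92): `N` can be chosen uniformly for all curves of genus `h`. -/
theorem stage2 (k : Type) [Field k] [IsAlgClosed k] [CharZero k] (h : ℕ) (hh : 1 ≤ h) :
    ∃ N : ℤ, ∀ (F : Type) [Field F] [Algebra k F], IsCurve k F → genus k F = h →
      ∃ W : Dv k F, IsCan W ∧ MCp W N := by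
  choose N₁ hN₁ using st2_mc k h hh
  choose N₂ hN₂ using st2_mg k h hh
  obtain ⟨M₁, hM₁⟩ := st2_bound N₁ (2 * (h + 1))
  obtain ⟨M₂, hM₂⟩ := st2_bound N₂ (h + 1)
  refine ⟨max M₁ M₂, fun F _ _ hF hg => ?_⟩
  obtain ⟨W, hW⟩ := hF.exists_can
  have hgon := gon_le hF
  rw [hg] at hgon
  refine ⟨W, hW, ⟨?_, ?_⟩⟩
  · intro s w i m him A hA r a c hc1 hc2 hcL hcy
    have h1 := hN₁ (m + i) F hF hg (by omega) W hW s w A
      (((hM₁ (m + i) (by omega)).trans (le_max_left _ _)).trans hA) r a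
    obtain ⟨g, f, hg1, hf1, hgW, hfA, hfc, h⟩ := h1 i m rfl c ⟨hc1, hc2⟩ hcL hcy
    exact ⟨g, f, hg1.1, hg1.2, hgW, hf1.1, hf1.2, hfA, hfc, h⟩
  · intro i hi A hA r a c hc hcL hcy
    have h1 := hN₂ i F hF hg (by omega) W hW A
      (((hM₂ i (by omega)).trans (le_max_right _ _)).trans hA)
    obtain ⟨g, hg1, hg2, hg3⟩ := h1.to_ke r a c hc hcL hcy
    exact ⟨g, hg1, hg2, hg3⟩

end Pool.Agent.MPd118f9
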