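import Pool.Agent.Lib.MP_d118f9_ag_G.SOne
import Pool.Agent.Lib.MP_d118f9_ag_G.SCliff
import Pool.Agent.Lib.MP_d118f9_ag_G.SInter
import Pool.Agent.Lib.MP_d118f9_ag_G.STwo

/-!
# MP_d118f9_ag, covers of any degree: stage 3
-/

set_option autoImplicit false

noncomputable section

open Classical

namespace Pool.Agent.MPd118f9

private theorem s3_bound (f : ℕ → ℤ) (n : ℕ) : ∃ M : ℤ, ∀ i ≤ n, f i ≤ M := by
  induction n with
  | zero => exact ⟨f 0, fun i hi => by rw [Nat.le_zero.1 hi]⟩
  | succ n ih =>
    obtain ⟨M, hM⟩ := ih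
    refine ⟨max M (f (n + 1)), fun i hi => ?_⟩
    rcases Nat.le_succ_iff.1 hi with h | h
    · exact (hM i h).trans (le_max_left _ _)
    · rw [h]
      exact le_max_right _ _

/-- Degree one. -/
private theorem s3_one {k F K : Type} [Field k] [IsAlgClosed k] [CharZero k] [Field F] [Field K]
    [Algebra k F] [Algebra k K] [Algebra F K] [IsScalarTower k F K] [FiniteDimensional F K]
    (hF : IsCurve k F) (hK : IsCurve k K) (h1 : Module.finrank F K = 1) :
    genus k K ≤ genus k F + 1 := by
  have h2 : IntermediateField.adjoin F {(0 : K)} = ⊤ := by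
    apply IntermediateField.toSubalgebra_injective
    have h3 : (⊥ : Subalgebra F K) = ⊤ := Subalgebra.bot_eq_top_of_finrank_eq_one h1
    rw [IntermediateField.top_toSubalgebra, ← top_le_iff, ← h3]
    exact bot_le
  have h3 : deg (0 : Dv k F) = 0 := by simp [deg]
  have h4 := genus_adjoin hF hK (x := 0) (B := 0) h3.ge (Submodule.zero_mem _) h2
  rw [h1, h3] at h4
  push_cast at h4
  omega

/-- The gonality of a cover. -/
theorem gon_cov {k F K : Type} [Field k] [IsAlgClosed k] [CharZero k] [Field F] [Field K]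
    [Algebra k F] [Algebra k K] [Algebra F K] [IsScalarTower k F K] [FiniteDimensional F K]
    (hF : IsCurve k F) (hK : IsCurve k K) : gon k K ≤ Module.finrank F K * gon k F := by
  obtain ⟨E, hE0, hE2, hEd⟩ := exists_gon hF
  have hdeg := deg_pull_cov hF hK E
  rw [hEd] at hdeg
  have hpos : 0 ≤ pull K E := by
    intro P
    rw [pull_apply hK]
    exact mul_nonneg (Int.natCast_nonneg _) (hE0 _)
  have h1 : 2 ≤ ell (pull K E) := by
    have hfd := hK.finDim (pull K E)
    have hfE := hF.finDim E
    let φ : F →ₗ[k] K := (IsScalarTower.toAlgHom k F K).toLinearMap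
    have hφ : ∀ x : L E, φ (x : F) ∈ L (pull K E) := fun x => (map_mem_pull hK).2 x.2
    have h3 : ell E ≤ ell (pull K E) := by
      refine LinearMap.finrank_le_finrank_of_injective
        (f := LinearMap.codRestrict (L (pull K E)) (φ.comp (L E).subtype) hφ) ?_
      intro x y hxy
      have h4 := congrArg (Subtype.val) hxy
      exact Subtype.ext ((algebraMap F K).injective h4)
    exact hE2.trans h3
  exact Nat.sInf_le ⟨pull K E, hpos, h1, by rw [hdeg]; push_cast; rfl⟩

/-- ST3: the curves of large genus that are covers of degree `d` of curves of genus at most `H`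
satisfy `(N_p)` for `p ≤ gon - 3`. -/
theorem stage3 (k : Type) [Field k] [IsAlgClosed k] [CharZero k] (d H : ℕ) :
    ∃ N : ℕ, ∀ (F : Type) [Field F] [Algebra k F], IsCurve k F → genus k F ≤ H →
      ∀ (K : Type) [Field K] [Algebra k K] [Algebra F K] [IsScalarTower k F K],
        Module.finrank F K = d → 0 < d → N ≤ genus k K → ∀ W : Dv k K, IsCan W →
          ∀ p : ℕ, p + 3 ≤ gon k K → Np W p := by
  induction d using Nat.strong_induction_on generalizing H with
  | _ d ih =>
    rcases Nat.lt_or_ge d 2 with hd | hd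
    · refine ⟨H + 2, fun F _ _ hF hH K _ _ _ _ hfr hd0 hN W hW p hp => ?_⟩
      exfalso
      have : FiniteDimensional F K := Module.finite_of_finrank_pos (by omega)
      have h1 := s3_one hF (hF.of_finite : IsCurve k K) (by omega)
      omega
    · have hst : ∀ h : ℕ, ∃ N : ℤ, ∀ (F : Type) [Field F] [Algebra k F], IsCurve k F →
          genus k F = h → 1 ≤ h → ∃ W : Dv k F, IsCan W ∧ MCp W N := by
        intro h
        by_cases hh : 1 ≤ h
        · obtain ⟨N, hN⟩ := stage2 k h hh
          exact ⟨N, fun F _ _ hF hg _ => hN F hF hg⟩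
        · exact ⟨0, fun F _ _ hF hg h1 => absurd h1 hh⟩
      choose N1 hN1 using hst
      obtain ⟨M, hM⟩ := s3_bound N1 H
      obtain ⟨Ψ, hΨ1, hΨ2, hΨ0⟩ : ∃ Ψ : ℤ,
          ((d * (H + 1) : ℕ) + 3 : ℤ) * (2 * (H : ℤ) + 3) + 2 ≤ Ψ ∧ M + 2 ≤ Ψ ∧ 0 ≤ Ψ :=
        ⟨max (max (((d * (H + 1) : ℕ) + 3 : ℤ) * (2 * (H : ℤ) + 3) + 2) (M + 2)) 0,
          (le_max_left _ _).trans (le_max_left _ _), (le_max_right _ _).trans (le_max_left _ _),
          le_max_right _ _⟩
      choose N2 hN2 using ih
      obtain ⟨H', hH'⟩ : ∃ H' : ℕ, (d : ℤ) * H + (d : ℤ) ^ 2 * Ψ + 1 ≤ H' :=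
        ⟨_, Int.self_le_toNat _⟩
      have hN3 : ∃ N3 : ℕ, ∀ (m : ℕ) (hm : m < d), N2 m hm H' ≤ N3 := by
        refine ⟨(Finset.range d).sup fun m => if h : m < d then N2 m h H' else 0,
          fun m hm => ?_⟩
        have h1 := Finset.le_sup (f := fun m => if h : m < d then N2 m h H' else 0)
          (Finset.mem_range.2 hm)
        simpa only [dif_pos hm] using h1
      obtain ⟨N3, hN3⟩ := hN3
      refine ⟨max (d * (H + 1) + 3) N3, fun F _ _ hF hH K _ _ _ _ hfr hd0 hN W hW p hp => ?_⟩
      have : FiniteDimensional F K := Module.finite_of_finrank_pos (by omega)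
      have hK : IsCurve k K := hF.of_finite
      have hNa : d * (H + 1) + 3 ≤ genus k K := (le_max_left _ _).trans hN
      have hNb : N3 ≤ genus k K := (le_max_right _ _).trans hN
      by_cases hP : Prim k F K Ψ
      · have hW0 : ∃ W0 : Dv k F, IsCan W0 ∧ (1 ≤ genus k F → MCp W0 (N1 (genus k F))) := by
          by_cases h1 : 1 ≤ genus k F
          · obtain ⟨W0, h2, h3⟩ := hN1 (genus k F) F hF rfl h1
            exact ⟨W0, h2, fun _ => h3⟩
          · obtain ⟨W0, h2⟩ := hF.exists_can
            exact ⟨W0, h2, fun h => absurd h h1⟩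
        obtain ⟨W0, hW0, hMC⟩ := hW0
        have hgon : gon k F ≤ H + 1 := (gon_le hF).trans (Nat.add_le_add_right hH 1)
        have hdg : Module.finrank F K * gon k F ≤ d * (H + 1) := by
          rw [hfr]
          exact Nat.mul_le_mul_left d hgon
        have hcl := gon_cov hF hK
        have hM1 := hM (genus k F) hH
        refine stage1 hF hK hW0 hMC hP ?_ (by omega) (by omega) (by omega) hW (by omega)
        refine le_trans ?_ hΨ1
        have h1 : ((Module.finrank F K * gon k F : ℕ) : ℤ) ≤ ((d * (H + 1) : ℕ) : ℤ) := by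
          exact_mod_cast hdg
        have h2 : (genus k F : ℤ) ≤ H := by exact_mod_cast hH
        have h3 : (0 : ℤ) ≤ ((Module.finrank F K * gon k F : ℕ) : ℤ) := Int.natCast_nonneg _
        have h4 : (0 : ℤ) ≤ (genus k F : ℤ) := Int.natCast_nonneg _
        nlinarith
      · obtain ⟨F', hF', hg'⟩ := exists_intermediate hF hK hΨ0 hP
        have hmul := Module.finrank_mul_finrank F F' K
        have hcF' : IsCurve k F' := hF.of_finite
        have he1 : Module.finrank F F' ≠ 1 := fun h =>
          hF' (IntermediateField.finrank_eq_one_iff.1 h)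
        have hpos : 0 < Module.finrank F' K := Module.finrank_pos
        have hpos' : 0 < Module.finrank F F' := Module.finrank_pos
        have hle : Module.finrank F F' ≤ d := by
          rw [← hfr, ← hmul]
          exact Nat.le_mul_of_pos_right _ hpos
        have hlt : Module.finrank F' K < d := by
          have h2 : 2 ≤ Module.finrank F F' := by omega
          rw [← hfr, ← hmul]
          nlinarith
        have hgen : genus k F' ≤ H' := by
          have h1 : (Module.finrank F F' : ℤ) ≤ d := by exact_mod_cast hle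
          have h2 : (genus k F : ℤ) ≤ H := by exact_mod_cast hH
          have h3 : (0 : ℤ) ≤ (Module.finrank F F' : ℤ) := Int.natCast_nonneg _
          have h4 : (0 : ℤ) ≤ (genus k F : ℤ) := Int.natCast_nonneg _
          have h5 : (Module.finrank F F' : ℤ) * genus k F ≤ (d : ℤ) * H :=
            mul_le_mul h1 h2 h4 (h3.trans h1)
          have h6 : (Module.finrank F F' : ℤ) ^ 2 * Ψ ≤ (d : ℤ) ^ 2 * Ψ :=
            mul_le_mul_of_nonneg_right (pow_le_pow_left₀ h3 h1 2) hΨ0
          have h7 : (genus k F' : ℤ) ≤ H' := by linarith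
          exact_mod_cast h7
        have hst : IsScalarTower k F' K := IsScalarTower.of_algebraMap_eq fun x => by
          rw [IsScalarTower.algebraMap_apply k F F' x, ← IsScalarTower.algebraMap_apply F F' K,
            ← IsScalarTower.algebraMap_apply k F K]
        exact hN2 _ hlt H' F' hcF' hgen K rfl hpos ((hN3 _ hlt).trans hNb) W hW p hp

end Pool.Agent.MPd118f9
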