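import Pool.Agent.Lib.MP_d118f9_ag_G.REL

/-!
# MP_d118f9_ag, covers of any degree: the case of genus zero
-/

set_option autoImplicit false

noncomputable section

open Classical

namespace Pool.Agent.MPd118f9

/-- An `F`-valued form `φ` with few arguments that is killed by the product with `v` is zero. -/
private theorem SZero_uniq {F K : Type} [Field F] [Field K] [Algebra F K] [FiniteDimensional F K]
    {g n m : ℕ} (v : Fin g → K) (idx : Fin m → Fin g)
    (hind : LinearIndependent F fun b => v (idx b)) (hnm : n < m) (φ : (Fin n → Fin g) → F)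
    (h : wg v (fun I => algebraMap F K (φ I)) = 0) : φ = 0 := by
  funext I
  rw [Pi.zero_apply]
  by_contra hne
  have hmem : ∀ l : Fin g, v l ∈ Submodule.span F (Set.range fun j => v (I j)) := by
    intro l
    have h1 := congrFun h (Fin.cons l I)
    simp only [wg, Pi.zero_apply] at h1
    rw [Fin.sum_univ_succ] at h1
    simp only [Fin.val_zero, pow_zero, one_mul, Fin.cons_zero, Fin.zero_succAbove,
      Fin.cons_succ] at h1
    have h2 : v l * algebraMap F K (φ I) ∈
        Submodule.span F (Set.range fun j => v (I j)) := by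
      rw [add_eq_zero_iff_eq_neg] at h1
      rw [h1]
      refine Submodule.neg_mem _ (Submodule.sum_mem _ fun i _ => ?_)
      have h3 : ∀ (N : ℕ) (a b : K) (f : F), b = algebraMap F K f →
          (-1) ^ N * (a * b) = ((-1) ^ N * f) • a := by
        intro N a b f hb
        rw [hb, Algebra.smul_def, map_mul, map_pow, map_neg, map_one]
        ring
      rw [h3 _ _ _ _ rfl]
      exact Submodule.smul_mem _ _ (Submodule.subset_span ⟨i, rfl⟩)
    have h4 : v l = (φ I)⁻¹ • (v l * algebraMap F K (φ I)) := by
      have h5 : algebraMap F K (φ I) ≠ 0 :=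
        (map_ne_zero_iff _ (algebraMap F K).injective).2 hne
      rw [Algebra.smul_def, map_inv₀]
      field_simp
    rw [h4]
    exact Submodule.smul_mem _ _ h2
  have h6 : Submodule.span F (Set.range fun b => v (idx b)) ≤
      Submodule.span F (Set.range fun j => v (I j)) := by
    rw [Submodule.span_le]
    rintro x ⟨b, rfl⟩
    exact hmem _
  have h7 := Submodule.finrank_mono h6
  rw [finrank_span_eq_card hind, Fintype.card_fin] at h7
  have h8 : Module.finrank F (Submodule.span F (Set.range fun j => v (I j))) ≤ n := by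
    have h9 := finrank_range_le_card (R := F) fun j => v (I j)
    rw [Fintype.card_fin] at h9
    exact h9
  omega

variable {k F K : Type} [Field k] [IsAlgClosed k] [CharZero k] [Field F] [Field K] [Algebra k F]
  [Algebra k K] [Algebra F K] [IsScalarTower k F K] [FiniteDimensional F K]

/-- The case `h = 0` (G3): `n ≤ d - 2`. -/
theorem HC_zero (hF : IsCurve k F) (hK : IsCurve k K) (hg : genus k F = 0) {W : Dv k F}
    {WK : Dv k K} (h : IsRel W WK) {Ψ : ℤ} (hP : Prim k F K Ψ) {n : ℕ}
    (hΨ : ((n : ℤ) + 3) * (2 * (genus k F : ℤ) + 2) ≤ Ψ)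
    (hn : n + 2 ≤ Module.finrank F K) : HC WK n := by
  have hfd : FiniteDimensional k (L WK) := hK.finDim WK
  obtain ⟨Q0⟩ := nonempty_pt hF
  refine ⟨Module.finrank k (L WK), Module.finBasis k (L WK), ?_⟩
  generalize Module.finBasis k (L WK) = v
  intro s hs hsL hv
  have hd : 2 ≤ Module.finrank F K := by omega
  have hr := fun Q : Pt k F => rel hF hK h hP hΨ hd v hs hsL hv Q
  choose τ hτA hτO hτs using hr
  have hΨ1 : 1 ≤ Ψ := by
    rw [hg] at hΨ
    have h1 : (0 : ℤ) ≤ n := Int.natCast_nonneg n
    push_cast at hΨ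
    linarith
  obtain ⟨idx, hidx, -⟩ := local_basis hF hK h hP hΨ1 v Q0
  have hU : Module.finrank F (Uh k F K) = Module.finrank F K - 1 := by
    rw [finrank_Uh, hg]
    simp
  have heq : ∀ Q, τ Q = τ Q0 := by
    intro Q
    have h1 : wg (fun l => (v l : K)) (fun I => algebraMap F K ((τ Q - τ Q0) I)) = 0 := by
      have h2 : (fun I => algebraMap F K ((τ Q - τ Q0) I)) =
          (fun I => algebraMap F K (τ Q I)) - fun I => algebraMap F K (τ Q0 I) := by
        funext I
        simp only [Pi.sub_apply, map_sub]
      rw [h2, wg_sub, ← hτs Q, ← hτs Q0, sub_self]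
    have h3 := SZero_uniq (fun l => (v l : K)) idx hidx (by omega) _ h1
    exact sub_eq_zero.1 h3
  have hc : ∀ I, ∃ c : k, τ Q0 I = algebraMap k F c := by
    intro I
    apply hF.mem_L_zero.1
    by_cases h0 : τ Q0 I = 0
    · exact Or.inl h0
    · refine Or.inr fun P => ?_
      have h1 := (hτO P I).resolve_left (by rw [heq P]; exact h0)
      rw [heq P] at h1
      have h2 : (0 : Dv k F) P = 0 := rfl
      rw [h2]
      omega
  choose c hc using hc
  refine ⟨c, ?_, ?_⟩
  · intro σ I
    apply (algebraMap k F).injective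
    rw [map_zsmul, ← hc, ← hc]
    exact hτA Q0 σ I
  · have h1 : (fun I => algebraMap F K (τ Q0 I)) = fun I => algebraMap k K (c I) := by
      funext I
      rw [hc I, ← IsScalarTower.algebraMap_apply k F K]
    rw [← h1]
    exact hτs Q0

end Pool.Agent.MPd118f9
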