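import Pool.Agent.Lib.MP_d118f9_ag_G.Defs

/-!
# MP_d118f9_ag, covers of any degree: the trace of a section of a pull back

Helper file for T3 and T5.
-/

set_option autoImplicit false

noncomputable section

open Classical

namespace Pool.Agent.MPd118f9

variable {k F K : Type} [Field k] [IsAlgClosed k] [CharZero k] [Field F] [Field K] [Algebra k F]
  [Algebra k K] [Algebra F K] [IsScalarTower k F K] [FiniteDimensional F K]

/-- The ring of the elements of `K` integral over `O` satisfies the hypotheses of
`exists_dvr_not_mem`; the traces of its elements are in `O`. -/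
private theorem tdeg_aux (Q : Pt k F) :
    ∃ R : Subalgebra k K, IsNoetherianRing R ∧ IsIntegrallyClosed R ∧
      (∀ x : K, ∃ r ∈ R, ∃ s ∈ R, s ≠ 0 ∧ x = r / s) ∧ (∀ f ∈ Q.1, algebraMap F K f ∈ R) ∧
      ∀ x ∈ R, Algebra.trace F K x ∈ Q.1 := by
  have : CharZero F := charZero_of_injective_algebraMap (algebraMap k F).injective
  let O := Q.1
  let iO : Algebra O K := ((algebraMap F K).comp (algebraMap O F)).toAlgebra
  have hO : ∀ x : O, algebraMap O K x = algebraMap F K (x : F) := fun _ => rfl
  have hst : IsScalarTower O F K := IsScalarTower.of_algebraMap_eq fun _ => rfl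
  have hdvr : IsDiscreteValuationRing O := Q.2.2
  have hsep : Algebra.IsSeparable F K := inferInstance
  have hnoeth : IsNoetherianRing (integralClosure O K) :=
    IsIntegralClosure.isNoetherianRing O F K (integralClosure O K)
  have hcl : IsIntegrallyClosed (integralClosure O K) :=
    integralClosure.isIntegrallyClosedOfFiniteExtension F
  let R : Subalgebra k K :=
    { (integralClosure O K).toSubsemiring with
      algebraMap_mem' := fun c => by
        have h1 : algebraMap k F c ∈ O := Q.2.1 c
        have h2 : algebraMap k K c = algebraMap O K ⟨algebraMap k F c, h1⟩ := by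
          rw [hO, IsScalarTower.algebraMap_apply k F K]
        rw [h2]
        exact (integralClosure O K).algebraMap_mem _ }
  have hR : ∀ x : K, x ∈ R ↔ IsIntegral O x := fun x => Iff.rfl
  let e : integralClosure O K ≃+* R :=
    { toFun := fun x => ⟨x.1, x.2⟩
      invFun := fun x => ⟨x.1, x.2⟩
      left_inv := fun _ => rfl
      right_inv := fun _ => rfl
      map_mul' := fun _ _ => rfl
      map_add' := fun _ _ => rfl }
  have halg : Algebra.IsAlgebraic O K := by
    rw [IsFractionRing.comap_isAlgebraic_iff (A := O) (K := F) (C := K)]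
    infer_instance
  have hinjO : Function.Injective (algebraMap O K) := by
    rw [IsScalarTower.algebraMap_eq O F K]
    exact (algebraMap F K).injective.comp (IsFractionRing.injective O F)
  refine ⟨R, isNoetherianRing_of_ringEquiv _ e, IsIntegrallyClosed.of_equiv e, fun x => ?_,
    fun f hf => ?_, fun x hx => ?_⟩
  · obtain ⟨y, hy, hyx⟩ := (Algebra.IsAlgebraic.isAlgebraic (R := O) x).exists_integral_multiple
    have hy0 : algebraMap O K y ≠ 0 := (map_ne_zero_iff _ hinjO).2 hy
    refine ⟨y • x, hyx, algebraMap O K y, (hR _).2 isIntegral_algebraMap, hy0, ?_⟩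
    rw [Algebra.smul_def, mul_div_cancel_left₀ _ hy0]
  · rw [hR]
    exact isIntegral_algebraMap (x := (⟨f, hf⟩ : O))
  · rw [hR] at hx
    have h1 : IsIntegral O (Algebra.trace F K x) := Algebra.isIntegral_trace hx
    obtain ⟨y, hy⟩ := IsIntegrallyClosed.isIntegral_iff.1 h1
    rw [← hy]
    exact y.2

/-- The trace of an element that is regular at all points above `Q` is regular at `Q`. -/
theorem trace_mem_of_forall (Q : Pt k F) {x : K} (hx : ∀ P : Pt k K, P.below = Q → x ∈ P.1) :
    Algebra.trace F K x ∈ Q.1 := by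
  obtain ⟨R, h1, h2, h3, h4, h5⟩ := tdeg_aux (K := K) Q
  refine h5 x ?_
  by_contra hnot
  obtain ⟨A, hA, hRA, hxA, -⟩ := MP9a7843.exists_dvr_not_mem R h3 hnot
  refine hxA (hx ⟨A, hA⟩ (Pt.below_eq fun f hf hQf => ?_))
  have hf' : algebraMap F K f ≠ 0 := (map_ne_zero_iff _ (algebraMap F K).injective).2 hf
  exact (hA.ord_nonneg_iff hf').2 (hRA _ (h4 f ((Q.2.ord_nonneg_iff hf).1 hQf)))

/-- The local form: if `ord_P x ≥ e_P n` at all points `P` above `Q`, then
`ord_Q (trace x) ≥ n`. -/
theorem leOrd_trace (Q : Pt k F) {n : ℤ} {x : K}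
    (hx : ∀ P : Pt k K, P.below = Q → LeOrd P ((P.ram F : ℤ) * n) x) :
    LeOrd Q n (Algebra.trace F K x) := by
  obtain ⟨ϖ, hϖ⟩ := Q.exists_unif
  have hϖ0 : ϖ ≠ 0 := by
    rintro rfl
    rw [Q.ord_zero] at hϖ
    omega
  have ht0 : ϖ ^ (-n) ≠ 0 := zpow_ne_zero _ hϖ0
  have ht1 : algebraMap F K (ϖ ^ (-n)) ≠ 0 := (map_ne_zero_iff _ (algebraMap F K).injective).2 ht0
  by_cases hT : Algebra.trace F K x = 0
  · exact Or.inl hT
  have h1 : Algebra.trace F K (ϖ ^ (-n) • x) ∈ Q.1 := by
    refine trace_mem_of_forall Q fun P hP => ?_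
    by_cases hx0 : x = 0
    · rw [hx0, smul_zero]
      exact ZeroMemClass.zero_mem _
    have h2 := (hx P hP).resolve_left hx0
    rw [Algebra.smul_def, P.mem_iff (mul_ne_zero ht1 hx0), P.ord_mul ht1 hx0, P.ord_map, hP,
      Q.ord_zpow, hϖ]
    linarith
  rw [map_smul, smul_eq_mul, Q.mem_iff (mul_ne_zero ht0 hT), Q.ord_mul ht0 hT, Q.ord_zpow,
    hϖ] at h1
  right
  linarith

/-- The trace of a section of a pull back. -/
theorem trace_mem_of_pull (hK : IsCurve k K) {D : Dv k F} {x : K} (hx : x ∈ L (pull K D)) :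
    Algebra.trace F K x ∈ L D := by
  by_cases hT : Algebra.trace F K x = 0
  · exact Or.inl hT
  refine Or.inr fun Q => ?_
  refine (leOrd_trace Q (n := -D Q) fun P hP => ?_).resolve_left hT
  rcases hx with h | h
  · exact Or.inl h
  · right
    have h1 := h P
    rw [pull_apply hK, hP] at h1
    linarith

end Pool.Agent.MPd118f9
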