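import Pool.Agent.Lib.MP_d118f9_ag_G.Defs

/-!
# MP_d118f9_ag, covers of any degree: residues (T4)
-/

set_option autoImplicit false

noncomputable section

open Classical

namespace Pool.Agent.MPd118f9

variable {k F : Type} [Field k] [IsAlgClosed k] [CharZero k] [Field F] [Algebra k F]

private theorem tRes_exists (hF : IsCurve k F) {W : Dv k F} (hW : IsCan W) :
    ∃ ω : Ad hF →ₗ[k] k, ω ∈ Om hF W ∧ ω ≠ 0 ∧ ∀ D, ω ∈ Om hF D → D ≤ W := by
  obtain ⟨D₀, ω, hω, hω0⟩ := exists_Om_ne hF
  obtain ⟨W₀, hW₀, hmax⟩ := exists_div_Om hF hω hω0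
  have hrr : ∀ D : Dv k F, (ell D : ℤ) = deg D + 1 - genus k F + ell (W₀ - D) := by
    intro D
    have hmap : (L (W₀ - D)).map (mulOmL hF ω) = Om hF D := by
      apply le_antisymm
      · rintro _ ⟨x, hx, rfl⟩
        exact mulOm_mem_of_L hF hW₀ hx
      · intro η hη
        by_cases hη0 : η = 0
        · rw [hη0]
          exact Submodule.zero_mem _
        obtain ⟨x, hx0, hx⟩ := Om_one_dim hF hW₀ hη hω0 hη0
        refine ⟨x, ?_, hx.symm⟩
        have h1 : ω = mulOm hF x⁻¹ η := by
          rw [hx, mulOm_mul, inv_mul_cancel₀ hx0, mulOm_one]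
        have h2 := mulOm_mem hF hη (inv_ne_zero hx0)
        rw [← h1, hF.dv_inv hx0] at h2
        have h3 := hmax _ h2
        refine (mem_L_of_ne hx0).2 fun P => ?_
        have h4 := h3 P
        rw [Finsupp.add_apply, Finsupp.neg_apply, hF.dv_apply hx0] at h4
        rw [Finsupp.sub_apply]
        linarith
    have h1 : Module.finrank k (Om hF D) = ell (W₀ - D) := by
      rw [← hmap]
      exact (Submodule.equivMapOfInjective _ (mulOmL_inj hF hω0) (L (W₀ - D))).finrank_eq.symm
    have h2 := (finrank_Om hF D).2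
    rw [h1] at h2
    linarith
  obtain ⟨f, hf0, rfl⟩ := rr_equiv hF (isCan_of_rr hF hrr) hW
  have hback : mulOm hF f⁻¹ (mulOm hF f ω) = ω := by
    rw [mulOm_mul, inv_mul_cancel₀ hf0, mulOm_one]
  refine ⟨mulOm hF f ω, mulOm_mem hF hW₀ hf0, ?_, ?_⟩
  · intro h
    apply hω0
    rw [← hback, h]
    rfl
  · intro D hD
    have h2 := mulOm_mem hF hD (inv_ne_zero hf0)
    rw [hback, hF.dv_inv hf0] at h2
    have h3 := hmax _ h2
    rw [← sub_eq_add_neg, sub_le_iff_le_add] at h3
    exact h3

private theorem tRes_mul (hF : IsCurve k F) {W : Dv k F} {ω : Ad hF →ₗ[k] k}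
    (hω : ω ∈ Om hF W) (hω0 : ω ≠ 0) (hmax : ∀ D, ω ∈ Om hF D → D ≤ W) (D : Dv k F)
    {η : Ad hF →ₗ[k] k} (hη : η ∈ Om hF D) : ∃ s ∈ L (W - D), η = mulOm hF s ω := by
  by_cases hη0 : η = 0
  · refine ⟨0, Submodule.zero_mem _, ?_⟩
    rw [hη0]
    exact (map_zero (mulOmL hF ω)).symm
  obtain ⟨x, hx0, hx⟩ := Om_one_dim hF hω hη hω0 hη0
  refine ⟨x, ?_, hx⟩
  have h1 : ω = mulOm hF x⁻¹ η := by
    rw [hx, mulOm_mul, inv_mul_cancel₀ hx0, mulOm_one]
  have h2 := mulOm_mem hF hη (inv_ne_zero hx0)
  rw [← h1, hF.dv_inv hx0] at h2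
  have h3 := hmax _ h2
  refine (mem_L_of_ne hx0).2 fun P => ?_
  have h4 := h3 P
  rw [Finsupp.add_apply, Finsupp.neg_apply, hF.dv_apply hx0] at h4
  rw [Finsupp.sub_apply]
  linarith

/-- The pairing as a map to the dual space. -/
private def tResMap (hF : IsCurve k F) (ω : Ad hF →ₗ[k] k) (D : Dv k F) :
    Ad hF →ₗ[k] (L D →ₗ[k] k) where
  toFun α :=
    { toFun := fun s => ω ((s : F) • α)
      map_add' := fun s t => by
        rw [Submodule.coe_add, add_smul, map_add]
      map_smul' := fun c s => by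
        rw [Submodule.coe_smul, smul_assoc, map_smul, RingHom.id_apply] }
  map_add' α β := by
    apply LinearMap.ext
    intro s
    change ω ((s : F) • (α + β)) = ω ((s : F) • α) + ω ((s : F) • β)
    rw [smul_add, map_add]
  map_smul' c α := by
    apply LinearMap.ext
    intro s
    change ω ((s : F) • (c • α)) = c • ω ((s : F) • α)
    rw [smul_comm, map_smul]

/-- T4.  Proof. Some differential `ω` has the divisor `W` (`exists_div_Om`, `rr_equiv`, `mulOm`).
`rep`: if the functionals `s ↦ ω (s • α)` do not fill the dual space of `L D` then some `s ≠ 0` in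
`L D` has `ω (s • α) = 0` for all `α`, so `ω = 0`. `nondeg`: otherwise a functional `η` vanishes on
`A(W - D) + F` and not at `α`; `η = mulOm s ω` with `s ∈ L D` (proof of `exists_rr`). -/
theorem exists_res (hF : IsCurve k F) {W : Dv k F} (hW : IsCan W) :
    ∃ ω : Ad hF →ₗ[k] k, IsRes hF W ω := by
  obtain ⟨ω, hω, hω0, hmax⟩ := tRes_exists hF hW
  refine ⟨ω, hω.1, hω.2, ?_, ?_⟩
  · intro D lam
    have hfin : FiniteDimensional k (L D) := hF.finDim _
    have h1 : (LinearMap.range (tResMap hF ω D)) = ⊤ := by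
      by_contra hne
      obtain ⟨φ, hφ0, hφ⟩ := Submodule.exists_dual_map_eq_bot_of_lt_top
        (lt_top_iff_ne_top.2 hne) inferInstance
      obtain ⟨s, hs⟩ : ∃ s : L D, Module.Dual.eval k (L D) s = φ := by
        obtain ⟨s, hs⟩ := (Module.evalEquiv k (L D)).surjective φ
        exact ⟨s, hs⟩
      have hs2 : ∀ α : Ad hF, ω ((s : F) • α) = 0 := by
        intro α
        have h2 : φ (tResMap hF ω D α) ∈ Submodule.map φ (LinearMap.range (tResMap hF ω D)) :=
          Submodule.mem_map_of_mem (LinearMap.mem_range_self _ _)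
        rw [hφ, Submodule.mem_bot, ← hs] at h2
        exact h2
      by_cases hs0 : (s : F) = 0
      · apply hφ0
        rw [← hs]
        have h3 : s = 0 := Subtype.ext hs0
        rw [h3, map_zero]
      · apply hω0
        apply LinearMap.ext
        intro α
        have h3 := hs2 ((s : F)⁻¹ • α)
        rw [smul_smul, mul_inv_cancel₀ hs0, one_smul] at h3
        rw [h3, LinearMap.zero_apply]
    have h2 : lam ∈ LinearMap.range (tResMap hF ω D) := by
      rw [h1]
      exact Submodule.mem_top
    obtain ⟨α, hα⟩ := h2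
    refine ⟨α, fun s => ?_⟩
    rw [← hα]
    rfl
  · intro D α hα
    let U : Submodule k (Ad hF) :=
      { carrier := {β | ∃ x : F, InA (W - D) fun P => (β : Pt k F → F) P - x}
        zero_mem' := ⟨0, fun P => by
          change LeOrd P _ ((0 : F) - 0)
          rw [sub_zero]
          exact LeOrd.zero _ _⟩
        add_mem' := by
          rintro β γ ⟨x, hx⟩ ⟨y, hy⟩
          refine ⟨x + y, fun P => ?_⟩
          have h1 := (hx P).add (hy P)
          have h2 : (β : Pt k F → F) P - x + ((γ : Pt k F → F) P - y) =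
              ((β + γ : Ad hF) : Pt k F → F) P - (x + y) := by
            change _ = ((β : Pt k F → F) P + (γ : Pt k F → F) P) - (x + y)
            ring
          change LeOrd P _ (((β + γ : Ad hF) : Pt k F → F) P - (x + y))
          rw [← h2]
          exact h1
        smul_mem' := by
          rintro c β ⟨x, hx⟩
          refine ⟨c • x, fun P => ?_⟩
          have h1 := (hx P).smul c
          have h2 : c • ((β : Pt k F → F) P - x) =
              ((c • β : Ad hF) : Pt k F → F) P - c • x := by
            rw [smul_sub]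
            rfl
          change LeOrd P _ (((c • β : Ad hF) : Pt k F → F) P - c • x)
          rw [← h2]
          exact h1 }
    by_contra hcon
    have hαU : α ∉ U := hcon
    obtain ⟨η, hη0, hηU⟩ := Submodule.exists_le_ker_of_notMem hαU
    have hη : η ∈ Om hF (W - D) := by
      refine ⟨fun β hβ => ?_, fun x => ?_⟩
      · refine LinearMap.mem_ker.1 (hηU ⟨0, fun P => ?_⟩)
        change LeOrd P _ ((β : Pt k F → F) P - 0)
        rw [sub_zero]
        exact hβ P
      · refine LinearMap.mem_ker.1 (hηU ⟨x, fun P => ?_⟩)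
        change LeOrd P _ (x - x)
        rw [sub_self]
        exact LeOrd.zero _ _
    obtain ⟨s, hs, hs2⟩ := tRes_mul hF hω hω0 hmax (W - D) hη
    rw [sub_sub_cancel] at hs
    apply hη0
    rw [hs2, mulOm_apply]
    exact hα s hs

end Pool.Agent.MPd118f9
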