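import Pool.Agent.Lib.MP_d118f9_ag_G.SThree
import Pool.Agent.Lib.MP_d118f9_ag_G.U.UZ

/-!
# MP_d118f9_ag, covers of any degree: the theorem
-/

set_option autoImplicit false

noncomputable section

open Classical

namespace Pool.Agent.MPd118f9

/-- A curve with a function of degree one has genus zero. -/
theorem genus_zero_of_adjoin {k F : Type} [Field k] [IsAlgClosed k] [CharZero k] [Field F]
    [Algebra k F] (hF : IsCurve k F) {x : F} (hx : ∀ c : k, x ≠ algebraMap k F c)
    (h1 : Module.finrank (IntermediateField.adjoin k {x}) F = 1) : genus k F = 0 := by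
  have hdeg := hF.deg_poles hx
  rw [h1] at hdeg
  have hmem : x ∈ L (poles k x) := by
    have hx0 : x ≠ 0 := by
      intro h
      exact hx 0 (by rw [h, map_zero])
    rw [mem_L_of_ne hx0]
    intro P
    have h2 := polesC_apply hF hx0 P
    have h3 := polesC_nonneg (k := k) x P
    rw [h2]
    omega
  obtain ⟨c₀, hc⟩ := hF.riemann
  have h2 := le_ell_nsmul hF (polesC_nonneg x) hmem hx c₀.toNat
  have h3 := hc (c₀.toNat • poles k x) (by
    rw [deg_nsmul, hdeg, Nat.cast_one, mul_one]
    exact Int.self_le_toNat _)
  rw [deg_nsmul, hdeg, Nat.cast_one, mul_one] at h3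
  omega

/-- **Green's conjecture for all curves of bounded gonality and large genus.** -/
theorem green_gonality (k : Type) [Field k] [IsAlgClosed k] [CharZero k] (d : ℕ) :
    ∃ N : ℕ, ∀ (K : Type) [Field K] [Algebra k K], IsCurve k K → gon k K ≤ d → N ≤ genus k K →
      ∀ W : Dv k K, IsCan W → (∀ p : ℕ, p < cliff W → Np W p) ∧
        cliff W + 2 ≤ gon k K ∧ ∀ p : ℕ, p + 3 ≤ gon k K → Np W p := by
  choose N hN using fun e : ℕ => stage3 k e 0
  refine ⟨max ((Finset.range (d + 1)).sup N) (d + 3), ?_⟩
  intro K _ _ hK hd hg W hW
  have hgs : (Finset.range (d + 1)).sup N ≤ genus k K := (le_max_left _ _).trans hg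
  have hgd : d + 3 ≤ genus k K := (le_max_right _ _).trans hg
  have hcl : cliff W + 2 ≤ gon k K := by
    have h1 := cliff_cov (F := K) (K := K) hK hK hW (by
      rw [Module.finrank_self, one_mul]
      omega)
    rwa [Module.finrank_self, one_mul] at h1
  have hmain : ∀ p : ℕ, p + 3 ≤ gon k K → Np W p := by
    intro p hp
    obtain ⟨D, hD, hell, hdeg⟩ := exists_gon hK
    obtain ⟨x, hx, hxk⟩ : ∃ x ∈ L D, ∀ c : k, x ≠ algebraMap k K c := by
      by_contra hno
      push Not at hno
      have h1 : L D ≤ L (0 : Dv k K) := fun x hx => hK.mem_L_zero.2 (hno x hx)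
      have := hK.finDim (0 : Dv k K)
      have h2 : ell D ≤ ell (0 : Dv k K) := Submodule.finrank_mono h1
      rw [hK.ell_zero] at h2
      omega
    have hdx := hK.deg_poles hxk
    have hle : deg (poles k x) ≤ deg D := deg_mono (poles_le_of_mem hK hD hx)
    have hfin := hK.finDim_adjoin hxk
    have hpos : 0 < Module.finrank (IntermediateField.adjoin k {x}) K := Module.finrank_pos
    have hed : Module.finrank (IntermediateField.adjoin k {x}) K ≤ d := by
      have h1 : (Module.finrank (IntermediateField.adjoin k {x}) K : ℤ) ≤ d := by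
        rw [← hdx]
        refine hle.trans ?_
        rw [hdeg]
        exact_mod_cast hd
      exact_mod_cast h1
    -- the subfield
    set F := IntermediateField.adjoin k {x} with hF'
    let y : F := ⟨x, IntermediateField.mem_adjoin_simple_self k x⟩
    have hyk : ∀ c : k, y ≠ algebraMap k F c := by
      intro c hc
      exact hxk c (congrArg (fun z : F => (z : K)) hc)
    have htr : Transcendental k x := transcendental_of_ne hxk
    have htop : IntermediateField.adjoin k {y} = ⊤ := by
      rw [eq_top_iff]
      rintro ⟨z, hz⟩ -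
      have h1 : (IntermediateField.adjoin k {y}).map F.val = IntermediateField.adjoin k {x} := by
        rw [IntermediateField.adjoin_map, Set.image_singleton]
        rfl
      have h2 : z ∈ (IntermediateField.adjoin k {y}).map F.val := by
        rw [h1]
        exact hz
      obtain ⟨w, hw, hwz⟩ := h2
      have h3 : w = ⟨z, hz⟩ := Subtype.ext hwz
      rw [← h3]
      exact hw
    have hfr : Module.finrank (IntermediateField.adjoin k {y}) F = 1 := by
      rw [htop]
      exact IntermediateField.finrank_top
    have hFc : IsCurve k F := by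
      refine ⟨y, ?_, ?_⟩
      · have h1 : Transcendental k (algebraMap F K y) := htr
        exact (transcendental_algebraMap_iff (algebraMap F K).injective).1 h1
      · exact FiniteDimensional.of_finrank_pos (by rw [hfr]; norm_num)
    have hg0 := genus_zero_of_adjoin hFc hyk hfr
    refine hN _ F hFc hg0.le K rfl hpos ?_ W hW p hp
    refine le_trans ?_ hgs
    exact Finset.le_sup (f := N) (Finset.mem_range.2 (by omega))
  exact ⟨fun p hp => hmain p (by omega), hcl, hmain⟩

end Pool.Agent.MPd118f9
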