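import Pool.Agent.Lib.MP_d118f9_ag_G.TRes
import Pool.Agent.Lib.MP_d118f9_ag.Iface1
import Pool.Agent.Lib.MP_d118f9_ag.D.DCliff

/-!
# MP_d118f9_ag, covers of any degree: strong approximation and base points
-/

set_option autoImplicit false

noncomputable section

open Classical

namespace Pool.Agent.MPd118f9

variable {k F : Type} [Field k] [IsAlgClosed k] [CharZero k] [Field F] [Algebra k F]

/-- A function on the points with finite support is a repartition. -/
theorem exists_inA_of_finite {α : Pt k F → F} (h : {P : Pt k F | α P ≠ 0}.Finite) :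
    ∃ D : Dv k F, InA D α := by
  refine ⟨Finsupp.onFinset h.toFinset (fun P => -P.ord (α P)) ?_, fun P => ?_⟩
  · intro P hP
    rw [Set.Finite.mem_toFinset]
    show α P ≠ 0
    intro h0
    apply hP
    rw [h0, P.ord_zero, neg_zero]
  · refine Or.inr ?_
    show -(-P.ord (α P)) ≤ _
    rw [neg_neg]

theorem L_eq_bot_of_deg_neg (hF : IsCurve k F) {D : Dv k F} (h : deg D < 0) {x : F}
    (hx : x ∈ L D) : x = 0 := by
  have h1 := hF.ell_of_deg_neg h
  have := hF.finDim D
  have h2 : L D = ⊥ := Submodule.finrank_eq_zero.1 h1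
  rw [h2] at hx
  exact (Submodule.mem_bot k).1 hx

/-- Strong approximation for divisors of degree greater than `2 h - 2`. -/
theorem exists_approx_of_deg (hF : IsCurve k F) {W : Dv k F} (hW : IsCan W) {B : Dv k F}
    (hB : 2 * (genus k F : ℤ) - 2 < deg B) {α : Pt k F → F}
    (hα : {P : Pt k F | α P ≠ 0}.Finite) :
    ∃ x : F, ∀ P : Pt k F, LeOrd P (-B P) (α P - x) := by
  obtain ⟨ω, hω⟩ := exists_res hF hW
  obtain ⟨D, hD⟩ := exists_inA_of_finite hα
  have hdeg : deg (W - B) < 0 := by
    rw [deg_sub, hW.1]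
    linarith
  obtain ⟨x, hx⟩ := hω.nondeg (W - B) ⟨α, D, hD⟩ (by
    intro s hs
    rw [L_eq_bot_of_deg_neg hF hdeg hs, zero_smul, map_zero])
  refine ⟨x, fun P => ?_⟩
  have h1 := hx P
  rwa [sub_sub_cancel] at h1

/-- The divisors of degree at least `2 h` have no base points. -/
theorem exists_not_mem_sub (hF : IsCurve k F) {D : Dv k F} (P : Pt k F)
    (hD : 2 * (genus k F : ℤ) ≤ deg D) : ∃ f ∈ L D, f ∉ L (D - Finsupp.single P 1) := by
  obtain ⟨W, hW⟩ := hF.exists_can
  have h1 := hW.riemann_roch hF D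
  have h2 := hW.riemann_roch hF (D - Finsupp.single P 1)
  have h3 : ell (W - D) = 0 := hF.ell_of_deg_neg (by rw [deg_sub, hW.1]; linarith)
  have h4 : ell (W - (D - Finsupp.single P 1)) = 0 := hF.ell_of_deg_neg (by
    rw [deg_sub, deg_sub, deg_single, hW.1]
    linarith)
  rw [h3] at h1
  rw [h4, deg_sub, deg_single] at h2
  by_contra hcon
  push Not at hcon
  have h5 : L D ≤ L (D - Finsupp.single P 1) := hcon
  have := hF.finDim (D - Finsupp.single P 1)
  have h6 : ell D ≤ ell (D - Finsupp.single P 1) := Submodule.finrank_mono h5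
  omega

/-- The canonical divisors have no base points for `h ≥ 1`. -/
theorem exists_not_mem_can (hF : IsCurve k F) (hg : 1 ≤ genus k F) {W : Dv k F} (hW : IsCan W)
    (P : Pt k F) : ∃ f ∈ L W, f ∉ L (W - Finsupp.single P 1) := by
  have h2 := hW.riemann_roch hF (W - Finsupp.single P 1)
  rw [sub_sub_cancel, deg_sub, deg_single, hW.1] at h2
  have h0 : (0 : Dv k F) ≤ Finsupp.single P 1 := Finsupp.single_nonneg.2 (by norm_num)
  have h3 : ell (Finsupp.single P 1 : Dv k F) ≤ 1 := by
    by_contra hcon
    push Not at hcon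
    have h4 := hF.ell_add_single_le 0 P
    rw [zero_add, hF.ell_zero] at h4
    have h5 := two_le_deg hF hg h0 (by omega)
    rw [deg_single] at h5
    omega
  by_contra hcon
  push Not at hcon
  have h5 : L W ≤ L (W - Finsupp.single P 1) := hcon
  have := hF.finDim (W - Finsupp.single P 1)
  have h6 : ell W ≤ ell (W - Finsupp.single P 1) := Submodule.finrank_mono h5
  have h7 := hW.2
  omega

/-- If the functions `x l` span `L(D)` and `L(D)` has no base point `P`, then one of them has the
order `-D P` at `P`. -/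
theorem exists_ord_eq_of_span {D : Dv k F} {P : Pt k F} {ι : Type} {x : ι → F}
    (hx : Submodule.span k (Set.range x) = L D)
    (h : ∃ f ∈ L D, f ∉ L (D - Finsupp.single P 1)) :
    ∃ l, x l ≠ 0 ∧ P.ord (x l) = -D P := by
  by_contra hcon
  push Not at hcon
  obtain ⟨f, hf, hf'⟩ := h
  apply hf'
  have h1 : L D ≤ L (D - Finsupp.single P 1) := by
    rw [← hx, Submodule.span_le]
    rintro _ ⟨l, rfl⟩
    have h2 : x l ∈ L D := by
      rw [← hx]
      exact Submodule.subset_span ⟨l, rfl⟩
    by_cases h0 : x l = 0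
    · rw [h0]
      exact Submodule.zero_mem _
    have h3 := (mem_L_of_ne h0).1 h2
    refine (mem_L_of_ne h0).2 fun Q => ?_
    rw [Finsupp.sub_apply]
    by_cases hQ : Q = P
    · subst hQ
      rw [Finsupp.single_eq_same]
      have h4 := hcon l h0
      have h5 := h3 Q
      omega
    · rw [Finsupp.single_eq_of_ne hQ]
      have h5 := h3 Q
      omega
  exact h1 hf

end Pool.Agent.MPd118f9
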