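import Pool.Agent.Lib.MP_d118f9_ag_G.A

/-!
# MP_d118f9_ag, covers of any degree: forms that vanish on the kernel (W1)
-/

set_option autoImplicit false

noncomputable section

open Classical

namespace Pool.Agent.MPd118f9

variable {k F K : Type} [Field k] [IsAlgClosed k] [CharZero k] [Field F] [Field K] [Algebra k F]
  [Algebra k K] [Algebra F K] [IsScalarTower k F K] [FiniteDimensional F K]

section

variable {L : Type} [Field L] {g n : ℕ}

private theorem wind_pr_single (x : Fin g → L) (l : Fin g) : pr x (Pi.single l 1) = x l := by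
  rw [pr, Finset.sum_eq_single l]
  · rw [Pi.single_eq_same, mul_one]
  · intro b _ hb
    rw [Pi.single_eq_of_ne hb, mul_zero]
  · intro h
    exact absurd (Finset.mem_univ l) h

private theorem wind_pr_smul (x : Fin g → L) (t : L) (c : Fin g → L) :
    pr x (t • c) = t * pr x c := by
  rw [pr, pr, Finset.mul_sum]
  refine Finset.sum_congr rfl fun l _ => ?_
  rw [Pi.smul_apply, smul_eq_mul]
  ring

private theorem wind_pr_sub (x : Fin g → L) (c c' : Fin g → L) :
    pr x (c - c') = pr x c - pr x c' := by
  rw [pr, pr, pr, ← Finset.sum_sub_distrib]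
  refine Finset.sum_congr rfl fun l _ => ?_
  rw [Pi.sub_apply]
  ring

private theorem wind_pr_sum {ι : Type} (s : Finset ι) (x : Fin g → L) (c : ι → Fin g → L) :
    pr x (∑ i ∈ s, c i) = ∑ i ∈ s, pr x (c i) := by
  simp only [pr]
  rw [Finset.sum_comm]
  refine Finset.sum_congr rfl fun l _ => ?_
  rw [Finset.sum_apply, Finset.mul_sum]

private theorem wind_single (ψ : (Fin n → Fin g) → L) (I : Fin n → Fin g) :
    evf ψ (fun j => Pi.single (I j) 1) = ψ I := by
  have key : ∀ inst : DecidableEq (Fin g),
      evf ψ (fun j => @Pi.single (Fin g) (fun _ => L) _ inst (I j) 1) = ψ I := by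
    intro inst
    have h1 : inst = fun a b => Classical.propDecidable (a = b) := Subsingleton.elim _ _
    subst h1
    exact evf_single ψ I
  exact key _

/-- A form that vanishes on the tuples of a spanning family is zero. -/
private theorem wind_span {m : ℕ} (ψ : (Fin n → Fin g) → L) (w : Fin m → Fin g → L)
    (hb : ∀ l, (Pi.single l 1 : Fin g → L) ∈ Submodule.span L (Set.range w))
    (h : ∀ I : Fin n → Fin m, evf ψ (fun j => w (I j)) = 0) : ψ = 0 := by
  have h1 : ∀ l, ∃ b : Fin m → L, ∑ x, b x • w x = (Pi.single l 1 : Fin g → L) := fun l =>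
    (Submodule.mem_span_range_iff_exists_fun L).1 (hb l)
  choose b hb using h1
  funext I
  have h2 : ψ I = evM ψ fun j => Pi.single (I j) 1 := (wind_single ψ I).symm
  have h3 : (fun j => (Pi.single (I j) 1 : Fin g → L)) = fun j => ∑ x, b (I j) x • w x :=
    funext fun j => (hb (I j)).symm
  rw [h2, h3, MultilinearMap.map_sum]
  refine Finset.sum_eq_zero fun r _ => ?_
  rw [MultilinearMap.map_smul_univ]
  have h4 : evM ψ (fun j => w (r j)) = 0 := h r
  rw [h4, smul_zero]

/-- A form vanishes on the kernel of `x` if and only if its product with `x` is zero. -/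
private theorem wind_agr [CharZero L] (x : Fin g → L) {l : Fin g} (hl : x l ≠ 0)
    {φ : (Fin n → Fin g) → L} (hφ : Alt φ) : Agr x φ 0 ↔ wg x φ = 0 := by
  constructor
  · intro h
    cases n with
    | zero =>
      have h1 : φ = 0 := by
        funext I
        have h2 := h (fun j => Pi.single (I j) 1) fun j => Fin.elim0 j
        rw [wind_single, wind_single] at h2
        exact h2
      subst h1
      have h3 := wg_sub x (0 : (Fin 0 → Fin g) → L) 0
      rw [sub_self, sub_self] at h3
      exact h3
    | succ n =>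
      have hψ : Alt fun J : Fin n → Fin g => φ (Fin.cons l J) / x l := by
        intro σ J
        have h4 := hφ (Equiv.Perm.decomposeFin.symm (0, σ)) (Fin.cons l J)
        have h5 : (Fin.cons l J : Fin (n + 1) → Fin g) ∘ Equiv.Perm.decomposeFin.symm (0, σ) =
            Fin.cons l (J ∘ σ) := by
          funext j
          refine Fin.cases ?_ (fun j => ?_) j
          · simp
          · simp
        rw [h5, Equiv.Perm.decomposeFin.symm_sign] at h4
        simp only [if_true, one_mul] at h4
        show φ (Fin.cons l (J ∘ σ)) / x l = _ • (φ (Fin.cons l J) / x l)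
        rw [h4, zsmul_eq_mul, zsmul_eq_mul, mul_div_assoc]
      rw [eq_wg_of_agr hφ h hl]
      exact wg_wg x hψ
  · intro h c hc
    have h1 := evf_wg x φ (Fin.cons (Pi.single l 1) c)
    rw [h, evf_zero, Fin.sum_univ_succ] at h1
    have h2 : ∑ i : Fin n, (-1 : L) ^ ((i.succ : Fin (n + 1)) : ℕ) *
        (pr x ((Fin.cons (Pi.single l 1) c : Fin (n + 1) → Fin g → L) i.succ) *
          evf φ fun l' => (Fin.cons (Pi.single l 1) c : Fin (n + 1) → Fin g → L)
            (i.succ.succAbove l')) = 0 := by
      refine Finset.sum_eq_zero fun i _ => ?_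
      rw [Fin.cons_succ, hc i, zero_mul, mul_zero]
    rw [h2, add_zero, Fin.val_zero, pow_zero, one_mul, Fin.cons_zero, wind_pr_single] at h1
    have h3 : (fun l' : Fin n => (Fin.cons (Pi.single l 1) c : Fin (n + 1) → Fin g → L)
        ((0 : Fin (n + 1)).succAbove l')) = c := by
      funext l'
      rw [Fin.zero_succAbove, Fin.cons_succ]
    rw [h3] at h1
    rw [evf_zero]
    exact (mul_eq_zero.1 h1.symm).resolve_left hl

end

/-- The vectors of the adapted basis. -/
def abv {g r : ℕ} (idx : Fin (r + 1) → Fin g) (a : Fin g → Fin (r + 1) → F) (l : Fin g) :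
    Fin g → F :=
  if l ∈ Set.range idx then Pi.single l 1 else
    Pi.single l 1 - ∑ i, a l i • Pi.single (idx i) 1

/-- The form `φ` vanishes on the adapted tuples that do not contain all the vectors `e_(idx i)`. -/
def InD {g r : ℕ} (idx : Fin (r + 1) → Fin g) (a : Fin g → Fin (r + 1) → F) {n : ℕ}
    (φ : (Fin n → Fin g) → F) : Prop :=
  ∀ I : Fin n → Fin g, (∃ i, ∀ j, I j ≠ idx i) → evf φ (fun j => abv idx a (I j)) = 0

omit [Algebra k F] [Algebra k K] [IsScalarTower k F K] [IsAlgClosed k] [CharZero k]
  [FiniteDimensional F K] in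
/-- W1.  The `F`-valued forms that vanish on the kernel over `K`. -/
theorem agr_iff_inD [CharZero F] {g r n : ℕ} (v : Fin g → K) (idx : Fin (r + 1) → Fin g)
    (hidx : LinearIndependent F fun i => v (idx i)) (a : Fin g → Fin (r + 1) → F)
    (ha : ∀ l, v l = ∑ i, a l i • v (idx i)) {φ : (Fin n → Fin g) → F} (hφ : Alt φ) :
    Agr v (fun I => algebraMap F K (φ I)) 0 ↔ InD idx a φ := by
  have hK : CharZero K := charZero_of_injective_algebraMap (algebraMap F K).injective
  have hφK : Alt fun I => algebraMap F K (φ I) := by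
    intro σ I
    show algebraMap F K (φ (I ∘ σ)) = _ • algebraMap F K (φ I)
    rw [hφ σ I, map_zsmul]
  have hv0 : v (idx 0) ≠ 0 := hidx.ne_zero 0
  obtain ⟨w, hw⟩ : ∃ w : Fin g → Fin g → K, ∀ l l', w l l' = algebraMap F K (abv idx a l l') :=
    ⟨_, fun l l' => rfl⟩
  have hmap : ∀ I : Fin n → Fin g, evf (fun I => algebraMap F K (φ I)) (fun j => w (I j)) =
      algebraMap F K (evf φ fun j => abv idx a (I j)) := by
    intro I
    rw [evf_map]
    congr 1
    funext j l
    exact hw _ _
  have hw1 : ∀ i, w (idx i) = Pi.single (idx i) 1 := by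
    intro i
    funext l'
    rw [hw, abv, if_pos ⟨i, rfl⟩]
    by_cases h : l' = idx i
    · subst h
      rw [Pi.single_eq_same, Pi.single_eq_same, map_one]
    · rw [Pi.single_eq_of_ne h, Pi.single_eq_of_ne h, map_zero]
  have hw2 : ∀ l, l ∉ Set.range idx →
      w l = Pi.single l 1 - ∑ i, algebraMap F K (a l i) • w (idx i) := by
    intro l hl
    funext l'
    rw [hw, abv, if_neg hl, Pi.sub_apply, Finset.sum_apply, map_sub, map_sum, Pi.sub_apply,
      Finset.sum_apply]
    have h1 : ∀ m : Fin g, algebraMap F K ((Pi.single m 1 : Fin g → F) l') =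
        (Pi.single m 1 : Fin g → K) l' := by
      intro m
      by_cases h : l' = m
      · subst h
        rw [Pi.single_eq_same, Pi.single_eq_same, map_one]
      · rw [Pi.single_eq_of_ne h, Pi.single_eq_of_ne h, map_zero]
    rw [h1]
    congr 1
    refine Finset.sum_congr rfl fun i _ => ?_
    rw [Pi.smul_apply, Pi.smul_apply, smul_eq_mul, smul_eq_mul, map_mul, h1, hw1]
  have hp1 : ∀ i, pr v (w (idx i)) = v (idx i) := by
    intro i
    rw [hw1, wind_pr_single]
  have hp2 : ∀ l, l ∉ Set.range idx → pr v (w l) = 0 := by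
    intro l hl
    rw [hw2 l hl, wind_pr_sub, wind_pr_single, wind_pr_sum, ha l, sub_eq_zero]
    refine Finset.sum_congr rfl fun i _ => ?_
    rw [wind_pr_smul, hp1, Algebra.smul_def]
  have hspan : ∀ l, (Pi.single l 1 : Fin g → K) ∈ Submodule.span K (Set.range w) := by
    intro l
    by_cases hl : l ∈ Set.range idx
    · obtain ⟨i, rfl⟩ := hl
      rw [← hw1]
      exact Submodule.subset_span ⟨_, rfl⟩
    · have h1 : (Pi.single l 1 : Fin g → K) =
          w l + ∑ i, algebraMap F K (a l i) • w (idx i) := by
        rw [hw2 l hl, sub_add_cancel]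
      rw [h1]
      refine Submodule.add_mem _ (Submodule.subset_span ⟨_, rfl⟩)
        (Submodule.sum_mem _ fun i _ => ?_)
      exact Submodule.smul_mem _ _ (Submodule.subset_span ⟨_, rfl⟩)
  rw [wind_agr v hv0 hφK]
  constructor
  · rintro h I ⟨i₁, hi₁⟩
    have h1 := evf_wg v (fun I => algebraMap F K (φ I))
      (Fin.cons (w (idx i₁)) fun j => w (I j))
    rw [h, evf_zero, Fin.sum_univ_succ, Fin.val_zero, pow_zero, one_mul, Fin.cons_zero, hp1] at h1
    have h2 : (fun l' : Fin n => (Fin.cons (w (idx i₁)) (fun j => w (I j)) :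
        Fin (n + 1) → Fin g → K) ((0 : Fin (n + 1)).succAbove l')) = fun j => w (I j) := by
      funext l'
      rw [Fin.zero_succAbove, Fin.cons_succ]
    rw [h2, hmap] at h1
    have h3 : ∀ j : Fin n, ∃ b : Fin (r + 1) → F, b i₁ = 0 ∧
        (-1 : K) ^ ((j.succ : Fin (n + 1)) : ℕ) *
        (pr v ((Fin.cons (w (idx i₁)) (fun j => w (I j)) : Fin (n + 1) → Fin g → K) j.succ) *
          evf (fun I => algebraMap F K (φ I)) fun l' =>
            (Fin.cons (w (idx i₁)) (fun j => w (I j)) : Fin (n + 1) → Fin g → K)
              (j.succ.succAbove l')) = ∑ i, b i • v (idx i) := by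
      intro j
      rw [Fin.cons_succ]
      by_cases hj : I j ∈ Set.range idx
      · obtain ⟨i, hi⟩ := hj
        obtain ⟨I', hI'⟩ : ∃ I' : Fin n → Fin g, (fun l' =>
            (Fin.cons (w (idx i₁)) (fun j => w (I j)) : Fin (n + 1) → Fin g → K)
              (j.succ.succAbove l')) = fun l' => w (I' l') := by
          refine ⟨fun l' => (Fin.cons (idx i₁) I : Fin (n + 1) → Fin g) (j.succ.succAbove l'), ?_⟩
          have h4 : ∀ m : Fin (n + 1), (Fin.cons (w (idx i₁)) (fun j => w (I j)) :
              Fin (n + 1) → Fin g → K) m = w ((Fin.cons (idx i₁) I : Fin (n + 1) → Fin g) m) := by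
            intro m
            refine Fin.cases ?_ (fun m => ?_) m
            · rw [Fin.cons_zero, Fin.cons_zero]
            · rw [Fin.cons_succ, Fin.cons_succ]
          funext l'
          exact h4 _
        have hne : i ≠ i₁ := fun h4 => hi₁ j (by rw [← hi, h4])
        refine ⟨Pi.single i ((-1) ^ ((j.succ : Fin (n + 1)) : ℕ) *
          evf φ fun l' => abv idx a (I' l')), Pi.single_eq_of_ne hne.symm _, ?_⟩
        rw [hI', hmap, ← hi, hp1, Finset.sum_eq_single i]
        · rw [Pi.single_eq_same, Algebra.smul_def, map_mul, map_pow, map_neg, map_one]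
          ring
        · intro b _ hb
          rw [Pi.single_eq_of_ne hb, zero_smul]
        · intro h4
          exact absurd (Finset.mem_univ i) h4
      · refine ⟨0, rfl, ?_⟩
        rw [hp2 _ hj, zero_mul, mul_zero]
        simp
    choose b hb0 hb using h3
    rw [Finset.sum_congr rfl fun j _ => hb j, Finset.sum_comm] at h1
    obtain ⟨e, he⟩ : ∃ e : Fin (r + 1) → F,
        e = Pi.single i₁ (evf φ fun j => abv idx a (I j)) := ⟨_, rfl⟩
    have h4 : ∑ i, (e i + ∑ j, b j i) • v (idx i) = 0 := by
      have h5 : ∑ i, e i • v (idx i) =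
          v (idx i₁) * algebraMap F K (evf φ fun j => abv idx a (I j)) := by
        rw [he]
        rw [Finset.sum_eq_single i₁]
        · rw [Pi.single_eq_same, Algebra.smul_def, mul_comm]
        · intro b _ hb
          rw [Pi.single_eq_of_ne hb, zero_smul]
        · intro h4
          exact absurd (Finset.mem_univ i₁) h4
      simp only [add_smul]
      rw [Finset.sum_add_distrib, h5, h1]
      congr 1
      refine Finset.sum_congr rfl fun i _ => ?_
      rw [Finset.sum_smul]
    have h6 := Fintype.linearIndependent_iff.1 hidx _ h4 i₁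
    rw [he, Pi.single_eq_same, Finset.sum_eq_zero fun j _ => hb0 j, add_zero] at h6
    exact h6
  · intro h
    refine wind_span _ w hspan fun I => ?_
    by_cases hI : Function.Injective I
    · rw [evf_wg]
      refine Finset.sum_eq_zero fun j _ => ?_
      by_cases hj : I j ∈ Set.range idx
      · obtain ⟨i, hi⟩ := hj
        have h1 : evf (fun I => algebraMap F K (φ I)) (fun l => w (I (j.succAbove l))) = 0 := by
          rw [hmap fun l => I (j.succAbove l), h (fun l => I (j.succAbove l)) ⟨i, fun l hl => ?_⟩,
            map_zero]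
          exact Fin.succAbove_ne j l (hI (hl.trans hi))
        rw [h1, mul_zero, mul_zero]
      · rw [hp2 _ hj, zero_mul, mul_zero]
    · simp only [Function.Injective, not_forall] at hI
      obtain ⟨i, j, hij, hne⟩ := hI
      exact evf_eq_zero_of_eq (alt_wg v hφK) _ hne (by rw [hij])

end Pool.Agent.MPd118f9
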