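import Pool.Agent.Lib.MP_d118f9_ag_G.WInD

/-!
# MP_d118f9_ag, covers of any degree: weights (W2, first part)

All the statements of this file are about forms with values in `F` in index form.
-/

set_option autoImplicit false

noncomputable section

open Classical

namespace Pool.Agent.MPd118f9

section

variable {F : Type} [Field F] {g r n : ℕ}

/-- The weight of a tuple. -/
def wt (lev : Fin g → Fin (r + 1)) (I : Fin n → Fin g) : ℕ := ∑ j, (lev (I j) : ℕ)

/-- The form vanishes on the tuples of weight less than `w`. -/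
def Van (lev : Fin g → Fin (r + 1)) (w : ℕ) (φ : (Fin n → Fin g) → F) : Prop :=
  ∀ I, wt lev I < w → φ I = 0

/-- Substitution of vectors. -/
def sbt (T : Fin g → Fin g → F) (φ : (Fin n → Fin g) → F) : (Fin n → Fin g) → F :=
  fun I => evf φ fun j => T (I j)

/-- The vectors that express the unit vectors in the adapted basis. -/
def bv (idx : Fin (r + 1) → Fin g) (a : Fin g → Fin (r + 1) → F) (l : Fin g) : Fin g → F :=
  if l ∈ Set.range idx then Pi.single l 1 else
    Pi.single l 1 + ∑ i, a l i • Pi.single (idx i) 1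

/-- The data of an adapted basis. -/
structure IsAd (lev : Fin g → Fin (r + 1)) (x : Fin g → F) (idx : Fin (r + 1) → Fin g)
    (a : Fin g → Fin (r + 1) → F) : Prop where
  lev_idx : ∀ i, lev (idx i) = i
  a_idx : ∀ i, a (idx i) = Pi.single i 1
  low : ∀ l i, lev l < i → a l i = 0
  top : ∀ l, a l (lev l) * x (idx (lev l)) = x l
  x_ne : ∀ i, x (idx i) ≠ 0

private theorem evf_single' (φ : (Fin n → Fin g) → F) (I : Fin n → Fin g) :
    evf φ (fun j => Pi.single (I j) 1) = φ I := by
  have key : ∀ inst : DecidableEq (Fin g),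
      evf φ (fun j => @Pi.single (Fin g) (fun _ => F) _ inst (I j) 1) = φ I := by
    intro inst
    have h1 : inst = fun a b => Classical.propDecidable (a = b) := Subsingleton.elim _ _
    subst h1
    exact evf_single φ I
  exact key _

theorem evf_sbt (T : Fin g → Fin g → F) (φ : (Fin n → Fin g) → F) (c : Fin n → Fin g → F) :
    evf (sbt T φ) c = evf φ fun j => ∑ l, c j l • T l := by
  unfold sbt evf
  simp only [Finset.mul_sum]
  rw [Finset.sum_comm]
  refine Finset.sum_congr rfl fun I' _ => ?_
  simp only [Finset.sum_apply, Pi.smul_apply, smul_eq_mul]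
  rw [Finset.prod_univ_sum, Finset.sum_mul, Fintype.piFinset_univ]
  refine Finset.sum_congr rfl fun I _ => ?_
  rw [← mul_assoc, ← Finset.prod_mul_distrib]

theorem alt_sbt (T : Fin g → Fin g → F) {φ : (Fin n → Fin g) → F} (h : Alt φ) :
    Alt (sbt T φ) := fun σ I => evf_perm h (fun j => T (I j)) σ

/-- Terms of low weight vanish. -/
theorem evf_low {lev : Fin g → Fin (r + 1)} {w : ℕ} {φ : (Fin n → Fin g) → F}
    (hφ : Van lev w φ) {c : Fin n → Fin g → F} {lam : Fin n → Fin (r + 1)}
    (hc : ∀ j l, lam j < lev l → c j l = 0) (hw : ∑ j, (lam j : ℕ) < w) : evf φ c = 0 := by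
  unfold evf
  refine Finset.sum_eq_zero fun I _ => ?_
  by_cases h : ∃ j, lam j < lev (I j)
  · obtain ⟨j, hj⟩ := h
    rw [Finset.prod_eq_zero (Finset.mem_univ j) (hc j _ hj), zero_mul]
  · push Not at h
    rw [hφ I, mul_zero]
    refine lt_of_le_of_lt (Finset.sum_le_sum fun j _ => ?_) hw
    exact h j

/-- Only the terms of the highest level matter in weight `w`. -/
theorem evf_top {lev : Fin g → Fin (r + 1)} {w : ℕ} {φ : (Fin n → Fin g) → F}
    (hφ : Van lev w φ) {c c' : Fin n → Fin g → F} {lam : Fin n → Fin (r + 1)}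
    (hc : ∀ j l, lam j < lev l → c j l = 0) (hc' : ∀ j l, lam j < lev l → c' j l = 0)
    (h : ∀ j l, lev l = lam j → c j l = c' j l) (hw : ∑ j, (lam j : ℕ) = w) :
    evf φ c = evf φ c' := by
  unfold evf
  refine Finset.sum_congr rfl fun I _ => ?_
  by_cases h1 : ∃ j, lam j < lev (I j)
  · obtain ⟨j, hj⟩ := h1
    rw [Finset.prod_eq_zero (Finset.mem_univ j) (hc j _ hj),
      Finset.prod_eq_zero (Finset.mem_univ j) (hc' j _ hj)]
  · push Not at h1
    by_cases h2 : ∃ j, lev (I j) < lam j
    · rw [hφ I, mul_zero, mul_zero]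
      obtain ⟨j, hj⟩ := h2
      rw [← hw]
      exact Finset.sum_lt_sum (fun j _ => h1 j) ⟨j, Finset.mem_univ j, hj⟩
    · push Not at h2
      congr 1
      exact Finset.prod_congr rfl fun j _ => h j _ (le_antisymm (h1 j) (h2 j))

theorem Van.sub {lev : Fin g → Fin (r + 1)} {w : ℕ} {φ ψ : (Fin n → Fin g) → F}
    (h : Van lev w φ) (h' : Van lev w ψ) : Van lev w (φ - ψ) := fun I hI => by
  rw [Pi.sub_apply, h I hI, h' I hI, sub_zero]

theorem Van.mono {lev : Fin g → Fin (r + 1)} {w w' : ℕ} (hw : w' ≤ w)
    {φ : (Fin n → Fin g) → F} (h : Van lev w φ) : Van lev w' φ := fun I hI =>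
  h I (lt_of_lt_of_le hI hw)

variable {lev : Fin g → Fin (r + 1)} {x : Fin g → F} {idx : Fin (r + 1) → Fin g}
  {a : Fin g → Fin (r + 1) → F}

theorem IsAd.inj (h : IsAd lev x idx a) : Function.Injective idx := fun i j hij => by
  rw [← h.lev_idx i, hij, h.lev_idx]

theorem IsAd.abv_range {l : Fin g} (hl : l ∈ Set.range idx) : abv idx a l = Pi.single l 1 := by
  unfold abv
  rw [if_pos hl]

theorem IsAd.abv_not {l : Fin g} (hl : l ∉ Set.range idx) :
    abv idx a l = Pi.single l 1 - ∑ i, a l i • Pi.single (idx i) 1 := by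
  unfold abv
  rw [if_neg hl]

/-- the coordinate of `∑ i, t i • e_(idx i)` -/
theorem IsAd.sum_single (h : IsAd lev x idx a) (t : Fin (r + 1) → F) (m : Fin g) :
    (∑ i, t i • (Pi.single (idx i) (1 : F) : Fin g → F)) m =
      if m = idx (lev m) then t (lev m) else 0 := by
  rw [Finset.sum_apply]
  simp only [Pi.smul_apply, smul_eq_mul]
  rw [Finset.sum_eq_single (lev m)]
  · by_cases hm : m = idx (lev m)
    · rw [if_pos hm]
      rw [← hm, Pi.single_eq_same, mul_one]
    · rw [if_neg hm, Pi.single_eq_of_ne hm, mul_zero]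
  · intro i _ hi
    rw [Pi.single_eq_of_ne, mul_zero]
    intro hm
    apply hi
    rw [hm, h.lev_idx]
  · intro hm
    exact absurd (Finset.mem_univ _) hm

theorem IsAd.abv_le (h : IsAd lev x idx a) (l m : Fin g) (hm : lev l < lev m) :
    abv idx a l m = 0 := by
  have hne : m ≠ l := fun e => by
    rw [e] at hm
    exact lt_irrefl _ hm
  by_cases hl : l ∈ Set.range idx
  · rw [IsAd.abv_range hl, Pi.single_eq_of_ne hne]
  · rw [IsAd.abv_not hl, Pi.sub_apply, Pi.single_eq_of_ne hne, zero_sub, neg_eq_zero,
      h.sum_single]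
    split_ifs
    · exact h.low _ _ hm
    · rfl

theorem IsAd.bv_le (h : IsAd lev x idx a) (l m : Fin g) (hm : lev l < lev m) :
    bv idx a l m = 0 := by
  have hne : m ≠ l := fun e => by
    rw [e] at hm
    exact lt_irrefl _ hm
  unfold bv
  by_cases hl : l ∈ Set.range idx
  · rw [if_pos hl, Pi.single_eq_of_ne hne]
  · rw [if_neg hl, Pi.add_apply, Pi.single_eq_of_ne hne, zero_add, h.sum_single]
    split_ifs
    · exact h.low _ _ hm
    · rfl

private theorem lc_single (T : Fin g → Fin g → F) (m : Fin g) :
    ∑ l, (Pi.single m (1 : F) : Fin g → F) l • T l = T m := by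
  rw [Finset.sum_eq_single m]
  · rw [Pi.single_eq_same, one_smul]
  · intro l _ hl
    rw [Pi.single_eq_of_ne hl, zero_smul]
  · intro hm
    exact absurd (Finset.mem_univ _) hm

private theorem lc_comb (T : Fin g → Fin g → F) (m : Fin g) (t : Fin (r + 1) → F) :
    ∑ l, (Pi.single m (1 : F) - ∑ i, t i • Pi.single (idx i) 1 : Fin g → F) l • T l =
      T m - ∑ i, t i • T (idx i) := by
  simp only [Pi.sub_apply, Finset.sum_apply, Pi.smul_apply, sub_smul, Finset.sum_sub_distrib,
    Finset.sum_smul, smul_assoc]
  rw [lc_single, Finset.sum_comm]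
  congr 1
  refine Finset.sum_congr rfl fun i _ => ?_
  rw [← Finset.smul_sum, lc_single]

/-- The adapted basis and the vectors `bv` are inverse to each other. -/
theorem IsAd.bv_inv (m : Fin g) : ∑ l, abv idx a m l • bv idx a l = Pi.single m 1 := by
  by_cases hm : m ∈ Set.range idx
  · rw [IsAd.abv_range hm, lc_single]
    unfold bv
    rw [if_pos hm]
  · rw [IsAd.abv_not hm, lc_comb]
    have h1 : ∀ i, bv idx a (idx i) = Pi.single (idx i) 1 := by
      intro i
      unfold bv
      rw [if_pos ⟨i, rfl⟩]
    simp only [h1]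
    unfold bv
    rw [if_neg hm, add_sub_cancel_right]

/-- **Truncation.** -/
theorem IsAd.exists_trunc [CharZero F] (h : IsAd lev x idx a) {w : ℕ}
    {s s' : (Fin n → Fin g) → F} (hs' : Alt s') (hV : Van lev w s) (hD : InD idx a (s - s'))
    (O : Subring F) (ha : ∀ l i, a l i ∈ O) (hO : ∀ I, s' I ∈ O) :
    ∃ s'' : (Fin n → Fin g) → F, Alt s'' ∧ Van lev w s'' ∧ InD idx a (s - s'') ∧
      ∀ I, s'' I ∈ O := by
  let f : (Fin n → Fin g) → F := fun I =>
    if w ≤ wt lev I then evf s' (fun j => abv idx a (I j)) else 0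
  have hfalt : Alt f := by
    intro σ I
    have h1 : wt lev (I ∘ σ) = wt lev I := Equiv.sum_comp σ fun j => (lev (I j) : ℕ)
    show (if w ≤ wt lev (I ∘ σ) then evf s' (fun j => abv idx a ((I ∘ σ) j)) else 0) =
      _ • if w ≤ wt lev I then evf s' (fun j => abv idx a (I j)) else 0
    rw [h1]
    split_ifs
    · exact evf_perm hs' (fun j => abv idx a (I j)) σ
    · rw [smul_zero]
  have habvO : ∀ l m, abv idx a l m ∈ O := by
    intro l m
    have h1 : ∀ l' m' : Fin g, (Pi.single l' (1 : F) : Fin g → F) m' ∈ O := by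
      intro l' m'
      rw [Pi.single_apply]
      split_ifs
      · exact O.one_mem
      · exact O.zero_mem
    by_cases hl : l ∈ Set.range idx
    · rw [IsAd.abv_range hl]
      exact h1 _ _
    · rw [IsAd.abv_not hl, Pi.sub_apply, Finset.sum_apply]
      exact O.sub_mem (h1 _ _) (O.sum_mem fun i _ => O.mul_mem (ha _ _) (h1 _ _))
  have hbvO : ∀ l m, bv idx a l m ∈ O := by
    intro l m
    have h1 : ∀ l' m' : Fin g, (Pi.single l' (1 : F) : Fin g → F) m' ∈ O := by
      intro l' m'
      rw [Pi.single_apply]
      split_ifs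
      · exact O.one_mem
      · exact O.zero_mem
    unfold bv
    split_ifs
    · exact h1 _ _
    · rw [Pi.add_apply, Finset.sum_apply]
      exact O.add_mem (h1 _ _) (O.sum_mem fun i _ => O.mul_mem (ha _ _) (h1 _ _))
  have hev : ∀ (φ : (Fin n → Fin g) → F) (c : Fin n → Fin g → F), (∀ I, φ I ∈ O) →
      (∀ j l, c j l ∈ O) → evf φ c ∈ O := fun φ c h1 h2 =>
    O.sum_mem fun I _ => O.mul_mem (O.prod_mem fun j _ => h2 _ _) (h1 I)
  have hfO : ∀ I, f I ∈ O := by
    intro I
    show (if w ≤ wt lev I then evf s' (fun j => abv idx a (I j)) else 0) ∈ O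
    split_ifs
    · exact hev _ _ hO fun j l => habvO _ _
    · exact O.zero_mem
  have hval : ∀ I : Fin n → Fin g, evf (sbt (bv idx a) f) (fun j => abv idx a (I j)) = f I := by
    intro I
    rw [evf_sbt]
    simp only [IsAd.bv_inv]
    exact evf_single' f I
  refine ⟨sbt (bv idx a) f, alt_sbt _ hfalt, fun I hI => ?_, fun I hI => ?_, fun I =>
    hev _ _ hfO fun j l => hbvO _ _⟩
  · refine evf_low (w := w) (lev := lev) (lam := fun j => lev (I j)) (fun I' hI' => ?_)
      (fun j l hl => h.bv_le _ _ hl) hI
    show (if w ≤ wt lev I' then _ else 0) = 0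
    rw [if_neg (not_le.2 hI')]
  · rw [evf_sub, hval]
    show _ - (if w ≤ wt lev I then evf s' (fun j => abv idx a (I j)) else 0) = 0
    split_ifs with hw
    · rw [← evf_sub]
      exact hD I hI
    · rw [sub_zero]
      exact evf_low hV (lam := fun j => lev (I j)) (fun j l hl => h.abv_le _ _ hl)
        (not_le.1 hw)

/-- The forms in `(D)` that vanish in weight less than `w` are zero on the kernels in weight
`w`. -/
theorem IsAd.agrL (h : IsAd lev x idx a) {w : ℕ} {φ : (Fin n → Fin g) → F}
    (hV : Van lev w φ) (hD : InD idx a φ) (lam : Fin n → Fin (r + 1))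
    (hlam : ∑ j, (lam j : ℕ) = w) (i : Fin (r + 1)) : AgrL lev x lam i φ 0 := by
  intro c hc hker
  rw [evf_zero]
  let C : Fin n → Fin g → F := fun j l =>
    if l ∈ Set.range idx then (if l = idx (lam j) then pr x (c j) / x (idx (lam j)) else 0)
    else c j l
  have hC : ∀ j l, lam j < lev l → C j l = 0 := by
    intro j l hl
    show (if l ∈ Set.range idx then (if l = idx (lam j) then pr x (c j) / x (idx (lam j)) else 0)
      else c j l) = 0
    split_ifs with h1 h2
    · rw [h2, h.lev_idx] at hl
      exact absurd hl (lt_irrefl _)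
    · rfl
    · exact hc j l hl.ne'
  have hC' : ∀ j, ∀ l, ∑ m, C j m * abv idx a m l = (∑ m, C j m • abv idx a m) l := by
    intro j l
    rw [Finset.sum_apply]
    rfl
  have htop : evf φ c = evf φ fun j => ∑ l, C j l • abv idx a l := by
    refine evf_top hV (lam := lam) (fun j l hl => hc j l hl.ne') (fun j l hl => ?_)
      (fun j l hl => ?_) hlam
    · rw [Finset.sum_apply]
      refine Finset.sum_eq_zero fun m _ => ?_
      rw [Pi.smul_apply, smul_eq_mul]
      by_cases hm : lam j < lev m
      · rw [hC j m hm, zero_mul]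
      · rw [h.abv_le _ _ (lt_of_le_of_lt (not_lt.1 hm) hl), mul_zero]
    · -- the coefficient at a vector of the level `lam j`
      rw [Finset.sum_apply]
      simp only [Pi.smul_apply, smul_eq_mul]
      have key : ∀ m, C j m * abv idx a m l =
          (if m = l then C j m else 0) - (if m ∈ Set.range idx then 0 else
            if l = idx (lam j) then c j m * a m (lam j) else 0) := by
        intro m
        by_cases hm : m ∈ Set.range idx
        · rw [IsAd.abv_range hm, if_pos hm, sub_zero, Pi.single_apply]
          by_cases hml : l = m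
          · rw [if_pos hml, if_pos hml.symm, mul_one]
          · rw [if_neg hml, if_neg (fun e => hml e.symm), mul_zero]
        · rw [IsAd.abv_not hm, if_neg hm, Pi.sub_apply, h.sum_single, hl, mul_sub,
            Pi.single_apply]
          have hCm : C j m = c j m := by
            show (if m ∈ Set.range idx then _ else c j m) = c j m
            rw [if_neg hm]
          congr 1
          · by_cases hml : l = m
            · rw [if_pos hml, if_pos hml.symm, mul_one]
            · rw [if_neg hml, if_neg (fun e => hml e.symm), mul_zero]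
          · rw [hCm]
            split_ifs
            · rfl
            · rw [mul_zero]
      rw [Finset.sum_congr rfl fun m _ => key m, Finset.sum_sub_distrib,
        Finset.sum_ite_eq' Finset.univ, if_pos (Finset.mem_univ _)]
      by_cases hlr : l = idx (lam j)
      · -- `l = idx (lam j)`
        have hx0 : x (idx (lam j)) ≠ 0 := h.x_ne _
        have hCl : C j l = pr x (c j) / x (idx (lam j)) := by
          show (if l ∈ Set.range idx then (if l = idx (lam j) then
            pr x (c j) / x (idx (lam j)) else 0) else c j l) = _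
          rw [if_pos ⟨_, hlr.symm⟩, if_pos hlr]
        rw [hCl]
        simp only [if_pos hlr]
        rw [eq_sub_iff_add_eq, eq_div_iff hx0, add_mul, Finset.sum_mul, pr]
        have h2 : ∀ m, (if m ∈ Set.range idx then (0 : F) else c j m * a m (lam j)) *
            x (idx (lam j)) = x m * c j m - if m = l then c j l * x (idx (lam j)) else 0 := by
          intro m
          by_cases hlm : lev m = lam j
          · by_cases hm : m ∈ Set.range idx
            · obtain ⟨t, rfl⟩ := hm
              rw [h.lev_idx] at hlm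
              rw [if_pos ⟨t, rfl⟩, zero_mul, hlm, ← hlr, if_pos rfl]
              ring
            · have hml : m ≠ l := fun e => hm (by rw [e, hlr]; exact ⟨_, rfl⟩)
              rw [if_neg hm, if_neg hml, sub_zero]
              have h3 := h.top m
              rw [hlm] at h3
              rw [mul_assoc, h3, mul_comm]
          · have hml : m ≠ l := fun e => hlm (by rw [e, hl])
            rw [if_neg hml, hc j m hlm]
            split_ifs <;> ring
        rw [Finset.sum_congr rfl fun m _ => h2 m, Finset.sum_sub_distrib,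
          Finset.sum_ite_eq' Finset.univ, if_pos (Finset.mem_univ _)]
        ring
      · simp only [if_neg hlr, ite_self, Finset.sum_const_zero, sub_zero]
        have hlr' : l ∉ Set.range idx := by
          rintro ⟨t, rfl⟩
          rw [h.lev_idx] at hl
          exact hlr (by rw [hl])
        show c j l = if l ∈ Set.range idx then _ else c j l
        rw [if_neg hlr']
  rw [htop, ← evf_sbt]
  unfold evf
  refine Finset.sum_eq_zero fun I _ => ?_
  by_cases hI : ∃ j, I j = idx i
  · obtain ⟨j, hj⟩ := hI
    have h0 : C j (I j) = 0 := by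
      show (if I j ∈ Set.range idx then (if I j = idx (lam j) then
        pr x (c j) / x (idx (lam j)) else 0) else c j (I j)) = 0
      rw [if_pos ⟨i, hj.symm⟩]
      split_ifs with h1
      · have h2 : i = lam j := h.inj (by rw [← hj, h1])
        rw [hker j h2.symm, zero_div]
      · rfl
    rw [Finset.prod_eq_zero (Finset.mem_univ j) h0, zero_mul]
  · push Not at hI
    have h1 := hD I ⟨i, hI⟩
    show _ * evf φ (fun j => abv idx a (I j)) = 0
    rw [h1, mul_zero]

/-- **Lift.** -/
theorem IsAd.exists_lift (h : IsAd lev x idx a) {w : ℕ} {ρ : (Fin n → Fin g) → F} (hρ : Alt ρ)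
    (hV : Van lev w ρ)
    (hA : ∀ lam : Fin n → Fin (r + 1), ∑ j, (lam j : ℕ) = w → ∀ i, AgrL lev x lam i ρ 0) :
    ∃ ψ : (Fin n → Fin g) → F, Alt ψ ∧ InD idx a ψ ∧ Van lev (w + 1) (ρ - ψ) := by
  -- the part of weight `w`
  let ρw : (Fin n → Fin g) → F := fun I => if wt lev I = w then ρ I else 0
  have hρw : Alt ρw := by
    intro σ I
    have h1 : wt lev (I ∘ σ) = wt lev I := Equiv.sum_comp σ fun j => (lev (I j) : ℕ)
    show (if wt lev (I ∘ σ) = w then ρ (I ∘ σ) else 0) = _ • if wt lev I = w then ρ I else 0
    rw [h1, hρ σ I]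
    split_ifs
    · rfl
    · rw [smul_zero]
  let tv : Fin g → Fin g → F := fun l =>
    Pi.single l 1 + ∑ i, (if i = lev l then 0 else a l i) • Pi.single (idx i) 1
  have htv : ∀ l m, tv l m = (if m = l then 1 else 0) +
      if m = idx (lev m) then (if lev m = lev l then 0 else a l (lev m)) else 0 := by
    intro l m
    show (Pi.single l (1 : F) + ∑ i, (if i = lev l then 0 else a l i) •
      Pi.single (idx i) (1 : F) : Fin g → F) m = _
    rw [Pi.add_apply, h.sum_single, Pi.single_apply]
  have htv_le : ∀ l m, lev l < lev m → tv l m = 0 := by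
    intro l m hm
    rw [htv, if_neg (fun e => by rw [e] at hm; exact lt_irrefl _ hm), zero_add,
      if_neg hm.ne', h.low _ _ hm, ite_self]
  have htv_top : ∀ l m, lev m = lev l → tv l m = (Pi.single l (1 : F) : Fin g → F) m := by
    intro l m hm
    rw [htv, if_pos hm, ite_self, add_zero, Pi.single_apply]
  have hVw : Van lev w ρw := by
    intro I hI
    show (if wt lev I = w then ρ I else 0) = 0
    rw [if_neg hI.ne]
  have htvi : ∀ i, tv (idx i) = Pi.single (idx i) 1 := by
    intro i
    funext m
    rw [htv, h.lev_idx, h.a_idx, Pi.single_apply, Pi.single_apply]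
    by_cases h1 : m = idx (lev m)
    · rw [if_pos h1]
      by_cases h2 : lev m = i
      · rw [if_pos h2, add_zero]
      · rw [if_neg h2, if_neg h2, add_zero]
    · rw [if_neg h1, add_zero]
  -- the leading vectors
  let ld : Fin g → Fin g → F := fun l =>
    if l ∈ Set.range idx then Pi.single l 1 else
      Pi.single l 1 - a l (lev l) • Pi.single (idx (lev l)) 1
  have hld : ∀ l, ∑ m, abv idx a l m • tv m = ld l := by
    intro l
    by_cases hl : l ∈ Set.range idx
    · rw [IsAd.abv_range hl, lc_single]
      show tv l = if l ∈ Set.range idx then _ else _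
      rw [if_pos hl]
      obtain ⟨i, rfl⟩ := hl
      exact htvi i
    · rw [IsAd.abv_not hl, lc_comb]
      show _ = if l ∈ Set.range idx then _ else _
      rw [if_neg hl]
      simp only [htvi]
      show (Pi.single l 1 + ∑ i, (if i = lev l then 0 else a l i) • Pi.single (idx i) 1) -
        ∑ i, a l i • Pi.single (idx i) 1 = _
      rw [add_sub_assoc, ← Finset.sum_sub_distrib]
      conv_rhs => rw [sub_eq_add_neg]
      congr 1
      rw [Finset.sum_eq_single (lev l)]
      · rw [if_pos rfl, zero_smul, zero_sub]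
      · intro i _ hi
        rw [if_neg hi, sub_self]
      · intro hm
        exact absurd (Finset.mem_univ _) hm
  have hld0 : ∀ l m, lev m ≠ lev l → ld l m = 0 := by
    intro l m hm
    have hml : m ≠ l := fun e => hm (by rw [e])
    show (if l ∈ Set.range idx then _ else _ : Fin g → F) m = 0
    split_ifs
    · rw [Pi.single_eq_of_ne hml]
    · rw [Pi.sub_apply, Pi.smul_apply, Pi.single_eq_of_ne hml, Pi.single_eq_of_ne, smul_zero,
        sub_zero]
      intro e
      exact hm (by rw [e, h.lev_idx])
  have hldk : ∀ l, l ∉ Set.range idx → pr x (ld l) = 0 := by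
    intro l hl
    have h1 : ld l = Pi.single l 1 - a l (lev l) • Pi.single (idx (lev l)) 1 := by
      show (if l ∈ Set.range idx then _ else _) = _
      rw [if_neg hl]
    rw [h1, pr]
    simp only [Pi.sub_apply, Pi.smul_apply, Pi.single_apply, smul_eq_mul, mul_sub, mul_ite,
      mul_one, mul_zero, Finset.sum_sub_distrib, Finset.sum_ite_eq', Finset.mem_univ, if_true]
    rw [mul_comm (x (idx (lev l))), h.top, sub_self]
  refine ⟨sbt tv ρw, alt_sbt _ hρw, fun I hI => ?_, fun I hI => ?_⟩
  · rw [evf_sbt]
    simp only [hld]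
    by_cases hw : wt lev I = w
    · obtain ⟨i, hi⟩ := hI
      have h1 : evf ρw (fun j => ld (I j)) = evf ρ (fun j => ld (I j)) := by
        unfold evf
        refine Finset.sum_congr rfl fun I' _ => ?_
        by_cases h2 : ∃ j, lev (I' j) ≠ lev (I j)
        · obtain ⟨j, hj⟩ := h2
          rw [Finset.prod_eq_zero (Finset.mem_univ j) (hld0 _ _ hj), zero_mul, zero_mul]
        · push Not at h2
          congr 1
          show (if wt lev I' = w then ρ I' else 0) = _
          rw [if_pos]
          rw [← hw]
          exact Finset.sum_congr rfl fun j _ => by rw [h2 j]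
      have h3 := hA (fun j => lev (I j)) hw i (fun j => ld (I j)) (fun j l hl => hld0 _ _ hl)
        (fun j hj => hldk _ (by
          rintro ⟨t, ht⟩
          have h4 : lev (I j) = t := by rw [← ht, h.lev_idx]
          apply hi j
          rw [← ht, ← h4]
          exact congrArg idx hj))
      rw [h1, h3, evf_zero]
    · unfold evf
      refine Finset.sum_eq_zero fun I' _ => ?_
      by_cases h2 : ∃ j, lev (I' j) ≠ lev (I j)
      · obtain ⟨j, hj⟩ := h2
        rw [Finset.prod_eq_zero (Finset.mem_univ j) (hld0 _ _ hj), zero_mul]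
      · push Not at h2
        have h3 : ρw I' = 0 := by
          show (if wt lev I' = w then ρ I' else 0) = 0
          rw [if_neg]
          rw [show wt lev I' = wt lev I from Finset.sum_congr rfl fun j _ => by rw [h2 j]]
          exact hw
        rw [h3, mul_zero]
  · rw [Pi.sub_apply, sub_eq_zero]
    rcases Nat.lt_succ_iff_lt_or_eq.1 hI with h1 | h1
    · rw [hV I h1]
      symm
      exact evf_low hVw (lam := fun j => lev (I j)) (fun j l hl => htv_le _ _ hl) h1
    · symm
      show evf ρw (fun j => tv (I j)) = ρ I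
      rw [evf_top hVw (c' := fun j => Pi.single (I j) 1) (lam := fun j => lev (I j))
        (fun j l hl => htv_le _ _ hl) (fun j l hl => ?_) (fun j l hl => htv_top _ _ hl) h1,
        evf_single']
      · show (if wt lev I = w then ρ I else 0) = ρ I
        rw [if_pos h1]
      · rw [Pi.single_eq_of_ne]
        intro e
        rw [e] at hl
        exact lt_irrefl _ hl

end

section

variable {k F : Type} [Field k] [CharZero k] [Field F] [Algebra k F] {g r n : ℕ}
  {lev : Fin g → Fin (r + 1)} {x : Fin g → F}

/-- **Average.** -/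
theorem exists_avg {w : ℕ} {s : (Fin n → Fin g) → F} (hs : Alt s)
    (h : ∀ lam : Fin n → Fin (r + 1), ∑ j, (lam j : ℕ) = w → ∃ s₀ : (Fin n → Fin g) → k,
      ∀ i, AgrL lev x lam i s fun I => algebraMap k F (s₀ I)) :
    ∃ s₀ : (Fin n → Fin g) → k, Alt s₀ ∧ Van lev w (fun I => algebraMap k F (s₀ I)) ∧
      ∀ lam : Fin n → Fin (r + 1), ∑ j, (lam j : ℕ) = w → ∀ i,
        AgrL lev x lam i s fun I => algebraMap k F (s₀ I) := by
  choose! t ht using h
  let S : (Fin n → Fin g) → k := fun I => if wt lev I = w then t (fun j => lev (I j)) I else 0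
  have hfac : (n.factorial : k) ≠ 0 := Nat.cast_ne_zero.2 n.factorial_ne_zero
  have hfacF : algebraMap k F (n.factorial : k) ≠ 0 := (map_ne_zero _).2 hfac
  refine ⟨fun I => (n.factorial : k)⁻¹ * altz S I, alt_mul (altz_alt S) _, fun I hI => ?_,
    fun lam hlam i c hc hker => ?_⟩
  · have h1 : altz S I = 0 := by
      unfold altz
      refine Finset.sum_eq_zero fun σ _ => ?_
      have h2 : wt lev (I ∘ σ) = wt lev I := Equiv.sum_comp σ fun j => (lev (I j) : ℕ)
      show _ • (if wt lev (I ∘ σ) = w then t (fun j => lev ((I ∘ σ) j)) (I ∘ σ) else 0) = 0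
      rw [h2, if_neg hI.ne, smul_zero]
    show algebraMap k F ((n.factorial : k)⁻¹ * altz S I) = 0
    rw [h1, mul_zero, map_zero]
  · -- the value of the average
    have h1 : ∀ σ : Equiv.Perm (Fin n), evf (fun I => algebraMap k F (S (I ∘ σ))) c =
        ((Equiv.Perm.sign σ : ℤˣ) : ℤ) • evf s c := by
      intro σ
      have h2 : evf (fun I => algebraMap k F (S (I ∘ σ))) c =
          evf (fun I => algebraMap k F (t (lam ∘ σ) I)) (c ∘ σ) := by
        unfold evf
        symm
        rw [← (Equiv.arrowCongr σ.symm (Equiv.refl (Fin g))).sum_comp]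
        refine Finset.sum_congr rfl fun I _ => ?_
        symm
        have e1 : (Equiv.arrowCongr σ.symm (Equiv.refl (Fin g))) I = I ∘ σ := by
          funext j
          rfl
        rw [e1]
        have e2 : ∏ j, (c ∘ σ) j ((I ∘ σ) j) = ∏ j, c j (I j) :=
          Equiv.prod_comp σ fun j => c j (I j)
        rw [e2]
        by_cases h3 : ∃ j, lev (I j) ≠ lam j
        · obtain ⟨j, hj⟩ := h3
          rw [Finset.prod_eq_zero (Finset.mem_univ j) (hc j _ hj), zero_mul, zero_mul]
        · push Not at h3
          congr 1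
          show algebraMap k F (if wt lev (I ∘ σ) = w then
            t (fun j => lev ((I ∘ σ) j)) (I ∘ σ) else 0) =
              algebraMap k F (t (lam ∘ σ) (I ∘ σ))
          have e3 : (fun j => lev ((I ∘ σ) j)) = lam ∘ σ := by
            funext j
            exact h3 (σ j)
          rw [e3, if_pos]
          show ∑ j, (lev ((I ∘ σ) j) : ℕ) = w
          rw [← hlam]
          refine (Equiv.sum_comp σ fun j => (lev (I j) : ℕ)).trans ?_
          exact Finset.sum_congr rfl fun j _ => by rw [h3 j]
      rw [h2]
      have hlamσ : ∑ j, ((lam ∘ σ) j : ℕ) = w := by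
        rw [← hlam]
        exact Equiv.sum_comp σ fun j => (lam j : ℕ)
      rw [← ht (lam ∘ σ) hlamσ i (c ∘ σ) (fun j l hl => hc _ _ hl) (fun j hj => hker _ hj)]
      exact evf_perm hs c σ
    have h2 : evf (fun I => algebraMap k F ((n.factorial : k)⁻¹ * altz S I)) c =
        algebraMap k F (n.factorial : k)⁻¹ * ∑ σ : Equiv.Perm (Fin n),
          ((Equiv.Perm.sign σ : ℤˣ) : ℤ) • evf (fun I => algebraMap k F (S (I ∘ σ))) c := by
      unfold evf altz
      simp only [Finset.smul_sum, Finset.mul_sum, map_mul, map_sum, map_zsmul]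
      rw [Finset.sum_comm]
      refine Finset.sum_congr rfl fun σ _ => Finset.sum_congr rfl fun I _ => ?_
      rw [mul_smul_comm, mul_smul_comm, mul_smul_comm]
      ring_nf
    rw [h2, Finset.sum_congr rfl fun σ _ => by rw [h1 σ, smul_smul, Int.units_coe_mul_self,
      one_smul], Finset.sum_const, Finset.card_univ, Fintype.card_perm, Fintype.card_fin,
      nsmul_eq_mul, ← mul_assoc]
    have h3 : algebraMap k F (n.factorial : k)⁻¹ * (n.factorial : F) = 1 := by
      rw [map_inv₀, ← map_natCast (algebraMap k F)]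
      exact inv_mul_cancel₀ hfacF
    rw [h3, one_mul]

end

end Pool.Agent.MPd118f9
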